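import Pool.Agent.Helper859.VG.Lim

set_option autoImplicit false
open Finset Filter Topology

namespace VG

lemma AN_cont {c : ℝ} {f : ℂ → ℂ} (h : AN c f) : ContinuousOn f (Metric.closedBall 0 1) := by
  obtain ⟨k, hk, -, hf⟩ := h
  have h1 : ContinuousOn (fun z : ℂ => ∑' m, k m * z ^ m) (Metric.closedBall 0 1) := by
    apply continuousOn_tsum (u := fun m => ‖k m‖) (fun m => by fun_prop) hk
    intro m z hz
    have hz' : ‖z‖ ≤ 1 := by simpa using hz
    rw [norm_mul, norm_pow]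
    calc _ ≤ ‖k m‖ * 1 := by gcongr; exact pow_le_one₀ (norm_nonneg _) hz'
      _ = _ := mul_one _
  exact h1.congr fun z hz => hf z (by simpa using hz)

lemma AN_diff {c : ℝ} {f : ℂ → ℂ} (h : AN c f) : DifferentiableOn ℂ f (Metric.ball 0 1) := by
  obtain ⟨k, hk, -, hf⟩ := h
  have h1 : DifferentiableOn ℂ (fun z : ℂ => ∑' m, k m * z ^ m) (Metric.ball 0 1) := by
    apply Complex.differentiableOn_tsum_of_summable_norm (u := fun m => ‖k m‖) hk
      (fun m => ((differentiable_const _).mul (differentiable_pow m)).differentiableOn) Metric.isOpen_ball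
    intro m z hz
    have hz' : ‖z‖ ≤ 1 := by have : ‖z‖ < 1 := by simpa using hz
                             exact this.le
    rw [norm_mul, norm_pow]
    calc _ ≤ ‖k m‖ * 1 := by gcongr; exact pow_le_one₀ (norm_nonneg _) hz'
      _ = _ := mul_one _
  exact h1.congr fun z hz => hf z (by have : ‖z‖ < 1 := by simpa using hz
                                      exact this.le)

/-- the limit of the finite stages -/
theorem lim_exists (P : ℕ → ℂ → ℂ) (hu : ∀ j, ContinuousOn (P j) (Metric.closedBall 0 1))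
    (hd : ∀ j, DifferentiableOn ℂ (P j) (Metric.ball 0 1)) (h1 : ∀ j z, ‖z‖ ≤ 1 → ‖P j z‖ ≤ 1)
    (h2 : ∀ j z, ‖z‖ = 1 → ‖P j z‖ = 1)
    (h3 : ∀ j z, ‖z‖ = 1 → ‖(1 - z) * (P (j + 1) z - P j z)‖ ≤ 5 * (1 / 2) ^ j) :
    ∃ F : ℂ → ℂ, DifferentiableOn ℂ F (Metric.ball 0 1) ∧ (∀ z : ℂ, ‖z‖ ≤ 1 → z ≠ 1 → ‖F z‖ ≤ 1) ∧
      (∀ z : ℂ, ‖z‖ = 1 → z ≠ 1 → ‖F z‖ = 1) ∧
      (∀ z : ℂ, ‖z‖ ≤ 1 → z ≠ 1 → Tendsto (fun J => P J z) atTop (𝓝 (F z))) ∧
      (∀ z : ℂ, ‖z‖ = 1 → z ≠ 1 → Tendsto (fun r : ℝ => F ((r : ℂ) * z)) (𝓝[<] 1) (𝓝 (F z))) := by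
  classical
  have h3' : ∀ j z, ‖z‖ ≤ 1 → ‖(1 - z) * (P (j + 1) z - P j z)‖ ≤ 5 * (1 / 2) ^ j := by
    intro j z hz
    have hcl : z ∈ closure (Metric.ball (0 : ℂ) 1) := by
      rw [closure_ball (0 : ℂ) one_ne_zero]
      exact mem_closedBall_zero_iff.2 hz
    refine Complex.norm_le_of_forall_mem_frontier_norm_le (f := fun z => (1 - z) * (P (j + 1) z - P j z))
      Metric.isBounded_ball ?_ ?_ hcl
    · refine ⟨?_, ?_⟩
      · apply DifferentiableOn.mul (by fun_prop)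
        exact (hd (j + 1)).sub (hd j)
      · rw [closure_ball (0 : ℂ) one_ne_zero]
        apply ContinuousOn.mul (by fun_prop)
        exact (hu (j + 1)).sub (hu j)
    · intro w hw
      rw [frontier_ball (0 : ℂ) one_ne_zero] at hw
      exact h3 j w (mem_sphere_zero_iff_norm.1 hw)
  obtain ⟨F, hF⟩ : ∃ F : ℂ → ℂ, F = fun z => P 0 z + ∑' J, (P (J + 1) z - P J z) := ⟨_, rfl⟩
  obtain ⟨U, hU⟩ : ∃ U : ℝ → Set ℂ, U = fun s => {z : ℂ | ‖z‖ ≤ 1 ∧ s ≤ ‖1 - z‖} := ⟨_, rfl⟩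
  have hunif : ∀ s : ℝ, 0 < s → TendstoUniformlyOn P F atTop (U s) := by
    intro s hs
    have hb : ∀ (J : ℕ) (z : ℂ), z ∈ U s → ‖P (J + 1) z - P J z‖ ≤ 5 * (1 / 2) ^ J / s := by
      intro J z hz
      rw [hU] at hz
      obtain ⟨hz1, hz2⟩ := hz
      have h4 := h3' J z hz1
      rw [norm_mul] at h4
      rw [le_div_iff₀ hs]
      calc ‖P (J + 1) z - P J z‖ * s ≤ ‖P (J + 1) z - P J z‖ * ‖1 - z‖ := by gcongr
        _ = ‖1 - z‖ * ‖P (J + 1) z - P J z‖ := by ring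
        _ ≤ _ := h4
    have hsum : Summable (fun J : ℕ => 5 * ((1 : ℝ) / 2) ^ J / s) :=
      ((summable_geometric_two).mul_left 5).div_const s
    have h7 := tendstoUniformlyOn_tsum_nat hsum hb
    have h8 : ∀ (N : ℕ) (z : ℂ), P N z = P 0 z + ∑ J ∈ range N, (P (J + 1) z - P J z) := by
      intro N z
      rw [Finset.sum_range_sub (fun J => P J z)]
      ring
    rw [Metric.tendstoUniformlyOn_iff] at h7 ⊢
    intro ε hε
    filter_upwards [h7 ε hε] with N hN z hz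
    have := hN z hz
    rw [hF]
    simp only
    rw [h8 N z, dist_add_left]
    exact this
  have hball : ∀ r : ℝ, r < 1 → Metric.closedBall (0 : ℂ) r ⊆ U (1 - r) := by
    intro r hr z hz
    rw [hU]
    rw [mem_closedBall_zero_iff] at hz
    refine ⟨by linarith, ?_⟩
    have : ‖(1 : ℂ)‖ - ‖z‖ ≤ ‖1 - z‖ := norm_sub_norm_le _ _
    rw [norm_one] at this
    linarith
  have hunif2 : ∀ r : ℝ, r < 1 → TendstoUniformlyOn P F atTop (Metric.closedBall 0 r) := by
    intro r hr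
    exact (hunif (1 - r) (by linarith)).mono (hball r hr)
  have hpt : ∀ z : ℂ, ‖z‖ ≤ 1 → z ≠ 1 → Tendsto (fun J => P J z) atTop (𝓝 (F z)) := by
    intro z hz hz1
    have hpos : 0 < ‖1 - z‖ := by
      rw [norm_pos_iff]
      exact sub_ne_zero.mpr (Ne.symm hz1)
    refine (hunif ‖1 - z‖ hpos).tendsto_at ?_
    rw [hU]
    exact ⟨hz, le_refl _⟩
  refine ⟨F, ?_, ?_, ?_, hpt, ?_⟩
  · have hloc : TendstoLocallyUniformlyOn P F atTop (Metric.ball 0 1) := by
      intro v hv x hx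
      rw [mem_ball_zero_iff] at hx
      refine ⟨Metric.closedBall 0 ((1 + ‖x‖) / 2), ?_, ?_⟩
      · refine mem_nhdsWithin_of_mem_nhds ?_
        refine Metric.closedBall_mem_nhds_of_mem ?_
        rw [mem_ball_zero_iff]
        linarith
      · exact hunif2 ((1 + ‖x‖) / 2) (by linarith) v hv
    exact hloc.differentiableOn (Eventually.of_forall hd) Metric.isOpen_ball
  · intro z hz hz1
    exact le_of_tendsto (hpt z hz hz1).norm (Eventually.of_forall (fun J => h1 J z hz))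
  · intro z hz hz1
    have := (hpt z hz.le hz1).norm
    refine tendsto_nhds_unique this ?_
    refine tendsto_const_nhds.congr' ?_
    exact Eventually.of_forall (fun J => (h2 J z hz).symm)
  · intro e hen hθ
    have hpos : 0 < ‖1 - e‖ := by
      rw [norm_pos_iff]
      exact sub_ne_zero.mpr (Ne.symm hθ)
    have hcont : ContinuousOn F (U (‖1 - e‖ / 2)) := by
      refine (hunif (‖1 - e‖ / 2) (by linarith)).continuousOn ?_
      refine (Eventually.of_forall (fun J => ?_)).frequently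
      refine (hu J).mono ?_
      intro z hz
      rw [hU] at hz
      rw [mem_closedBall_zero_iff]
      exact hz.1
    have hmem : e ∈ U (‖1 - e‖ / 2) := by
      rw [hU]
      exact ⟨hen.le, by linarith⟩
    have hcw := hcont e hmem
    have hpath : Tendsto (fun r : ℝ => (r : ℂ) * e) (nhdsWithin (1 : ℝ) (Set.Iio 1)) (𝓝 e) := by
      have : Continuous (fun r : ℝ => (r : ℂ) * e) := by fun_prop
      have h12 := this.tendsto (1 : ℝ)
      simp only [Complex.ofReal_one, one_mul] at h12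
      exact h12.mono_left nhdsWithin_le_nhds
    refine hcw.tendsto.comp ?_
    rw [tendsto_nhdsWithin_iff]
    refine ⟨hpath, ?_⟩
    have h13 : ∀ᶠ r : ℝ in nhdsWithin (1 : ℝ) (Set.Iio 1), ‖1 - e‖ / 2 < ‖1 - (r : ℂ) * e‖ := by
      have h14 : Tendsto (fun r : ℝ => ‖1 - (r : ℂ) * e‖) (nhdsWithin (1 : ℝ) (Set.Iio 1))
          (𝓝 ‖1 - e‖) := (tendsto_const_nhds.sub hpath).norm
      exact h14.eventually_const_lt (by linarith)
    have h15 : ∀ᶠ r : ℝ in nhdsWithin (1 : ℝ) (Set.Iio 1), (0 : ℝ) < r := by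
      refine mem_nhdsWithin_of_mem_nhds ?_
      exact lt_mem_nhds one_pos
    filter_upwards [h13, h15, self_mem_nhdsWithin] with r hr1 hr2 hr3
    rw [hU]
    refine ⟨?_, hr1.le⟩
    rw [norm_mul, hen, mul_one, Complex.norm_real, Real.norm_eq_abs, abs_of_pos hr2]
    exact (Set.mem_Iio.mp hr3).le

/-- the singular inner function -/
noncomputable def sing (z : ℂ) : ℂ := Complex.exp (-((1 + z) / (1 - z)))

lemma cay_re_nonneg {z : ℂ} (hz : ‖z‖ ≤ 1) : 0 ≤ ((1 + z) / (1 - z)).re := by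
  rw [Complex.div_re]
  have h1 : (1 + z).re * (1 - z).re + (1 + z).im * (1 - z).im = 1 - ‖z‖ ^ 2 := by
    rw [← Complex.normSq_eq_norm_sq, Complex.normSq_apply]
    simp only [Complex.add_re, Complex.one_re, Complex.sub_re, Complex.add_im, Complex.one_im, Complex.sub_im]
    ring
  rw [← add_div, h1]
  apply div_nonneg _ (Complex.normSq_nonneg _)
  nlinarith [norm_nonneg z]

lemma norm_sing_le {z : ℂ} (hz : ‖z‖ ≤ 1) : ‖sing z‖ ≤ 1 := by
  unfold sing
  rw [Complex.norm_exp, Complex.neg_re]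
  apply Real.exp_le_one_iff.2
  linarith [cay_re_nonneg hz]

lemma norm_sing_eq {z : ℂ} (hz : ‖z‖ = 1) : ‖sing z‖ = 1 := by
  unfold sing
  rw [Complex.norm_exp, Complex.neg_re, cay_re hz]
  simp

lemma sing_cont {z : ℂ} (hz : z ≠ 1) : ContinuousAt sing z := by
  unfold sing
  have : (1 : ℂ) - z ≠ 0 := sub_ne_zero.2 (Ne.symm hz)
  fun_prop (disch := assumption)

lemma sing_diff : DifferentiableOn ℂ sing (Metric.ball 0 1) := by
  intro z hz
  have hz1 : z ≠ 1 := by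
    rintro rfl
    rw [mem_ball_zero_iff, norm_one] at hz
    exact lt_irrefl _ hz
  have : (1 : ℂ) - z ≠ 0 := sub_ne_zero.2 (Ne.symm hz1)
  unfold sing
  apply DifferentiableAt.differentiableWithinAt
  fun_prop (disch := assumption)

theorem main : ∃ (G B : ℂ → ℂ) (K : ℝ), 0 ≤ K ∧ DifferentiableOn ℂ G (Metric.ball 0 1) ∧
    DifferentiableOn ℂ B (Metric.ball 0 1) ∧ (∀ z ∈ Metric.ball (0 : ℂ) 1, ‖G z‖ ≤ 1) ∧
    (∀ z ∈ Metric.ball (0 : ℂ) 1, ‖B z‖ ≤ 1) ∧ (∀ z ∈ Metric.ball (0 : ℂ) 1, G z = sing z * B z) ∧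
    (∀ᵐ θ : ℝ ∂MeasureTheory.volume, ∃ w : ℂ, ‖w‖ = 1 ∧
        Filter.Tendsto (fun r : ℝ => G ((r : ℂ) * Complex.exp ((θ : ℂ) * Complex.I))) (𝓝[<] 1) (𝓝 w)) ∧
    (∀ᵐ θ : ℝ ∂MeasureTheory.volume, ∃ w : ℂ, ‖w‖ = 1 ∧
        Filter.Tendsto (fun r : ℝ => B ((r : ℂ) * Complex.exp ((θ : ℂ) * Complex.I))) (𝓝[<] 1) (𝓝 w)) ∧
    ∀ (a : ℤ →₀ ℂ) (s : Finset ℤ),
      ∑ n ∈ s, ‖∑ m ∈ a.support, cf G (n - m) * a m‖ ^ 4 ≤ K ^ 4 * ∑ m ∈ a.support, ‖a m‖ ^ 4 := by
  obtain ⟨K, P, α, hK, hAN, hle, hun, hα0, hαJ, hdiff, hMB⟩ := rec_exists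
  obtain ⟨B, hB1, hB2, hB3, hB4, hB5⟩ := lim_exists P (fun j => by obtain ⟨c, hc⟩ := hAN j; exact AN_cont hc)
    (fun j => by obtain ⟨c, hc⟩ := hAN j; exact AN_diff hc) hle hun hdiff
  have hne1 : ∀ z ∈ Metric.ball (0 : ℂ) 1, ‖z‖ ≤ 1 ∧ z ≠ 1 := by
    intro z hz
    rw [mem_ball_zero_iff] at hz
    refine ⟨hz.le, ?_⟩
    rintro rfl
    rw [norm_one] at hz
    exact lt_irrefl _ hz
  have hrad : ∀ z : ℂ, ‖z‖ = 1 → z ≠ 1 → Tendsto (fun r : ℝ => sing ((r : ℂ) * z) * B ((r : ℂ) * z)) (𝓝[<] 1)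
      (𝓝 (sing z * B z)) := by
    intro z hz hz1
    refine Tendsto.mul ?_ (hB5 z hz hz1)
    have hpath : Tendsto (fun r : ℝ => (r : ℂ) * z) (nhdsWithin (1 : ℝ) (Set.Iio 1)) (𝓝 z) := by
      have : Continuous (fun r : ℝ => (r : ℂ) * z) := by fun_prop
      have h12 := this.tendsto (1 : ℝ)
      simp only [Complex.ofReal_one, one_mul] at h12
      exact h12.mono_left nhdsWithin_le_nhds
    exact (sing_cont hz1).tendsto.comp hpath
  have hle1 : ∀ z ∈ Metric.ball (0 : ℂ) 1, ‖sing z * B z‖ ≤ 1 := by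
    intro z hz
    rw [norm_mul]
    exact mul_le_one₀ (norm_sing_le (hne1 z hz).1) (norm_nonneg _) (hB2 z (hne1 z hz).1 (hne1 z hz).2)
  refine ⟨fun z => sing z * B z, B, K, hK, sing_diff.mul hB1, hB1, hle1, fun z hz => hB2 z (hne1 z hz).1 (hne1 z hz).2,
    fun z _ => rfl, ?_, ?_, ?_⟩
  · filter_upwards [ae_ne_one] with θ hθ
    have hn := Complex.norm_exp_ofReal_mul_I θ
    refine ⟨_, ?_, hrad _ hn hθ⟩
    rw [norm_mul, norm_sing_eq hn, hB3 _ hn hθ, one_mul]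
  · filter_upwards [ae_ne_one] with θ hθ
    have hn := Complex.norm_exp_ofReal_mul_I θ
    exact ⟨_, hB3 _ hn hθ, hB5 _ hn hθ⟩
  · intro a s
    -- Fourier data of the stages
    have hT : ∀ m : ℕ, ∃ c, TN 0 c (fun z => P (2 * m) z * tau (α (2 * m)) z) := by
      intro m
      obtain ⟨c, hc⟩ := hAN (2 * m)
      obtain ⟨c', hc'⟩ := TN_tau (α (2 * m)) (hα0 _) 0
      exact ⟨_, TN_mul (TN_of_AN hc) hc'⟩
    choose c hc using hT
    choose k hk1 hk2 hk3 using hc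
    have hk : ∀ m, Summable fun n => ‖k m n‖ := by
      intro m
      refine (hk1 m).congr fun n => ?_
      rw [pow_zero, mul_one]
    have hlimk := fun n => coef_limit (P := fun m z => P (2 * m) z * tau (α (2 * m)) z) (k := k) hk
      (fun m z hz => hk3 m z hz)
      (fun m z hz => by
        rw [norm_mul, norm_tau _ hz, mul_one]; exact hle _ z hz.le)
      (G := fun z => sing z * B z) (sing_diff.mul hB1) hle1
      (fun z hz hz1 => by
        have h2m : Tendsto (fun m : ℕ => 2 * m) atTop atTop :=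
          tendsto_id.const_mul_atTop' (by norm_num)
        have e1 : Tendsto (fun m : ℕ => P (2 * m) z) atTop (𝓝 (B z)) := (hB4 z hz.le hz1).comp h2m
        have e2 : Tendsto (fun m : ℕ => tau (α (2 * m)) z) atTop (𝓝 (sing z)) := by
          have hpos : 0 < ‖1 - z‖ := by
            rw [norm_pos_iff]
            exact sub_ne_zero.mpr (Ne.symm hz1)
          have e3 : Tendsto (fun m : ℕ => (1 / 2 : ℝ) ^ (2 * m)) atTop (𝓝 0) :=
            (tendsto_pow_atTop_nhds_zero_of_lt_one (by norm_num) (by norm_num)).comp h2m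
          refine tendsto_const_nhds.congr' ?_
          filter_upwards [e3.eventually_lt_const hpos] with m hm
          unfold tau sing
          rw [cut_zero (hα0 _) ((hαJ _).trans hm.le)]
          simp
        have := e2.mul e1
        refine this.congr fun m => ?_
        ring)
      (fun z hz hz1 => hrad z hz hz1) n
    have hfin : ∀ m : ℕ, ∑ n ∈ s, ‖∑ j ∈ a.support, k m (n - j) * a j‖ ^ 4 ≤ K ^ 4 * ∑ j ∈ a.support, ‖a j‖ ^ 4 := by
      intro m
      obtain ⟨l, hl, hl'⟩ := hMB m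
      exact transfer2 K hK (k m) (hk m) (fun z => P (2 * m) z * tau (α (2 * m)) z) (hk3 m) l hl
        (fun N _ hN => hl' N hN) a s
    have hT : Tendsto (fun m : ℕ => ∑ n ∈ s, ‖∑ j ∈ a.support, k m (n - j) * a j‖ ^ 4) atTop
        (𝓝 (∑ n ∈ s, ‖∑ j ∈ a.support, cf (fun z => sing z * B z) (n - j) * a j‖ ^ 4)) := by
      apply tendsto_finsetSum
      intro n _
      apply Tendsto.pow
      apply Tendsto.norm
      apply tendsto_finsetSum
      intro j _
      exact (hlimk (n - j)).mul_const _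
    exact le_of_tendsto' hT hfin

end VG
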