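import Pool.Agent.Helper859.VG.Given

set_option autoImplicit false
open Finset

namespace VG

noncomputable def ct (s : ℝ) (z : ℂ) : ℝ := Real.smoothTransition ((1 - ‖1 - z‖ ^ 2 / s ^ 2) * (4 / 3))

lemma cut_eq (s : ℝ) (z : ℂ) : cut s z = ((ct s z : ℝ) : ℂ) := rfl

lemma ct_nonneg (s : ℝ) (z : ℂ) : 0 ≤ ct s z := Real.smoothTransition.nonneg _
lemma ct_le_one (s : ℝ) (z : ℂ) : ct s z ≤ 1 := Real.smoothTransition.le_one _

lemma ct_one {s : ℝ} (hs : 0 < s) {z : ℂ} (h : ‖1 - z‖ ≤ s / 2) : ct s z = 1 := by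
  unfold ct
  apply Real.smoothTransition.one_of_one_le
  have h1 : ‖1 - z‖ ^ 2 / s ^ 2 ≤ 1 / 4 := by
    rw [div_le_iff₀ (by positivity)]
    nlinarith [norm_nonneg (1 - z)]
  linarith

lemma ct_zero {s : ℝ} (hs : 0 < s) {z : ℂ} (h : s ≤ ‖1 - z‖) : ct s z = 0 := by
  unfold ct
  apply Real.smoothTransition.zero_of_nonpos
  have h1 : 1 ≤ ‖1 - z‖ ^ 2 / s ^ 2 := by
    rw [le_div_iff₀ (by positivity)]
    nlinarith [norm_nonneg (1 - z)]
  linarith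

lemma cut_one {s : ℝ} (hs : 0 < s) {z : ℂ} (h : ‖1 - z‖ ≤ s / 2) : cut s z = 1 := by
  rw [cut_eq, ct_one hs h]; simp
lemma cut_zero {s : ℝ} (hs : 0 < s) {z : ℂ} (h : s ≤ ‖1 - z‖) : cut s z = 0 := by
  rw [cut_eq, ct_zero hs h]; simp
lemma cut_at_one {s : ℝ} (hs : 0 < s) : cut s 1 = 1 := cut_one hs (by simp; positivity)
lemma cut_norm_le (s : ℝ) (z : ℂ) : ‖cut s z‖ ≤ 1 := by
  rw [cut_eq, Complex.norm_real, Real.norm_of_nonneg (ct_nonneg _ _)]; exact ct_le_one _ _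
lemma conj_cut (s : ℝ) (z : ℂ) : (starRingEnd ℂ) (cut s z) = cut s z := by
  rw [cut_eq, Complex.conj_ofReal]

/-- Cayley transform is imaginary on the circle -/
lemma conj_cay {z : ℂ} (hz : ‖z‖ = 1) : (starRingEnd ℂ) ((1 + z) / (1 - z)) = -((1 + z) / (1 - z)) := by
  have hz0 : z ≠ 0 := by intro h; rw [h] at hz; simp at hz
  have hc : (starRingEnd ℂ) z = z⁻¹ := by
    rw [Complex.inv_def, Complex.normSq_eq_norm_sq, hz]; simp
  rw [map_div₀, map_add, map_sub, map_one, hc]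
  by_cases h1 : z = 1
  · rw [h1]; simp
  · have h2 : (1 : ℂ) - z ≠ 0 := sub_ne_zero.2 (Ne.symm h1)
    have h3 : (1 : ℂ) - z⁻¹ ≠ 0 := by
      intro h
      apply h1
      have : z⁻¹ = 1 := (sub_eq_zero.1 h).symm
      exact inv_eq_one.1 this
    field_simp
    ring

lemma cay_re {z : ℂ} (hz : ‖z‖ = 1) : ((1 + z) / (1 - z)).re = 0 := by
  have h := congrArg Complex.re (conj_cay hz)
  rw [Complex.conj_re, Complex.neg_re] at h
  linarith

noncomputable def sg (a a' : ℝ) (z : ℂ) : ℂ :=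
  Complex.exp (-((cut a z - cut a' z) * ((1 + z) / (1 - z))))

lemma norm_exp_cay (x : ℝ) {z : ℂ} (hz : ‖z‖ = 1) : ‖Complex.exp (-((x : ℂ) * ((1 + z) / (1 - z))))‖ = 1 := by
  rw [Complex.norm_exp]
  have : (-((x : ℂ) * ((1 + z) / (1 - z)))).re = 0 := by
    rw [Complex.neg_re, Complex.re_ofReal_mul, cay_re hz]; simp
  rw [this, Real.exp_zero]

lemma tau_eq (s : ℝ) (z : ℂ) : tau s z = Complex.exp (-((((1 - ct s z : ℝ)) : ℂ) * ((1 + z) / (1 - z)))) := by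
  unfold tau; rw [cut_eq]; push_cast; rfl

lemma norm_tau (s : ℝ) {z : ℂ} (hz : ‖z‖ = 1) : ‖tau s z‖ = 1 := by
  rw [tau_eq]; exact norm_exp_cay _ hz

lemma norm_sg (a a' : ℝ) {z : ℂ} (hz : ‖z‖ = 1) : ‖sg a a' z‖ = 1 := by
  have : sg a a' z = Complex.exp (-((((ct a z - ct a' z : ℝ)) : ℂ) * ((1 + z) / (1 - z)))) := by
    unfold sg; rw [cut_eq, cut_eq]; push_cast; rfl
  rw [this]; exact norm_exp_cay _ hz

lemma conj_tau (s : ℝ) {z : ℂ} (hz : ‖z‖ = 1) :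
    (starRingEnd ℂ) (tau s z) = Complex.exp ((1 - cut s z) * ((1 + z) / (1 - z))) := by
  unfold tau
  rw [← Complex.exp_conj]
  congr 1
  rw [map_neg, map_mul, conj_cay hz, map_sub, map_one, conj_cut]
  ring

lemma sg_eq (a a' : ℝ) {z : ℂ} (hz : ‖z‖ = 1) : sg a a' z = tau a' z * (starRingEnd ℂ) (tau a z) := by
  rw [conj_tau a hz]
  unfold tau sg
  rw [← Complex.exp_add]
  congr 1; ring

lemma TN_sg (a a' : ℝ) (ha : 0 < a) (ha' : 0 < a') (m : ℕ) : ∃ c, TN m c (sg a a') := by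
  obtain ⟨c1, h1⟩ := TN_tau a' ha' m
  obtain ⟨c2, h2⟩ := TN_tau a ha m
  exact ⟨_, TN_congr (TN_mul h1 (TN_conj h2)) fun z hz => sg_eq a a' hz⟩

lemma sg_one (a a' : ℝ) : sg a a' 1 = 1 := by
  unfold sg; simp

lemma sg_far {a a' : ℝ} (ha : 0 < a) (ha' : 0 < a') (haa : a' ≤ a) {z : ℂ} (h : a ≤ ‖1 - z‖) : sg a a' z = 1 := by
  unfold sg
  rw [cut_zero ha h, cut_zero ha' (haa.trans h)]; simp

lemma mul_conj_norm {w : ℂ} (hw : ‖w‖ = 1) : w * (starRingEnd ℂ) w = 1 := by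
  rw [Complex.mul_conj, Complex.normSq_eq_norm_sq, hw]; simp

lemma conj_mul_norm {w : ℂ} (hw : ‖w‖ = 1) : (starRingEnd ℂ) w * w = 1 := by
  rw [mul_comm]; exact mul_conj_norm hw

/-- real and imaginary parts in the algebra -/
lemma TN_re {m : ℕ} {c : ℝ} {f : ℂ → ℂ} (h : TN m c f) : TN m c (fun z => (((f z).re : ℝ) : ℂ)) := by
  have h1 := TN_mul (TN_const m (1 / 2)) (TN_add h (TN_conj h))
  refine TN_congr (TN_mono h1 (by norm_num; linarith)) fun z _ => ?_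
  rw [Complex.add_conj]; push_cast; ring

lemma TN_im {m : ℕ} {c : ℝ} {f : ℂ → ℂ} (h : TN m c f) : TN m c (fun z => (((f z).im : ℝ) : ℂ)) := by
  have h1 := TN_mul (TN_const m (1 / (2 * Complex.I))) (TN_sub h (TN_conj h))
  refine TN_congr (TN_mono h1 (le_of_eq ?_)) fun z _ => ?_
  · rw [norm_div, norm_one, norm_mul, Complex.norm_I]; norm_num; ring
  · rw [Complex.sub_conj]; field_simp; push_cast; ring

lemma TN_cut0 {β : ℝ} (hβ : 0 < β) (m : ℕ) : ∃ c, 0 ≤ c ∧ TN m c (cut β) ∧ TN m (1 + c) (fun z => 1 - cut β z) := by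
  obtain ⟨c, hc⟩ := TN_cut β hβ m
  refine ⟨c, TN_nonneg hc, hc, ?_⟩
  exact TN_mono (TN_sub (TN_const m 1) hc) (by simp)

end VG
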