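import Pool.Agent.Helper859.VG.Obj

set_option autoImplicit false
open Finset

namespace VG

noncomputable def rh (L : ℕ) : ℝ := ((1 - Real.pi * 10 / L) / (1 + Real.pi * 10 / L)) ^ L

lemma rh_nonneg {L : ℕ} (hL : Real.pi * 10 < L) : 0 ≤ rh L := by
  have hL0 : (0:ℝ) < L := lt_trans (by positivity) hL
  have h1 : Real.pi * 10 / L < 1 := by rw [div_lt_one hL0]; exact hL
  have h2 : 0 < Real.pi * 10 / L := by positivity
  unfold rh
  exact pow_nonneg (div_nonneg (by linarith) (by linarith)) _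

lemma rh_le {L : ℕ} (hL : Real.pi * 10 < L) : rh L ≤ 1 / 1000 := by
  have hL0 : (0:ℝ) < L := lt_trans (by positivity) hL
  set x := Real.pi * 10 / L with hx
  have h1 : x < 1 := by rw [hx, div_lt_one hL0]; exact hL
  have h2 : 0 < x := by positivity
  have h3 : (1 - x) / (1 + x) ≤ Real.exp (-x) := by
    calc (1 - x) / (1 + x) ≤ 1 - x := by
          rw [div_le_iff₀ (by linarith)]; nlinarith
      _ ≤ Real.exp (-x) := Real.one_sub_le_exp_neg x
  have h4 : rh L ≤ Real.exp (-x) ^ L := by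
    unfold rh
    exact pow_le_pow_left₀ (div_nonneg (by linarith) (by linarith)) h3 _
  have h5 : Real.exp (-x) ^ L = Real.exp (-(Real.pi * 10)) := by
    rw [← Real.exp_nat_mul]; congr 1; rw [hx]; field_simp
  rw [h5] at h4
  refine h4.trans ?_
  have h6 : (Real.exp (-(Real.pi * 10))) ≤ Real.exp (-30) := by
    apply Real.exp_le_exp.2
    have := Real.pi_gt_three; linarith
  refine h6.trans ?_
  rw [Real.exp_neg, one_div]
  apply inv_anti₀ (by norm_num)
  have h7 : (2:ℝ) ≤ Real.exp 1 := by have := Real.add_one_le_exp (1:ℝ); linarith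
  have h8 : Real.exp 30 = Real.exp 1 ^ 30 := by rw [← Real.exp_nat_mul]; norm_num
  rw [h8]
  calc (1000:ℝ) ≤ 2 ^ 30 := by norm_num
    _ ≤ Real.exp 1 ^ 30 := pow_le_pow_left₀ (by norm_num) h7 30

/-- Moebius factor -/
noncomputable def Ph (L : ℕ) (G : ℂ) (z : ℂ) : ℂ := (z ^ L + G) / (1 + (starRingEnd ℂ) G * z ^ L)

lemma Ph_den {L : ℕ} {G z : ℂ} (hz : ‖z‖ = 1) (hG : ‖G‖ < 1) : 1 + (starRingEnd ℂ) G * z ^ L ≠ 0 := by
  intro h
  have h1 : (starRingEnd ℂ) G * z ^ L = -1 := by linear_combination h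
  have h2 := congrArg norm h1
  rw [norm_mul, norm_pow, hz, one_pow, mul_one, RCLike.norm_conj, norm_neg, norm_one] at h2
  linarith

lemma Ph_norm {L : ℕ} {G z : ℂ} (hz : ‖z‖ = 1) (hG : ‖G‖ < 1) : ‖Ph L G z‖ = 1 := by
  have hd := Ph_den (L := L) hz hG
  unfold Ph
  rw [norm_div, div_eq_one_iff_eq (norm_ne_zero_iff.2 hd)]
  have hzL : ‖z ^ L‖ = 1 := by rw [norm_pow, hz, one_pow]
  have h1 : 1 + (starRingEnd ℂ) G * z ^ L = z ^ L * (starRingEnd ℂ) (z ^ L + G) := by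
    rw [map_add, mul_add, mul_conj_norm hzL]; ring
  rw [h1, norm_mul, hzL, one_mul, RCLike.norm_conj]

lemma TN_Ph {L : ℕ} {G : ℂ → ℂ} (hG : TN 0 (1 / 100) G) : TN 0 2 (fun z => Ph L (G z) z) := by
  have hz : TN 0 1 (fun z : ℂ => z ^ L) := by
    have := TN_zpow 0 (L : ℤ)
    refine TN_congr (TN_mono this (by simp)) fun z _ => ?_
    simp
  have h1 := TN_add hz hG
  have h2 : TN 0 (1 / 100) (fun z => -((starRingEnd ℂ) (G z) * z ^ L)) := by
    have := TN_mul (TN_const 0 (-1)) (TN_mul (TN_conj hG) hz)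
    exact TN_congr (TN_mono this (by simp)) fun z _ => by ring
  have h3 := TN_inv h2 (by norm_num)
  refine TN_congr (TN_mono (TN_mul h1 h3) (by norm_num)) fun z _ => ?_
  unfold Ph
  rw [sub_neg_eq_add, mul_one_div]

lemma Ph_one {L : ℕ} {G : ℂ} (hG : G.im = 0) (hG1 : ‖G‖ < 1) : Ph L G 1 = 1 := by
  have hc : (starRingEnd ℂ) G = G := Complex.conj_eq_iff_im.2 hG
  have hd := Ph_den (L := L) (z := 1) (by simp) hG1
  unfold Ph
  rw [hc] at hd ⊢
  rw [one_pow] at hd ⊢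
  rw [div_eq_one_iff_eq hd]; ring

lemma Ph_series {L : ℕ} {G z : ℂ} (hz : ‖z‖ = 1) (hG : ‖G‖ < 1) :
    HasSum (fun j : ℕ => z ^ (L * (j + 1)) * ((-1) ^ j * ((1 - G * (starRingEnd ℂ) G) * (starRingEnd ℂ) G ^ j)))
      (Ph L G z - G) := by
  have hd := Ph_den (L := L) hz hG
  have h1 : ‖-((starRingEnd ℂ) G * z ^ L)‖ < 1 := by
    rw [norm_neg, norm_mul, norm_pow, hz, one_pow, mul_one, RCLike.norm_conj]; exact hG
  have h2 := (hasSum_geometric_of_norm_lt_one h1).mul_left (z ^ L * (1 - G * (starRingEnd ℂ) G))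
  have e1 : z ^ L * (1 - G * (starRingEnd ℂ) G) * (1 - -((starRingEnd ℂ) G * z ^ L))⁻¹ = Ph L G z - G := by
    unfold Ph
    rw [sub_neg_eq_add, ← div_eq_mul_inv, div_sub' hd, div_left_inj' hd]
    ring
  rw [e1] at h2
  refine h2.congr_fun ?_
  intro j
  rw [pow_mul, pow_succ (z ^ L)]
  rw [show -((starRingEnd ℂ) G * z ^ L) = (-1) * (starRingEnd ℂ) G * z ^ L by ring, mul_pow, mul_pow]
  ring

end VG
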