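import Pool.Agent.Helper859.VG.Blk1

set_option autoImplicit false
open Finset

namespace VG

/-- coefficient of `z^(L(j+1))` -/
noncomputable def yj (ρ : ℝ) (sK lam : ℂ) (j : ℕ) : ℂ :=
  (-1) ^ j * (lam * ((1 - (ρ * (sK * (starRingEnd ℂ) lam)) * (starRingEnd ℂ) (ρ * (sK * (starRingEnd ℂ) lam))) *
    (starRingEnd ℂ) (ρ * (sK * (starRingEnd ℂ) lam)) ^ j) - sK * ((1 - (ρ : ℂ) ^ 2) * (ρ : ℂ) ^ j))

lemma yj_series {L : ℕ} {ρ : ℝ} {sK lam z : ℂ} (hz : ‖z‖ = 1) (hρ0 : 0 ≤ ρ) (hρ : ρ < 1) (hlam : ‖lam‖ = 1)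
    (hsK : ‖sK‖ ≤ 1) :
    HasSum (fun j : ℕ => z ^ (L * (j + 1)) * yj ρ sK lam j)
      (lam * Ph L (ρ * (sK * (starRingEnd ℂ) lam)) z - sK * Ph L ρ z) := by
  set G : ℂ := ρ * (sK * (starRingEnd ℂ) lam) with hG
  have hGn : ‖G‖ < 1 := by
    rw [hG, norm_mul, norm_mul, RCLike.norm_conj, hlam, mul_one, Complex.norm_real, Real.norm_of_nonneg hρ0]
    calc ρ * ‖sK‖ ≤ ρ * 1 := by gcongr
      _ < 1 := by linarith
  have hρn : ‖(ρ : ℂ)‖ < 1 := by rw [Complex.norm_real, Real.norm_of_nonneg hρ0]; exact hρ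
  have h1 := (Ph_series (L := L) hz hGn).mul_left lam
  have h2 := (Ph_series (L := L) hz hρn).mul_left sK
  have h3 := h1.sub h2
  have e1 : lam * (Ph L G z - G) - sK * (Ph L ρ z - ρ) = lam * Ph L G z - sK * Ph L ρ z := by
    have : lam * G = sK * ρ := by
      rw [hG]
      linear_combination (ρ * sK) * mul_conj_norm hlam
    linear_combination -this
  rw [e1] at h3
  refine h3.congr_fun fun j => ?_
  unfold yj
  rw [← hG, Complex.conj_ofReal]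
  ring

lemma yj_far {ρ : ℝ} {sK lam : ℂ} (hlam : ‖lam‖ = 1) (h : lam = sK) (j : ℕ) : yj ρ sK lam j = 0 := by
  unfold yj
  rw [← h, mul_conj_norm hlam, mul_one, Complex.conj_ofReal]
  ring

lemma TN_yj {C : ℝ} {ρ : ℝ} {sK lam : ℂ → ℂ} (hρ0 : 0 ≤ ρ) (hρ : ρ ≤ 1 / 1000) {cs cl : ℝ}
    (hsK : TN 4 cs sK) (hlam : TN 4 cl lam) (hg0 : TN 0 10 (fun z => sK z * (starRingEnd ℂ) (lam z)))
    (hg4 : TN 4 C (fun z => sK z * (starRingEnd ℂ) (lam z))) (j : ℕ) :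
    TN 4 ((cl * (1 + C * C) * (1 + C) + 2 * cs) * (1 / 5) ^ j) (fun z => yj ρ (sK z) (lam z) j) := by
  have hC : 0 ≤ C := TN_nonneg hg4
  have hcl : 0 ≤ cl := TN_nonneg hlam
  have hcs : 0 ≤ cs := TN_nonneg hsK
  have hρn : ‖(ρ : ℂ)‖ = ρ := by rw [Complex.norm_real, Real.norm_of_nonneg hρ0]
  -- G conj G
  have h1 : TN 4 (1 + C * C) (fun z => 1 - (ρ * (sK z * (starRingEnd ℂ) (lam z))) *
      (starRingEnd ℂ) (ρ * (sK z * (starRingEnd ℂ) (lam z)))) := by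
    have hG := TN_mul (TN_const 4 (ρ : ℂ)) hg4
    have e := TN_sub (TN_const 4 1) (TN_mul hG (TN_conj hG))
    refine TN_mono e ?_
    rw [norm_one, hρn]
    have : ρ * C * (ρ * C) ≤ C * C := by
      have : ρ * C ≤ C := by nlinarith
      have h0 : 0 ≤ ρ * C := by positivity
      nlinarith
    linarith
  have h2 : TN 4 ((1 + C) * (1 / 5) ^ j) (fun z => (starRingEnd ℂ) (ρ * (sK z * (starRingEnd ℂ) (lam z))) ^ j) := by
    have e1 := TN_pow4 hg0 hg4 (by norm_num : (1:ℝ) ≤ 10) j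
    have e2 := TN_mul (TN_const 4 ((ρ : ℂ) ^ j)) (TN_conj e1)
    refine TN_congr (TN_mono e2 ?_) fun z _ => ?_
    · rw [norm_pow, hρn]
      calc ρ ^ j * ((1 + C) * (16 * 10) ^ j) = (1 + C) * (ρ * 160) ^ j := by
              rw [mul_pow ρ 160, show (16 * 10 : ℝ) = 160 by norm_num]; ring
        _ ≤ (1 + C) * (1 / 5) ^ j := by
            gcongr
            linarith
    · rw [map_mul, Complex.conj_ofReal, mul_pow, map_pow]
  have h3 : TN 4 (2 * (1 / 5) ^ j) (fun _ => (1 - (ρ : ℂ) ^ 2) * (ρ : ℂ) ^ j) := by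
    refine TN_mono (TN_const 4 _) ?_
    rw [norm_mul, norm_pow, hρn]
    have e1 : ‖(1 : ℂ) - (ρ : ℂ) ^ 2‖ ≤ 2 := by
      refine (norm_sub_le _ _).trans ?_
      rw [norm_one, norm_pow, hρn]; nlinarith
    have e2 : ρ ^ j ≤ (1 / 5) ^ j := pow_le_pow_left₀ hρ0 (by linarith) j
    have e3 : 0 ≤ ρ ^ j := pow_nonneg hρ0 j
    exact mul_le_mul e1 e2 e3 (by norm_num)
  have h4 := TN_sub (TN_mul hlam (TN_mul h1 h2)) (TN_mul hsK h3)
  have h5 := TN_mul (TN_const 4 ((-1 : ℂ) ^ j)) h4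
  refine TN_congr (TN_mono h5 (le_of_eq ?_)) fun z _ => ?_
  · rw [norm_pow, norm_neg, norm_one, one_pow]; ring
  · rfl

end VG
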