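import Pool.Agent.Helper859.VG.Blk2

set_option autoImplicit false
open Finset

namespace VG

/-- the block function -/
noncomputable def Uf (a a' : ℝ) (Kp lam : ℂ → ℂ) (L n K : ℕ) (z : ℂ) : ℂ :=
  lam z * (starRingEnd ℂ) (vC 10 n K L z) *
    Ph L ((rh L : ℂ) * (sg a a' z * Kp z * (starRingEnd ℂ) (lam z))) z

lemma conj_vC {L n K : ℕ} (hL : Real.pi * 10 < L) (hK : L = 2 * n + K) {z : ℂ} (hz : ‖z‖ = 1) :
    vB 10 n L z = (starRingEnd ℂ) (vC 10 n K L z) * Ph L (rh L) z := by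
  obtain ⟨h1, h2, -⟩ := vB_vC L n K hL hK hz
  have h3 : Ph L (rh L) z = vB 10 n L z * vC 10 n K L z := by
    rw [h1]
    unfold Ph rh
    rw [Complex.conj_ofReal, add_comm (z ^ L)]
  rw [h3]
  linear_combination (-(vB 10 n L z)) * mul_conj_norm h2

lemma D_split {β a a' : ℝ} (hβ : 0 < β) (hβ1 : β ≤ 1 / 64) (ha' : 0 < a') (haa : a' ≤ a) (haβ : a ≤ β / 2)
    {Kp lam : ℂ → ℂ} {cK cl : ℝ} (hK4 : TN 4 cK Kp) (hl4 : TN 4 cl lam)
    (hlam : ∀ z : ℂ, ‖z‖ = 1 → ‖lam z‖ = 1) (hK1 : ∀ z : ℂ, ‖z‖ = 1 → ‖Kp z‖ ≤ 1)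
    (hg0 : TN 0 10 (fun z => sg a a' z * Kp z * (starRingEnd ℂ) (lam z)))
    (hfar : ∀ z : ℂ, ‖z‖ = 1 → β ≤ ‖1 - z‖ → ‖Kp z‖ = 1 ∧ lam z = Kp z) :
    ∃ (CX : ℝ) (L1 : ℕ), 0 ≤ CX ∧ ∀ (L n K : ℕ), L1 ≤ L → 2 * β * L ≤ n → (n : ℝ) ≤ L / 4 → L = 2 * n + K →
      ∃ p q : ℂ → ℂ, AN CX p ∧ TN 0 (CX / (L : ℝ) ^ 4) q ∧ ∀ z : ℂ, ‖z‖ = 1 →
        (starRingEnd ℂ) (sg a a' z) * Uf a a' Kp lam L n K z = Kp z * vB 10 n L z + p z + q z := by
  have ha : 0 < a := by linarith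
  obtain ⟨cs, hs4⟩ := TN_sg a a' ha ha' 4
  obtain ⟨CW, L0, hW⟩ := vC_smooth (2 * β) (by positivity) (by linarith)
  have hsK4 : TN 4 (cs * cK) (fun z => sg a a' z * Kp z) := TN_mul hs4 hK4
  have hg4 : TN 4 (cs * cK * cl) (fun z => sg a a' z * Kp z * (starRingEnd ℂ) (lam z)) := TN_mul hsK4 (TN_conj hl4)
  have hcs : 0 ≤ cs := TN_nonneg hs4
  have hcK : 0 ≤ cK := TN_nonneg hK4
  have hcl : 0 ≤ cl := TN_nonneg hl4
  set C4 := cs * cK * cl with hC4
  have hC4' : 0 ≤ C4 := by positivity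
  set Cy := cl * (1 + C4 * C4) * (1 + C4) + 2 * (cs * cK) with hCy
  have hCy0 : 0 ≤ Cy := by positivity
  set CW' := max CW 0 with hCW'
  have hCW0 : 0 ≤ CW' := le_max_right _ _
  set CX := cs * CW' * Cy * 2 with hCX
  have hCX0 : 0 ≤ CX := by positivity
  refine ⟨CX, max L0 32, hCX0, ?_⟩
  intro L n K hLL hn1 hn2 hLK
  have hL0 : L0 ≤ L := (le_max_left _ _).trans hLL
  have hL32 : (32 : ℝ) ≤ L := by exact_mod_cast (le_max_right _ _).trans hLL
  have hLpi : Real.pi * 10 < L := by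
    have := Real.pi_lt_d2; linarith
  have hρ0 := rh_nonneg hLpi
  have hρ1 := rh_le hLpi
  have hW' : TN 4 CW' (fun z => cut (2 * β) z * (starRingEnd ℂ) (vC 10 n K L z)) :=
    TN_mono (hW L n K hL0 hn1 hn2 hLK) (le_max_left _ _)
  -- the pieces
  set X : ℕ → ℂ → ℂ := fun j z => (starRingEnd ℂ) (sg a a' z) *
    ((cut (2 * β) z * (starRingEnd ℂ) (vC 10 n K L z)) * yj (rh L) (sg a a' z * Kp z) (lam z) j) with hX
  have hXTN : ∀ j, TN 4 (cs * CW' * Cy * (1 / 5) ^ j) (X j) := by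
    intro j
    have h1 := TN_yj hρ0 hρ1 hsK4 hl4 hg0 hg4 j
    have h2 := TN_mul (TN_conj hs4) (TN_mul hW' h1)
    exact TN_mono h2 (le_of_eq (by rw [hCy]; ring))
  choose p q hp hq hpq using fun j => TN_split (hXTN j) (L * (j + 1))
  have hgeo : Summable fun j : ℕ => cs * CW' * Cy * (1 / 5 : ℝ) ^ j :=
    (summable_geometric_of_lt_one (by norm_num) (by norm_num)).mul_left _
  have hgsum : ∑' j : ℕ, cs * CW' * Cy * (1 / 5 : ℝ) ^ j ≤ CX := by
    rw [tsum_mul_left, tsum_geometric_of_lt_one (by norm_num) (by norm_num), hCX]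
    have : 0 ≤ cs * CW' * Cy := by positivity
    norm_num
    linarith
  have hLpos : (0:ℝ) < L := by linarith
  have hqb : ∀ j, TN 0 (cs * CW' * Cy * (1 / 5) ^ j / (L : ℝ) ^ 4) (q j) := by
    intro j
    refine TN_mono (hq j) ?_
    gcongr
    push_cast
    have : (0:ℝ) ≤ j := Nat.cast_nonneg j
    nlinarith
  have hP := AN_tsum hp hgeo
  have hQ := TN_tsum hqb (hgeo.div_const _)
  refine ⟨_, _, W702.AN_mono hP hgsum, TN_mono hQ ?_, ?_⟩
  · rw [tsum_div_const]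
    gcongr
  intro z hz
  obtain ⟨-, hvCn, -⟩ := vB_vC L n K hLpi hLK hz
  have hsgn := norm_sg a a' hz
  have hsKn : ‖sg a a' z * Kp z‖ ≤ 1 := by rw [norm_mul, hsgn, one_mul]; exact hK1 z hz
  have hser := yj_series (L := L) hz hρ0 (by linarith) (hlam z hz) hsKn
  have hser2 := hser.mul_left ((starRingEnd ℂ) (sg a a' z) * (starRingEnd ℂ) (vC 10 n K L z))
  -- termwise identity
  have hterm : ∀ j, (starRingEnd ℂ) (sg a a' z) * (starRingEnd ℂ) (vC 10 n K L z) *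
      (z ^ (L * (j + 1)) * yj (rh L) (sg a a' z * Kp z) (lam z) j) = p j z + q j z := by
    intro j
    rw [← hpq j z hz]
    simp only [hX]
    by_cases hzβ : β ≤ ‖1 - z‖
    · obtain ⟨hk1, hk2⟩ := hfar z hz hzβ
      have hsg1 : sg a a' z = 1 := sg_far ha ha' haa (by linarith)
      rw [hsg1, one_mul]
      rw [yj_far (hlam z hz) hk2]
      ring
    · push Not at hzβ
      rw [cut_one (by positivity : (0:ℝ) < 2 * β) (by linarith)]
      ring
  have hpS : Summable fun j => p j z := by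
    apply Summable.of_norm_bounded hgeo
    intro j
    exact TN_bound (TN_of_AN (hp j)) hz
  have hqS : Summable fun j => q j z := by
    apply Summable.of_norm_bounded (hgeo.div_const ((L:ℝ) ^ 4))
    intro j
    exact TN_bound (hqb j) hz
  have htot : ∑' j, p j z + ∑' j, q j z = (starRingEnd ℂ) (sg a a' z) * (starRingEnd ℂ) (vC 10 n K L z) *
      (lam z * Ph L (rh L * (sg a a' z * Kp z * (starRingEnd ℂ) (lam z))) z -
        sg a a' z * Kp z * Ph L (rh L) z) := by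
    rw [← hpS.tsum_add hqS, ← hser2.tsum_eq]
    exact tsum_congr fun j => (hterm j).symm
  have hv := conj_vC hLpi hLK hz
  unfold Uf
  rw [add_assoc, htot, hv]
  linear_combination (Kp z * (starRingEnd ℂ) (vC 10 n K L z) * Ph L (rh L) z) * conj_mul_norm hsgn

end VG
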