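import Pool.Agent.Helper859.VG.Blk3

set_option autoImplicit false
open Finset

namespace VG

lemma conj_sg_tau (a a' : ℝ) {z : ℂ} (hz : ‖z‖ = 1) : (starRingEnd ℂ) (sg a a' z) * tau a' z = tau a z := by
  rw [sg_eq a a' hz, map_mul, Complex.conj_conj]
  linear_combination (tau a z) * conj_mul_norm (norm_tau a' hz)

lemma gfar {a a' β : ℝ} (ha : 0 < a) (ha' : 0 < a') (haa : a' ≤ a) (haβ : a ≤ β) {Kp lam z : ℂ}
    (h : ‖Kp‖ = 1 ∧ lam = Kp) (hβz : β ≤ ‖1 - z‖) : sg a a' z * Kp * (starRingEnd ℂ) lam = 1 := by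
  rw [sg_far ha ha' haa (haβ.trans hβz), one_mul, h.2, mul_conj_norm h.1]

theorem block_exists : ∃ C : ℝ, 1 ≤ C ∧ ∀ μ : ℝ, 0 < μ → ∃ a0 : ℝ, 0 < a0 ∧ ∀ a a' : ℝ, 0 < a' → a' ≤ a / 2 → a ≤ a0 →
    ∀ (B : ℂ → ℂ) (cB : ℝ), AN cB B → (∀ z : ℂ, ‖z‖ = 1 → ‖B z‖ = 1) → ∀ tol : ℝ, 0 < tol →
    ∃ U t B' : ℂ → ℂ, (∃ c, TN 0 c U) ∧ (∀ z : ℂ, ‖z‖ = 1 → ‖U z‖ = 1) ∧ U 1 = 1 ∧
      (∀ (N : ℕ) [NeZero N], IM.MB C (fun j : ZMod N => U (IM.E j))) ∧
      (∀ (N : ℕ) [NeZero N], IM.MB μ (fun j : ZMod N => (1 - IM.E j) * (U (IM.E j) - 1))) ∧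
      (∀ z : ℂ, ‖z‖ = 1 → ‖(1 - z) * (U z - 1)‖ ≤ μ) ∧ TN 0 tol t ∧ (∃ c, AN c B') ∧
      (∀ z : ℂ, ‖z‖ ≤ 1 → ‖B' z‖ ≤ 1) ∧ (∀ z : ℂ, ‖z‖ = 1 → ‖B' z‖ = 1) ∧
      ∀ z : ℂ, ‖z‖ = 1 → B' z * tau a' z = B z * tau a z * U z * (1 + t z) := by
  obtain ⟨Cv, hCv1, -, hCv⟩ := IM.v_bound
  obtain ⟨C1, hC10, hC1⟩ := cut_first
  obtain ⟨C2, hC20, hC2⟩ := vB_far
  obtain ⟨CP, LP, hCP⟩ := vB_poly
  refine ⟨5 * Cv, by linarith, ?_⟩
  intro μ hμ
  -- δ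
  obtain ⟨δ, hδ0, hδ1, hδμ⟩ : ∃ δ : ℝ, 0 < δ ∧ δ ≤ 1 / 100 ∧ 2 * δ * Cv * 4 ≤ μ / 4 := by
    refine ⟨min (1 / 100) (μ / (32 * Cv)), by positivity, min_le_left _ _, ?_⟩
    have : min (1 / 100) (μ / (32 * Cv)) ≤ μ / (32 * Cv) := min_le_right _ _
    calc _ ≤ 2 * (μ / (32 * Cv)) * Cv * 4 := by gcongr
      _ = μ / 4 := by field_simp; ring
  -- s
  obtain ⟨s, hs0, hs1, hsμ⟩ : ∃ s : ℝ, 0 < s ∧ s ≤ 1 ∧ C1 * Real.sqrt s * (Cv + 1) * 4 ≤ μ / 8 := by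
    set y := μ / (32 * C1 * (Cv + 1)) with hy
    have hy0 : 0 < y := by positivity
    refine ⟨min 1 (y ^ 2), by positivity, min_le_left _ _, ?_⟩
    have : Real.sqrt (min 1 (y ^ 2)) ≤ y := by
      calc Real.sqrt (min 1 (y ^ 2)) ≤ Real.sqrt (y ^ 2) := Real.sqrt_le_sqrt (min_le_right _ _)
        _ = y := Real.sqrt_sq hy0.le
    calc _ ≤ C1 * y * (Cv + 1) * 4 := by gcongr
      _ = μ / 8 := by rw [hy]; field_simp; ring
  have hsq : 0 < Real.sqrt s := Real.sqrt_pos.2 hs0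
  -- β
  obtain ⟨β, hβ0, hβ1, hβs, hβ2, hβ3⟩ : ∃ β : ℝ, 0 < β ∧ β ≤ 1 / 64 ∧ 60 * (2 * β) ≤ s ∧
      C2 * (2 * β + 2 * β / Real.sqrt s) * 4 ≤ μ / 8 ∧ C1 * Real.sqrt (2 * β) * 4 * 2 ≤ μ / 4 := by
    set y := μ / (32 * C1) with hy
    have hy0 : 0 < y := by positivity
    set w := μ / (32 * C2 * (2 + 2 / Real.sqrt s)) with hw
    have hw0 : 0 < w := by positivity
    set β := min (min (1 / 64) (s / 120)) (min w (y ^ 2 / 2)) with hβ
    have b1 : β ≤ 1 / 64 := (min_le_left _ _).trans (min_le_left _ _)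
    have b2 : β ≤ s / 120 := (min_le_left _ _).trans (min_le_right _ _)
    have b3 : β ≤ w := (min_le_right _ _).trans (min_le_left _ _)
    have b4 : β ≤ y ^ 2 / 2 := (min_le_right _ _).trans (min_le_right _ _)
    have b0 : 0 < β := by positivity
    refine ⟨β, b0, b1, by linarith, ?_, ?_⟩
    · calc C2 * (2 * β + 2 * β / Real.sqrt s) * 4 = C2 * (β * (2 + 2 / Real.sqrt s)) * 4 := by ring
        _ ≤ C2 * (w * (2 + 2 / Real.sqrt s)) * 4 := by gcongr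
        _ = μ / 8 := by rw [hw]; field_simp; ring
    · have : Real.sqrt (2 * β) ≤ y := by
        calc Real.sqrt (2 * β) ≤ Real.sqrt (y ^ 2) := Real.sqrt_le_sqrt (by linarith)
          _ = y := Real.sqrt_sq hy0.le
      calc _ ≤ C1 * y * 4 * 2 := by gcongr
        _ = μ / 4 := by rw [hy]; field_simp; ring
  obtain ⟨a0, ha00, ha0β, hobj⟩ := objects β δ hβ0 (by linarith) hδ0 hδ1
  refine ⟨a0, ha00, ?_⟩
  intro a a' ha' haa2 haa0 B cB hBAN hB1 tol htol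
  have haa : a' ≤ a := by linarith
  have ha : 0 < a := by linarith
  have haβ : a ≤ β / 2 := haa0.trans ha0β
  obtain ⟨Kp, lam, ⟨cK, hKAN⟩, ⟨cK4, hK4⟩, ⟨cl4, hl4⟩, hl0, hlam, hlam1, hg0, hK1, hKim, hfar⟩ :=
    hobj a a' ha' haa2 haa0
  obtain ⟨CX, LX, hCX0, hD⟩ := D_split hβ0 hβ1 ha' haa haβ hK4 hl4 hlam hK1 hg0 hfar
  obtain ⟨LF, hLF⟩ := hC2 (2 * β) s (by positivity) hβs hs1
  obtain ⟨cs, hs⟩ := TN_sg a a' ha ha' 0
  have hcs : 0 ≤ cs := TN_nonneg hs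
  have hBTN := TN_of_AN hBAN
  have hcB : 1 ≤ cB := by
    have := TN_bound hBTN (z := 1) (by simp)
    rwa [hB1 1 (by simp)] at this
  set CP' := max CP 0 with hCP'
  have hCP0 : 0 ≤ CP' := le_max_right _ _
  set A1 := max 1 (cB * (cs * (2 * (CP' * 2) * 2))) with hA1
  have hA11 : 1 ≤ A1 := le_max_left _ _
  -- choice of L
  obtain ⟨L, hL⟩ := exists_nat_gt (max (max (max (LP : ℝ) LX) (max LF 100)) (max (max (1 / (2 * β)) 1)
    (max (20 * (A1 * (cB * CX))) (8 * (A1 * (cB * CX)) / tol))))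
  have hL1 : (LP : ℝ) < L := (((le_max_left _ _).trans (le_max_left _ _)).trans (le_max_left _ _)).trans_lt hL
  have hL2 : (LX : ℝ) < L := (((le_max_right _ _).trans (le_max_left _ _)).trans (le_max_left _ _)).trans_lt hL
  have hL3 : (LF : ℝ) < L := (((le_max_left _ _).trans (le_max_right _ _)).trans (le_max_left _ _)).trans_lt hL
  have hL4 : (100 : ℝ) < L := (((le_max_right _ _).trans (le_max_right _ _)).trans (le_max_left _ _)).trans_lt hL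
  have hL5 : 1 / (2 * β) < L := (((le_max_left _ _).trans (le_max_left _ _)).trans (le_max_right _ _)).trans_lt hL
  have hL6 : 20 * (A1 * (cB * CX)) < L := (((le_max_left _ _).trans (le_max_right _ _)).trans (le_max_right _ _)).trans_lt hL
  have hL7 : 8 * (A1 * (cB * CX)) / tol < L := (((le_max_right _ _).trans (le_max_right _ _)).trans (le_max_right _ _)).trans_lt hL
  have hLpi : Real.pi * 10 < L := by
    have := Real.pi_lt_d2; linarith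
  have hLpos : (0:ℝ) < L := by linarith
  set n : ℕ := ⌈2 * β * L⌉₊ with hn
  have hn1 : 2 * β * L ≤ n := Nat.le_ceil _
  have hn1' : (n : ℝ) < 2 * β * L + 1 := Nat.ceil_lt_add_one (by positivity)
  have h2βL : 1 < 2 * β * L := by
    rw [div_lt_iff₀ (by positivity)] at hL5; linarith
  have hn2 : (n : ℝ) ≤ L / 4 := by nlinarith
  have hn3 : (n : ℝ) ≤ 2 * (2 * β) * L := by linarith
  have hn4 : 1 ≤ n := by
    have : (0:ℝ) < n := by linarith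
    exact_mod_cast this
  have hn5 : 2 * n < L := by
    have : (2 * n : ℝ) < L := by linarith
    exact_mod_cast this
  obtain ⟨K, hK⟩ : ∃ K, L = 2 * n + K := ⟨L - 2 * n, by omega⟩
  have hLX' : LX ≤ L := by exact_mod_cast hL2.le
  have hLP' : LP ≤ L := by exact_mod_cast hL1.le
  have hLF' : LF ≤ L := by exact_mod_cast hL3.le
  obtain ⟨pD, qD, hpD, hqD, hpq⟩ := hD L n K hLX' hn1 hn2 hK
  have hρ0 := rh_nonneg hLpi
  have hρ1 := rh_le hLpi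
  set ρ := rh L with hρ
  have hρn : ‖(ρ : ℂ)‖ = ρ := by rw [Complex.norm_real, Real.norm_of_nonneg hρ0]
  set v : ℂ → ℂ := vB 10 n L with hv
  set gs : ℂ → ℂ := fun z => sg a a' z * Kp z * (starRingEnd ℂ) (lam z) with hgs
  set PG : ℂ → ℂ := fun z => Ph L ((ρ : ℂ) * gs z) z with hPG
  set P0 : ℂ → ℂ := fun z => Ph L (ρ : ℂ) z with hP0
  set U : ℂ → ℂ := Uf a a' Kp lam L n K with hU
  have hgsn : ∀ z : ℂ, ‖z‖ = 1 → ‖gs z‖ ≤ 1 := by
    intro z hz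
    simp only [hgs]
    rw [norm_mul, norm_mul, norm_sg a a' hz, RCLike.norm_conj, hlam z hz, one_mul, mul_one]
    exact hK1 z hz
  have hGn : ∀ z : ℂ, ‖z‖ = 1 → ‖(ρ : ℂ) * gs z‖ < 1 := by
    intro z hz
    rw [norm_mul, hρn]
    have := hgsn z hz
    nlinarith [norm_nonneg (gs z)]
  have hρn1 : ‖(ρ : ℂ)‖ < 1 := by rw [hρn]; linarith
  have hGTN : TN 0 (1 / 100) (fun z => (ρ : ℂ) * gs z) := by
    refine TN_mono (TN_mul (TN_const 0 (ρ : ℂ)) hg0) ?_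
    rw [hρn]; linarith
  have hPGTN : TN 0 2 PG := TN_Ph hGTN
  have hP0TN : TN 0 2 P0 := TN_Ph (TN_mono (TN_const 0 (ρ : ℂ)) (by rw [hρn]; linarith))
  have hPGn : ∀ z : ℂ, ‖z‖ = 1 → ‖PG z‖ = 1 := fun z hz => Ph_norm hz (hGn z hz)
  have hP0n : ∀ z : ℂ, ‖z‖ = 1 → ‖P0 z‖ = 1 := fun z hz => Ph_norm hz hρn1
  obtain ⟨-, -, hvn, hv1⟩ := W702.vB_basic 10 (by norm_num) n L hLpi
  -- U in terms of v
  have hUv : ∀ z : ℂ, ‖z‖ = 1 → U z = lam z * (v z * (PG z * (starRingEnd ℂ) (P0 z))) := by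
    intro z hz
    have h1 := conj_vC hLpi hK hz
    have h2 : U z = lam z * (starRingEnd ℂ) (vC 10 n K L z) * PG z := rfl
    rw [h2, hv, h1]
    linear_combination (-(lam z * (starRingEnd ℂ) (vC 10 n K L z) * PG z)) * mul_conj_norm (hP0n z hz)
  have hUn : ∀ z : ℂ, ‖z‖ = 1 → ‖U z‖ = 1 := by
    intro z hz
    rw [hUv z hz, norm_mul, norm_mul, norm_mul, RCLike.norm_conj, hlam z hz, hvn z hz, hPGn z hz, hP0n z hz]
    norm_num
  have hlamTN : TN 0 2 lam := by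
    have := TN_add hl0 (TN_const 0 1)
    exact TN_congr (TN_mono this (by rw [norm_one]; linarith)) fun z _ => by ring
  have hPsiTN : TN 0 4 (fun z => PG z * (starRingEnd ℂ) (P0 z)) :=
    TN_mono (TN_mul hPGTN (TN_conj hP0TN)) (by norm_num)
  have hvTN : TN 0 (CP' * (L : ℝ) ^ 3) v := by
    refine TN_mono (TN_of_AN (hCP L n hLP' (by omega))) ?_
    gcongr; exact le_max_left _ _
  have hUTN : TN 0 (2 * (CP' * (L : ℝ) ^ 3 * 4)) U :=
    TN_congr (TN_mul hlamTN (TN_mul hvTN hPsiTN)) hUv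
  -- U 1 = 1
  have hU1 : U 1 = 1 := by
    have h1 : gs 1 = Kp 1 := by simp only [hgs]; rw [sg_one, hlam1]; simp
    have h2 : PG 1 = 1 := by
      refine Ph_one ?_ (hGn 1 (by simp))
      rw [h1, Complex.im_ofReal_mul, hKim, mul_zero]
    have h3 : P0 1 = 1 := Ph_one (by simp) hρn1
    have hv1' : v 1 = 1 := hv1
    rw [hUv 1 (by simp), h2, h3, hlam1, hv1']; simp
  -- the decomposition of (1 - z) (U z - 1)
  set T1 : ℂ → ℂ := fun z => (1 - z) * (lam z - 1) with hT1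
  set T2 : ℂ → ℂ := fun z => (1 - z) * cut s z with hT2
  set T3 : ℂ → ℂ := fun z => (1 - z) * (1 - cut s z) * (v z - 1) with hT3
  set T4 : ℂ → ℂ := fun z => (1 - z) * cut (2 * β) z with hT4
  have hT1TN : TN 0 (2 * δ) T1 := by
    have h1 : TN 0 2 (fun z : ℂ => 1 - z) := by
      have e1 := TN_zpow 0 (1 : ℤ)
      refine TN_congr (TN_mono (TN_sub (TN_const 0 1) e1) (by norm_num)) fun z _ => by simp
    exact TN_mul h1 hl0
  have hT2TN : TN 0 (C1 * Real.sqrt s) T2 := hC1 s hs0 hs1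
  have hT3TN : TN 0 (C2 * (2 * β + 2 * β / Real.sqrt s)) T3 := hLF L n hLF' hn3
  have hT4TN : TN 0 (C1 * Real.sqrt (2 * β)) T4 := hC1 (2 * β) (by positivity) (by linarith)
  have hPP : ∀ z : ℂ, ‖z‖ = 1 → (1 - z) * (PG z - P0 z) = T4 z * (PG z - P0 z) := by
    intro z hz
    simp only [hT4]
    by_cases hzβ : β ≤ ‖1 - z‖
    · have h1 : gs z = 1 := gfar ha ha' haa (by linarith) (hfar z hz hzβ) hzβ
      have h2 : PG z = P0 z := by simp only [hPG, hP0]; rw [h1, mul_one]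
      rw [h2]; ring
    · push Not at hzβ
      rw [cut_one (by positivity : (0:ℝ) < 2 * β) (by linarith)]
      ring
  have hdec : ∀ z : ℂ, ‖z‖ = 1 → (1 - z) * (U z - 1) =
      T1 z * (v z * (PG z * (starRingEnd ℂ) (P0 z))) + T2 z * ((v z - 1) * (PG z * (starRingEnd ℂ) (P0 z))) +
      T3 z * (PG z * (starRingEnd ℂ) (P0 z)) + T4 z * ((PG z - P0 z) * (starRingEnd ℂ) (P0 z)) := by
    intro z hz
    rw [hUv z hz]
    have h1 := hPP z hz
    simp only [hT1, hT2, hT3]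
    linear_combination (1 - z) * mul_conj_norm (hP0n z hz) + (starRingEnd ℂ) (P0 z) * h1
  have hsumle : 2 * δ * Cv * 4 + C1 * Real.sqrt s * (Cv + 1) * 4 + C2 * (2 * β + 2 * β / Real.sqrt s) * 4 +
      C1 * Real.sqrt (2 * β) * 4 * 2 ≤ μ := by linarith
  have hC1s : 0 ≤ C1 * Real.sqrt s := by positivity
  have hC2s : 0 ≤ C2 * (2 * β + 2 * β / Real.sqrt s) := by positivity
  have hC1b : 0 ≤ C1 * Real.sqrt (2 * β) := by positivity
  -- multiplier bounds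
  have hvMB : ∀ (N : ℕ) [NeZero N], IM.MB Cv (fun j : ZMod N => v (IM.E j)) :=
    fun N _ => hCv N n L hn4 hn5 hLpi
  have hPsiMB : ∀ (N : ℕ) [NeZero N], IM.MB 4 (fun j : ZMod N => PG (IM.E j) * (starRingEnd ℂ) (P0 (IM.E j))) :=
    fun N _ => MB_of_TN hPsiTN N
  have hUMB : ∀ (N : ℕ) [NeZero N], IM.MB (5 * Cv) (fun j : ZMod N => U (IM.E j)) := by
    intro N _
    have h1 := MB_of_TN (TN_mono (TN_add hl0 (TN_const 0 1)) (by rw [norm_one]; linarith : δ + ‖(1:ℂ)‖ ≤ 1 + 1 / 100)) N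
    have h2 := IM.MB.mul (by norm_num) h1 (IM.MB.mul (by linarith) (hvMB N) (hPsiMB N))
    refine (h2.mono (by linarith)).congr fun j => ?_
    rw [hUv _ (IM.E_norm j)]; ring
  have hUMBμ : ∀ (N : ℕ) [NeZero N], IM.MB μ (fun j : ZMod N => (1 - IM.E j) * (U (IM.E j) - 1)) := by
    intro N _
    have h1 := IM.MB.mul (TN_nonneg hT1TN) (MB_of_TN hT1TN N) (IM.MB.mul (by linarith) (hvMB N) (hPsiMB N))
    have h2a : IM.MB (Cv + 1) (fun j : ZMod N => v (IM.E j) - 1) := by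
      have h3 := (hvMB N).add (IM.MB.const (N := N) (-1 : ℂ))
      refine (h3.mono (by simp)).congr fun j => by ring
    have h2 := IM.MB.mul (TN_nonneg hT2TN) (MB_of_TN hT2TN N) (IM.MB.mul (by linarith) h2a (hPsiMB N))
    have h3 := IM.MB.mul (TN_nonneg hT3TN) (MB_of_TN hT3TN N) (hPsiMB N)
    have h4a := MB_of_TN (TN_mul (TN_sub hPGTN hP0TN) (TN_conj hP0TN)) N
    have h4 := IM.MB.mul (TN_nonneg hT4TN) (MB_of_TN hT4TN N) h4a
    refine ((((h1.add h2).add h3).add h4).mono ?_).congr fun j => ?_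
    · linarith
    · rw [hdec _ (IM.E_norm j)]
  have hUsup : ∀ z : ℂ, ‖z‖ = 1 → ‖(1 - z) * (U z - 1)‖ ≤ μ := by
    intro z hz
    rw [hdec z hz]
    have e1 := TN_bound hT1TN hz
    have e2 := TN_bound hT2TN hz
    have e3 := TN_bound hT3TN hz
    have e4 := TN_bound hT4TN hz
    have f0 : ‖PG z * (starRingEnd ℂ) (P0 z)‖ = 1 := by
      rw [norm_mul, RCLike.norm_conj, hPGn z hz, hP0n z hz, one_mul]
    have f1 : ‖v z * (PG z * (starRingEnd ℂ) (P0 z))‖ = 1 := by rw [norm_mul, f0, hvn z hz, one_mul]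
    have f2 : ‖(v z - 1) * (PG z * (starRingEnd ℂ) (P0 z))‖ ≤ 2 := by
      rw [norm_mul, f0, mul_one]
      refine (norm_sub_le _ _).trans ?_
      rw [hvn z hz, norm_one]; norm_num
    have f3 : ‖(PG z - P0 z) * (starRingEnd ℂ) (P0 z)‖ ≤ 2 := by
      rw [norm_mul, RCLike.norm_conj, hP0n z hz, mul_one]
      refine (norm_sub_le _ _).trans ?_
      rw [hPGn z hz, hP0n z hz]; norm_num
    have g1 : ‖T1 z * (v z * (PG z * (starRingEnd ℂ) (P0 z)))‖ ≤ 2 * δ := by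
      rw [norm_mul, f1, mul_one]; exact e1
    have g2 : ‖T2 z * ((v z - 1) * (PG z * (starRingEnd ℂ) (P0 z)))‖ ≤ C1 * Real.sqrt s * 2 := by
      rw [norm_mul]; exact mul_le_mul e2 f2 (norm_nonneg _) hC1s
    have g3 : ‖T3 z * (PG z * (starRingEnd ℂ) (P0 z))‖ ≤ C2 * (2 * β + 2 * β / Real.sqrt s) := by
      rw [norm_mul, f0, mul_one]; exact e3
    have g4 : ‖T4 z * ((PG z - P0 z) * (starRingEnd ℂ) (P0 z))‖ ≤ C1 * Real.sqrt (2 * β) * 2 := by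
      rw [norm_mul]; exact mul_le_mul e4 f3 (norm_nonneg _) hC1b
    have k1 : 2 * δ ≤ 2 * δ * Cv * 4 := by nlinarith
    have k2 : C1 * Real.sqrt s * 2 ≤ C1 * Real.sqrt s * (Cv + 1) * 4 := by nlinarith
    calc _ ≤ _ := norm_add_le _ _
      _ ≤ _ := add_le_add_left (norm_add_le _ _) _
      _ ≤ _ := add_le_add_left (add_le_add_left (norm_add_le _ _) _) _
      _ ≤ μ := by linarith
  -- the almost analytic function
  set f : ℂ → ℂ := fun z => B z * ((starRingEnd ℂ) (sg a a' z) * U z) with hf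
  have hfn : ∀ z : ℂ, ‖z‖ = 1 → ‖f z‖ = 1 := by
    intro z hz
    simp only [hf]
    rw [norm_mul, norm_mul, RCLike.norm_conj, hB1 z hz, norm_sg a a' hz, hUn z hz]; norm_num
  have hfTN : TN 0 (A1 * (L : ℝ) ^ 3) f := by
    refine TN_mono (TN_mul hBTN (TN_mul (TN_conj hs) hUTN)) ?_
    calc cB * (cs * (2 * (CP' * (L : ℝ) ^ 3 * 4))) = (cB * (cs * (2 * (CP' * 2) * 2))) * (L : ℝ) ^ 3 := by ring
      _ ≤ A1 * (L : ℝ) ^ 3 := by gcongr; exact le_max_right _ _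
  have hL31 : (1:ℝ) ≤ (L : ℝ) ^ 3 := one_le_pow₀ (by linarith)
  have hpAN : ∃ c, AN c (fun z => B z * (Kp z * v z + pD z)) :=
    ⟨_, W702.AN_mul hBAN (W702.AN_add (W702.AN_mul hKAN (hCP L n hLP' (by omega))) hpD)⟩
  obtain ⟨cp, hpAN⟩ := hpAN
  have hqTN : TN 0 (cB * (CX / (L : ℝ) ^ 4)) (fun z => B z * qD z) := TN_mul hBTN hqD
  have hfpq : ∀ z : ℂ, ‖z‖ = 1 → f z = B z * (Kp z * v z + pD z) + B z * qD z := by
    intro z hz
    simp only [hf, hU]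
    rw [hpq z hz]; ring
  have hsm : A1 * (L : ℝ) ^ 3 * (cB * (CX / (L : ℝ) ^ 4)) = A1 * (cB * CX) / L := by
    field_simp
  have hsmall : 20 * (A1 * (L : ℝ) ^ 3 * (cB * (CX / (L : ℝ) ^ 4))) ≤ 1 := by
    rw [hsm, ← mul_div_assoc, div_le_one hLpos]; exact hL6.le
  obtain ⟨B', t, hB'AN, hB'le, hB'1, ht, hB't⟩ := correction hfTN hfn hpAN hqTN hfpq (by nlinarith) hsmall
  refine ⟨U, t, B', ⟨_, hUTN⟩, hUn, hU1, hUMB, hUMBμ, hUsup, TN_mono ht ?_, hB'AN, hB'le, hB'1, ?_⟩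
  · rw [hsm, ← mul_div_assoc, div_le_iff₀ hLpos]
    rw [div_lt_iff₀ htol] at hL7
    linarith
  · intro z hz
    rw [hB't z hz]
    simp only [hf]
    linear_combination (B z * U z * (1 + t z)) * conj_sg_tau a a' hz

end VG
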