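import Mathlib
import Pool.Agent.MP58366f.Defs

set_option autoImplicit false
open Finset

namespace VG

/-- `f` is on the unit circle the sum of a two-sided Fourier series whose weighted ℓ¹ norm
(weight `(1+|n|)^m`) is at most `c`. -/
def TN (m : ℕ) (c : ℝ) (f : ℂ → ℂ) : Prop :=
  ∃ k : ℤ → ℂ, Summable (fun n : ℤ => ‖k n‖ * (1 + |(n : ℝ)|) ^ m) ∧
    ∑' n : ℤ, ‖k n‖ * (1 + |(n : ℝ)|) ^ m ≤ c ∧ ∀ z : ℂ, ‖z‖ = 1 → f z = ∑' n : ℤ, k n * z ^ n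

/-- smooth cutoff: equal to `1` if `‖1 - z‖ ≤ s/2` and to `0` if `‖1 - z‖ ≥ s` -/
noncomputable def cut (s : ℝ) (z : ℂ) : ℂ :=
  ((Real.smoothTransition ((1 - ‖1 - z‖ ^ 2 / s ^ 2) * (4 / 3)) : ℝ) : ℂ)

/-- on the unit circle: `exp (-(1+z)/(1-z))` cut off near `z = 1` -/
noncomputable def tau (s : ℝ) (z : ℂ) : ℂ :=
  Complex.exp (-((1 - cut s z) * ((1 + z) / (1 - z))))

/-- `K` further factors of the full lattice product, complementary to `vB η n L` when `L = 2 * n + K` -/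
noncomputable def vC (η : ℝ) (n K : ℕ) (L : ℝ) (z : ℂ) : ℂ :=
  ∏ k ∈ range K,
    ((((1 - Real.pi * η / L) / (1 + Real.pi * η / L) : ℝ) : ℂ)
        - Complex.exp (-(2 * Real.pi * Complex.I * (((2 * n + k : ℕ) : ℂ) - n + 1 / 2) / L)) * z)
    / (1 - (((1 - Real.pi * η / L) / (1 + Real.pi * η / L) : ℝ) : ℂ)
        * Complex.exp (-(2 * Real.pi * Complex.I * (((2 * n + k : ℕ) : ℂ) - n + 1 / 2) / L)) * z)

end VG
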