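import Pool.Agent.Helper859.VG.Defs
set_option autoImplicit false
open Finset

namespace VG

/-! TARGETS -/
section given
variable {m : ℕ} {c c' : ℝ} {f g : ℂ → ℂ}

theorem w_one733 (m : ℕ) (n : ℤ) : 1 ≤ (1 + |(n : ℝ)|) ^ m :=
  one_le_pow₀ (by linarith [abs_nonneg (n : ℝ)])

theorem w_pos733 (m : ℕ) (n : ℤ) : 0 < (1 + |(n : ℝ)|) ^ m :=
  lt_of_lt_of_le one_pos (w_one733 m n)

theorem w_mul733 (m : ℕ) (a b n : ℤ) (h : n = a + b) :
    (1 + |(n : ℝ)|) ^ m ≤ (1 + |(a : ℝ)|) ^ m * (1 + |(b : ℝ)|) ^ m := by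
  rw [← mul_pow]
  apply pow_le_pow_left₀ (by positivity)
  rw [h]
  push_cast
  have h1 := abs_add_le (a : ℝ) (b : ℝ)
  have h2 : 0 ≤ |(a : ℝ)| * |(b : ℝ)| := by positivity
  nlinarith

theorem summable_norm733 {k : ℤ → ℂ} (h : Summable (fun n : ℤ => ‖k n‖ * (1 + |(n : ℝ)|) ^ m)) :
    Summable (fun n => ‖k n‖) :=
  Summable.of_nonneg_of_le (fun n => norm_nonneg _)
    (fun n => le_mul_of_one_le_right (norm_nonneg _) (w_one733 m n)) h

theorem norm_term733 (k : ℤ → ℂ) {z : ℂ} (hz : ‖z‖ = 1) (n : ℤ) : ‖k n * z ^ n‖ = ‖k n‖ := by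
  rw [norm_mul, norm_zpow, hz, one_zpow, mul_one]

theorem summable_term733 {k : ℤ → ℂ} (h : Summable (fun n => ‖k n‖)) {z : ℂ} (hz : ‖z‖ = 1) :
    Summable (fun n : ℤ => k n * z ^ n) := by
  apply Summable.of_norm
  refine h.congr (fun n => ?_)
  rw [norm_term733 k hz]

theorem TN_nonneg (h : TN m c f) : 0 ≤ c := by
  obtain ⟨k, -, hk, -⟩ := h
  exact le_trans (tsum_nonneg (fun n => mul_nonneg (norm_nonneg _) (w_pos733 m n).le)) hk

theorem TN_bound (h : TN m c f) {z : ℂ} (hz : ‖z‖ = 1) : ‖f z‖ ≤ c := by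
  obtain ⟨k, hs, hk, hf⟩ := h
  rw [hf z hz]
  have hs' := summable_norm733 hs
  calc ‖∑' n : ℤ, k n * z ^ n‖ ≤ ∑' n : ℤ, ‖k n * z ^ n‖ := by
        apply norm_tsum_le_tsum_norm
        exact hs'.congr (fun n => (norm_term733 k hz n).symm)
    _ = ∑' n : ℤ, ‖k n‖ := tsum_congr (fun n => norm_term733 k hz n)
    _ ≤ ∑' n : ℤ, ‖k n‖ * (1 + |(n : ℝ)|) ^ m := by
        apply Summable.tsum_le_tsum _ hs' hs
        exact fun n => le_mul_of_one_le_right (norm_nonneg _) (w_one733 m n)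
    _ ≤ c := hk

theorem TN_mono (h : TN m c f) (hc : c ≤ c') : TN m c' f := by
  obtain ⟨k, hs, hk, hf⟩ := h
  exact ⟨k, hs, hk.trans hc, hf⟩

theorem TN_weight {m' : ℕ} (h : TN m c f) (hm : m' ≤ m) : TN m' c f := by
  obtain ⟨k, hs, hk, hf⟩ := h
  have hle : ∀ n : ℤ, ‖k n‖ * (1 + |(n : ℝ)|) ^ m' ≤ ‖k n‖ * (1 + |(n : ℝ)|) ^ m := by
    intro n
    apply mul_le_mul_of_nonneg_left _ (norm_nonneg _)
    exact pow_le_pow_right₀ (by linarith [abs_nonneg (n : ℝ)]) hm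
  have hs' : Summable (fun n : ℤ => ‖k n‖ * (1 + |(n : ℝ)|) ^ m') :=
    Summable.of_nonneg_of_le (fun n => mul_nonneg (norm_nonneg _) (w_pos733 m' n).le) hle hs
  exact ⟨k, hs', (hs'.tsum_le_tsum hle hs).trans hk, hf⟩

theorem TN_congr (h : TN m c f) (hg : ∀ z : ℂ, ‖z‖ = 1 → g z = f z) : TN m c g := by
  obtain ⟨k, hs, hk, hf⟩ := h
  exact ⟨k, hs, hk, fun z hz => by rw [hg z hz, hf z hz]⟩

theorem TN_add (hf : TN m c f) (hg : TN m c' g) : TN m (c + c') (fun z => f z + g z) := by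
  obtain ⟨k, hs, hk, hf⟩ := hf
  obtain ⟨l, ht, hl, hg⟩ := hg
  have hle : ∀ n : ℤ, ‖k n + l n‖ * (1 + |(n : ℝ)|) ^ m ≤
      ‖k n‖ * (1 + |(n : ℝ)|) ^ m + ‖l n‖ * (1 + |(n : ℝ)|) ^ m := by
    intro n
    rw [← add_mul]
    exact mul_le_mul_of_nonneg_right (norm_add_le _ _) (w_pos733 m n).le
  have hs' : Summable (fun n : ℤ => ‖k n + l n‖ * (1 + |(n : ℝ)|) ^ m) :=
    Summable.of_nonneg_of_le (fun n => mul_nonneg (norm_nonneg _) (w_pos733 m n).le) hle (hs.add ht)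
  refine ⟨fun n => k n + l n, hs', ?_, ?_⟩
  · calc _ ≤ ∑' n : ℤ, (‖k n‖ * (1 + |(n : ℝ)|) ^ m + ‖l n‖ * (1 + |(n : ℝ)|) ^ m) :=
        hs'.tsum_le_tsum hle (hs.add ht)
      _ = _ := hs.tsum_add ht
      _ ≤ c + c' := add_le_add hk hl
  · intro z hz
    show f z + g z = _
    rw [hf z hz, hg z hz, ← (summable_term733 (summable_norm733 hs) hz).tsum_add
      (summable_term733 (summable_norm733 ht) hz)]
    exact tsum_congr (fun n => by ring)

theorem TN_neg733 (hf : TN m c f) : TN m c (fun z => - f z) := by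
  obtain ⟨k, hs, hk, hf⟩ := hf
  refine ⟨fun n => - k n, by simpa using hs, by simpa using hk, ?_⟩
  intro z hz
  show - f z = _
  rw [hf z hz, ← tsum_neg]
  exact tsum_congr (fun n => by ring)

theorem TN_sub (hf : TN m c f) (hg : TN m c' g) : TN m (c + c') (fun z => f z - g z) := by
  refine TN_congr (TN_add hf (TN_neg733 hg)) ?_
  intro z _
  ring

/-- the shear -/
def shear733 : ℤ × ℤ ≃ ℤ × ℤ where
  toFun p := (p.2, p.1 - p.2)
  invFun p := (p.1 + p.2, p.1)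
  left_inv p := by ext <;> simp
  right_inv p := by ext <;> simp

theorem TN_mul (hf : TN m c f) (hg : TN m c' g) : TN m (c * c') (fun z => f z * g z) := by
  have hc0 := TN_nonneg hf
  have hc0' := TN_nonneg hg
  obtain ⟨k, hs, hk, hf⟩ := hf
  obtain ⟨l, ht, hl, hg⟩ := hg
  set K : ℤ → ℝ := fun n => ‖k n‖ * (1 + |(n : ℝ)|) ^ m with hK
  set L : ℤ → ℝ := fun n => ‖l n‖ * (1 + |(n : ℝ)|) ^ m with hL
  have hK0 : ∀ n, 0 ≤ K n := fun n => mul_nonneg (norm_nonneg _) (w_pos733 m n).le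
  have hL0 : ∀ n, 0 ≤ L n := fun n => mul_nonneg (norm_nonneg _) (w_pos733 m n).le
  have hKL : Summable (fun p : ℤ × ℤ => K p.1 * L p.2) := hs.mul_of_nonneg ht hK0 hL0
  have hKL' : Summable (fun p : ℤ × ℤ => K p.2 * L (p.1 - p.2)) :=
    (shear733.summable_iff (f := fun p : ℤ × ℤ => K p.1 * L p.2)).2 hKL
  have hsec : ∀ n : ℤ, Summable (fun i : ℤ => K i * L (n - i)) := fun n => hKL'.prod_factor n
  have hle : ∀ n i : ℤ, ‖k i * l (n - i)‖ * (1 + |(n : ℝ)|) ^ m ≤ K i * L (n - i) := by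
    intro n i
    rw [norm_mul, hK, hL]
    have h := w_mul733 m i (n - i) n (by ring)
    calc ‖k i‖ * ‖l (n - i)‖ * (1 + |(n : ℝ)|) ^ m
        ≤ ‖k i‖ * ‖l (n - i)‖ * ((1 + |(i : ℝ)|) ^ m * (1 + |((n - i : ℤ) : ℝ)|) ^ m) :=
          mul_le_mul_of_nonneg_left h (by positivity)
      _ = _ := by ring
  have hsec1 : ∀ n : ℤ, Summable (fun i : ℤ => ‖k i * l (n - i)‖ * (1 + |(n : ℝ)|) ^ m) := fun n =>
    Summable.of_nonneg_of_le (fun i => mul_nonneg (norm_nonneg _) (w_pos733 m n).le) (hle n) (hsec n)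
  have hsec2 : ∀ n : ℤ, Summable (fun i : ℤ => ‖k i * l (n - i)‖) := by
    intro n
    refine (summable_mul_right_iff (w_pos733 m n).ne').1 (hsec1 n)
  have hnorm : ∀ n : ℤ, ‖∑' i : ℤ, k i * l (n - i)‖ * (1 + |(n : ℝ)|) ^ m ≤
      ∑' i : ℤ, K i * L (n - i) := by
    intro n
    calc ‖∑' i : ℤ, k i * l (n - i)‖ * (1 + |(n : ℝ)|) ^ m
        ≤ (∑' i : ℤ, ‖k i * l (n - i)‖) * (1 + |(n : ℝ)|) ^ m :=
          mul_le_mul_of_nonneg_right (norm_tsum_le_tsum_norm (hsec2 n)) (w_pos733 m n).le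
      _ = ∑' i : ℤ, ‖k i * l (n - i)‖ * (1 + |(n : ℝ)|) ^ m := by rw [tsum_mul_right]
      _ ≤ _ := (hsec1 n).tsum_le_tsum (hle n) (hsec n)
  have hS : Summable (fun n : ℤ => ∑' i : ℤ, K i * L (n - i)) := hKL'.prod
  have hS1 : Summable (fun n : ℤ => ‖∑' i : ℤ, k i * l (n - i)‖ * (1 + |(n : ℝ)|) ^ m) :=
    Summable.of_nonneg_of_le (fun n => mul_nonneg (norm_nonneg _) (w_pos733 m n).le) hnorm hS
  refine ⟨fun n => ∑' i : ℤ, k i * l (n - i), hS1, ?_, ?_⟩
  · calc _ ≤ ∑' n : ℤ, ∑' i : ℤ, K i * L (n - i) := hS1.tsum_le_tsum hnorm hS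
      _ = ∑' p : ℤ × ℤ, K p.2 * L (p.1 - p.2) := (hKL'.tsum_prod).symm
      _ = ∑' p : ℤ × ℤ, K p.1 * L p.2 := shear733.tsum_eq (fun p : ℤ × ℤ => K p.1 * L p.2)
      _ = ∑' i : ℤ, ∑' j : ℤ, K i * L j := hKL.tsum_prod
      _ = (∑' i : ℤ, K i) * (∑' j : ℤ, L j) := by
          rw [← tsum_mul_right]
          exact tsum_congr (fun i => tsum_mul_left)
      _ ≤ c * c' := mul_le_mul hk hl (tsum_nonneg hL0) hc0
  · intro z hz
    show f z * g z = _
    have hz0 : z ≠ 0 := by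
      intro h; rw [h, norm_zero] at hz; exact zero_ne_one hz
    have h1 := summable_term733 (summable_norm733 hs) hz
    have h2 := summable_term733 (summable_norm733 ht) hz
    rw [hf z hz, hg z hz, tsum_mul_tsum_of_summable_norm h1.norm h2.norm]
    rw [← shear733.tsum_eq (fun p : ℤ × ℤ => k p.1 * z ^ p.1 * (l p.2 * z ^ p.2))]
    have h3 : Summable (fun p : ℤ × ℤ => k p.1 * z ^ p.1 * (l p.2 * z ^ p.2)) :=
      summable_mul_of_summable_norm (f := fun n : ℤ => k n * z ^ n) (g := fun n : ℤ => l n * z ^ n)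
        h1.norm h2.norm
    have h4 := (shear733.summable_iff (f := fun p : ℤ × ℤ => k p.1 * z ^ p.1 * (l p.2 * z ^ p.2))).2 h3
    have h5 : Summable (fun p : ℤ × ℤ => k (shear733 p).1 * z ^ (shear733 p).1 * (l (shear733 p).2 * z ^ (shear733 p).2)) := h4
    rw [h5.tsum_prod]
    apply tsum_congr
    intro n
    rw [← tsum_mul_right]
    apply tsum_congr
    intro i
    show k i * z ^ i * (l (n - i) * z ^ (n - i)) = k i * l (n - i) * z ^ n
    have : z ^ n = z ^ i * z ^ (n - i) := by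
      rw [← zpow_add₀ hz0]; congr 1; ring
    rw [this]; ring

theorem TN_single733 (m : ℕ) (n : ℤ) (a : ℂ) :
    TN m (‖a‖ * (1 + |(n : ℝ)|) ^ m) (fun z => a * z ^ n) := by
  have e : (fun j : ℤ => ‖(if j = n then a else 0 : ℂ)‖ * (1 + |(j : ℝ)|) ^ m) =
      fun j : ℤ => if j = n then ‖a‖ * (1 + |(n : ℝ)|) ^ m else 0 := by
    funext j
    split_ifs with h
    · rw [h]
    · simp
  refine ⟨fun j => if j = n then a else 0, ?_, ?_, ?_⟩
  · rw [e]
    exact (hasSum_ite_eq n _).summable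
  · show ∑' j : ℤ, ‖(if j = n then a else 0 : ℂ)‖ * (1 + |(j : ℝ)|) ^ m ≤ _
    rw [e, tsum_ite_eq]
  · intro z hz
    show a * z ^ n = ∑' j : ℤ, (if j = n then a else 0 : ℂ) * z ^ j
    have e2 : (fun j : ℤ => (if j = n then a else 0 : ℂ) * z ^ j) =
        fun j : ℤ => if j = n then a * z ^ n else 0 := by
      funext j
      split_ifs with h
      · rw [h]
      · simp
    rw [e2, tsum_ite_eq]

theorem TN_const (m : ℕ) (a : ℂ) : TN m ‖a‖ (fun _ => a) := by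
  have h := TN_single733 m 0 a
  simpa using h

theorem TN_zpow (m : ℕ) (n : ℤ) : TN m ((1 + |(n : ℝ)|) ^ m) (fun z => z ^ n) := by
  have h := TN_single733 m n 1
  simpa using h

theorem TN_conj (h : TN m c f) : TN m c (fun z => (starRingEnd ℂ) (f z)) := by
  obtain ⟨k, hs, hk, hf⟩ := h
  have e : (fun n : ℤ => ‖(starRingEnd ℂ) (k (-n))‖ * (1 + |(n : ℝ)|) ^ m) =
      (fun n : ℤ => ‖k n‖ * (1 + |(n : ℝ)|) ^ m) ∘ (Equiv.neg ℤ) := by
    funext n
    simp
  refine ⟨fun n => (starRingEnd ℂ) (k (-n)), ?_, ?_, ?_⟩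
  · rw [e]
    exact (Equiv.neg ℤ).summable_iff.2 hs
  · show ∑' n : ℤ, ‖(starRingEnd ℂ) (k (-n))‖ * (1 + |(n : ℝ)|) ^ m ≤ c
    rw [e]
    refine le_trans (le_of_eq ?_) hk
    exact (Equiv.neg ℤ).tsum_eq (fun n : ℤ => ‖k n‖ * (1 + |(n : ℝ)|) ^ m)
  · intro z hz
    show (starRingEnd ℂ) (f z) = ∑' n : ℤ, (starRingEnd ℂ) (k (-n)) * z ^ n
    rw [hf z hz, Complex.conj_tsum, ← (Equiv.neg ℤ).tsum_eq]
    apply tsum_congr
    intro n
    rw [map_mul, map_zpow₀]
    congr 1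
    have hinv : (starRingEnd ℂ) z = z⁻¹ := by
      rw [Complex.inv_def, Complex.normSq_eq_norm_sq, hz]
      simp
    rw [hinv]
    simp

theorem TN_of_AN (h : AN c f) : TN 0 c f := by
  obtain ⟨k, hs, hk, hf⟩ := h
  set k' : ℤ → ℂ := fun n => if 0 ≤ n then k n.toNat else 0 with hk'
  have hk'n : ∀ n : ℕ, k' (n : ℤ) = k n := by
    intro n
    simp [hk']
  have hk'0 : ∀ n : ℤ, n ∉ Set.range (Nat.cast : ℕ → ℤ) → k' n = 0 := by
    intro n hn
    simp only [hk']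
    rw [if_neg]
    intro h0
    exact hn ⟨n.toNat, Int.toNat_of_nonneg h0⟩
  have hinj : Function.Injective (Nat.cast : ℕ → ℤ) := Nat.cast_injective
  have e1 : (fun n : ℤ => ‖k' n‖ * (1 + |(n : ℝ)|) ^ 0) = fun n => ‖k' n‖ := by
    funext n; simp
  refine ⟨k', ?_, ?_, ?_⟩
  · rw [e1]
    rw [← hinj.summable_iff (by intro x hx; simp [hk'0 x hx])]
    refine hs.congr (fun n => ?_)
    simp [hk'n]
  · rw [e1]
    rw [← hinj.tsum_eq (by
      intro x hx
      by_contra hcon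
      exact hx (by simp [hk'0 x hcon]))]
    refine le_trans (le_of_eq (tsum_congr (fun n => ?_))) hk
    rw [hk'n]
  · intro z hz
    rw [hf z hz.le]
    rw [← hinj.tsum_eq (f := fun n : ℤ => k' n * z ^ n) (by
      intro x hx
      by_contra hcon
      exact hx (by simp [hk'0 x hcon]))]
    apply tsum_congr
    intro n
    rw [hk'n, zpow_natCast]

theorem TN_tsum {C : ℕ → ℝ} {F : ℕ → ℂ → ℂ} (h : ∀ j, TN m (C j) (F j)) (hc : Summable C) :
    TN m (∑' j, C j) (fun z => ∑' j, F j z) := by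
  choose k hs hk hF using h
  have hprod : Summable (fun p : ℕ × ℤ => ‖k p.1 p.2‖ * (1 + |(p.2 : ℝ)|) ^ m) := by
    rw [summable_prod_of_nonneg (fun p => mul_nonneg (norm_nonneg _) (w_pos733 m p.2).le)]
    refine ⟨hs, ?_⟩
    exact Summable.of_nonneg_of_le
      (fun j => tsum_nonneg (fun n => mul_nonneg (norm_nonneg _) (w_pos733 m n).le)) hk hc
  have hprod' : Summable (fun p : ℤ × ℕ => ‖k p.2 p.1‖ * (1 + |(p.1 : ℝ)|) ^ m) :=
    hprod.prod_symm
  have hsecw : ∀ n : ℤ, Summable (fun j : ℕ => ‖k j n‖ * (1 + |(n : ℝ)|) ^ m) :=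
    fun n => hprod'.prod_factor n
  have hsec : ∀ n : ℤ, Summable (fun j : ℕ => ‖k j n‖) := fun n =>
    (summable_mul_right_iff (w_pos733 m n).ne').1 (hsecw n)
  have hsum : Summable (fun n : ℤ => ∑' j : ℕ, ‖k j n‖ * (1 + |(n : ℝ)|) ^ m) := hprod'.prod
  have hle : ∀ n : ℤ, ‖∑' j : ℕ, k j n‖ * (1 + |(n : ℝ)|) ^ m ≤
      ∑' j : ℕ, ‖k j n‖ * (1 + |(n : ℝ)|) ^ m := by
    intro n
    rw [tsum_mul_right]
    exact mul_le_mul_of_nonneg_right (norm_tsum_le_tsum_norm (hsec n)) (w_pos733 m n).le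
  have hS : Summable (fun n : ℤ => ‖∑' j : ℕ, k j n‖ * (1 + |(n : ℝ)|) ^ m) :=
    Summable.of_nonneg_of_le (fun n => mul_nonneg (norm_nonneg _) (w_pos733 m n).le) hle hsum
  refine ⟨fun n => ∑' j : ℕ, k j n, hS, ?_, ?_⟩
  · calc _ ≤ ∑' n : ℤ, ∑' j : ℕ, ‖k j n‖ * (1 + |(n : ℝ)|) ^ m := hS.tsum_le_tsum hle hsum
      _ = ∑' j : ℕ, ∑' n : ℤ, ‖k j n‖ * (1 + |(n : ℝ)|) ^ m :=
          Summable.tsum_comm (f := fun j n => ‖k j n‖ * (1 + |(n : ℝ)|) ^ m) hprod
      _ ≤ ∑' j, C j := by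
          refine Summable.tsum_le_tsum hk ?_ hc
          exact hprod.prod
  · intro z hz
    show ∑' j, F j z = ∑' n : ℤ, (∑' j : ℕ, k j n) * z ^ n
    have h1 : Summable (Function.uncurry fun (j : ℕ) (n : ℤ) => k j n * z ^ n) := by
      apply Summable.of_norm
      refine Summable.of_nonneg_of_le (fun p => norm_nonneg _) ?_ hprod
      rintro ⟨j, n⟩
      show ‖k j n * z ^ n‖ ≤ ‖k j n‖ * (1 + |(n : ℝ)|) ^ m
      rw [norm_term733 (k j) hz]
      exact le_mul_of_one_le_right (norm_nonneg _) (w_one733 m n)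
    calc ∑' j, F j z = ∑' j, ∑' n : ℤ, k j n * z ^ n := tsum_congr (fun j => hF j z hz)
      _ = ∑' n : ℤ, ∑' j, k j n * z ^ n := (Summable.tsum_comm h1).symm
      _ = _ := tsum_congr (fun n => tsum_mul_right)

theorem TN_pow (h : TN m c f) (j : ℕ) : TN m (c ^ j) (fun z => f z ^ j) := by
  induction j with
  | zero =>
    have := TN_const m (1 : ℂ)
    simpa using this
  | succ j ih =>
    have := TN_mul ih h
    simp only [pow_succ]
    exact this

/-- uniqueness of Fourier coefficients -/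
theorem coeff_unique {k k' : ℤ → ℂ} (hk : Summable fun n => ‖k n‖) (hk' : Summable fun n => ‖k' n‖)
    (h : ∀ z : ℂ, ‖z‖ = 1 → ∑' n : ℤ, k n * z ^ n = ∑' n : ℤ, k' n * z ^ n) : k = k' := by
  funext j
  have hzero : ∀ z : ℂ, ‖z‖ = 1 → ∑' n : ℤ, (k n - k' n) * z ^ (n - j) = 0 := by
    intro z hz
    have hz0 : z ≠ 0 := by
      intro h; rw [h, norm_zero] at hz; exact zero_ne_one hz
    have h1 := (summable_term733 hk hz)
    have h2 := (summable_term733 hk' hz)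
    have h3 : ∑' n : ℤ, (k n * z ^ n - k' n * z ^ n) = 0 := by
      rw [h1.tsum_sub h2, h z hz, sub_self]
    calc ∑' n : ℤ, (k n - k' n) * z ^ (n - j) = ∑' n : ℤ, (k n * z ^ n - k' n * z ^ n) * z ^ (-j) := by
          apply tsum_congr
          intro n
          rw [sub_eq_add_neg n j, zpow_add₀ hz0]; ring
      _ = 0 := by rw [tsum_mul_right, h3, zero_mul]
  have hint : ∀ n : ℤ, ∫ θ in (0:ℝ)..(2 * Real.pi), (k n - k' n) * (Complex.exp (θ * Complex.I)) ^ (n - j) =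
      if n = j then (2 * Real.pi) * (k j - k' j) else 0 := by
    intro n
    have e : ∀ θ : ℝ, (Complex.exp (θ * Complex.I)) ^ (n - j) = Complex.exp ((((n - j : ℤ) : ℂ) * Complex.I) * θ) := by
      intro θ
      rw [← Complex.exp_int_mul]; congr 1; ring
    simp_rw [e]
    rw [intervalIntegral.integral_const_mul]
    split_ifs with hn
    · rw [hn]
      simp
      ring
    · have hne : (((n - j : ℤ) : ℂ) * Complex.I) ≠ 0 := by
        apply mul_ne_zero _ Complex.I_ne_zero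
        exact_mod_cast sub_ne_zero.2 hn
      rw [integral_exp_mul_complex hne]
      have e2 : Complex.exp ((((n - j : ℤ) : ℂ) * Complex.I) * ((2 * Real.pi : ℝ) : ℂ)) = 1 := by
        rw [Complex.exp_eq_one_iff]
        exact ⟨n - j, by push_cast; ring⟩
      rw [e2]
      simp
  have hsumm : Summable (fun n : ℤ => ∫ θ, ‖(k n - k' n) * (Complex.exp (θ * Complex.I)) ^ (n - j)‖
      ∂(MeasureTheory.volume.restrict (Set.Ioc (0:ℝ) (2 * Real.pi)))) := by
    have e : ∀ n : ℤ, (∫ θ, ‖(k n - k' n) * (Complex.exp ((θ : ℝ) * Complex.I)) ^ (n - j)‖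
      ∂(MeasureTheory.volume.restrict (Set.Ioc (0:ℝ) (2 * Real.pi)))) = ‖k n - k' n‖ * (2 * Real.pi) := by
      intro n
      have : ∀ θ : ℝ, ‖(k n - k' n) * (Complex.exp ((θ : ℝ) * Complex.I)) ^ (n - j)‖ = ‖k n - k' n‖ := by
        intro θ
        rw [norm_mul, norm_zpow, Complex.norm_exp_ofReal_mul_I, one_zpow, mul_one]
      simp_rw [this]
      rw [MeasureTheory.setIntegral_const]
      simp [Real.pi_pos.le, mul_comm]
    simp_rw [e]
    apply Summable.mul_right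
    exact Summable.of_nonneg_of_le (fun n => norm_nonneg _) (fun n => norm_sub_le _ _) (hk.add hk')
  have hInt : ∀ n : ℤ, MeasureTheory.Integrable
      (fun θ : ℝ => (k n - k' n) * (Complex.exp (θ * Complex.I)) ^ (n - j))
      (MeasureTheory.volume.restrict (Set.Ioc (0:ℝ) (2 * Real.pi))) := by
    intro n
    have hcont : Continuous (fun θ : ℝ => (k n - k' n) * (Complex.exp (θ * Complex.I)) ^ (n - j)) := by
      apply Continuous.mul continuous_const
      apply Continuous.zpow₀ (by fun_prop)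
      intro θ
      exact Or.inl (Complex.exp_ne_zero _)
    exact (hcont.integrableOn_Icc (a := 0) (b := 2 * Real.pi)).mono_set Set.Ioc_subset_Icc_self
  have hsum := MeasureTheory.hasSum_integral_of_summable_integral_norm hInt hsumm
  have hz : (∫ θ, ∑' n : ℤ, (k n - k' n) * (Complex.exp ((θ : ℝ) * Complex.I)) ^ (n - j)
      ∂(MeasureTheory.volume.restrict (Set.Ioc (0:ℝ) (2 * Real.pi)))) = 0 := by
    have : ∀ θ : ℝ, ∑' n : ℤ, (k n - k' n) * (Complex.exp ((θ : ℝ) * Complex.I)) ^ (n - j) = 0 := by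
      intro θ
      exact hzero _ (Complex.norm_exp_ofReal_mul_I θ)
    simp_rw [this]
    simp
  rw [hz] at hsum
  have hsum2 : HasSum (fun n : ℤ => if n = j then (2 * Real.pi) * (k j - k' j) else 0) 0 := by
    have hfun : (fun n : ℤ => if n = j then (2 * (Real.pi : ℂ)) * (k j - k' j) else 0) =
        fun n : ℤ => ∫ θ, (k n - k' n) * (Complex.exp ((θ : ℝ) * Complex.I)) ^ (n - j)
          ∂(MeasureTheory.volume.restrict (Set.Ioc (0:ℝ) (2 * Real.pi))) := by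
      funext n
      rw [← intervalIntegral.integral_of_le (by positivity)]
      exact (hint n).symm
    rw [hfun]
    exact hsum
  have huniq := hsum2.unique (hasSum_ite_eq j _)
  have hpi : (2 * (Real.pi : ℂ)) ≠ 0 := by
    simp [Real.pi_ne_zero]
  have h0 : k j - k' j = 0 := by
    rcases mul_eq_zero.1 huniq.symm with h | h
    · exact absurd h hpi
    · exact h
  exact sub_eq_zero.1 h0
end given

end VG
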