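import Pool.Agent.Helper859.VG.JA
set_option autoImplicit false
open Finset

namespace VG

/-! GIVEN toolbox (proved elsewhere; leave these sorries as they are, use them freely) -/
section given
variable {m : ℕ} {c c' : ℝ} {f g : ℂ → ℂ}
end given

/-! TARGETS -/
section targets
variable {m : ℕ} {c : ℝ} {f : ℂ → ℂ}

theorem B_exp_tsum (z : ℂ) : Complex.exp z = ∑' j : ℕ, (1 / (j.factorial : ℂ)) * z ^ j := by
  rw [Complex.exp_eq_exp_ℂ, ← (NormedSpace.expSeries_div_hasSum_exp (𝔸 := ℂ) z).tsum_eq]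
  congr 1
  funext j
  ring

theorem B_rexp_hasSum (c : ℝ) : HasSum (fun j : ℕ => ‖(1 / (j.factorial : ℂ))‖ * c ^ j) (Real.exp c) := by
  rw [Real.exp_eq_exp_ℝ]
  have h := NormedSpace.expSeries_div_hasSum_exp (𝔸 := ℝ) c
  have h2 : (fun j : ℕ => ‖(1 / (j.factorial : ℂ))‖ * c ^ j) = fun j : ℕ => c ^ j / (j.factorial : ℝ) := by
    funext j
    rw [norm_div, norm_one, Complex.norm_natCast]
    ring
  rw [h2]
  exact h

theorem TN_exp (h : TN m c f) : TN m (Real.exp c) (fun z => Complex.exp (f z)) := by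
  have h1 : ∀ j : ℕ, TN m (‖(1 / (j.factorial : ℂ))‖ * c ^ j)
      (fun z => (1 / (j.factorial : ℂ)) * f z ^ j) := fun j => TN_mul (TN_const m _) (TN_pow h j)
  have h2 := TN_tsum h1 (B_rexp_hasSum c).summable
  rw [(B_rexp_hasSum c).tsum_eq] at h2
  exact TN_congr h2 (fun z _ => B_exp_tsum (f z))

theorem TN_exp_sub_one (h : TN m c f) : TN m (Real.exp c - 1) (fun z => Complex.exp (f z) - 1) := by
  have h1 : ∀ j : ℕ, TN m (‖(1 / ((j + 1).factorial : ℂ))‖ * c ^ (j + 1))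
      (fun z => (1 / ((j + 1).factorial : ℂ)) * f z ^ (j + 1)) :=
    fun j => TN_mul (TN_const m _) (TN_pow h (j + 1))
  have h3 : HasSum (fun j : ℕ => ‖(1 / ((j + 1).factorial : ℂ))‖ * c ^ (j + 1)) (Real.exp c - 1) := by
    have := (hasSum_nat_add_iff' (f := fun j : ℕ => ‖(1 / (j.factorial : ℂ))‖ * c ^ j) 1).2
      (B_rexp_hasSum c)
    simpa using this
  have h2 := TN_tsum h1 h3.summable
  rw [h3.tsum_eq] at h2
  refine TN_congr h2 (fun z _ => ?_)
  have h4 : HasSum (fun j : ℕ => (1 / (j.factorial : ℂ)) * f z ^ j) (Complex.exp (f z)) := by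
    rw [Complex.exp_eq_exp_ℂ]
    have h' := NormedSpace.expSeries_div_hasSum_exp (𝔸 := ℂ) (f z)
    have h2 : (fun j : ℕ => (1 / (j.factorial : ℂ)) * f z ^ j) =
        fun j : ℕ => f z ^ j / (j.factorial : ℂ) := by
      funext j
      ring
    rw [h2]
    exact h'
  have := (hasSum_nat_add_iff' (f := fun j : ℕ => (1 / (j.factorial : ℂ)) * f z ^ j) 1).2 h4
  have h5 := this.tsum_eq
  rw [h5]
  simp

theorem TN_inv (h : TN m c f) (hc : c < 1) : TN m (1 / (1 - c)) (fun z => 1 / (1 - f z)) := by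
  have hc0 := TN_nonneg h
  have h2 := TN_tsum (fun j => TN_pow h j) (summable_geometric_of_lt_one hc0 hc)
  rw [tsum_geometric_of_lt_one hc0 hc] at h2
  rw [one_div]
  refine TN_congr h2 (fun z hz => ?_)
  rw [tsum_geometric_of_norm_lt_one ((TN_bound h hz).trans_lt hc), one_div]

theorem TN_log (h : TN m c f) (hc : c < 1) : TN m (c / (1 - c)) (fun z => Complex.log (1 + f z)) := by
  have hc0 := TN_nonneg h
  have h1 : ∀ j : ℕ, TN m (c ^ (j + 1))
      (fun z => ((-1) ^ (j + 1 + 1) / ((j + 1 : ℕ) : ℂ)) * f z ^ (j + 1)) := by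
    intro j
    refine TN_mono (TN_mul (TN_const m _) (TN_pow h (j + 1))) ?_
    rw [norm_div, norm_pow, norm_neg, norm_one, one_pow, Complex.norm_natCast]
    have h2 : (1 : ℝ) / ((j + 1 : ℕ) : ℝ) ≤ 1 := by
      rw [div_le_one (by positivity)]
      push_cast
      linarith [(Nat.cast_nonneg j : (0 : ℝ) ≤ j)]
    exact mul_le_of_le_one_left (pow_nonneg hc0 _) h2
  have h3 : HasSum (fun j : ℕ => c ^ (j + 1)) (c / (1 - c)) := by
    have := (hasSum_geometric_of_lt_one hc0 hc).mul_left c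
    simpa [pow_succ', div_eq_mul_inv] using this
  have h2 := TN_tsum h1 h3.summable
  rw [h3.tsum_eq] at h2
  refine TN_congr h2 (fun z hz => ?_)
  have h4 := Complex.hasSum_taylorSeries_log ((TN_bound h hz).trans_lt hc)
  have h5 := (hasSum_nat_add_iff' (f := fun n : ℕ => (-1) ^ (n + 1) * f z ^ n / n) 1).2 h4
  have h6 := h5.tsum_eq
  simp only [Finset.range_one, Finset.sum_singleton, Nat.cast_zero, div_zero, sub_zero] at h6
  rw [← h6]
  congr 1
  funext j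
  ring


/-! convolution with weights -/

theorem B_w4 (i j : ℤ) : (1 + |((i + j : ℤ) : ℝ)|) ^ 4 ≤ 8 * ((1 + |(i : ℝ)|) ^ 4 + (1 + |(j : ℝ)|) ^ 4) := by
  have h1 : |((i + j : ℤ) : ℝ)| ≤ |(i : ℝ)| + |(j : ℝ)| := by
    push_cast
    exact abs_add_le _ _
  set a := 1 + |(i : ℝ)| with ha
  set b := 1 + |(j : ℝ)| with hb
  have ha0 : 0 ≤ a := by positivity
  have hb0 : 0 ≤ b := by positivity
  have h2 : 1 + |((i + j : ℤ) : ℝ)| ≤ a + b := by
    rw [ha, hb]
    linarith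
  have h3 : (1 + |((i + j : ℤ) : ℝ)|) ^ 4 ≤ (a + b) ^ 4 :=
    pow_le_pow_left₀ (by positivity) h2 4
  refine h3.trans ?_
  have h4 : (a + b) ^ 2 ≤ 2 * (a ^ 2 + b ^ 2) := by nlinarith [sq_nonneg (a - b)]
  have h5 : (a ^ 2 + b ^ 2) ^ 2 ≤ 2 * (a ^ 4 + b ^ 4) := by nlinarith [sq_nonneg (a ^ 2 - b ^ 2)]
  calc (a + b) ^ 4 = ((a + b) ^ 2) ^ 2 := by ring
    _ ≤ (2 * (a ^ 2 + b ^ 2)) ^ 2 := pow_le_pow_left₀ (by positivity) h4 2
    _ = 4 * (a ^ 2 + b ^ 2) ^ 2 := by ring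
    _ ≤ 4 * (2 * (a ^ 4 + b ^ 4)) := by linarith
    _ = 8 * (a ^ 4 + b ^ 4) := by ring

/-- change of index -/
def B_e : ℤ × ℤ ≃ ℤ × ℤ where
  toFun p := (p.2, p.1 - p.2)
  invFun p := (p.1 + p.2, p.1)
  left_inv p := by ext <;> simp
  right_inv p := by ext <;> simp

theorem B_one_le_w (n : ℤ) : (1 : ℝ) ≤ (1 + |(n : ℝ)|) ^ 4 :=
  one_le_pow₀ (by linarith [abs_nonneg (n : ℝ)])

theorem B_summable_of_w {k : ℤ → ℂ} (hk : Summable (fun n : ℤ => ‖k n‖ * (1 + |(n : ℝ)|) ^ 4)) :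
    Summable (fun n => ‖k n‖) :=
  hk.of_nonneg_of_le (fun n => norm_nonneg _)
    (fun n => le_mul_of_one_le_right (norm_nonneg _) (B_one_le_w n))

theorem B_hasSum_mul {f g : ℤ → ℝ} (hf : Summable f) (hg : Summable g) (hf0 : ∀ n, 0 ≤ f n)
    (hg0 : ∀ n, 0 ≤ g n) :
    HasSum (fun p : ℤ × ℤ => f p.1 * g p.2) ((∑' n, f n) * ∑' n, g n) :=
  hf.hasSum.mul hg.hasSum (hf.mul_of_nonneg hg hf0 hg0)

theorem B_conv {k l : ℤ → ℂ} {A B A4 B4 : ℝ}
    (hk : Summable (fun n : ℤ => ‖k n‖ * (1 + |(n : ℝ)|) ^ 4))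
    (hl : Summable (fun n : ℤ => ‖l n‖ * (1 + |(n : ℝ)|) ^ 4))
    (hA : ∑' n, ‖k n‖ ≤ A) (hB : ∑' n, ‖l n‖ ≤ B)
    (hA4 : ∑' n : ℤ, ‖k n‖ * (1 + |(n : ℝ)|) ^ 4 ≤ A4)
    (hB4 : ∑' n : ℤ, ‖l n‖ * (1 + |(n : ℝ)|) ^ 4 ≤ B4) :
    ∃ q : ℤ → ℂ, Summable (fun n : ℤ => ‖q n‖ * (1 + |(n : ℝ)|) ^ 4) ∧ ∑' n, ‖q n‖ ≤ A * B ∧
      ∑' n : ℤ, ‖q n‖ * (1 + |(n : ℝ)|) ^ 4 ≤ 8 * (A4 * B + A * B4) ∧
      ∀ z : ℂ, ‖z‖ = 1 → (∑' n, k n * z ^ n) * (∑' n, l n * z ^ n) = ∑' n, q n * z ^ n := by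
  have hk0 := B_summable_of_w hk
  have hl0 := B_summable_of_w hl
  have hAn : 0 ≤ ∑' n, ‖k n‖ := tsum_nonneg (fun n => norm_nonneg _)
  have hBn : 0 ≤ ∑' n, ‖l n‖ := tsum_nonneg (fun n => norm_nonneg _)
  have hA4n : 0 ≤ ∑' n : ℤ, ‖k n‖ * (1 + |(n : ℝ)|) ^ 4 := tsum_nonneg (fun n => by positivity)
  have hB4n : 0 ≤ ∑' n : ℤ, ‖l n‖ * (1 + |(n : ℝ)|) ^ 4 := tsum_nonneg (fun n => by positivity)
  -- product sums
  have hG : HasSum (fun p : ℤ × ℤ => ‖k p.1‖ * ‖l p.2‖) ((∑' n, ‖k n‖) * ∑' n, ‖l n‖) :=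
    B_hasSum_mul (f := fun n => ‖k n‖) (g := fun n => ‖l n‖) hk0 hl0
      (fun n => norm_nonneg (k n)) (fun n => norm_nonneg (l n))
  have hG1 : HasSum (fun p : ℤ × ℤ => (‖k p.1‖ * (1 + |(p.1 : ℝ)|) ^ 4) * ‖l p.2‖)
      ((∑' n : ℤ, ‖k n‖ * (1 + |(n : ℝ)|) ^ 4) * ∑' n, ‖l n‖) :=
    B_hasSum_mul (f := fun n : ℤ => ‖k n‖ * (1 + |(n : ℝ)|) ^ 4) (g := fun n => ‖l n‖) hk hl0
      (fun n => by positivity) (fun n => norm_nonneg (l n))
  have hG2 : HasSum (fun p : ℤ × ℤ => ‖k p.1‖ * (‖l p.2‖ * (1 + |(p.2 : ℝ)|) ^ 4))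
      ((∑' n, ‖k n‖) * ∑' n : ℤ, ‖l n‖ * (1 + |(n : ℝ)|) ^ 4) :=
    B_hasSum_mul (f := fun n : ℤ => ‖k n‖) (g := fun n : ℤ => ‖l n‖ * (1 + |(n : ℝ)|) ^ 4) hk0 hl
      (fun n => norm_nonneg (k n)) (fun n => by positivity)
  have hG4 := (hG1.add hG2).mul_left 8
  -- transported
  have hGe : HasSum (fun p : ℤ × ℤ => ‖k p.2 * l (p.1 - p.2)‖) ((∑' n, ‖k n‖) * ∑' n, ‖l n‖) := by
    have h1 : (fun p : ℤ × ℤ => ‖k p.2 * l (p.1 - p.2)‖) =
        (fun p : ℤ × ℤ => ‖k p.1‖ * ‖l p.2‖) ∘ B_e := by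
      funext p
      exact norm_mul _ _
    rw [h1]
    exact (B_e.hasSum_iff).2 hG
  obtain ⟨GG, hGG⟩ : ∃ GG : ℤ × ℤ → ℝ, ∀ p, GG p = 8 * ((‖k p.2‖ * (1 + |(p.2 : ℝ)|) ^ 4) * ‖l (p.1 - p.2)‖ +
        ‖k p.2‖ * (‖l (p.1 - p.2)‖ * (1 + |((p.1 - p.2 : ℤ) : ℝ)|) ^ 4)) := ⟨_, fun p => rfl⟩
  have hG4e : HasSum GG (8 * ((∑' n : ℤ, ‖k n‖ * (1 + |(n : ℝ)|) ^ 4) * ∑' n, ‖l n‖ +
      (∑' n, ‖k n‖) * ∑' n : ℤ, ‖l n‖ * (1 + |(n : ℝ)|) ^ 4)) := by
    have h1 : GG = (fun p : ℤ × ℤ => 8 * ((‖k p.1‖ * (1 + |(p.1 : ℝ)|) ^ 4) * ‖l p.2‖ +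
        ‖k p.1‖ * (‖l p.2‖ * (1 + |(p.2 : ℝ)|) ^ 4))) ∘ B_e := by
      funext p
      rw [hGG]
      rfl
    rw [h1]
    exact (B_e.hasSum_iff).2 hG4
  have hnF4 : ∀ n i : ℤ, ‖k i * l (n - i)‖ * (1 + |(n : ℝ)|) ^ 4 ≤ GG (n, i) := by
    intro n i
    have h1 := B_w4 i (n - i)
    have h2 : i + (n - i) = n := by ring
    rw [h2] at h1
    simp only [hGG, norm_mul]
    have h3 : 0 ≤ ‖k i‖ * ‖l (n - i)‖ := by positivity
    calc ‖k i‖ * ‖l (n - i)‖ * (1 + |(n : ℝ)|) ^ 4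
        ≤ ‖k i‖ * ‖l (n - i)‖ * (8 * ((1 + |(i : ℝ)|) ^ 4 + (1 + |((n - i : ℤ) : ℝ)|) ^ 4)) :=
          mul_le_mul_of_nonneg_left h1 h3
      _ = _ := by ring
  have hrow : ∀ n, Summable (fun i => ‖k i * l (n - i)‖) := fun n => hGe.summable.prod_factor n
  have hrow4 : ∀ n : ℤ, Summable (fun i : ℤ => GG (n, i)) :=
    fun n => hG4e.summable.prod_factor n
  obtain ⟨q, hq⟩ : ∃ q : ℤ → ℂ, ∀ n, q n = ∑' i, k i * l (n - i) := ⟨_, fun n => rfl⟩
  have hqn : ∀ n, ‖q n‖ ≤ ∑' i, ‖k i * l (n - i)‖ := fun n => by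
    rw [hq n]
    exact norm_tsum_le_tsum_norm (hrow n)
  have hq4 : ∀ n : ℤ, ‖q n‖ * (1 + |(n : ℝ)|) ^ 4 ≤ ∑' i : ℤ, GG (n, i) := by
    intro n
    calc ‖q n‖ * (1 + |(n : ℝ)|) ^ 4 ≤ (∑' i, ‖k i * l (n - i)‖) * (1 + |(n : ℝ)|) ^ 4 :=
          mul_le_mul_of_nonneg_right (hqn n) (by positivity)
      _ = ∑' i, ‖k i * l (n - i)‖ * (1 + |(n : ℝ)|) ^ 4 := tsum_mul_right.symm
      _ ≤ _ := Summable.tsum_le_tsum (fun i => hnF4 n i) ((hrow n).mul_right _) (hrow4 n)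
  have hS4 := hG4e.summable.prod
  have hqs : Summable (fun n : ℤ => ‖q n‖ * (1 + |(n : ℝ)|) ^ 4) :=
    hS4.of_nonneg_of_le (fun n => by positivity) hq4
  refine ⟨q, hqs, ?_, ?_, ?_⟩
  · have h1 : ∑' n, ‖q n‖ ≤ ∑' n, ∑' i, ‖k i * l (n - i)‖ := by
      exact Summable.tsum_le_tsum hqn (B_summable_of_w hqs) hGe.summable.prod
    have h2 : ∑' n, ∑' i, ‖k i * l (n - i)‖ = (∑' n, ‖k n‖) * ∑' n, ‖l n‖ := by
      rw [← hGe.tsum_eq, hGe.summable.tsum_prod]
    rw [h2] at h1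
    exact h1.trans (mul_le_mul hA hB hBn (hAn.trans hA))
  · have h1 := Summable.tsum_le_tsum hq4 hqs hS4
    rw [← hG4e.summable.tsum_prod, hG4e.tsum_eq] at h1
    refine h1.trans ?_
    have h3 := mul_le_mul hA4 hB hBn (hA4n.trans hA4)
    have h4 := mul_le_mul hA hB4 hB4n (hAn.trans hA)
    linarith
  · intro z hz
    have hz0 : z ≠ 0 := by
      rintro rfl
      simp at hz
    have hzn : ∀ n : ℤ, ‖z ^ n‖ = 1 := by
      intro n
      rw [norm_zpow, hz, one_zpow]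
    have hkz : Summable (fun n => ‖k n * z ^ n‖) := by
      have e : (fun n => ‖k n * z ^ n‖) = fun n => ‖k n‖ := by
        funext n
        rw [norm_mul, hzn, mul_one]
      rw [e]
      exact hk0
    have hlz : Summable (fun n => ‖l n * z ^ n‖) := by
      have e : (fun n => ‖l n * z ^ n‖) = fun n => ‖l n‖ := by
        funext n
        rw [norm_mul, hzn, mul_one]
      rw [e]
      exact hl0
    rw [tsum_mul_tsum_of_summable_norm hkz hlz, ← B_e.tsum_eq]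
    have hsum : Summable (fun p : ℤ × ℤ => (k p.2 * l (p.1 - p.2)) * z ^ p.1) := by
      have e : (fun p : ℤ × ℤ => ‖(k p.2 * l (p.1 - p.2)) * z ^ p.1‖) =
          fun p : ℤ × ℤ => ‖k p.2 * l (p.1 - p.2)‖ := by
        funext p
        rw [norm_mul (k p.2 * l (p.1 - p.2)), hzn, mul_one]
      apply Summable.of_norm
      rw [e]
      exact hGe.summable
    have h5 : (fun p : ℤ × ℤ => k (B_e p).1 * z ^ (B_e p).1 * (l (B_e p).2 * z ^ (B_e p).2)) =
        fun p : ℤ × ℤ => (k p.2 * l (p.1 - p.2)) * z ^ p.1 := by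
      funext p
      simp only [B_e, Equiv.coe_fn_mk]
      have h6 : z ^ p.1 = z ^ p.2 * z ^ (p.1 - p.2) := by
        rw [← zpow_add₀ hz0]
        congr 1
        ring
      rw [h6]
      ring
    have h7 : ∀ n : ℤ, ∑' i : ℤ, (k i * l (n - i)) * z ^ n = q n * z ^ n := by
      intro n
      rw [tsum_mul_right, hq n]
    rw [h5, hsum.tsum_prod]
    exact tsum_congr h7

/-- growth of powers in the weighted algebra is governed by the unweighted norm -/
theorem TN_pow4 {C : ℝ} (h : TN 0 c f) (hC : TN 4 C f) (hc : 1 ≤ c) :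
    ∀ j : ℕ, TN 4 ((1 + C) * (16 * c) ^ j) (fun z => f z ^ j) := by
  obtain ⟨k0, h01, h02, h03⟩ := h
  obtain ⟨k, hk1, hk2, hk3⟩ := hC
  simp only [pow_zero, mul_one] at h01 h02
  have hkk : k0 = k := coeff_unique h01 (B_summable_of_w hk1) (fun z hz => by rw [← h03 z hz, ← hk3 z hz])
  subst hkk
  have hC0 : 0 ≤ C := le_trans (tsum_nonneg (fun n => by positivity)) hk2
  have key : ∀ j : ℕ, ∃ q : ℤ → ℂ, Summable (fun n : ℤ => ‖q n‖ * (1 + |(n : ℝ)|) ^ 4) ∧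
      ∑' n, ‖q n‖ ≤ c ^ j ∧ ∑' n : ℤ, ‖q n‖ * (1 + |(n : ℝ)|) ^ 4 ≤ (1 + C) * (16 * c) ^ j ∧
      ∀ z : ℂ, ‖z‖ = 1 → f z ^ j = ∑' n, q n * z ^ n := by
    intro j
    induction j with
    | zero =>
      refine ⟨fun n => if n = 0 then 1 else 0, ?_, ?_, ?_, ?_⟩
      · refine (hasSum_single 0 ?_).summable
        intro n hn
        simp [hn]
      · rw [tsum_eq_single 0 (fun n hn => by simp [hn])]
        simp
      · rw [tsum_eq_single 0 (fun n hn => by simp [hn])]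
        simp
        exact hC0
      · intro z hz
        rw [tsum_eq_single 0 (fun n hn => by simp [hn])]
        simp
    | succ j ih =>
      obtain ⟨q, hq1, hq2, hq3, hq4⟩ := ih
      obtain ⟨r, hr1, hr2, hr3, hr4⟩ := B_conv hq1 hk1 hq2 h02 hq3 hk2
      refine ⟨r, hr1, ?_, ?_, ?_⟩
      · rw [pow_succ]
        exact hr2
      · refine hr3.trans ?_
        have h5 : (1 : ℝ) ≤ 16 ^ j := one_le_pow₀ (by norm_num)
        have h6 : (0 : ℝ) ≤ c ^ j := by positivity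
        have h7 : c ^ j * C ≤ (1 + C) * ((16 * c) ^ j * c) := by
          rw [mul_pow]
          have h8 : c ^ j ≤ 16 ^ j * c ^ j * c := by
            calc c ^ j = 1 * c ^ j * 1 := by ring
              _ ≤ 16 ^ j * c ^ j * c := by
                apply mul_le_mul (mul_le_mul_of_nonneg_right h5 h6) hc zero_le_one (by positivity)
          calc c ^ j * C ≤ (16 ^ j * c ^ j * c) * C := mul_le_mul_of_nonneg_right h8 hC0
            _ ≤ (16 ^ j * c ^ j * c) * (1 + C) := by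
                apply mul_le_mul_of_nonneg_left (by linarith) (by positivity)
            _ = _ := by ring
        calc 8 * ((1 + C) * (16 * c) ^ j * c + c ^ j * C)
            ≤ 8 * ((1 + C) * (16 * c) ^ j * c + (1 + C) * ((16 * c) ^ j * c)) := by linarith
          _ = (1 + C) * (16 * c) ^ (j + 1) := by ring
      · intro z hz
        rw [pow_succ, hq4 z hz, hk3 z hz, hr4 z hz]
  intro j
  obtain ⟨q, hq1, hq2, hq3, hq4⟩ := key j
  exact ⟨q, hq1, hq3, hq4⟩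

/-- splitting off the negative frequencies -/
theorem TN_split (h : TN 4 c f) (M : ℕ) :
    ∃ p q : ℂ → ℂ, AN c p ∧ TN 0 (c / (1 + M) ^ 4) q ∧ ∀ z : ℂ, ‖z‖ = 1 → z ^ M * f z = p z + q z := by
  obtain ⟨k, hk1, hk2, hk3⟩ := h
  have hk0 : Summable (fun n => ‖k n‖) :=
    hk1.of_nonneg_of_le (fun n => norm_nonneg _)
      (fun n => le_mul_of_one_le_right (norm_nonneg _)
        (one_le_pow₀ (by linarith [abs_nonneg (n : ℝ)])))
  have hinj : Function.Injective (fun m : ℕ => (m : ℤ) - M) := by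
    intro a b hab
    have : (a : ℤ) - M = (b : ℤ) - M := hab
    omega
  have hinj2 : Function.Injective (fun n : ℤ => n - M) := by
    intro a b hab
    have : a - M = b - (M : ℤ) := hab
    omega
  set q : ℤ → ℂ := fun n => if n < 0 then k (n - M) else 0 with hq
  have hqle : ∀ n : ℤ, ‖q n‖ ≤ (‖k (n - M)‖ * (1 + |((n - M : ℤ) : ℝ)|) ^ 4) / (1 + M) ^ 4 := by
    intro n
    by_cases hn : n < 0
    · simp only [hq, if_pos hn]
      rw [le_div_iff₀ (by positivity)]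
      apply mul_le_mul_of_nonneg_left _ (norm_nonneg _)
      apply pow_le_pow_left₀ (by positivity)
      have h1 : ((n - M : ℤ) : ℝ) ≤ -(M : ℝ) := by
        have : n - (M : ℤ) ≤ -(M : ℤ) := by omega
        exact_mod_cast this
      have h2 : (M : ℝ) ≤ |((n - M : ℤ) : ℝ)| := by
        have := neg_abs_le ((n - M : ℤ) : ℝ)
        linarith [neg_le_abs ((n - M : ℤ) : ℝ)]
      linarith
    · simp only [hq, if_neg hn, norm_zero]
      positivity
  have hs : Summable (fun n : ℤ => (‖k (n - M)‖ * (1 + |((n - M : ℤ) : ℝ)|) ^ 4) / (1 + M) ^ 4) :=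
    (hk1.comp_injective hinj2).div_const _
  have hqs : Summable (fun n : ℤ => ‖q n‖) := hs.of_nonneg_of_le (fun n => norm_nonneg _) hqle
  refine ⟨fun z => ∑' m : ℕ, k ((m : ℤ) - M) * z ^ m, fun z => ∑' n : ℤ, q n * z ^ n,
    ⟨fun m => k ((m : ℤ) - M), hk0.comp_injective hinj, ?_, fun z _ => rfl⟩,
    ⟨q, ?_, ?_, fun z _ => rfl⟩, ?_⟩
  · have h1 : ∑' m : ℕ, ‖k ((m : ℤ) - M)‖ ≤ ∑' n : ℤ, ‖k n‖ :=
      (hk0.comp_injective hinj).tsum_le_tsum_of_inj (fun m : ℕ => (m : ℤ) - M) hinj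
        (fun n _ => norm_nonneg _) (fun m => le_refl _) hk0
    have h2 : ∑' n : ℤ, ‖k n‖ ≤ ∑' n : ℤ, ‖k n‖ * (1 + |(n : ℝ)|) ^ 4 :=
      Summable.tsum_le_tsum (fun n => le_mul_of_one_le_right (norm_nonneg _)
        (one_le_pow₀ (by linarith [abs_nonneg (n : ℝ)]))) hk0 hk1
    linarith
  · simpa using hqs
  · simp only [pow_zero, mul_one]
    refine (Summable.tsum_le_tsum hqle hqs hs).trans ?_
    rw [tsum_div_const]
    apply div_le_div_of_nonneg_right _ (by positivity)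
    refine le_trans (le_of_eq ?_) hk2
    exact (Equiv.subRight (M : ℤ)).tsum_eq (fun n : ℤ => ‖k n‖ * (1 + |(n : ℝ)|) ^ 4)
  · intro z hz
    have hz0 : z ≠ 0 := by
      rintro rfl
      simp at hz
    have hzn : ∀ n : ℤ, ‖z ^ n‖ = 1 := by
      intro n
      rw [norm_zpow, hz, one_zpow]
    rw [hk3 z hz, ← tsum_mul_left, ← (Equiv.subRight (M : ℤ)).tsum_eq]
    have h1 : ∀ n : ℤ, z ^ M * (k ((Equiv.subRight (M : ℤ)) n) * z ^ ((Equiv.subRight (M : ℤ)) n)) =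
        (if n < 0 then 0 else k (n - M) * z ^ n) + q n * z ^ n := by
      intro n
      have h2 : z ^ M * (k ((Equiv.subRight (M : ℤ)) n) * z ^ ((Equiv.subRight (M : ℤ)) n)) =
          k (n - M) * z ^ n := by
        simp only [Equiv.subRight_apply]
        have h3 : z ^ n = z ^ (n - (M : ℤ)) * z ^ M := by
          rw [← zpow_natCast z M, ← zpow_add₀ hz0]
          congr 1
          ring
        rw [h3]
        ring
      rw [h2]
      by_cases hn : n < 0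
      · simp [hq, hn]
      · simp [hq, hn]
    have hs1 : Summable (fun n : ℤ => (if n < 0 then 0 else k (n - M) * z ^ n)) := by
      refine Summable.of_norm ((hk0.comp_injective hinj2).of_nonneg_of_le (fun n => norm_nonneg _) ?_)
      intro n
      by_cases hn : n < 0
      · simp [hn]
      · simp only [hn, if_false, norm_mul, hzn, mul_one, Function.comp_apply]
        exact le_refl _
    have hs2 : Summable (fun n : ℤ => q n * z ^ n) := by
      refine Summable.of_norm (hqs.congr (fun n => ?_))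
      rw [norm_mul, hzn, mul_one]
    rw [tsum_congr h1, hs1.tsum_add hs2]
    congr 1
    have h4 := Function.Injective.tsum_eq (g := fun m : ℕ => (m : ℤ)) Nat.cast_injective
      (f := fun n : ℤ => (if n < 0 then 0 else k (n - M) * z ^ n)) (by
        intro n hn
        simp only [Function.mem_support] at hn
        by_cases h5 : n < 0
        · simp [h5] at hn
        · exact ⟨n.toNat, by simp only; omega⟩)
    rw [← h4]
    refine tsum_congr (fun m => ?_)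
    have : ¬ ((m : ℤ) < 0) := by omega
    simp [this]

/-- common part of the Herglotz completion -/
theorem B_herg {k : ℤ → ℂ} {u : ℂ → ℂ} (hk0 : Summable (fun n => ‖k n‖))
    (hu : ∀ z : ℂ, ‖z‖ = 1 → u z = ∑' n : ℤ, k n * z ^ n) (hre : ∀ z : ℂ, ‖z‖ = 1 → (u z).im = 0) :
    ∀ z : ℂ, ‖z‖ = 1 → (∑' m : ℕ, (if m = 0 then k 0 else 2 * k m) * z ^ m).re = (u z).re := by
  -- symmetry of the coefficients
  have hconj : ∀ z : ℂ, ‖z‖ = 1 → (starRingEnd ℂ) z = z⁻¹ := by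
    intro z hz
    rw [Complex.inv_def, Complex.normSq_eq_norm_sq, hz]
    simp
  have hks : Summable (fun n : ℤ => ‖(starRingEnd ℂ) (k (-n))‖) := by
    have := hk0.comp_injective (neg_injective : Function.Injective (fun n : ℤ => -n))
    refine this.congr (fun n => ?_)
    simp
  have hsym : k = fun n => (starRingEnd ℂ) (k (-n)) := by
    refine coeff_unique hk0 hks (fun z hz => ?_)
    rw [← hu z hz]
    have h1 : u z = (starRingEnd ℂ) (u z) := by
      rw [Complex.conj_eq_iff_im.2 (hre z hz)]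
    rw [h1, hu z hz, Complex.conj_tsum, ← (Equiv.neg ℤ).tsum_eq]
    refine tsum_congr (fun n => ?_)
    simp only [Equiv.neg_apply, map_mul, map_zpow₀, hconj z hz]
    rw [inv_zpow', neg_neg]
  intro z hz
  have hz0 : z ≠ 0 := by
    rintro rfl
    simp at hz
  have hzn : ∀ n : ℤ, ‖z ^ n‖ = 1 := by
    intro n
    rw [norm_zpow, hz, one_zpow]
  have hkz : Summable (fun n : ℤ => k n * z ^ n) := by
    refine Summable.of_norm (hk0.congr (fun n => ?_))
    rw [norm_mul, hzn, mul_one]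
  have hs1 : Summable (fun n : ℕ => k (n : ℤ) * z ^ (n : ℤ)) :=
    hkz.comp_injective Nat.cast_injective
  have hs2 : Summable (fun n : ℕ => k (-((n : ℤ) + 1)) * z ^ (-((n : ℤ) + 1))) := by
    refine hkz.comp_injective (i := fun n : ℕ => (-((n : ℤ) + 1))) ?_
    intro a b hab
    simp only at hab
    omega
  have hs3 : Summable (fun n : ℕ => k ((n + 1 : ℕ) : ℤ) * z ^ ((n + 1 : ℕ) : ℤ)) := by
    refine hkz.comp_injective (i := fun n : ℕ => ((n + 1 : ℕ) : ℤ)) ?_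
    intro a b hab
    simp only at hab
    omega
  set S : ℂ := ∑' n : ℕ, k ((n + 1 : ℕ) : ℤ) * z ^ ((n + 1 : ℕ) : ℤ) with hS
  have hneg : ∑' n : ℕ, k (-((n : ℤ) + 1)) * z ^ (-((n : ℤ) + 1)) = (starRingEnd ℂ) S := by
    rw [hS, Complex.conj_tsum]
    refine tsum_congr (fun n => ?_)
    have h1 := congrFun hsym (-((n : ℤ) + 1))
    simp only [neg_neg] at h1
    rw [h1, map_mul, map_zpow₀, hconj z hz]
    push_cast
    congr 1
    rw [inv_zpow']
  have hu1 : u z = k 0 + S + (starRingEnd ℂ) S := by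
    have e1 : ∑' n : ℤ, k n * z ^ n = ∑' n : ℕ, k (n : ℤ) * z ^ (n : ℤ) +
        ∑' n : ℕ, k (-((n : ℤ) + 1)) * z ^ (-((n : ℤ) + 1)) :=
      tsum_of_nat_of_neg_add_one (f := fun n : ℤ => k n * z ^ n) hs1 hs2
    have e2 : ∑' n : ℕ, k (n : ℤ) * z ^ (n : ℤ) = k 0 + S := by
      rw [hs1.tsum_eq_zero_add, hS]
      simp
    rw [hu z hz, e1, hneg, e2]
  have hH : (∑' m : ℕ, (if m = 0 then k 0 else 2 * k m) * z ^ m) = k 0 + 2 * S := by
    have hs4 : Summable (fun m : ℕ => (if m = 0 then k 0 else 2 * k m) * z ^ m) := by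
      rw [← summable_nat_add_iff 1]
      refine (hs3.mul_left 2).congr (fun n => ?_)
      simp only [Nat.add_eq_zero_iff, one_ne_zero, and_false, if_false, zpow_natCast]
      ring
    rw [hs4.tsum_eq_zero_add, hS, ← tsum_mul_left]
    congr 1
    · simp
    · refine tsum_congr (fun n => ?_)
      simp only [Nat.add_eq_zero_iff, one_ne_zero, and_false, if_false, zpow_natCast]
      ring
  rw [hH, hu1]
  simp [Complex.add_re, Complex.mul_re]
  ring

theorem B_hergAN {k : ℤ → ℂ} {c : ℝ} (hk0 : Summable (fun n => ‖k n‖)) (hc : ∑' n, ‖k n‖ ≤ c) :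
    AN (2 * c) (fun z => ∑' m : ℕ, (if m = 0 then k 0 else 2 * k m) * z ^ m) := by
  have hle : ∀ m : ℕ, ‖(if m = 0 then k 0 else 2 * k m)‖ ≤ 2 * ‖k (m : ℤ)‖ := by
    intro m
    by_cases hm : m = 0
    · subst hm
      simp only [if_true, Nat.cast_zero]
      linarith [norm_nonneg (k 0)]
    · simp [hm]
  have hs : Summable (fun m : ℕ => 2 * ‖k (m : ℤ)‖) :=
    (hk0.comp_injective (i := fun m : ℕ => (m : ℤ)) Nat.cast_injective).mul_left 2
  have hs2 : Summable (fun m : ℕ => ‖(if m = 0 then k 0 else 2 * k m)‖) :=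
    hs.of_nonneg_of_le (fun m => norm_nonneg _) hle
  refine ⟨fun m => if m = 0 then k 0 else 2 * k m, hs2, ?_, fun z _ => rfl⟩
  refine (Summable.tsum_le_tsum hle hs2 hs).trans ?_
  rw [tsum_mul_left]
  have h1 : ∑' m : ℕ, ‖k (m : ℤ)‖ ≤ ∑' n : ℤ, ‖k n‖ :=
    (hk0.comp_injective (i := fun m : ℕ => (m : ℤ)) Nat.cast_injective).tsum_le_tsum_of_inj
      (fun m : ℕ => (m : ℤ)) Nat.cast_injective
      (fun n _ => norm_nonneg _) (fun m => le_refl _) hk0
  linarith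

/-- analytic completion of a real function -/
theorem herglotz0 {u : ℂ → ℂ} (h : TN 0 c u) (hre : ∀ z : ℂ, ‖z‖ = 1 → (u z).im = 0) :
    ∃ H : ℂ → ℂ, AN (2 * c) H ∧ ∀ z : ℂ, ‖z‖ = 1 → (H z).re = (u z).re := by
  obtain ⟨k, hk1, hk2, hk3⟩ := h
  simp only [pow_zero, mul_one] at hk1 hk2
  exact ⟨_, B_hergAN hk1 hk2, B_herg hk1 hk3 hre⟩

theorem herglotz4 {C : ℝ} {u : ℂ → ℂ} (h : TN 0 c u) (h4 : TN 4 C u) (hre : ∀ z : ℂ, ‖z‖ = 1 → (u z).im = 0) :
    ∃ H : ℂ → ℂ, AN (2 * c) H ∧ TN 4 (2 * C) H ∧ ∀ z : ℂ, ‖z‖ = 1 → (H z).re = (u z).re := by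
  obtain ⟨k0, h01, h02, h03⟩ := h
  obtain ⟨k, hk1, hk2, hk3⟩ := h4
  simp only [pow_zero, mul_one] at h01 h02
  have hk0 : Summable (fun n => ‖k n‖) :=
    hk1.of_nonneg_of_le (fun n => norm_nonneg _)
      (fun n => le_mul_of_one_le_right (norm_nonneg _)
        (one_le_pow₀ (by linarith [abs_nonneg (n : ℝ)])))
  have hkk : k0 = k := coeff_unique h01 hk0 (fun z hz => by rw [← h03 z hz, ← hk3 z hz])
  subst hkk
  refine ⟨_, B_hergAN h01 h02, ?_, B_herg h01 h03 hre⟩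
  set g : ℤ → ℂ := fun n => if n < 0 then 0 else if n = 0 then k0 0 else 2 * k0 n with hg
  have hle : ∀ n : ℤ, ‖g n‖ * (1 + |(n : ℝ)|) ^ 4 ≤ 2 * (‖k0 n‖ * (1 + |(n : ℝ)|) ^ 4) := by
    intro n
    rw [← mul_assoc]
    apply mul_le_mul_of_nonneg_right _ (by positivity)
    by_cases h1 : n < 0
    · simp only [hg, if_pos h1, norm_zero]
      positivity
    · by_cases h2 : n = 0
      · simp only [hg, h2, lt_irrefl, if_false, if_true]
        linarith [norm_nonneg (k0 0)]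
      · simp [hg, h1, h2]
  have hs : Summable (fun n : ℤ => ‖g n‖ * (1 + |(n : ℝ)|) ^ 4) :=
    (hk1.mul_left 2).of_nonneg_of_le (fun n => by positivity) hle
  refine ⟨g, hs, ?_, ?_⟩
  · refine (Summable.tsum_le_tsum hle hs (hk1.mul_left 2)).trans ?_
    rw [tsum_mul_left]
    linarith
  · intro z hz
    have h4 := Function.Injective.tsum_eq (g := fun m : ℕ => (m : ℤ)) Nat.cast_injective
      (f := fun n : ℤ => g n * z ^ n) (by
        intro n hn
        simp only [Function.mem_support] at hn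
        by_cases h5 : n < 0
        · simp [hg, h5] at hn
        · exact ⟨n.toNat, by simp only; omega⟩)
    rw [← h4]
    refine tsum_congr (fun m => ?_)
    have h6 : ¬ ((m : ℤ) < 0) := by omega
    by_cases hm : m = 0
    · simp [hg, hm]
    · have h7 : (m : ℤ) ≠ 0 := by exact_mod_cast hm
      simp [hg, hm]

/-! analytic version -/

theorem AN_nonneg' (h : AN c f) : 0 ≤ c := by
  obtain ⟨k, hk1, hk2, -⟩ := h
  exact le_trans (tsum_nonneg (fun n => norm_nonneg _)) hk2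

theorem B_sumz {k : ℕ → ℂ} (hk : Summable (fun m => ‖k m‖)) {z : ℂ} (hz : ‖z‖ ≤ 1) :
    Summable (fun m => ‖k m * z ^ m‖) := by
  refine hk.of_nonneg_of_le (fun m => norm_nonneg _) (fun m => ?_)
  rw [norm_mul, norm_pow]
  exact mul_le_of_le_one_right (norm_nonneg _) (pow_le_one₀ (norm_nonneg _) hz)

theorem AN_const' (a : ℂ) : AN ‖a‖ (fun _ => a) := by
  refine ⟨fun m => if m = 0 then a else 0, ?_, ?_, ?_⟩
  · refine (hasSum_single 0 ?_).summable
    intro n hn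
    simp [hn]
  · rw [tsum_eq_single 0 (fun n hn => by simp [hn])]
    simp
  · intro z _
    rw [tsum_eq_single 0 (fun n hn => by simp [hn])]
    simp

theorem AN_mul' {c' : ℝ} {g : ℂ → ℂ} (hf : AN c f) (hg : AN c' g) :
    AN (c * c') (fun z => f z * g z) := by
  obtain ⟨k, hk1, hk2, hk3⟩ := hf
  obtain ⟨l, hl1, hl2, hl3⟩ := hg
  have hs := summable_norm_sum_mul_antidiagonal_of_summable_norm (f := k) (g := l) hk1 hl1
  refine ⟨fun n => ∑ kl ∈ antidiagonal n, k kl.1 * l kl.2, hs, ?_, ?_⟩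
  · have hk1' : Summable (fun m => ‖(‖k m‖ : ℝ)‖) := by simpa using hk1
    have hl1' : Summable (fun m => ‖(‖l m‖ : ℝ)‖) := by simpa using hl1
    have h1 := tsum_mul_tsum_eq_tsum_sum_antidiagonal_of_summable_norm hk1' hl1'
    have hs2 : Summable (fun n => ∑ kl ∈ antidiagonal n, ‖k kl.1‖ * ‖l kl.2‖) := by
      have := summable_norm_sum_mul_antidiagonal_of_summable_norm hk1' hl1'
      refine this.congr (fun n => ?_)
      rw [Real.norm_of_nonneg]
      exact Finset.sum_nonneg (fun _ _ => by positivity)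
    have h2 : ∑' n, ‖∑ kl ∈ antidiagonal n, k kl.1 * l kl.2‖ ≤
        ∑' n, ∑ kl ∈ antidiagonal n, ‖k kl.1‖ * ‖l kl.2‖ := by
      refine Summable.tsum_le_tsum (fun n => ?_) hs hs2
      refine (norm_sum_le _ _).trans (le_of_eq ?_)
      exact Finset.sum_congr rfl (fun _ _ => norm_mul _ _)
    rw [← h1] at h2
    have hl0 : 0 ≤ ∑' m, ‖l m‖ := tsum_nonneg (fun n => norm_nonneg _)
    have hk0 : 0 ≤ ∑' m, ‖k m‖ := tsum_nonneg (fun n => norm_nonneg _)
    exact h2.trans (mul_le_mul hk2 hl2 hl0 (hk0.trans hk2))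
  · intro z hz
    show f z * g z = ∑' m, (∑ kl ∈ antidiagonal m, k kl.1 * l kl.2) * z ^ m
    rw [hk3 z hz, hl3 z hz,
      tsum_mul_tsum_eq_tsum_sum_antidiagonal_of_summable_norm (B_sumz hk1 hz) (B_sumz hl1 hz)]
    refine tsum_congr (fun n => ?_)
    rw [Finset.sum_mul]
    refine Finset.sum_congr rfl (fun p hp => ?_)
    rw [← Finset.HasAntidiagonal.mem_antidiagonal.1 hp, pow_add]
    ring

theorem AN_pow' (h : AN c f) (j : ℕ) : AN (c ^ j) (fun z => f z ^ j) := by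
  induction j with
  | zero =>
    have := AN_const' 1
    simpa using this
  | succ j ih =>
    have := AN_mul' ih h
    simpa [pow_succ] using this

theorem AN_tsum {C : ℕ → ℝ} {F : ℕ → ℂ → ℂ} (h : ∀ j, AN (C j) (F j)) (hc : Summable C) :
    AN (∑' j, C j) (fun z => ∑' j, F j z) := by
  choose k hk1 hk2 hk3 using h
  have hsum : Summable (fun p : ℕ × ℕ => ‖k p.1 p.2‖) := by
    rw [summable_prod_of_nonneg (fun p => norm_nonneg _)]
    refine ⟨hk1, hc.of_nonneg_of_le (fun j => tsum_nonneg (fun _ => norm_nonneg _)) hk2⟩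
  have hsum' : Summable (fun p : ℕ × ℕ => ‖k p.2 p.1‖) := hsum.prod_symm
  have hcol : ∀ m, Summable (fun j => ‖k j m‖) := fun m => hsum'.prod_factor m
  have hle : ∀ m, ‖∑' j, k j m‖ ≤ ∑' j, ‖k j m‖ := fun m => norm_tsum_le_tsum_norm (hcol m)
  have hs : Summable (fun m => ‖∑' j, k j m‖) :=
    hsum'.prod.of_nonneg_of_le (fun m => norm_nonneg _) hle
  refine ⟨fun m => ∑' j, k j m, hs, ?_, ?_⟩
  · have h1 := Summable.tsum_le_tsum hle hs hsum'.prod
    have h2 : ∑' m, ∑' j, ‖k j m‖ = ∑' j, ∑' m, ‖k j m‖ :=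
      (Summable.tsum_comm (f := fun m j => ‖k j m‖) hsum').symm
    rw [h2] at h1
    exact h1.trans (Summable.tsum_le_tsum hk2 hsum.prod hc)
  · intro z hz
    have h3 : ∀ j, F j z = ∑' m, k j m * z ^ m := fun j => hk3 j z hz
    have hsz : Summable (fun p : ℕ × ℕ => k p.1 p.2 * z ^ p.2) := by
      refine Summable.of_norm (hsum.of_nonneg_of_le (fun p => norm_nonneg _) (fun p => ?_))
      rw [norm_mul, norm_pow]
      exact mul_le_of_le_one_right (norm_nonneg _) (pow_le_one₀ (norm_nonneg _) hz)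
    show ∑' j, F j z = ∑' m, (∑' j, k j m) * z ^ m
    rw [tsum_congr h3, ← Summable.tsum_comm (f := fun j m => k j m * z ^ m) hsz]
    refine tsum_congr (fun m => ?_)
    rw [tsum_mul_right]

theorem AN_exp (h : AN c f) : AN (Real.exp c) (fun z => Complex.exp (f z)) := by
  have h1 : ∀ j : ℕ, AN (‖(1 / (j.factorial : ℂ))‖ * c ^ j)
      (fun z => (1 / (j.factorial : ℂ)) * f z ^ j) := fun j => AN_mul' (AN_const' _) (AN_pow' h j)
  have h2 := AN_tsum h1 (B_rexp_hasSum c).summable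
  rw [(B_rexp_hasSum c).tsum_eq] at h2
  have h3 : (fun z => Complex.exp (f z)) = fun z => ∑' j : ℕ, (1 / (j.factorial : ℂ)) * f z ^ j := by
    funext z
    exact B_exp_tsum (f z)
  rw [h3]
  exact h2

end targets
end VG
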