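import Pool.Agent.Helper859.VG.Defs
set_option autoImplicit false
open Finset

namespace VG

theorem j1630_zeta_int : HasSum (fun n : ℤ => (1 : ℝ) / (n : ℝ) ^ 2) (Real.pi ^ 2 / 3) := by
  have h3 := HasSum.of_nat_of_neg (f := fun n : ℤ => (1 : ℝ) / (n : ℝ) ^ 2)
    (g := Real.pi ^ 2 / 6) (g' := Real.pi ^ 2 / 6)
    (by simpa using hasSum_zeta_two) (by simpa using hasSum_zeta_two)
  have e : Real.pi ^ 2 / 6 + Real.pi ^ 2 / 6 - (1 : ℝ) / ((0 : ℤ) : ℝ) ^ 2 = Real.pi ^ 2 / 3 := by
    simp; ring
  rw [← e]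
  exact h3

/-! TARGET -/
theorem TN_of_C1 (F F' : ℝ → ℂ) (hper : Function.Periodic F (2 * Real.pi))
    (hd : ∀ θ, HasDerivAt F (F' θ) θ) (hc : Continuous F')
    (f : ℂ → ℂ) (hf : ∀ θ : ℝ, f (Complex.exp (θ * Complex.I)) = F θ) (M0 M1 : ℝ)
    (h0 : ∀ θ, ‖F θ‖ ≤ M0) (hM1 : 0 ≤ M1) (h1 : ∫ θ in (-Real.pi)..Real.pi, ‖F' θ‖ ^ 2 ≤ M1 ^ 2) :
    TN 0 (M0 + M1) f := by
  have hpi := Real.pi_pos
  have hab : (-Real.pi) < Real.pi := by linarith
  have hT : (Real.pi - -Real.pi) = 2 * Real.pi := by ring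
  have hFact : Fact (0 < Real.pi - -Real.pi) := ⟨by linarith⟩
  have hper' : Function.Periodic F (Real.pi - -Real.pi) := by rw [hT]; exact hper
  have hFc : Continuous F := continuous_iff_continuousAt.2 (fun x => (hd x).continuousAt)
  let G : C(AddCircle (Real.pi - -Real.pi), ℂ) :=
    ⟨hper'.lift, continuous_coinduced_dom.2 hFc⟩
  have hG : ∀ x : ℝ, G (x : AddCircle (Real.pi - -Real.pi)) = F x := fun x => rfl
  have hcoef : ∀ n : ℤ, fourierCoeff G n = fourierCoeffOn hab F n := by
    intro n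
    rw [fourierCoeff_eq_intervalIntegral _ _ (-Real.pi), fourierCoeffOn_eq_integral]
    have : -Real.pi + (Real.pi - -Real.pi) = Real.pi := by ring
    rw [this]
    rfl
  set c : ℤ → ℂ := fourierCoeff G with hcdef
  set d : ℤ → ℂ := fourierCoeffOn hab F' with hddef
  have hM0 : 0 ≤ M0 := (norm_nonneg _).trans (h0 0)
  have hFpi : F Real.pi = F (-Real.pi) := by
    have := hper (-Real.pi)
    rw [← this]; congr 1; ring
  have hcn : ∀ n : ℤ, n ≠ 0 → ‖c n‖ = ‖d n‖ * (1 / |(n : ℝ)|) := by
    intro n hn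
    have e := fourierCoeffOn_of_hasDerivAt hab (f := F) (f' := F') hn (fun x _ => hd x)
      (hc.intervalIntegrable _ _)
    have e1 : c n = fourierCoeffOn hab F n := hcoef n
    rw [e1, e, hFpi]
    have hn' : (n : ℂ) ≠ 0 := by exact_mod_cast hn
    have hp' : (Real.pi : ℂ) ≠ 0 := by exact_mod_cast hpi.ne'
    have : 1 / (-2 * (Real.pi : ℂ) * Complex.I * n) *
      (fourier (-n) ((-Real.pi : ℝ) : AddCircle (Real.pi - -Real.pi)) * (F (-Real.pi) - F (-Real.pi)) -
        (((Real.pi : ℝ) : ℂ) - ((-Real.pi : ℝ) : ℂ)) * fourierCoeffOn hab F' n) =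
        d n * (1 / (Complex.I * n)) := by
      rw [hddef]
      rw [sub_self, mul_zero, zero_sub]
      push_cast
      field_simp
      ring
    rw [this, norm_mul, norm_div, norm_mul, Complex.norm_I, one_mul, norm_one]
    congr 2
    rw [Complex.norm_intCast]
  have hc0 : ‖c 0‖ ≤ M0 := by
    have e1 : c 0 = fourierCoeffOn hab F 0 := hcoef 0
    rw [e1, fourierCoeffOn_eq_integral, norm_smul]
    have e2 : ‖∫ x in (-Real.pi)..Real.pi,
        fourier (-0) (x : AddCircle (Real.pi - -Real.pi)) • F x‖ ≤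
        M0 * |Real.pi - -Real.pi| := by
      apply intervalIntegral.norm_integral_le_of_norm_le_const
      intro x _
      rw [neg_zero, fourier_zero, one_smul]
      exact h0 x
    rw [abs_of_pos hFact.out] at e2
    calc ‖(1 / (Real.pi - -Real.pi))‖ * ‖∫ x in (-Real.pi)..Real.pi,
        fourier (-0) (x : AddCircle (Real.pi - -Real.pi)) • F x‖ ≤
        ‖(1 / (Real.pi - -Real.pi))‖ * (M0 * (Real.pi - -Real.pi)) := by gcongr
      _ = M0 := by
        rw [Real.norm_eq_abs, abs_of_pos (by rw [hT]; positivity)]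
        field_simp
  have hL2 : MeasureTheory.MemLp F' 2
      (MeasureTheory.volume.restrict (Set.Ioc (-Real.pi) Real.pi)) := by
    obtain ⟨C, hC⟩ := isCompact_Icc.exists_bound_of_continuousOn (s := Set.Icc (-Real.pi) Real.pi)
      hc.continuousOn
    refine MeasureTheory.MemLp.of_bound hc.aestronglyMeasurable C ?_
    refine (MeasureTheory.ae_restrict_iff' measurableSet_Ioc).2 (Filter.Eventually.of_forall ?_)
    intro x hx
    exact hC x (Set.Ioc_subset_Icc_self hx)
  have hsq := hasSum_sq_fourierCoeffOn hab hL2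
  set A : ℝ := (Real.pi - -Real.pi)⁻¹ • ∫ x in (-Real.pi)..Real.pi, ‖F' x‖ ^ 2 with hA
  have hAle : A ≤ M1 ^ 2 / (2 * Real.pi) := by
    rw [hA, hT, smul_eq_mul, div_eq_inv_mul]
    gcongr
  have key : ∃ u : ℤ → ℝ, (∀ n, ‖c n‖ ≤ u n) ∧ Summable u ∧ ∑' n, u n ≤ M0 + M1 := by
    have hs0 : HasSum (fun n : ℤ => if n = 0 then M0 else 0) M0 := hasSum_ite_eq 0 M0
    rcases hM1.eq_or_lt with hM | hM
    · refine ⟨fun n => if n = 0 then M0 else 0, ?_, hs0.summable, ?_⟩
      · intro n
        by_cases hn : n = 0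
        · simp [hn, hc0]
        · have hA0 : A ≤ 0 := by rw [← hM] at hAle; simpa using hAle
          have hd0 : ‖d n‖ ^ 2 ≤ 0 := by
            refine le_trans ?_ hA0
            exact le_hasSum hsq n (fun j _ => by positivity)
          have hd1 : ‖d n‖ = 0 := by
            have := pow_nonneg (norm_nonneg (d n)) 2
            have : ‖d n‖ ^ 2 = 0 := le_antisymm hd0 this
            exact pow_eq_zero_iff (two_ne_zero) |>.1 this
          rw [hcn n hn, hd1]
          simp [hn]
      · rw [hs0.tsum_eq, ← hM, add_zero]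
    · have hs1 := (hsq.mul_left (2 * Real.pi / M1)).add (j1630_zeta_int.mul_left (M1 / (2 * Real.pi)))
      have hs2 := hs0.add (hs1.mul_left (1 / 2))
      refine ⟨_, ?_, hs2.summable, ?_⟩
      · intro n
        by_cases hn : n = 0
        · subst hn
          simp only [if_true]
          have : (0:ℝ) ≤ 1 / 2 * (2 * Real.pi / M1 * ‖fourierCoeffOn hab F' 0‖ ^ 2 +
            M1 / (2 * Real.pi) * (1 / ((0 : ℤ) : ℝ) ^ 2)) := by positivity
          linarith
        · simp only [hn, if_false, zero_add]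
          rw [hcn n hn]
          have hn' : 0 < |(n : ℝ)| := abs_pos.2 (by exact_mod_cast hn)
          set x := ‖d n‖ with hx
          set y := 1 / |(n : ℝ)| with hy
          have hy2 : 1 / (n : ℝ) ^ 2 = y ^ 2 := by
            rw [hy, div_pow, one_pow, sq_abs]
          rw [hy2]
          have hpos : 0 < 2 * Real.pi / M1 := by positivity
          have hinv : M1 / (2 * Real.pi) = 1 / (2 * Real.pi / M1) := by
            rw [one_div_div]
          rw [hinv]
          set s := 2 * Real.pi / M1 with hs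
          have h3 : 0 ≤ (s * x - y) ^ 2 / s := by positivity
          have h4 : (s * x - y) ^ 2 / s = s * x ^ 2 - 2 * (x * y) + 1 / s * y ^ 2 := by
            field_simp
            ring
          rw [h4] at h3
          linarith
      · rw [hs2.tsum_eq]
        have h5 : 2 * Real.pi / M1 * A ≤ M1 := by
          calc 2 * Real.pi / M1 * A ≤ 2 * Real.pi / M1 * (M1 ^ 2 / (2 * Real.pi)) := by gcongr
            _ = M1 := by field_simp
        have h6 : M1 / (2 * Real.pi) * (Real.pi ^ 2 / 3) ≤ M1 := by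
          have : M1 / (2 * Real.pi) * (Real.pi ^ 2 / 3) = M1 * (Real.pi / 6) := by
            field_simp; ring
          rw [this]
          have := Real.pi_lt_four
          nlinarith
        linarith
  obtain ⟨u, hu, hus, hut⟩ := key
  have hcs : Summable (fun n => ‖c n‖) := Summable.of_nonneg_of_le (fun n => norm_nonneg _) hu hus
  refine ⟨c, ?_, ?_, ?_⟩
  · simpa using hcs
  · simp only [pow_zero, mul_one]
    exact (hcs.tsum_le_tsum hu hus).trans hut
  · intro z hz
    have hzexp : z = Complex.exp (z.arg * Complex.I) := by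
      have := Complex.norm_mul_exp_arg_mul_I z
      rw [hz] at this
      simpa using this.symm
    have hsum := has_pointwise_sum_fourier_series_of_summable (f := G) hcs.of_norm
      ((z.arg : ℝ) : AddCircle (Real.pi - -Real.pi))
    have e1 : f z = F z.arg := by
      conv_lhs => rw [hzexp]
      exact hf z.arg
    rw [e1, ← hG z.arg, ← hsum.tsum_eq]
    congr 1
    ext n
    rw [smul_eq_mul]
    congr 1
    rw [fourier_coe_apply]
    conv_rhs => rw [hzexp]
    rw [← Complex.exp_int_mul]
    congr 1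
    have hp' : (Real.pi : ℂ) ≠ 0 := by exact_mod_cast hpi.ne'
    push_cast
    field_simp
    ring

end VG
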