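import Pool.Agent.Helper859.VG.Defs
set_option autoImplicit false
open Finset

namespace VG

/-- the Fourier coefficients as interval integrals -/
noncomputable def co (F : ℝ → ℂ) (n : ℤ) : ℂ :=
  (1 / (2 * Real.pi)) • ∫ x in (0:ℝ)..(2 * Real.pi), Complex.exp (-(Complex.I * n * x)) * F x

theorem co_bound (F : ℝ → ℂ) (hF : Continuous F) : ∃ C, ∀ n : ℤ, ‖co F n‖ ≤ C := by
  obtain ⟨M, hM⟩ := (isCompact_Icc (a := (0:ℝ)) (b := 2 * Real.pi)).exists_bound_of_continuousOn
    hF.continuousOn
  refine ⟨‖(1 / (2 * Real.pi) : ℝ)‖ * (M * |2 * Real.pi - 0|), fun n => ?_⟩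
  unfold co
  rw [norm_smul]
  refine mul_le_mul_of_nonneg_left ?_ (norm_nonneg _)
  refine intervalIntegral.norm_integral_le_of_norm_le_const ?_
  intro x hx
  rw [Set.uIoc_of_le (by positivity)] at hx
  rw [norm_mul]
  have h1 : ‖Complex.exp (-(Complex.I * n * x))‖ = 1 := by
    rw [Complex.norm_exp]
    simp
  rw [h1, one_mul]
  exact hM x ⟨hx.1.le, hx.2⟩

theorem co_deriv (F : ℝ → ℂ) (hper : Function.Periodic F (2 * Real.pi))
    (hF : ContDiff ℝ 1 F) (n : ℤ) : Complex.I * n * co F n = co (deriv F) n := by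
  have hd : ∀ x, HasDerivAt F (deriv F x) x := fun x =>
    (hF.differentiable (by norm_num) x).hasDerivAt
  have hdc : Continuous (deriv F) := hF.continuous_deriv (by norm_num)
  have he : ∀ x : ℝ, HasDerivAt (fun x : ℝ => Complex.exp (-(Complex.I * n * x)))
      (Complex.exp (-(Complex.I * n * x)) * (-(Complex.I * n))) x := by
    intro x
    have h1 : HasDerivAt (fun x : ℝ => -(Complex.I * n * (x:ℂ))) (-(Complex.I * n)) x := by
      have h2 := ((hasDerivAt_id (x:ℂ)).comp_ofReal).const_mul (Complex.I * (n:ℂ))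
      simpa using h2.fun_neg
    exact h1.cexp
  have hec : Continuous (fun x : ℝ => Complex.exp (-(Complex.I * n * x))) := by fun_prop
  have key := intervalIntegral.integral_mul_deriv_eq_deriv_mul (a := 0) (b := 2 * Real.pi)
    (u := fun x : ℝ => Complex.exp (-(Complex.I * n * x))) (v := F)
    (u' := fun x : ℝ => Complex.exp (-(Complex.I * n * x)) * (-(Complex.I * n))) (v' := deriv F)
    (fun x _ => he x) (fun x _ => hd x)
    ((hec.mul continuous_const).intervalIntegrable _ _) (hdc.intervalIntegrable _ _)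
  have hper0 : F (2 * Real.pi) = F 0 := by
    have := hper 0
    simpa using this
  have hexp : Complex.exp (-(Complex.I * n * ((2 * Real.pi : ℝ) : ℂ))) = 1 := by
    rw [Complex.exp_eq_one_iff]
    refine ⟨-n, ?_⟩
    push_cast
    ring
  have e0 : Complex.exp (-(Complex.I * n * ((0:ℝ):ℂ))) = 1 := by simp
  rw [hexp, e0, hper0, sub_self, zero_sub] at key
  unfold co
  rw [key]
  have h3 : ∀ x : ℝ, Complex.exp (-(Complex.I * n * x)) * (-(Complex.I * n)) * F x =
      (-(Complex.I * n)) * (Complex.exp (-(Complex.I * n * x)) * F x) := by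
    intro x; ring
  simp_rw [h3]
  rw [intervalIntegral.integral_const_mul]
  simp only [Complex.real_smul]
  ring

theorem co_decay (s : ℕ) : ∀ F : ℝ → ℂ, Function.Periodic F (2 * Real.pi) →
    (∀ m : ℕ, ContDiff ℝ m F) → ∃ C, ∀ n : ℤ, |(n : ℝ)| ^ s * ‖co F n‖ ≤ C := by
  induction s with
  | zero =>
    intro F _ hF
    obtain ⟨C, hC⟩ := co_bound F (hF 0).continuous
    exact ⟨C, fun n => by simpa using hC n⟩
  | succ s ih =>
    intro F hper hF
    have hF1 : ContDiff ℝ 1 F := by exact_mod_cast hF 1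
    have hper' : Function.Periodic (deriv F) (2 * Real.pi) := by
      intro x
      have h1 : deriv (fun y => F (y + 2 * Real.pi)) x = deriv F (x + 2 * Real.pi) :=
        deriv_comp_add_const _ _ _
      rw [← h1]
      congr 1
      funext y
      exact hper y
    have hF' : ∀ m : ℕ, ContDiff ℝ m (deriv F) := by
      intro m
      have h2 : ContDiff ℝ ((m:ℕ) + 1) F := by exact_mod_cast hF (m + 1)
      exact (contDiff_succ_iff_deriv.1 h2).2.2
    obtain ⟨C, hC⟩ := ih (deriv F) hper' hF'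
    refine ⟨C, fun n => ?_⟩
    have h3 := hC n
    rw [← co_deriv F hper hF1 n] at h3
    have h4 : ‖Complex.I * (n:ℂ) * co F n‖ = |(n:ℝ)| * ‖co F n‖ := by
      rw [norm_mul, norm_mul, Complex.norm_I, one_mul, Complex.norm_intCast]
    rw [h4] at h3
    calc |(n:ℝ)| ^ (s+1) * ‖co F n‖ = |(n:ℝ)| ^ s * (|(n:ℝ)| * ‖co F n‖) := by ring
      _ ≤ C := h3

theorem summable_inv_sq_int : Summable (fun n : ℤ => 1 / (1 + |(n:ℝ)|) ^ 2) := by
  have h1 : Summable (fun n : ℤ => 1 / (n:ℝ) ^ 2 + if n = 0 then (1:ℝ) else 0) := by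
    refine (Real.summable_one_div_int_pow.2 (by norm_num)).add ?_
    refine summable_of_ne_finset_zero (s := {0}) ?_
    intro b hb
    simp at hb
    simp [hb]
  refine Summable.of_nonneg_of_le (fun n => by positivity) (fun n => ?_) h1
  by_cases hn : n = 0
  · subst hn; simp
  · simp only [hn, if_false, add_zero]
    have h2 : 0 < |(n:ℝ)| := abs_pos.2 (by exact_mod_cast hn)
    have h3 : (n:ℝ)^2 = |(n:ℝ)|^2 := (sq_abs _).symm
    rw [h3]
    apply one_div_le_one_div_of_le (by positivity)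
    gcongr
    linarith

theorem co_summable (F : ℝ → ℂ) (hper : Function.Periodic F (2 * Real.pi))
    (hF : ∀ m : ℕ, ContDiff ℝ m F) (m : ℕ) :
    Summable (fun n : ℤ => ‖co F n‖ * (1 + |(n : ℝ)|) ^ m) := by
  obtain ⟨C0, h0⟩ := co_decay 0 F hper hF
  obtain ⟨C1, h1⟩ := co_decay (m+2) F hper hF
  have hs : Summable (fun n : ℤ => (2 ^ (m+2) * (C0 + C1)) * (1 / (1 + |(n:ℝ)|) ^ 2)) :=
    summable_inv_sq_int.mul_left _
  refine Summable.of_nonneg_of_le (fun n => by positivity) (fun n => ?_) hs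
  have hp : 0 < (1 + |(n:ℝ)|) ^ 2 := by positivity
  rw [mul_one_div, le_div_iff₀ hp]
  have h2 : (1 + |(n:ℝ)|) ^ (m+2) ≤ 2 ^ (m+2) * (1 + |(n:ℝ)| ^ (m+2)) := by
    rcases le_total |(n:ℝ)| 1 with h | h
    · calc (1 + |(n:ℝ)|) ^ (m+2) ≤ 2 ^ (m+2) := by
            apply pow_le_pow_left₀ (by positivity); linarith
        _ ≤ 2 ^ (m+2) * (1 + |(n:ℝ)| ^ (m+2)) := by
            refine le_mul_of_one_le_right (by positivity) ?_
            have : 0 ≤ |(n:ℝ)| ^ (m+2) := by positivity
            linarith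
    · calc (1 + |(n:ℝ)|) ^ (m+2) ≤ (2 * |(n:ℝ)|) ^ (m+2) := by
            apply pow_le_pow_left₀ (by positivity); linarith
        _ = 2 ^ (m+2) * |(n:ℝ)| ^ (m+2) := by rw [mul_pow]
        _ ≤ 2 ^ (m+2) * (1 + |(n:ℝ)| ^ (m+2)) := by
            refine mul_le_mul_of_nonneg_left ?_ (by positivity)
            linarith
  have h0n := h0 n
  have h1n := h1 n
  rw [pow_zero, one_mul] at h0n
  calc ‖co F n‖ * (1 + |(n:ℝ)|) ^ m * (1 + |(n:ℝ)|) ^ 2
      = ‖co F n‖ * (1 + |(n:ℝ)|) ^ (m+2) := by ring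
    _ ≤ ‖co F n‖ * (2 ^ (m+2) * (1 + |(n:ℝ)| ^ (m+2))) :=
        mul_le_mul_of_nonneg_left h2 (norm_nonneg _)
    _ = 2 ^ (m+2) * (‖co F n‖ + |(n:ℝ)| ^ (m+2) * ‖co F n‖) := by ring
    _ ≤ 2 ^ (m+2) * (C0 + C1) := by
        refine mul_le_mul_of_nonneg_left ?_ (by positivity)
        linarith

theorem co_hasSum (F : ℝ → ℂ) (hper : Function.Periodic F (2 * Real.pi))
    (hF : Continuous F) (hs : Summable (fun n : ℤ => ‖co F n‖)) (θ : ℝ) :
    HasSum (fun n : ℤ => co F n * (Complex.exp (θ * Complex.I)) ^ n) (F θ) := by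
  have : Fact (0 < 2 * Real.pi) := ⟨by positivity⟩
  have hlc : Continuous (hper.lift : AddCircle (2 * Real.pi) → ℂ) :=
    continuous_coinduced_dom.mpr hF
  let g : C(AddCircle (2 * Real.pi), ℂ) := ⟨hper.lift, hlc⟩
  have hco : ∀ n : ℤ, fourierCoeff g n = co F n := by
    intro n
    rw [fourierCoeff_eq_intervalIntegral g n 0, zero_add]
    unfold co
    congr 1
    refine intervalIntegral.integral_congr fun x _ => ?_
    simp only [smul_eq_mul]
    rw [fourier_coe_apply]
    have e1 : g (x : AddCircle (2 * Real.pi)) = F x := hper.lift_coe x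
    rw [e1]
    congr 2
    push_cast
    have : (Real.pi : ℂ) ≠ 0 := by exact_mod_cast Real.pi_ne_zero
    field_simp
  have hsum : Summable (fourierCoeff g) := by
    have : fourierCoeff g = co F := funext hco
    rw [this]
    exact Summable.of_norm hs
  have h := has_pointwise_sum_fourier_series_of_summable hsum (θ : AddCircle (2 * Real.pi))
  have e2 : g (θ : AddCircle (2 * Real.pi)) = F θ := hper.lift_coe θ
  rw [e2] at h
  convert h using 2 with n
  rw [hco, smul_eq_mul, fourier_coe_apply, ← Complex.exp_int_mul]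
  congr 2
  push_cast
  have : (Real.pi : ℂ) ≠ 0 := by exact_mod_cast Real.pi_ne_zero
  field_simp

theorem TN_of_smooth (F : ℝ → ℂ) (hper : Function.Periodic F (2 * Real.pi))
    (hF : ∀ m : ℕ, ContDiff ℝ m F)
    (f : ℂ → ℂ) (hf : ∀ θ : ℝ, f (Complex.exp (θ * Complex.I)) = F θ) (m : ℕ) : ∃ c, TN m c f := by
  refine ⟨∑' n : ℤ, ‖co F n‖ * (1 + |(n : ℝ)|) ^ m, co F, co_summable F hper hF m, le_rfl, ?_⟩
  intro z hz
  have hz1 : z = Complex.exp (z.arg * Complex.I) := by
    have := Complex.norm_mul_exp_arg_mul_I z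
    rw [hz] at this
    simpa using this.symm
  have hs : Summable (fun n : ℤ => ‖co F n‖) := by
    simpa using co_summable F hper hF 0
  have h := co_hasSum F hper (hF 0).continuous hs z.arg
  rw [← hf, ← hz1] at h
  exact h.tsum_eq.symm

theorem norm_one_sub_exp_sq_1635 (θ : ℝ) :
    ‖1 - Complex.exp (θ * Complex.I)‖ ^ 2 = 2 - 2 * Real.cos θ := by
  rw [← Complex.normSq_eq_norm_sq, Complex.normSq_apply]
  simp only [Complex.sub_re, Complex.sub_im, Complex.one_re, Complex.one_im,
    Complex.exp_ofReal_mul_I_re, Complex.exp_ofReal_mul_I_im]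
  nlinarith [Real.sin_sq_add_cos_sq θ]

theorem cutF_smooth (s : ℝ) (k : ℕ) : ContDiff ℝ k
    (fun θ : ℝ => cut s (Complex.exp (θ * Complex.I))) := by
  unfold cut
  simp_rw [norm_one_sub_exp_sq_1635]
  have h1 : ContDiff ℝ k (fun θ : ℝ => Real.smoothTransition ((1 - (2 - 2 * Real.cos θ) / s ^ 2) * (4/3))) := by
    have h2 : ContDiff ℝ k Real.smoothTransition := Real.smoothTransition.contDiff
    refine h2.comp ?_
    fun_prop
  exact Complex.ofRealCLM.contDiff.comp h1

theorem TN_cut (s : ℝ) (hs : 0 < s) (m : ℕ) : ∃ c, TN m c (cut s) := by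
  refine TN_of_smooth (fun θ : ℝ => cut s (Complex.exp (θ * Complex.I))) ?_
    (cutF_smooth s) _ (fun θ => rfl) m
  intro θ
  simp only
  congr 1
  rw [Complex.exp_eq_exp_iff_exists_int]
  refine ⟨1, ?_⟩
  push_cast
  ring

theorem TN_tau (s : ℝ) (hs : 0 < s) (m : ℕ) : ∃ c, TN m c (tau s) := by
  refine TN_of_smooth (fun θ : ℝ => tau s (Complex.exp (θ * Complex.I))) ?_
    ?_ _ (fun θ => rfl) m
  · intro θ
    simp only
    congr 1
    rw [Complex.exp_eq_exp_iff_exists_int]
    refine ⟨1, ?_⟩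
    push_cast
    ring
  · intro k
    rw [contDiff_iff_contDiffAt]
    intro θ
    by_cases h : Complex.exp (θ * Complex.I) = 1
    · have hc : Continuous (fun t : ℝ => ‖1 - Complex.exp (t * Complex.I)‖) := by fun_prop
      have h1 : ∀ᶠ t : ℝ in nhds θ, ‖1 - Complex.exp (t * Complex.I)‖ < s / 2 := by
        apply hc.continuousAt.eventually_lt continuousAt_const
        rw [h]; simp; exact hs
      have h2 : (fun t : ℝ => tau s (Complex.exp (t * Complex.I))) =ᶠ[nhds θ] fun _ => (1:ℂ) := by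
        filter_upwards [h1] with t ht
        have h3 : cut s (Complex.exp (t * Complex.I)) = 1 := by
          unfold cut
          rw [Real.smoothTransition.one_of_one_le]
          · simp
          · have h4 : ‖1 - Complex.exp (t * Complex.I)‖ ^ 2 / s ^ 2 ≤ 1 / 4 := by
              rw [div_le_iff₀ (by positivity)]
              have : ‖1 - Complex.exp (t * Complex.I)‖ ^ 2 ≤ (s/2)^2 :=
                pow_le_pow_left₀ (norm_nonneg _) ht.le 2
              nlinarith
            linarith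
        unfold tau
        rw [h3]; simp
      exact contDiffAt_const.congr_of_eventuallyEq h2
    · unfold tau
      have hE : ContDiff ℝ k (fun t : ℝ => Complex.exp (t * Complex.I)) := by
        have h1 : ContDiff ℝ k (fun t : ℝ => ((t:ℂ) * Complex.I)) :=
          Complex.ofRealCLM.contDiff.mul contDiff_const
        exact h1.cexp
      refine ContDiffAt.cexp ?_
      refine ContDiffAt.neg ?_
      refine ContDiffAt.mul ?_ ?_
      · exact contDiffAt_const.sub (cutF_smooth s k).contDiffAt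
      · simp_rw [div_eq_mul_inv]
        refine ContDiffAt.mul ?_ (ContDiffAt.inv ?_ ?_)
        · exact contDiffAt_const.add hE.contDiffAt
        · exact contDiffAt_const.sub hE.contDiffAt
        · intro h0
          apply h
          exact (sub_eq_zero.1 h0).symm

end VG
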