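import Pool.Agent.Helper859.VG.JB
import Pool.Agent.MP58366f.Wiener
set_option autoImplicit false
open Finset

namespace VG

theorem AN_mul {c c' : ℝ} {f g : ℂ → ℂ} (hf : AN c f) (hg : AN c' g) : AN (c * c') (fun z => f z * g z) :=
  W702.AN_mul hf hg
theorem AN_neg {c : ℝ} {f : ℂ → ℂ} (hf : AN c f) : AN c (fun z => -f z) := by
  have h := W702.AN_mul (W702.AN_const (-1)) hf
  refine W702.AN_congr (W702.AN_mono h ?_) fun z _ => ?_
  · rw [norm_neg, norm_one, one_mul]
  · ring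


/-! GIVEN toolbox (proved elsewhere; leave these sorries as they are, use them freely) -/
section given
variable {m : ℕ} {c c' : ℝ} {f g : ℂ → ℂ}
end given

/-! further GIVEN lemmas (leave the sorries) -/
/-! TARGET -/
theorem AN_diffCont {c : ℝ} {f : ℂ → ℂ} (h : AN c f) : DiffContOnCl ℂ f (Metric.ball 0 1) := by
  obtain ⟨k, hk, -, hf⟩ := h
  have hb : ∀ (m : ℕ) (z : ℂ), ‖z‖ ≤ 1 → ‖k m * z ^ m‖ ≤ ‖k m‖ := by
    intro m z hz
    rw [norm_mul, norm_pow]
    exact mul_le_of_le_one_right (norm_nonneg _) (pow_le_one₀ (norm_nonneg _) hz)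
  constructor
  · have h1 : DifferentiableOn ℂ (fun z => ∑' m, k m * z ^ m) (Metric.ball 0 1) := by
      refine Complex.differentiableOn_tsum_of_summable_norm hk (fun m => by fun_prop) Metric.isOpen_ball ?_
      intro m z hz
      exact hb m z (mem_ball_zero_iff.1 hz).le
    exact h1.congr fun z hz => hf z (mem_ball_zero_iff.1 hz).le
  · rw [closure_ball (0 : ℂ) one_ne_zero]
    have h2 : ContinuousOn (fun z => ∑' m, k m * z ^ m) (Metric.closedBall 0 1) := by
      refine continuousOn_tsum (fun m => by fun_prop) hk ?_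
      intro m z hz
      exact hb m z (mem_closedBall_zero_iff.1 hz)
    exact h2.congr fun z hz => hf z (mem_closedBall_zero_iff.1 hz)

theorem correction {cf cp ε : ℝ} {f p q : ℂ → ℂ} (hf : TN 0 cf f) (hf1 : ∀ z : ℂ, ‖z‖ = 1 → ‖f z‖ = 1)
    (hp : AN cp p) (hq : TN 0 ε q) (hpq : ∀ z : ℂ, ‖z‖ = 1 → f z = p z + q z) (hcf : 1 ≤ cf)
    (hsmall : 20 * (cf * ε) ≤ 1) :
    ∃ B t : ℂ → ℂ, (∃ c, AN c B) ∧ (∀ z : ℂ, ‖z‖ ≤ 1 → ‖B z‖ ≤ 1) ∧ (∀ z : ℂ, ‖z‖ = 1 → ‖B z‖ = 1) ∧
      TN 0 (8 * (cf * ε)) t ∧ ∀ z : ℂ, ‖z‖ = 1 → B z = f z * (1 + t z) := by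
  have hε : 0 ≤ ε := TN_nonneg hq
  set x : ℝ := cf * ε with hx
  have hεx : ε ≤ x := by rw [hx]; exact le_mul_of_one_le_left hε hcf
  have hx0 : 0 ≤ x := hε.trans hεx
  have hx20 : x ≤ 1 / 20 := by linarith
  -- the function `s`
  set s : ℂ → ℂ := fun z => q z * (starRingEnd ℂ) (q z) -
    ((starRingEnd ℂ) (f z) * q z + f z * (starRingEnd ℂ) (q z)) with hs
  have hsT : TN 0 (ε * ε + (cf * ε + cf * ε)) s :=
    TN_sub (TN_mul hq (TN_conj hq)) (TN_add (TN_mul (TN_conj hf) hq) (TN_mul hf (TN_conj hq)))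
  have hcs : ε * ε + (cf * ε + cf * ε) ≤ 2.05 * x := by
    have : ε * ε ≤ x * (1 / 20) := mul_le_mul hεx (hεx.trans hx20) hε hx0
    rw [← hx]; linarith
  have hsT' : TN 0 (2.05 * x) s := TN_mono hsT hcs
  have hc1 : 2.05 * x < 1 := by linarith
  have hpn : ∀ z : ℂ, ‖z‖ = 1 → 1 + s z = ((‖p z‖ ^ 2 : ℝ) : ℂ) := by
    intro z hz
    have hff : f z * (starRingEnd ℂ) (f z) = 1 := by
      rw [Complex.mul_conj, Complex.normSq_eq_norm_sq, hf1 z hz]; simp
    have hpf : p z = f z - q z := by rw [hpq z hz]; ring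
    rw [← Complex.normSq_eq_norm_sq, ← Complex.mul_conj, hpf, map_sub, hs]
    linear_combination (-1 : ℂ) * hff
  have hpos : ∀ z : ℂ, ‖z‖ = 1 → 0 < ‖p z‖ := by
    intro z hz
    have h1 := TN_bound hsT' hz
    rcases (norm_nonneg (p z)).eq_or_lt with h0 | h0
    · exfalso
      have h2 := hpn z hz
      rw [← h0] at h2
      have h3 : s z = -1 := by
        have : (1 : ℂ) + s z = 0 := by rw [h2]; simp
        linear_combination this
      rw [h3] at h1
      simp only [norm_neg, norm_one] at h1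
      linarith
    · exact h0
  -- the function `v`
  have hv : TN 0 (‖(1 / 2 : ℂ)‖ * (2.05 * x / (1 - 2.05 * x)))
      (fun z => (1 / 2 : ℂ) * Complex.log (1 + s z)) :=
    TN_mul (TN_const 0 (1 / 2 : ℂ)) (TN_log hsT' hc1)
  have hv' : TN 0 (1.15 * x) (fun z => (1 / 2 : ℂ) * Complex.log (1 + s z)) := by
    refine TN_mono hv ?_
    have h1 : ‖(1 / 2 : ℂ)‖ = 1 / 2 := by norm_num
    rw [h1, mul_div_assoc', div_le_iff₀ (by linarith)]
    nlinarith
  have hvr : ∀ z : ℂ, ‖z‖ = 1 →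
      (1 / 2 : ℂ) * Complex.log (1 + s z) = ((Real.log ‖p z‖ : ℝ) : ℂ) := by
    intro z hz
    rw [hpn z hz, ← Complex.ofReal_log (by positivity), Real.log_pow]
    push_cast
    ring
  obtain ⟨H, hH, hHre⟩ := herglotz0 hv' (fun z hz => by
    show ((1 / 2 : ℂ) * Complex.log (1 + s z)).im = 0
    rw [hvr z hz, Complex.ofReal_im])
  have hHre' : ∀ z : ℂ, ‖z‖ = 1 → (H z).re = Real.log ‖p z‖ := by
    intro z hz
    rw [hHre z hz]
    show ((1 / 2 : ℂ) * Complex.log (1 + s z)).re = _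
    rw [hvr z hz, Complex.ofReal_re]
  have hBA : AN (cp * Real.exp (2 * (1.15 * x))) (fun z => p z * Complex.exp (-H z)) :=
    AN_mul hp (AN_exp (AN_neg hH))
  have hB1 : ∀ z : ℂ, ‖z‖ = 1 → ‖p z * Complex.exp (-H z)‖ = 1 := by
    intro z hz
    rw [norm_mul, Complex.norm_exp, Complex.neg_re, hHre' z hz, Real.exp_neg,
      Real.exp_log (hpos z hz)]
    exact mul_inv_cancel₀ (hpos z hz).ne'
  refine ⟨fun z => p z * Complex.exp (-H z),
    fun z => (Complex.exp (-H z) - 1) - ((starRingEnd ℂ) (f z) * q z) * Complex.exp (-H z),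
    ⟨_, hBA⟩, ?_, hB1, ?_, ?_⟩
  · intro z hz
    have hcl : z ∈ closure (Metric.ball (0 : ℂ) 1) := by
      rw [closure_ball (0 : ℂ) one_ne_zero]
      exact mem_closedBall_zero_iff.2 hz
    refine Complex.norm_le_of_forall_mem_frontier_norm_le Metric.isBounded_ball
      (AN_diffCont hBA) ?_ hcl
    intro w hw
    rw [frontier_ball (0 : ℂ) one_ne_zero] at hw
    exact (hB1 w (mem_sphere_zero_iff_norm.1 hw)).le
  · have h1 : TN 0 (Real.exp (2 * (1.15 * x)) - 1) (fun z => Complex.exp (-H z) - 1) :=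
      TN_exp_sub_one (TN_of_AN (AN_neg hH))
    have h2 : TN 0 (Real.exp (2 * (1.15 * x))) (fun z => Complex.exp (-H z)) :=
      TN_of_AN (AN_exp (AN_neg hH))
    refine TN_mono (TN_sub h1 (TN_mul (TN_mul (TN_conj hf) hq) h2)) ?_
    have h3 : Real.exp (2 * (1.15 * x)) ≤ 2 := by
      rw [← Real.le_log_iff_exp_le (by norm_num)]
      have := Real.log_two_gt_d9
      linarith
    have h4 : Real.exp (2 * (1.15 * x)) - 1 ≤ 2 * (1.15 * x) * Real.exp (2 * (1.15 * x)) := by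
      have h5 := Real.add_one_le_exp (-(2 * (1.15 * x)))
      have h6 : Real.exp (-(2 * (1.15 * x))) * Real.exp (2 * (1.15 * x)) = 1 := by
        rw [← Real.exp_add]; simp
      have h7 := Real.exp_pos (2 * (1.15 * x))
      nlinarith
    rw [← hx]
    have h8 := Real.exp_pos (2 * (1.15 * x))
    nlinarith
  · intro z hz
    have hff : f z * (starRingEnd ℂ) (f z) = 1 := by
      rw [Complex.mul_conj, Complex.normSq_eq_norm_sq, hf1 z hz]; simp
    have hpf : p z = f z - q z := by rw [hpq z hz]; ring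
    show p z * Complex.exp (-H z) = f z * (1 + ((Complex.exp (-H z) - 1) -
      ((starRingEnd ℂ) (f z) * q z) * Complex.exp (-H z)))
    rw [hpf]
    linear_combination (q z * Complex.exp (-H z)) * hff

end VG
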