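import Pool.Agent.Helper859.VG.JA
import Pool.Agent.Helper859.VG.JD
set_option autoImplicit false
open Finset

namespace VG

/-! GIVEN toolbox (proved elsewhere; leave these sorries as they are, use them freely) -/
section given
variable {m : ℕ} {c c' : ℝ} {f g : ℂ → ℂ}
end given

/-! auxiliary -/

/-- unnormalised Fourier integral -/
noncomputable def FI (g : ℝ → ℂ) (n : ℤ) : ℂ :=
  ∫ x in (0 : ℝ)..(2 * Real.pi), Complex.exp (-(Complex.I * n * x)) * g x

theorem summable_w : Summable (fun n : ℤ => 1 / (1 + |(n : ℝ)|) ^ 2) := by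
  have h1 : Summable (fun n : ℤ => 1 / (n : ℝ) ^ 2 + if n = 0 then (1 : ℝ) else 0) := by
    apply Summable.add (Real.summable_one_div_int_pow.2 (by norm_num))
    apply summable_of_ne_finset_zero (s := {0})
    intro b hb
    rw [if_neg (by simpa using hb)]
  refine Summable.of_nonneg_of_le (fun n => by positivity) (fun n => ?_) h1
  by_cases hn : n = 0
  · simp [hn]
  · rw [if_neg hn, add_zero]
    have hn' : (0 : ℝ) < |(n : ℝ)| := abs_pos.2 (by exact_mod_cast hn)
    rw [← sq_abs (n : ℝ)]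
    apply one_div_le_one_div_of_le (by positivity)
    nlinarith

theorem TN_of_FI (f : ℂ → ℂ) (C : ℝ)
    (hf : Continuous (fun x : ℝ => f (Complex.exp (x * Complex.I))))
    (h : ∀ n : ℤ, (1 + |(n : ℝ)|) ^ 6 * ‖FI (fun x : ℝ => f (Complex.exp (x * Complex.I))) n‖ ≤ C) :
    TN 4 (C * ∑' n : ℤ, 1 / (1 + |(n : ℝ)|) ^ 2) f := by
  have hpi : (0 : ℝ) < 2 * Real.pi := by positivity
  have : Fact (0 < 2 * Real.pi) := ⟨hpi⟩
  have hC0 : 0 ≤ C := le_trans (by positivity) (h 0)
  have hcont : Continuous (fun x : AddCircle (2 * Real.pi) => f (AddCircle.toCircle x)) := by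
    have hq : Topology.IsQuotientMap (QuotientAddGroup.mk : ℝ → AddCircle (2 * Real.pi)) :=
      QuotientAddGroup.isOpenQuotientMap_mk.isQuotientMap
    rw [hq.continuous_iff]
    refine hf.congr fun x => ?_
    show _ = f (AddCircle.toCircle (x : AddCircle (2 * Real.pi)))
    rw [AddCircle.toCircle_apply_mk, Circle.coe_exp, div_self hpi.ne', one_mul]
  set F : C(AddCircle (2 * Real.pi), ℂ) := ⟨_, hcont⟩ with hF
  have hcoe : ∀ n : ℤ, fourierCoeff F n = (1 / (2 * Real.pi)) •
      FI (fun x : ℝ => f (Complex.exp (x * Complex.I))) n := by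
    intro n
    rw [fourierCoeff_eq_intervalIntegral F n 0, FI, zero_add]
    congr 1
    apply intervalIntegral.integral_congr
    intro x _
    simp only [smul_eq_mul]
    rw [fourier_coe_apply]
    congr 1
    · congr 1
      push_cast
      have : (Real.pi : ℂ) ≠ 0 := by exact_mod_cast Real.pi_ne_zero
      field_simp
    · show f (AddCircle.toCircle (x : AddCircle (2 * Real.pi))) = _
      rw [AddCircle.toCircle_apply_mk, Circle.coe_exp, div_self hpi.ne', one_mul]
  have hbd : ∀ n : ℤ, ‖fourierCoeff F n‖ * (1 + |(n : ℝ)|) ^ 4 ≤ C * (1 / (1 + |(n : ℝ)|) ^ 2) := by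
    intro n
    have hp : (0 : ℝ) < 1 + |(n : ℝ)| := by positivity
    have h1 : ‖fourierCoeff F n‖ ≤ ‖FI (fun x : ℝ => f (Complex.exp (x * Complex.I))) n‖ := by
      rw [hcoe, norm_smul]
      apply mul_le_of_le_one_left (norm_nonneg _)
      rw [Real.norm_of_nonneg (by positivity), div_le_one hpi]
      linarith [Real.pi_gt_three]
    calc ‖fourierCoeff F n‖ * (1 + |(n : ℝ)|) ^ 4
        ≤ ‖FI (fun x : ℝ => f (Complex.exp (x * Complex.I))) n‖ * (1 + |(n : ℝ)|) ^ 4 := by gcongr
      _ = ((1 + |(n : ℝ)|) ^ 6 * ‖FI (fun x : ℝ => f (Complex.exp (x * Complex.I))) n‖)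
          * (1 / (1 + |(n : ℝ)|) ^ 2) := by
          generalize ‖FI (fun x : ℝ => f (Complex.exp (x * Complex.I))) n‖ = Y
          field_simp
      _ ≤ C * (1 / (1 + |(n : ℝ)|) ^ 2) := by gcongr; exact h n
  have hsum : Summable (fun n : ℤ => ‖fourierCoeff F n‖ * (1 + |(n : ℝ)|) ^ 4) :=
    Summable.of_nonneg_of_le (fun n => by positivity) hbd (summable_w.mul_left C)
  have hsum0 : Summable (fourierCoeff F) := by
    apply Summable.of_norm
    refine Summable.of_nonneg_of_le (fun n => by positivity) (fun n => ?_) hsum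
    apply le_mul_of_one_le_right (norm_nonneg _)
    apply one_le_pow₀
    linarith [abs_nonneg (n : ℝ)]
  refine ⟨fourierCoeff F, hsum, ?_, ?_⟩
  · rw [← tsum_mul_left]
    exact hsum.tsum_le_tsum hbd (summable_w.mul_left C)
  · intro z hz
    obtain ⟨x, rfl⟩ : ∃ x : ℝ, z = Complex.exp (x * Complex.I) := by
      refine ⟨Complex.arg z, ?_⟩
      have := Complex.norm_mul_exp_arg_mul_I z
      rw [hz, Complex.ofReal_one, one_mul] at this
      exact this.symm
    have h2 := (has_pointwise_sum_fourier_series_of_summable hsum0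
      (x : AddCircle (2 * Real.pi))).tsum_eq
    have h3 : F (x : AddCircle (2 * Real.pi)) = f (Complex.exp (x * Complex.I)) := by
      show f (AddCircle.toCircle (x : AddCircle (2 * Real.pi))) = _
      rw [AddCircle.toCircle_apply_mk, Circle.coe_exp, div_self hpi.ne', one_mul]
    rw [← h3, ← h2]
    apply tsum_congr
    intro n
    rw [smul_eq_mul, fourier_coe_apply, ← Complex.exp_int_mul]
    congr 2
    have : (Real.pi : ℂ) ≠ 0 := by exact_mod_cast Real.pi_ne_zero
    push_cast
    field_simp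

theorem FI_deriv (g g' : ℝ → ℂ) (hg : ∀ x, HasDerivAt g (g' x) x) (hg' : Continuous g')
    (hper : g (2 * Real.pi) = g 0) (n : ℤ) : FI g' n = Complex.I * n * FI g n := by
  have hgc : Continuous g := continuous_iff_continuousAt.2 fun x => (hg x).continuousAt
  have he : ∀ x : ℝ, HasDerivAt (fun x : ℝ => Complex.exp (-(Complex.I * n * x)))
      (Complex.exp (-(Complex.I * n * x)) * (-(Complex.I * n))) x := by
    intro x
    have h1 : HasDerivAt (fun x : ℝ => -(Complex.I * n * (x : ℂ))) (-(Complex.I * n)) x := by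
      have := (Complex.ofRealCLM.hasDerivAt (x := x)).const_mul (-(Complex.I * n))
      simp only [Complex.ofRealCLM_apply, Complex.ofReal_one, mul_one] at this
      refine this.congr_of_eventuallyEq (Filter.Eventually.of_forall fun y => ?_)
      simp
    exact h1.cexp
  have hec : Continuous (fun x : ℝ => Complex.exp (-(Complex.I * n * x))) := by fun_prop
  have c1 : Continuous (fun x : ℝ => Complex.exp (-(Complex.I * n * x)) * (-(Complex.I * n)) * g x) :=
    (hec.mul continuous_const).mul hgc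
  have c2 : Continuous (fun x : ℝ => Complex.exp (-(Complex.I * n * x)) * g' x) := hec.mul hg'
  have h1 := intervalIntegral.integral_eq_sub_of_hasDerivAt (a := 0) (b := 2 * Real.pi)
    (f := fun x : ℝ => Complex.exp (-(Complex.I * n * x)) * g x)
    (f' := fun x : ℝ => Complex.exp (-(Complex.I * n * x)) * (-(Complex.I * n)) * g x
      + Complex.exp (-(Complex.I * n * x)) * g' x)
    (fun x _ => (he x).mul (hg x)) ((c1.add c2).intervalIntegrable _ _)
  rw [intervalIntegral.integral_add (c1.intervalIntegrable _ _) (c2.intervalIntegrable _ _)] at h1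
  have h2 : ∫ x in (0 : ℝ)..(2 * Real.pi), Complex.exp (-(Complex.I * n * x)) * (-(Complex.I * n)) * g x
      = -(Complex.I * n) * FI g n := by
    rw [FI, ← intervalIntegral.integral_const_mul]
    congr 1
    ext x
    ring
  have h3 : Complex.exp (-(Complex.I * n * ((2 * Real.pi : ℝ) : ℂ))) = 1 := by
    rw [Complex.exp_eq_one_iff]
    refine ⟨-n, ?_⟩
    push_cast
    ring
  rw [h2, hper, h3] at h1
  simp only [Complex.ofReal_zero, mul_zero, neg_zero, Complex.exp_zero, sub_self] at h1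
  have h4 : FI g' n = ∫ x in (0 : ℝ)..(2 * Real.pi), Complex.exp (-(Complex.I * n * x)) * g' x := rfl
  rw [← h4] at h1
  linear_combination h1

theorem exp_cont (n : ℤ) : Continuous (fun x : ℝ => Complex.exp (-(Complex.I * n * x))) := by fun_prop

theorem FI_add (g h : ℝ → ℂ) (hg : Continuous g) (hh : Continuous h) (n : ℤ) :
    FI (fun x => g x + h x) n = FI g n + FI h n := by
  have c1 : Continuous (fun x : ℝ => Complex.exp (-(Complex.I * n * x)) * g x) := (exp_cont n).mul hg
  have c2 : Continuous (fun x : ℝ => Complex.exp (-(Complex.I * n * x)) * h x) := (exp_cont n).mul hh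
  unfold FI
  rw [← intervalIntegral.integral_add (c1.intervalIntegrable _ _) (c2.intervalIntegrable _ _)]
  congr 1
  ext x
  ring

theorem FI_mul (a : ℂ) (g : ℝ → ℂ) (_hg : Continuous g) (n : ℤ) :
    FI (fun x => a * g x) n = a * FI g n := by
  unfold FI
  rw [← intervalIntegral.integral_const_mul]
  congr 1
  ext x
  ring

theorem FI_sub (g h : ℝ → ℂ) (hg : Continuous g) (hh : Continuous h) (n : ℤ) :
    FI (fun x => g x - h x) n = FI g n - FI h n := by
  have c1 : Continuous (fun x : ℝ => Complex.exp (-(Complex.I * n * x)) * g x) := (exp_cont n).mul hg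
  have c2 : Continuous (fun x : ℝ => Complex.exp (-(Complex.I * n * x)) * h x) := (exp_cont n).mul hh
  unfold FI
  rw [← intervalIntegral.integral_sub (c1.intervalIntegrable _ _) (c2.intervalIntegrable _ _)]
  congr 1
  ext x
  ring

theorem FI_bound (g : ℝ → ℂ) (M : ℝ) (h : ∀ x, ‖g x‖ ≤ M) (n : ℤ) : ‖FI g n‖ ≤ M * (2 * Real.pi) := by
  have h1 := intervalIntegral.norm_integral_le_of_norm_le_const (a := 0) (b := 2 * Real.pi)
    (C := M) (f := fun x : ℝ => Complex.exp (-(Complex.I * n * x)) * g x) (fun x _ => by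
      rw [norm_mul]
      have : ‖Complex.exp (-(Complex.I * n * x))‖ = 1 := by
        have e : -(Complex.I * n * x) = ((-(n * x) : ℝ) : ℂ) * Complex.I := by push_cast; ring
        rw [e, Complex.norm_exp_ofReal_mul_I]
      rw [this, one_mul]
      exact h x)
  rwa [sub_zero, abs_of_pos (by positivity)] at h1

/-- the cutoff in the angular variable -/
noncomputable def chi (s : ℝ) (x : ℝ) : ℂ := cut s (Complex.exp (x * Complex.I))

theorem chi_per (s : ℝ) (x : ℝ) : chi s (x + 2 * Real.pi) = chi s x := by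
  unfold chi
  congr 1
  push_cast
  rw [add_mul, Complex.exp_add, Complex.exp_two_pi_mul_I, mul_one]

theorem norm_one_sub_exp_sq_1628 (x : ℝ) : ‖1 - Complex.exp (x * Complex.I)‖ ^ 2 = 2 - 2 * Real.cos x := by
  rw [Complex.exp_mul_I, ← Complex.normSq_eq_norm_sq, Complex.normSq_apply]
  simp only [Complex.sub_re, Complex.one_re, Complex.add_re, Complex.mul_re, Complex.I_re,
    Complex.I_im, Complex.sub_im, Complex.one_im, Complex.add_im, Complex.mul_im]
  rw [← Complex.ofReal_cos, ← Complex.ofReal_sin]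
  simp only [Complex.ofReal_re, Complex.ofReal_im]
  nlinarith [Real.sin_sq_add_cos_sq x]

theorem chi_smooth (s : ℝ) : ContDiff ℝ (⊤ : ℕ∞) (chi s) := by
  have h1 : chi s = fun x => ((Real.smoothTransition ((1 - (2 - 2 * Real.cos x) / s ^ 2) * (4 / 3)) : ℝ) : ℂ) := by
    ext x
    unfold chi cut
    rw [norm_one_sub_exp_sq_1628]
  rw [h1]
  have h2 : ContDiff ℝ (⊤ : ℕ∞) (fun x : ℝ => (1 - (2 - 2 * Real.cos x) / s ^ 2) * (4 / 3)) := by
    have := Real.contDiff_cos (n := (⊤ : ℕ∞))
    fun_prop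
  exact Complex.ofRealCLM.contDiff.comp ((Real.smoothTransition.contDiff (n := ⊤)).comp h2)

noncomputable def X (s : ℝ) (i : ℕ) : ℝ → ℂ := iteratedDeriv i (chi s)

theorem X_deriv (s : ℝ) (i : ℕ) (x : ℝ) : HasDerivAt (X s i) (X s (i + 1) x) x := by
  unfold X
  rw [iteratedDeriv_succ]
  exact ((chi_smooth s).differentiable_iteratedDeriv i (by exact_mod_cast WithTop.coe_lt_top i) x).hasDerivAt

theorem X_cont (s : ℝ) (i : ℕ) : Continuous (X s i) :=
  continuous_iff_continuousAt.2 fun x => (X_deriv s i x).continuousAt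

theorem X_per (s : ℝ) (i : ℕ) (x : ℝ) : X s i (x + 2 * Real.pi) = X s i x := by
  unfold X
  have h := iteratedDeriv_comp_add_const i (chi s) (2 * Real.pi)
  have h2 : (fun z => chi s (z + 2 * Real.pi)) = chi s := by
    ext x
    exact chi_per s x
  rw [h2] at h
  exact (congrFun h x).symm

theorem X_bdd (s : ℝ) (i : ℕ) : ∃ M : ℝ, 0 ≤ M ∧ ∀ x, ‖X s i x‖ ≤ M := by
  obtain ⟨M, hM⟩ := isCompact_Icc.exists_bound_of_continuousOn (s := Set.Icc 0 (2 * Real.pi))
    (X_cont s i).continuousOn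
  refine ⟨M, le_trans (norm_nonneg _) (hM 0 ⟨le_rfl, by positivity⟩), fun x => ?_⟩
  have hper : Function.Periodic (X s i) (2 * Real.pi) := X_per s i
  obtain ⟨y, hy, hxy⟩ := hper.exists_mem_Ico₀ (by positivity) x
  rw [hxy]
  exact hM y ⟨hy.1, hy.2.le⟩

theorem X_zero (s : ℝ) (hs : 0 < s) (i : ℕ) (x : ℝ) (hx : s < ‖1 - Complex.exp (x * Complex.I)‖) :
    ∀ᶠ y in nhds x, X s i y = 0 := by
  have h1 : ∀ᶠ y in nhds x, s < ‖1 - Complex.exp ((y : ℝ) * Complex.I)‖ := by
    have : Continuous (fun y : ℝ => ‖1 - Complex.exp ((y : ℝ) * Complex.I)‖) := by fun_prop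
    exact this.continuousAt.eventually (lt_mem_nhds hx)
  have h2 : chi s =ᶠ[nhds x] (fun _ => 0) := by
    filter_upwards [h1] with y hy
    unfold chi cut
    rw [Real.smoothTransition.zero_of_nonpos, Complex.ofReal_zero]
    apply mul_nonpos_of_nonpos_of_nonneg _ (by norm_num)
    rw [sub_nonpos, one_le_div (by positivity)]
    gcongr
  have h3 := h2.iteratedDeriv i
  filter_upwards [h3] with y hy
  unfold X
  rw [hy]
  simp [iteratedDeriv_const]

/-- the denominators -/
noncomputable def Pw (w : ℂ) (x : ℝ) : ℂ := 1 - w * Complex.exp (-(x * Complex.I))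

theorem Pw_deriv (w : ℂ) (x : ℝ) : HasDerivAt (Pw w) (Complex.I * (1 - Pw w x)) x := by
  have h1 : HasDerivAt (fun x : ℝ => -((x : ℂ) * Complex.I)) (-Complex.I) x := by
    have := (Complex.ofRealCLM.hasDerivAt (x := x)).mul_const (-Complex.I)
    simp only [Complex.ofRealCLM_apply, Complex.ofReal_one, one_mul] at this
    refine this.congr_of_eventuallyEq (Filter.Eventually.of_forall fun y => ?_)
    simp
  have h2 := (h1.cexp.const_mul w).const_sub 1
  refine h2.congr_deriv ?_
  unfold Pw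
  ring

noncomputable def gij (s : ℝ) (w : ℂ) (i j : ℕ) (x : ℝ) : ℂ := X s i x * (Pw w x)⁻¹ ^ j

theorem gij_deriv (s : ℝ) (hs : 0 < s) (w : ℂ) (i j : ℕ)
    (hw : ∀ x : ℝ, ‖1 - Complex.exp (x * Complex.I)‖ ≤ s → Pw w x ≠ 0) (x : ℝ) :
    HasDerivAt (gij s w i j) (gij s w (i + 1) j x - j * Complex.I * gij s w i (j + 1) x
      + j * Complex.I * gij s w i j x) x := by
  by_cases hx : ‖1 - Complex.exp (x * Complex.I)‖ ≤ s
  · have hP := hw x hx
    have h1 := (X_deriv s i x).mul (((Pw_deriv w x).fun_inv hP).fun_pow j)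
    refine h1.congr_deriv ?_
    unfold gij
    rcases j with _ | j
    · simp
    · rw [Nat.add_sub_cancel, div_eq_mul_inv, ← inv_pow]
      have hu : Pw w x * (Pw w x)⁻¹ = 1 := mul_inv_cancel₀ hP
      push_cast
      linear_combination (X s i x * (j + 1) * (Pw w x)⁻¹ ^ j * Complex.I * (Pw w x)⁻¹) * hu
  · push Not at hx
    have h1 : ∀ᶠ y in nhds x, gij s w i j y = 0 := by
      filter_upwards [X_zero s hs i x hx] with y hy
      unfold gij
      rw [hy, zero_mul]
    have e0 : gij s w (i + 1) j x - j * Complex.I * gij s w i (j + 1) x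
      + j * Complex.I * gij s w i j x = 0 := by
      unfold gij
      rw [(X_zero s hs i x hx).self_of_nhds, (X_zero s hs (i + 1) x hx).self_of_nhds]
      ring
    rw [e0]
    exact (hasDerivAt_const x (0 : ℂ)).congr_of_eventuallyEq h1

theorem gij_FI (s : ℝ) (hs : 0 < s) (c : ℝ) (hc : 0 < c) (t : ℕ) : ∀ i j : ℕ, ∃ C : ℝ, 0 ≤ C ∧ ∀ w : ℂ,
    (∀ x : ℝ, ‖1 - Complex.exp (x * Complex.I)‖ ≤ s → c ≤ ‖Pw w x‖) → ∀ n : ℤ,
      |(n : ℝ)| ^ t * ‖FI (gij s w i j) n‖ ≤ C := by
  induction t with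
  | zero =>
    intro i j
    obtain ⟨M, hM0, hM⟩ := X_bdd s i
    refine ⟨M * c⁻¹ ^ j * (2 * Real.pi), by positivity, fun w hw n => ?_⟩
    rw [pow_zero, one_mul]
    apply FI_bound
    intro x
    unfold gij
    by_cases hx : ‖1 - Complex.exp (x * Complex.I)‖ ≤ s
    · rw [norm_mul, norm_pow, norm_inv]
      have := hw x hx
      gcongr
      exact hM x
    · push Not at hx
      rw [(X_zero s hs i x hx).self_of_nhds, zero_mul, norm_zero]
      positivity
  | succ t ih =>
    intro i j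
    obtain ⟨C1, hC1, h1⟩ := ih (i + 1) j
    obtain ⟨C2, hC2, h2⟩ := ih i (j + 1)
    obtain ⟨C3, hC3, h3⟩ := ih i j
    refine ⟨C1 + j * C2 + j * C3, by positivity, fun w hw n => ?_⟩
    have hw' : ∀ x : ℝ, ‖1 - Complex.exp (x * Complex.I)‖ ≤ s → Pw w x ≠ 0 := by
      intro x hx h0
      have := hw x hx
      rw [h0, norm_zero] at this
      linarith
    have cont : ∀ i j, Continuous (gij s w i j) := fun i j =>
      continuous_iff_continuousAt.2 fun x => (gij_deriv s hs w i j hw' x).continuousAt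
    have hper : gij s w i j (2 * Real.pi) = gij s w i j 0 := by
      unfold gij
      have e1 := X_per s i 0
      rw [zero_add] at e1
      have e2 : Pw w (2 * Real.pi) = Pw w 0 := by
        unfold Pw
        congr 2
        push_cast
        rw [Complex.exp_neg, Complex.exp_two_pi_mul_I]
        simp
      rw [e1, e2]
    have c1 := cont (i + 1) j
    have c2 : Continuous (fun x => j * Complex.I * gij s w i (j + 1) x) := continuous_const.mul (cont i (j + 1))
    have c3 : Continuous (fun x => j * Complex.I * gij s w i j x) := continuous_const.mul (cont i j)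
    have hd := FI_deriv (gij s w i j) _ (gij_deriv s hs w i j hw') ((c1.sub c2).add c3) hper n
    have hsplit : FI (fun x => gij s w (i + 1) j x - j * Complex.I * gij s w i (j + 1) x
      + j * Complex.I * gij s w i j x) n = FI (gij s w (i + 1) j) n - j * Complex.I * FI (gij s w i (j + 1)) n
      + j * Complex.I * FI (gij s w i j) n := by
      rw [FI_add (fun x => gij s w (i + 1) j x - j * Complex.I * gij s w i (j + 1) x)
        (fun x => j * Complex.I * gij s w i j x) (c1.sub c2) c3,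
        FI_sub (gij s w (i + 1) j) (fun x => j * Complex.I * gij s w i (j + 1) x) c1 c2,
        FI_mul _ _ (cont i (j + 1)), FI_mul _ _ (cont i j)]
    have hnorm : |(n : ℝ)| * ‖FI (gij s w i j) n‖ ≤ ‖FI (gij s w (i + 1) j) n‖
        + j * ‖FI (gij s w i (j + 1)) n‖ + j * ‖FI (gij s w i j) n‖ := by
      have e : |(n : ℝ)| * ‖FI (gij s w i j) n‖ = ‖Complex.I * n * FI (gij s w i j) n‖ := by
        rw [norm_mul, norm_mul, Complex.norm_I, one_mul, Complex.norm_intCast]
      rw [e, ← hd]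
      rw [hsplit]
      refine (norm_add_le _ _).trans (add_le_add ((norm_sub_le _ _).trans (add_le_add le_rfl ?_)) ?_)
      · rw [norm_mul, norm_mul, Complex.norm_I, mul_one, Complex.norm_natCast]
      · rw [norm_mul, norm_mul, Complex.norm_I, mul_one, Complex.norm_natCast]
    calc |(n : ℝ)| ^ (t + 1) * ‖FI (gij s w i j) n‖
        = |(n : ℝ)| ^ t * (|(n : ℝ)| * ‖FI (gij s w i j) n‖) := by ring
      _ ≤ |(n : ℝ)| ^ t * (‖FI (gij s w (i + 1) j) n‖
        + j * ‖FI (gij s w i (j + 1)) n‖ + j * ‖FI (gij s w i j) n‖) := by gcongr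
      _ = |(n : ℝ)| ^ t * ‖FI (gij s w (i + 1) j) n‖
        + j * (|(n : ℝ)| ^ t * ‖FI (gij s w i (j + 1)) n‖)
        + j * (|(n : ℝ)| ^ t * ‖FI (gij s w i j) n‖) := by ring
      _ ≤ C1 + j * C2 + j * C3 := by
        have a1 := h1 w hw n
        have a2 := h2 w hw n
        have a3 := h3 w hw n
        gcongr

theorem cut_inv (s : ℝ) (hs : 0 < s) (c : ℝ) (hc : 0 < c) : ∃ C : ℝ, 0 ≤ C ∧ ∀ w : ℂ,
    (∀ z : ℂ, ‖z‖ = 1 → ‖1 - z‖ ≤ s → c ≤ ‖1 - w * z⁻¹‖) →
      TN 4 C (fun z => cut s z * (1 - w * z⁻¹)⁻¹) := by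
  obtain ⟨C0, hC0, h0⟩ := gij_FI s hs c hc 0 0 1
  obtain ⟨C6, hC6, h6⟩ := gij_FI s hs c hc 6 0 1
  refine ⟨(C0 + 64 * C6) * ∑' n : ℤ, 1 / (1 + |(n : ℝ)|) ^ 2,
    mul_nonneg (by positivity) (tsum_nonneg fun n => by positivity), fun w hw => ?_⟩
  have hP : ∀ x : ℝ, Pw w x = 1 - w * (Complex.exp (x * Complex.I))⁻¹ := by
    intro x
    unfold Pw
    rw [Complex.exp_neg]
  have hw1 : ∀ x : ℝ, ‖1 - Complex.exp (x * Complex.I)‖ ≤ s → c ≤ ‖Pw w x‖ := by
    intro x hx
    rw [hP]
    exact hw _ (Complex.norm_exp_ofReal_mul_I x) hx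
  have hw' : ∀ x : ℝ, ‖1 - Complex.exp (x * Complex.I)‖ ≤ s → Pw w x ≠ 0 := by
    intro x hx h0
    have := hw1 x hx
    rw [h0, norm_zero] at this
    linarith
  have hfun : (fun x : ℝ => cut s (Complex.exp (x * Complex.I)) *
      (1 - w * (Complex.exp (x * Complex.I))⁻¹)⁻¹) = gij s w 0 1 := by
    ext x
    unfold gij X
    rw [hP, pow_one, iteratedDeriv_zero]
    rfl
  have cont : Continuous (gij s w 0 1) :=
      continuous_iff_continuousAt.2 fun x => (gij_deriv s hs w 0 1 hw' x).continuousAt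
  apply TN_of_FI
  · show Continuous (fun x : ℝ => cut s (Complex.exp (x * Complex.I)) *
      (1 - w * (Complex.exp (x * Complex.I))⁻¹)⁻¹)
    rw [hfun]
    exact cont
  · intro n
    show (1 + |(n : ℝ)|) ^ 6 * ‖FI (fun x : ℝ => cut s (Complex.exp (x * Complex.I)) *
      (1 - w * (Complex.exp (x * Complex.I))⁻¹)⁻¹) n‖ ≤ _
    rw [hfun]
    have a0 := h0 w hw1 n
    have a6 := h6 w hw1 n
    rw [pow_zero, one_mul] at a0
    by_cases hn : n = 0
    · subst hn
      simp only [Int.cast_zero, abs_zero, add_zero, one_pow, one_mul]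
      linarith
    · have hn' : (1 : ℝ) ≤ |(n : ℝ)| := by
        have := Int.one_le_abs hn
        exact_mod_cast this
      calc (1 + |(n : ℝ)|) ^ 6 * ‖FI (gij s w 0 1) n‖
          ≤ (2 * |(n : ℝ)|) ^ 6 * ‖FI (gij s w 0 1) n‖ := by
            gcongr
            linarith
        _ = 64 * (|(n : ℝ)| ^ 6 * ‖FI (gij s w 0 1) n‖) := by ring
        _ ≤ 64 * C6 := by gcongr
        _ ≤ C0 + 64 * C6 := by linarith

/-! TARGETS -/
theorem resolvent_smooth (β : ℝ) (hβ : 0 < β) (hβ1 : β ≤ 1 / 8) : ∃ C : ℝ, ∀ (r : ℝ) (ω : ℂ), 0 ≤ r → r < 1 →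
    ‖ω‖ = 1 → 4 * β ≤ ‖1 - ω‖ → TN 4 C (fun z => cut (2 * β) z * ((1 + ω * z⁻¹) / (1 - r * ω * z⁻¹))) := by
  obtain ⟨C, hC, h⟩ := cut_inv (2 * β) (by positivity) β hβ
  refine ⟨C * (1 + (1 + |((-1 : ℤ) : ℝ)|) ^ 4), fun r ω hr0 hr1 hω hd => ?_⟩
  have h1 := h (r * ω) (by
    intro z hz hzs
    have hz0 : z ≠ 0 := by
      intro h0
      rw [h0, norm_zero] at hz
      norm_num at hz
    have e1 : ‖1 - r * ω * z⁻¹‖ = ‖z - r * ω‖ := by
      have : z - r * ω = z * (1 - r * ω * z⁻¹) := by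
        field_simp
      rw [this, norm_mul, hz, one_mul]
    have e2 : ‖z - ω‖ ≤ ‖z - r * ω‖ + (1 - r) := by
      have : z - ω = (z - r * ω) + (r - 1) * ω := by ring
      rw [this]
      refine (norm_add_le _ _).trans ?_
      rw [norm_mul, hω, mul_one]
      have : ‖(r : ℂ) - 1‖ = 1 - r := by
        rw [← Complex.ofReal_one, ← Complex.ofReal_sub, Complex.norm_real, Real.norm_eq_abs,
          abs_of_neg (by linarith)]
        ring
      rw [this]
    have e3 : 1 - r ≤ ‖z - r * ω‖ := by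
      have := norm_sub_norm_le z (r * ω)
      rw [norm_mul, hω, mul_one, hz, Complex.norm_real, Real.norm_of_nonneg hr0] at this
      exact this
    have e4 : ‖1 - ω‖ ≤ ‖1 - z‖ + ‖z - ω‖ := norm_sub_le_norm_sub_add_norm_sub 1 z ω
    rw [e1]
    linarith)
  have h2 : TN 4 ‖(1 : ℂ)‖ (fun _ => (1 : ℂ)) := TN_const 4 1
  have h3 : TN 4 (‖ω‖ * (1 + |((-1 : ℤ) : ℝ)|) ^ 4) (fun z => ω * z ^ (-1 : ℤ)) :=
    TN_mul (TN_const 4 ω) (TN_zpow 4 (-1))
  rw [hω, one_mul] at h3
  rw [norm_one] at h2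
  have h4 := TN_mul h1 (TN_add h2 h3)
  refine TN_congr h4 fun z _ => ?_
  rw [zpow_neg_one]
  ring

theorem TN_finprod (m : ℕ) (K : ℕ) (c : ℝ) (F : ℕ → ℂ → ℂ) (h : ∀ k < K, TN m c (F k)) :
    TN m (c ^ K) (fun z => ∏ k ∈ range K, F k z) := by
  induction K with
  | zero =>
    have := TN_const m 1
    rw [norm_one] at this
    simpa using this
  | succ K ih =>
    have h1 := TN_mul (ih fun k hk => h k (by omega)) (h K (by omega))
    rw [← pow_succ] at h1
    refine TN_congr h1 fun z _ => ?_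
    rw [prod_range_succ]

theorem cut_eq_zero (s : ℝ) (hs : 0 < s) (z : ℂ) (h : s ≤ ‖1 - z‖) : cut s z = 0 := by
  unfold cut
  rw [Real.smoothTransition.zero_of_nonpos, Complex.ofReal_zero]
  apply mul_nonpos_of_nonpos_of_nonneg _ (by norm_num)
  rw [sub_nonpos, one_le_div (by positivity)]
  gcongr

theorem cut_eq_one (s : ℝ) (hs : 0 < s) (z : ℂ) (h : ‖1 - z‖ ≤ s / 2) : cut s z = 1 := by
  unfold cut
  rw [Real.smoothTransition.one_of_one_le, Complex.ofReal_one]
  have h1 : ‖1 - z‖ ^ 2 / s ^ 2 ≤ 1 / 4 := by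
    rw [div_le_iff₀ (by positivity)]
    nlinarith [norm_nonneg (1 - z)]
  linarith

theorem vC_smooth (β : ℝ) (hβ : 0 < β) (hβ1 : β ≤ 1 / 32) : ∃ (C : ℝ) (L0 : ℕ), ∀ (L n K : ℕ), L0 ≤ L →
    β * L ≤ n → (n : ℝ) ≤ L / 4 → L = 2 * n + K →
    TN 4 C (fun z => cut β z * (starRingEnd ℂ) (vC 10 n K L z)) := by
  obtain ⟨C0, hC0⟩ := resolvent_smooth β hβ (by linarith)
  set C := max C0 0 with hCdef
  have hC : ∀ (r : ℝ) (ω : ℂ), 0 ≤ r → r < 1 →
    ‖ω‖ = 1 → 4 * β ≤ ‖1 - ω‖ → TN 4 C (fun z => cut (2 * β) z * ((1 + ω * z⁻¹) / (1 - r * ω * z⁻¹))) :=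
    fun r ω h1 h2 h3 h4 => TN_mono (hC0 r ω h1 h2 h3 h4) (le_max_left _ _)
  have hCn : 0 ≤ C := le_max_right _ _
  obtain ⟨cβ, hcβ⟩ := TN_cut β hβ 4
  have hcβ0 : 0 ≤ cβ := TN_nonneg hcβ
  refine ⟨cβ * Real.exp (20 * Real.pi * C), 100, fun L n K hL hn1 hn2 hLn => ?_⟩
  have hLpos : (0 : ℝ) < L := by
    have : 0 < L := by omega
    exact_mod_cast this
  have hL100 : (100 : ℝ) ≤ L := by exact_mod_cast hL
  have hLR : (L : ℝ) = 2 * n + K := by exact_mod_cast hLn
  have hpi3 := Real.pi_gt_three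
  have hpi4 := Real.pi_lt_four
  set q : ℝ := Real.pi * 10 / L with hq
  have hq0 : 0 < q := by positivity
  have hq1 : q < 1 := by
    rw [hq, div_lt_one hLpos]
    linarith
  set r : ℝ := (1 - q) / (1 + q) with hr
  have hr0 : 0 ≤ r := div_nonneg (by linarith) (by linarith)
  have hr1 : r < 1 := by
    rw [hr, div_lt_one (by linarith)]
    linarith
  have hr2 : 1 - r ≤ 20 * Real.pi / L := by
    have e1 : 1 - r = 2 * q / (1 + q) := by
      rw [hr]
      field_simp
      ring
    have e2 : 20 * Real.pi / L = 2 * q := by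
      rw [hq]
      ring
    rw [e1, e2]
    apply div_le_self (by positivity)
    linarith
  set ω : ℕ → ℂ := fun k => Complex.exp (2 * Real.pi * Complex.I * (((2 * n + k : ℕ) : ℂ) - n + 1 / 2) / L) with hω
  have hang : ∀ k, ω k = Complex.exp (((2 * Real.pi * (n + k + 1 / 2) / L : ℝ) : ℂ) * Complex.I) := by
    intro k
    rw [hω]
    simp only
    congr 1
    push_cast
    ring
  have hωn : ∀ k, ‖ω k‖ = 1 := by
    intro k
    rw [hang, Complex.norm_exp_ofReal_mul_I]
  have hωd : ∀ k < K, 4 * β ≤ ‖1 - ω k‖ := by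
    intro k hk
    have hkR : (k : ℝ) + 1 ≤ K := by exact_mod_cast hk
    have e1 : ‖1 - ω k‖ ^ 2 = (2 * Real.sin (Real.pi * (n + k + 1 / 2) / L)) ^ 2 := by
      rw [hang, norm_one_sub_exp_sq_1628]
      have : 2 * Real.pi * (n + k + 1 / 2) / L = 2 * (Real.pi * (n + k + 1 / 2) / L) := by ring
      rw [this, Real.cos_two_mul]
      have := Real.sin_sq_add_cos_sq (Real.pi * (n + k + 1 / 2) / L)
      nlinarith
    have hn0 : (0 : ℝ) ≤ n := Nat.cast_nonneg n
    have hk0 : (0 : ℝ) ≤ k := Nat.cast_nonneg k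
    have key : 2 * β ≤ Real.sin (Real.pi * (n + k + 1 / 2) / L) := by
      by_cases hcase : (n + k + 1 / 2 : ℝ) ≤ L / 2
      · have h1 := Real.mul_le_sin (x := Real.pi * (n + k + 1 / 2) / L) (by positivity) (by
          rw [div_le_iff₀ hLpos]
          nlinarith)
        refine le_trans ?_ h1
        have e : 2 / Real.pi * (Real.pi * (n + k + 1 / 2) / L) = 2 * ((n + k + 1 / 2) / L) := by
          field_simp
        rw [e]
        have : β ≤ (n + k + 1 / 2) / L := by
          rw [le_div_iff₀ hLpos]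
          linarith
        linarith
      · push Not at hcase
        rw [← Real.sin_pi_sub]
        have e0 : Real.pi - Real.pi * (n + k + 1 / 2) / L = Real.pi * (L - (n + k + 1 / 2)) / L := by
          field_simp
        rw [e0]
        have hpos : (n : ℝ) ≤ L - (n + k + 1 / 2) := by linarith
        have h1 := Real.mul_le_sin (x := Real.pi * (L - (n + k + 1 / 2)) / L) (by
          apply div_nonneg _ hLpos.le
          apply mul_nonneg Real.pi_pos.le
          linarith) (by
          rw [div_le_iff₀ hLpos]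
          nlinarith)
        refine le_trans ?_ h1
        have e : 2 / Real.pi * (Real.pi * (L - (n + k + 1 / 2)) / L) = 2 * ((L - (n + k + 1 / 2)) / L) := by
          field_simp
        rw [e]
        have : β ≤ (L - (n + k + 1 / 2)) / L := by
          rw [le_div_iff₀ hLpos]
          linarith
        linarith
    have h5 : (4 * β) ^ 2 ≤ ‖1 - ω k‖ ^ 2 := by
      rw [e1]
      apply pow_le_pow_left₀ (by positivity)
      linarith
    exact le_of_sq_le_sq h5 (norm_nonneg _)
  -- the factors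
  have hfac : ∀ k < K, TN 4 (1 + 20 * Real.pi / L * C)
      (fun z => 1 + -((1 - r : ℝ) : ℂ) * (cut (2 * β) z * ((1 + ω k * z⁻¹) / (1 - r * ω k * z⁻¹)))) := by
    intro k hk
    have h1 := TN_mul (TN_const 4 (-((1 - r : ℝ) : ℂ))) (hC r (ω k) hr0 hr1 (hωn k) (hωd k hk))
    have h2 := TN_const 4 1
    rw [norm_one] at h2
    have h3 := TN_add h2 h1
    apply TN_mono h3
    rw [norm_neg, Complex.norm_real, Real.norm_of_nonneg (by linarith)]
    gcongr
  have hprod := TN_mul hcβ (TN_finprod 4 K _ _ hfac)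
  have hbound : cβ * (1 + 20 * Real.pi / L * C) ^ K ≤ cβ * Real.exp (20 * Real.pi * C) := by
    apply mul_le_mul_of_nonneg_left _ hcβ0
    have h1 : 1 + 20 * Real.pi / L * C ≤ Real.exp (20 * Real.pi / L * C) := by
      rw [add_comm]
      exact Real.add_one_le_exp _
    calc (1 + 20 * Real.pi / L * C) ^ K ≤ Real.exp (20 * Real.pi / L * C) ^ K := by
          gcongr
      _ = Real.exp (K * (20 * Real.pi / L * C)) := by rw [← Real.exp_nat_mul]
      _ ≤ Real.exp (20 * Real.pi * C) := by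
          apply Real.exp_le_exp.2
          have hKL : (K : ℝ) ≤ L := by
            have hn0 : (0 : ℝ) ≤ n := Nat.cast_nonneg n
            linarith
          calc (K : ℝ) * (20 * Real.pi / L * C) ≤ L * (20 * Real.pi / L * C) := by gcongr
            _ = 20 * Real.pi * C := by field_simp
  refine TN_congr (TN_mono hprod hbound) fun z hz => ?_
  have hz0 : z ≠ 0 := by
    intro h0
    rw [h0, norm_zero] at hz
    norm_num at hz
  by_cases hcut : β ≤ ‖1 - z‖
  · rw [cut_eq_zero β hβ z hcut, zero_mul, zero_mul]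
  · push Not at hcut
    congr 1
    unfold vC
    rw [map_prod]
    apply Finset.prod_congr rfl
    intro k hk
    rw [mem_range] at hk
    rw [cut_eq_one (2 * β) (by positivity) z (by linarith), one_mul]
    have hzc : (starRingEnd ℂ) z = z⁻¹ := by
      rw [Complex.inv_def, Complex.normSq_eq_norm_sq, hz]
      simp
    have hwc : (starRingEnd ℂ) (Complex.exp (-(2 * Real.pi * Complex.I * (((2 * n + k : ℕ) : ℂ) - n + 1 / 2) / (L : ℝ)))) = ω k := by
      rw [← Complex.exp_conj, hω]
      congr 1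
      simp only [map_neg, map_div₀, map_mul, map_add, map_sub, Complex.conj_I, map_natCast, map_one,
        map_ofNat, Complex.conj_ofReal, Complex.ofReal_natCast]
      ring
    have hrr : (1 - Real.pi * 10 / (L : ℝ)) / (1 + Real.pi * 10 / (L : ℝ)) = r := rfl
    rw [hrr, map_div₀, map_sub, map_sub, map_mul, map_mul, map_mul, hwc, hzc, map_one, Complex.conj_ofReal]
    have hden : (1 : ℂ) - r * ω k * z⁻¹ ≠ 0 := by
      intro h0
      have h1 : (r : ℂ) * ω k * z⁻¹ = 1 := (sub_eq_zero.1 h0).symm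
      have h2 := congrArg norm h1
      rw [norm_mul, norm_mul, hωn, norm_inv, hz, Complex.norm_real, Real.norm_of_nonneg hr0, norm_one] at h2
      norm_num at h2
      linarith
    push_cast
    rw [div_eq_iff hden]
    have e := div_mul_cancel₀ (1 + ω k * z⁻¹) hden
    linear_combination ((1 : ℂ) - r) * e

end VG
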