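import Pool.Agent.Helper859.VG.Defs
set_option autoImplicit false
open Finset

namespace VG

theorem AN_mono {c c' : ℝ} (h : c ≤ c') {f : ℂ → ℂ} (hf : AN c f) : AN c' f := by
  obtain ⟨k, h1, h2, h3⟩ := hf
  exact ⟨k, h1, h2.trans h, h3⟩

theorem AN_of_bound {R M : ℝ} (hR : 1 < R) {f : ℂ → ℂ}
    (hf : DifferentiableOn ℂ f (Metric.closedBall 0 R)) (hM : ∀ z : ℂ, ‖z‖ ≤ R → ‖f z‖ ≤ M) :
    AN (M * (R / (R - 1))) f := by
  have hR0 : 0 ≤ R := by linarith
  have hRp : 0 < R := by linarith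
  lift R to NNReal using hR0
  have hp := hf.hasFPowerSeriesOnBall (by exact_mod_cast hRp)
  set p := cauchyPowerSeries f 0 R with hpdef
  have hcoef : ∀ m, ‖p.coeff m‖ ≤ M * ((R : ℝ)⁻¹) ^ m := by
    intro m
    rw [← FormalMultilinearSeries.norm_apply_eq_norm_coef]
    refine (norm_cauchyPowerSeries_le f 0 R m).trans ?_
    rw [abs_of_pos hRp]
    apply mul_le_mul_of_nonneg_right _ (by positivity)
    have hcirc : ∀ θ : ℝ, ‖circleMap 0 (R : ℝ) θ‖ ≤ (R : ℝ) := by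
      intro θ; rw [circleMap_zero, norm_mul, Complex.norm_exp_ofReal_mul_I, mul_one]
      simp
    have hint : ∫ θ in (0 : ℝ)..2 * Real.pi, ‖f (circleMap 0 (R : ℝ) θ)‖ ≤
        ∫ θ in (0 : ℝ)..2 * Real.pi, M := by
      apply intervalIntegral.integral_mono_on (by positivity)
      · apply ContinuousOn.intervalIntegrable
        apply Continuous.continuousOn
        apply Continuous.norm
        have hc : ContinuousOn f (Metric.closedBall 0 (R : ℝ)) := hf.continuousOn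
        exact hc.comp_continuous (continuous_circleMap 0 _) (fun θ => by
          rw [mem_closedBall_zero_iff]; exact hcirc θ)
      · exact intervalIntegrable_const
      · intro θ _; exact hM _ (hcirc θ)
    rw [intervalIntegral.integral_const, smul_eq_mul, sub_zero] at hint
    have hpi : 0 < 2 * Real.pi := by positivity
    calc (2 * Real.pi)⁻¹ * ∫ θ in (0 : ℝ)..2 * Real.pi, ‖f (circleMap 0 (R : ℝ) θ)‖
        ≤ (2 * Real.pi)⁻¹ * (2 * Real.pi * M) := by gcongr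
      _ = M := by field_simp
  have hRinv : (R : ℝ)⁻¹ < 1 := inv_lt_one_of_one_lt₀ hR
  have hRinv0 : 0 ≤ (R : ℝ)⁻¹ := by positivity
  have hgeo : Summable (fun m : ℕ => M * ((R : ℝ)⁻¹) ^ m) :=
    (summable_geometric_of_lt_one hRinv0 hRinv).mul_left M
  have hsum : Summable (fun m => ‖p.coeff m‖) :=
    Summable.of_nonneg_of_le (fun _ => norm_nonneg _) hcoef hgeo
  refine ⟨fun m => p.coeff m, hsum, ?_, ?_⟩
  · refine (hsum.tsum_le_tsum hcoef hgeo).trans ?_
    rw [tsum_mul_left, tsum_geometric_of_lt_one hRinv0 hRinv]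
    apply le_of_eq
    congr 1
    have : (R : ℝ) - 1 ≠ 0 := by linarith
    field_simp
  · intro z hz
    have hz' : z ∈ Metric.eball (0 : ℂ) (R : ENNReal) := by
      rw [mem_eball_zero_iff]
      have : ‖z‖₊ < R := by
        rw [← NNReal.coe_lt_coe, coe_nnnorm]
        exact lt_of_le_of_lt hz hR
      exact_mod_cast this
    have h3 := hp.hasSum hz'
    rw [zero_add] at h3
    rw [← h3.tsum_eq]
    congr 1
    funext m
    rw [FormalMultilinearSeries.apply_eq_pow_smul_coeff, smul_eq_mul, mul_comm]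

theorem factor_bound {r L : ℝ} (hL : 32 ≤ L) (hr0 : 0 ≤ r) (hr1 : r < 1) (hr : 30 / L ≤ 1 - r)
    {w : ℂ} (hw : ‖w‖ ≤ 1 + 1 / L ^ 3) :
    1 - (r : ℂ) * w ≠ 0 ∧ ‖((r : ℂ) - w) / (1 - (r : ℂ) * w)‖ ^ 2 ≤ 1 + 1 / L ^ 2 := by
  have hLp : 0 < L := by linarith
  have hL3 : 1 / L ^ 3 ≤ (1 - r) / 2 := by
    have h1 : 1 / L ^ 3 ≤ 1 / L := by
      apply one_div_le_one_div_of_le hLp
      nlinarith [sq_nonneg L, mul_pos hLp hLp]
    have h2 : 30 / L = 30 * (1 / L) := by ring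
    have h3 : 0 < 1 / L := by positivity
    linarith
  have hden : (1 - r) / 2 ≤ ‖1 - (r : ℂ) * w‖ := by
    have h1 : ‖(1 : ℂ)‖ - ‖(r : ℂ) * w‖ ≤ ‖1 - (r : ℂ) * w‖ := norm_sub_norm_le _ _
    rw [norm_one, norm_mul, Complex.norm_real, Real.norm_of_nonneg hr0] at h1
    have h2 : r * ‖w‖ ≤ r * (1 + 1 / L ^ 3) := by gcongr
    have h3 : r * (1 / L ^ 3) ≤ 1 / L ^ 3 := by
      have : 0 < 1 / L ^ 3 := by positivity
      nlinarith
    linarith
  have hdpos : 0 < ‖1 - (r : ℂ) * w‖ := lt_of_lt_of_le (by linarith) hden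
  refine ⟨norm_pos_iff.1 hdpos, ?_⟩
  rw [norm_div, div_pow, div_le_iff₀ (by positivity)]
  have hid : ‖(r : ℂ) - w‖ ^ 2 = ‖1 - (r : ℂ) * w‖ ^ 2 + (‖w‖ ^ 2 - 1) * (1 - r ^ 2) := by
    rw [← Complex.normSq_eq_norm_sq, ← Complex.normSq_eq_norm_sq, ← Complex.normSq_eq_norm_sq]
    simp only [Complex.normSq_apply, Complex.sub_re, Complex.sub_im, Complex.mul_re, Complex.mul_im,
      Complex.ofReal_re, Complex.ofReal_im, Complex.one_re, Complex.one_im]
    ring
  rw [hid]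
  have hw2 : ‖w‖ ^ 2 - 1 ≤ 3 / L ^ 3 := by
    have h1 : ‖w‖ ^ 2 ≤ (1 + 1 / L ^ 3) ^ 2 := by gcongr
    have h2 : (1 / L ^ 3) ≤ 1 := by
      rw [div_le_one (by positivity)]; nlinarith [sq_nonneg L, mul_pos hLp hLp]
    have h3 : 0 < 1 / L ^ 3 := by positivity
    have h4 : 3 / L ^ 3 = 3 * (1 / L ^ 3) := by ring
    rw [h4]
    nlinarith
  have hr2 : 1 - r ^ 2 ≤ 2 * (1 - r) := by nlinarith
  have hr20 : 0 ≤ 1 - r ^ 2 := by nlinarith
  have h1 : (‖w‖ ^ 2 - 1) * (1 - r ^ 2) ≤ 3 / L ^ 3 * (2 * (1 - r)) :=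
    (mul_le_mul_of_nonneg_right hw2 hr20).trans (by gcongr)
  have h2 : ((1 - r) / 2) ^ 2 ≤ ‖1 - (r : ℂ) * w‖ ^ 2 := by
    gcongr
  have h3 : 3 / L ^ 3 * (2 * (1 - r)) ≤ 1 / L ^ 2 * ((1 - r) / 2) ^ 2 := by
    have h4 : 24 / L ≤ 1 - r := by
      refine le_trans ?_ hr
      gcongr; norm_num
    have e1 : 3 / L ^ 3 * (2 * (1 - r)) = 1 / L ^ 2 * ((1 - r) / 4 * (24 / L)) := by
      field_simp; ring
    have e2 : 1 / L ^ 2 * ((1 - r) / 2) ^ 2 = 1 / L ^ 2 * ((1 - r) / 4 * (1 - r)) := by ring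
    rw [e1, e2]
    have : 0 ≤ (1 - r) / 4 := by linarith
    gcongr
  have h5 : 1 / L ^ 2 * ((1 - r) / 2) ^ 2 ≤ 1 / L ^ 2 * ‖1 - (r : ℂ) * w‖ ^ 2 := by
    gcongr
  nlinarith

/-! TARGET -/
theorem vB_poly : ∃ (C : ℝ) (L0 : ℕ), ∀ (L n : ℕ), L0 ≤ L → n ≤ L → AN (C * (L : ℝ) ^ 3) (vB 10 n L) := by
  refine ⟨4, 32, ?_⟩
  intro L n hL hn
  have hLr : (32 : ℝ) ≤ L := by exact_mod_cast hL
  have hLp : (0 : ℝ) < L := by linarith
  set x : ℝ := Real.pi * 10 / L with hx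
  have hpi3 := Real.pi_gt_three
  have hpi4 := Real.pi_lt_d2
  have hx0 : 0 < x := by positivity
  have hx1 : x ≤ 1 := by
    rw [hx, div_le_one hLp]; linarith
  have hx30 : 30 / (L : ℝ) ≤ x := by
    rw [hx]; gcongr; linarith
  set r : ℝ := (1 - x) / (1 + x) with hr
  have hr0 : 0 ≤ r := div_nonneg (by linarith) (by linarith)
  have h1r : 1 - r = 2 * x / (1 + x) := by rw [hr]; field_simp; ring
  have hxr : x ≤ 1 - r := by
    rw [h1r, le_div_iff₀ (by linarith)]; nlinarith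
  have hr1 : r < 1 := by linarith
  have hr30 : 30 / (L : ℝ) ≤ 1 - r := hx30.trans hxr
  set R : ℝ := 1 + 1 / (L : ℝ) ^ 3 with hR
  have hRpos : 0 < 1 / (L : ℝ) ^ 3 := by positivity
  have hvB : vB 10 n L = fun z => ∏ k ∈ range (2 * n),
    ((r : ℂ) - Complex.exp (-(2 * Real.pi * Complex.I * ((k : ℂ) - n + 1 / 2) / ((L : ℝ) : ℂ))) * z)
    / (1 - (r : ℂ)
        * (Complex.exp (-(2 * Real.pi * Complex.I * ((k : ℂ) - n + 1 / 2) / ((L : ℝ) : ℂ))) * z)) := by
    funext z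
    unfold vB
    apply Finset.prod_congr rfl
    intro k _
    rw [← mul_assoc]
  have hu : ∀ k : ℕ, ‖Complex.exp (-(2 * Real.pi * Complex.I * ((k : ℂ) - n + 1 / 2) / ((L : ℝ) : ℂ)))‖
      = 1 := by
    intro k
    have : (-(2 * Real.pi * Complex.I * ((k : ℂ) - n + 1 / 2) / ((L : ℝ) : ℂ))) =
        ((-(2 * Real.pi * ((k : ℝ) - n + 1 / 2) / (L : ℝ)) : ℝ) : ℂ) * Complex.I := by
      push_cast; ring
    rw [this, Complex.norm_exp_ofReal_mul_I]
  have hfac : ∀ (k : ℕ) (z : ℂ), ‖z‖ ≤ R → _ := fun k z hz =>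
    factor_bound (w := Complex.exp (-(2 * Real.pi * Complex.I * ((k : ℂ) - n + 1 / 2) / ((L : ℝ) : ℂ))) * z)
      hLr hr0 hr1 hr30 (by rw [norm_mul, hu, one_mul]; exact hz)
  have key : AN (2 * (R / (R - 1))) (vB 10 n L) := by
    apply AN_of_bound (by rw [hR]; linarith)
    · rw [hvB]
      apply DifferentiableOn.fun_finsetProd
      intro k _
      apply DifferentiableOn.div
      · fun_prop
      · fun_prop
      · intro z hz
        rw [mem_closedBall_zero_iff] at hz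
        exact (hfac k z hz).1
    · intro z hz
      have h2 : ‖vB 10 n L z‖ ^ 2 ≤ 2 ^ 2 := by
        rw [hvB]
        simp only
        rw [norm_prod, ← Finset.prod_pow]
        calc ∏ k ∈ range (2 * n), _ ≤ ∏ k ∈ range (2 * n), (1 + 1 / (L : ℝ) ^ 2) :=
              Finset.prod_le_prod (fun k _ => by positivity) (fun k _ => (hfac k z hz).2)
          _ = (1 + 1 / (L : ℝ) ^ 2) ^ (2 * n) := by simp
          _ ≤ (Real.exp (1 / (L : ℝ) ^ 2)) ^ (2 * n) := by
              gcongr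
              have := Real.add_one_le_exp (1 / (L : ℝ) ^ 2)
              linarith
          _ = Real.exp (2 * n / (L : ℝ) ^ 2) := by
              rw [← Real.exp_nat_mul]; congr 1; push_cast; ring
          _ ≤ Real.exp 1 := by
              apply Real.exp_le_exp.2
              rw [div_le_one (by positivity)]
              have : (n : ℝ) ≤ L := by exact_mod_cast hn
              nlinarith
          _ ≤ 2 ^ 2 := by
              have := Real.exp_one_lt_d9
              linarith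
      exact (pow_le_pow_iff_left₀ (norm_nonneg _) (by norm_num) (by norm_num)).1 h2
  apply AN_mono _ key
  have e1 : R / (R - 1) = (L : ℝ) ^ 3 + 1 := by
    rw [hR]; field_simp; ring
  rw [e1]
  have : (1 : ℝ) ≤ (L : ℝ) ^ 3 := by nlinarith [sq_nonneg (L : ℝ), mul_pos hLp hLp]
  linarith

end VG
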