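import Pool.Agent.Helper859.VG.JC
set_option autoImplicit false
open Finset

namespace VG

lemma h_TN_mono {m : ℕ} {c c' : ℝ} {f : ℂ → ℂ} (h : TN m c f) (hc : c ≤ c') : TN m c' f := by
  obtain ⟨k, h1, h2, h3⟩ := h
  exact ⟨k, h1, h2.trans hc, h3⟩

lemma h_rho_sq (θ : ℝ) : ‖1 - Complex.exp (θ * Complex.I)‖ ^ 2 = 2 - 2 * Real.cos θ := by
  rw [← Complex.normSq_eq_norm_sq, Complex.normSq_apply]
  have h1 : (1 - Complex.exp (θ * Complex.I)).re = 1 - Real.cos θ := by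
    rw [Complex.sub_re, Complex.one_re, Complex.exp_ofReal_mul_I_re]
  have h2 : (1 - Complex.exp (θ * Complex.I)).im = - Real.sin θ := by
    rw [Complex.sub_im, Complex.one_im, Complex.exp_ofReal_mul_I_im, zero_sub]
  rw [h1, h2]
  nlinarith [Real.sin_sq_add_cos_sq θ]

/-- the cutoff as a function of the angle -/
noncomputable def hG (s θ : ℝ) : ℝ :=
  Real.smoothTransition ((1 - (2 - 2 * Real.cos θ) / s ^ 2) * (4 / 3))

/-- its derivative -/
noncomputable def hG' (s θ : ℝ) : ℝ :=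
  deriv Real.smoothTransition ((1 - (2 - 2 * Real.cos θ) / s ^ 2) * (4 / 3)) *
    (-(2 * Real.sin θ) / s ^ 2 * (4 / 3))

lemma h_cut_eq (s θ : ℝ) : cut s (Complex.exp (θ * Complex.I)) = (hG s θ : ℂ) := by
  rw [cut, h_rho_sq, hG]

lemma h_deriv_zero_left {x : ℝ} (hx : x ≤ 0) : deriv Real.smoothTransition x = 0 := by
  apply IsLocalMin.deriv_eq_zero
  rw [IsLocalMin, IsMinFilter]
  filter_upwards with y
  rw [Real.smoothTransition.zero_of_nonpos hx]
  exact Real.smoothTransition.nonneg y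

lemma h_deriv_zero_right {x : ℝ} (hx : 1 ≤ x) : deriv Real.smoothTransition x = 0 := by
  apply IsLocalMax.deriv_eq_zero
  rw [IsLocalMax, IsMaxFilter]
  filter_upwards with y
  rw [Real.smoothTransition.one_of_one_le hx]
  exact Real.smoothTransition.le_one y

lemma h_cont_deriv : Continuous (deriv Real.smoothTransition) :=
  (Real.smoothTransition.contDiff (n := 1)).continuous_deriv le_rfl

lemma h_deriv_bdd : ∃ D : ℝ, 0 ≤ D ∧ ∀ x, |deriv Real.smoothTransition x| ≤ D := by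
  obtain ⟨D, hD⟩ := (isCompact_Icc (a := (0:ℝ)) (b := 1)).exists_bound_of_continuousOn
    h_cont_deriv.continuousOn
  refine ⟨max D 0, le_max_right _ _, fun x => ?_⟩
  by_cases h0 : x ≤ 0
  · rw [h_deriv_zero_left h0]; simp
  by_cases h1 : 1 ≤ x
  · rw [h_deriv_zero_right h1]; simp
  push Not at h0 h1
  exact (hD x ⟨h0.le, h1.le⟩).trans (le_max_left _ _)

lemma h_hasDerivAt_G (s θ : ℝ) : HasDerivAt (hG s) (hG' s θ) θ := by
  have h1 : HasDerivAt (fun θ : ℝ => (1 - (2 - 2 * Real.cos θ) / s ^ 2) * (4 / 3))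
      (-(2 * Real.sin θ) / s ^ 2 * (4 / 3)) θ := by
    have h2 := ((((((Real.hasDerivAt_cos θ).const_mul 2).const_sub 2).div_const (s ^ 2)).const_sub
      1).mul_const (4 / 3 : ℝ))
    refine h2.congr_deriv ?_
    ring
  have h3 : HasDerivAt Real.smoothTransition
      (deriv Real.smoothTransition ((1 - (2 - 2 * Real.cos θ) / s ^ 2) * (4 / 3)))
      ((1 - (2 - 2 * Real.cos θ) / s ^ 2) * (4 / 3)) :=
    ((Real.smoothTransition.contDiff (n := 1)).differentiable (by norm_num) _).hasDerivAt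
  exact h3.comp θ h1

lemma h_cont_G' (s : ℝ) : Continuous (hG' s) := by
  unfold hG'
  have := h_cont_deriv
  fun_prop

lemma h_cont_G (s : ℝ) : Continuous (hG s) := by
  unfold hG
  have := Real.smoothTransition.continuous
  fun_prop

lemma h_G_mem (s θ : ℝ) : 0 ≤ hG s θ ∧ hG s θ ≤ 1 :=
  ⟨Real.smoothTransition.nonneg _, Real.smoothTransition.le_one _⟩

lemma h_G_far {s θ : ℝ} (hs : 0 < s) (h : s ≤ ‖1 - Complex.exp (θ * Complex.I)‖) :
    hG s θ = 0 ∧ hG' s θ = 0 := by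
  have h1 := h_rho_sq θ
  have h2 : (1 - (2 - 2 * Real.cos θ) / s ^ 2) * (4 / 3) ≤ 0 := by
    rw [← h1]
    have : 1 ≤ ‖1 - Complex.exp (θ * Complex.I)‖ ^ 2 / s ^ 2 := by
      rw [le_div_iff₀ (by positivity), one_mul]
      gcongr
    linarith
  exact ⟨Real.smoothTransition.zero_of_nonpos h2, by rw [hG', h_deriv_zero_left h2, zero_mul]⟩

lemma h_G_near {s θ : ℝ} (hs : 0 < s) (h : ‖1 - Complex.exp (θ * Complex.I)‖ ≤ s / 2) :
    hG s θ = 1 ∧ hG' s θ = 0 := by
  have h1 := h_rho_sq θ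
  have h2 : 1 ≤ (1 - (2 - 2 * Real.cos θ) / s ^ 2) * (4 / 3) := by
    rw [← h1]
    have : ‖1 - Complex.exp (θ * Complex.I)‖ ^ 2 / s ^ 2 ≤ 1 / 4 := by
      rw [div_le_iff₀ (by positivity)]
      calc ‖1 - Complex.exp (θ * Complex.I)‖ ^ 2 ≤ (s / 2) ^ 2 := by gcongr
        _ = 1 / 4 * s ^ 2 := by ring
    linarith
  exact ⟨Real.smoothTransition.one_of_one_le h2, by rw [hG', h_deriv_zero_right h2, zero_mul]⟩

lemma h_sin_le (θ : ℝ) : |Real.sin θ| ≤ ‖1 - Complex.exp (θ * Complex.I)‖ := by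
  apply abs_le_of_sq_le_sq _ (norm_nonneg _)
  rw [h_rho_sq]
  nlinarith [Real.sin_sq_add_cos_sq θ, Real.cos_le_one θ, Real.neg_one_le_cos θ]

lemma h_G'_bound {D : ℝ} (hD0 : 0 ≤ D) (hD : ∀ x, |deriv Real.smoothTransition x| ≤ D) {s : ℝ}
    (hs : 0 < s) (θ : ℝ) : |hG' s θ| * ‖1 - Complex.exp (θ * Complex.I)‖ ≤ 8 / 3 * D := by
  rcases le_or_gt s ‖1 - Complex.exp (θ * Complex.I)‖ with h | h
  · rw [(h_G_far hs h).2]
    simp
    positivity
  · set ρ := ‖1 - Complex.exp (θ * Complex.I)‖ with hρ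
    have hρ0 : 0 ≤ ρ := norm_nonneg _
    have h1 : |hG' s θ| ≤ D * (2 * ρ / s ^ 2 * (4 / 3)) := by
      rw [hG', abs_mul]
      apply mul_le_mul (hD _) _ (abs_nonneg _) hD0
      rw [abs_mul, abs_div, abs_neg, abs_mul, abs_two, abs_of_pos (by positivity : (0:ℝ) < s ^ 2),
        abs_of_pos (by norm_num : (0:ℝ) < 4 / 3)]
      have := h_sin_le θ
      gcongr
    calc |hG' s θ| * ρ ≤ D * (2 * ρ / s ^ 2 * (4 / 3)) * ρ := by gcongr
      _ = 8 / 3 * D * (ρ ^ 2 / s ^ 2) := by ring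
      _ ≤ 8 / 3 * D * 1 := by
        gcongr
        rw [div_le_one (by positivity)]
        gcongr
      _ = _ := by ring

lemma h_rho_lower {θ : ℝ} (h : |θ| ≤ Real.pi) :
    4 / 10 * θ ^ 2 ≤ ‖1 - Complex.exp (θ * Complex.I)‖ ^ 2 := by
  rw [h_rho_sq]
  have h1 := Real.cos_le_one_sub_mul_cos_sq h
  have hpi : Real.pi ^ 2 ≤ 10 := by nlinarith [Real.pi_lt_d2, Real.pi_pos]
  have h2 : 2 / 10 ≤ 2 / Real.pi ^ 2 := by
    apply div_le_div_of_nonneg_left (by norm_num) (by positivity) hpi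
  nlinarith [sq_nonneg θ]

lemma h_int_bound (F' : ℝ → ℂ) (hc : Continuous F') (A s : ℝ) (hs : 0 < s) (hA : 0 ≤ A)
    (h : ∀ θ, |θ| ≤ Real.pi → ‖F' θ‖ ^ 2 ≤ A / (s ^ 2 + θ ^ 2)) :
    ∫ θ in (-Real.pi)..Real.pi, ‖F' θ‖ ^ 2 ≤ A * Real.pi / s := by
  have hpi := Real.pi_pos
  have hder : ∀ θ : ℝ, HasDerivAt (fun θ : ℝ => A / s * Real.arctan (θ / s))
      (A / (s ^ 2 + θ ^ 2)) θ := by
    intro θ
    have h1 := ((hasDerivAt_id θ).div_const s).arctan.const_mul (A / s)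
    refine h1.congr_deriv ?_
    simp only [id]
    field_simp
  have hcont : Continuous (fun θ : ℝ => A / (s ^ 2 + θ ^ 2)) := by
    apply Continuous.div continuous_const (by fun_prop)
    intro θ
    positivity
  have hint := intervalIntegral.integral_eq_sub_of_hasDerivAt (a := -Real.pi) (b := Real.pi)
    (fun θ _ => hder θ) (hcont.intervalIntegrable _ _)
  calc ∫ θ in (-Real.pi)..Real.pi, ‖F' θ‖ ^ 2
      ≤ ∫ θ in (-Real.pi)..Real.pi, A / (s ^ 2 + θ ^ 2) := by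
        apply intervalIntegral.integral_mono_on (by linarith)
        · exact ((hc.norm.pow 2)).intervalIntegrable _ _
        · exact hcont.intervalIntegrable _ _
        · intro θ hθ
          exact h θ (abs_le.2 hθ)
    _ = _ := hint
    _ ≤ A / s * (Real.pi / 2) - A / s * (-(Real.pi / 2)) := by
        have h1 := (Real.arctan_lt_pi_div_two (Real.pi / s)).le
        have h2 := (Real.neg_pi_div_two_lt_arctan (-Real.pi / s)).le
        have : 0 ≤ A / s := by positivity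
        gcongr
    _ = _ := by ring

lemma h_hasDerivAt_exp (θ : ℝ) : HasDerivAt (fun θ : ℝ => Complex.exp (θ * Complex.I))
    (Complex.exp (θ * Complex.I) * Complex.I) θ := by
  have h1 : HasDerivAt (fun θ : ℝ => (θ : ℂ) * Complex.I) (1 * Complex.I) θ :=
    (Complex.ofRealCLM.hasDerivAt (x := θ)).mul_const Complex.I
  have h2 := h1.cexp
  rwa [one_mul] at h2

lemma h_cont_exp : Continuous (fun θ : ℝ => Complex.exp (θ * Complex.I)) := by fun_prop

lemma h_per_exp (θ : ℝ) : Complex.exp (((θ + 2 * Real.pi : ℝ) : ℂ) * Complex.I) =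
    Complex.exp (θ * Complex.I) := by
  have : (((θ + 2 * Real.pi : ℝ) : ℂ) * Complex.I) = θ * Complex.I + 2 * Real.pi * Complex.I := by
    push_cast; ring
  rw [this, Complex.exp_periodic]

theorem cut_first : ∃ C : ℝ, 0 < C ∧ ∀ s : ℝ, 0 < s → s ≤ 1 →
    TN 0 (C * Real.sqrt s) (fun z => (1 - z) * cut s z) := by
  obtain ⟨D, hD0, hD⟩ := h_deriv_bdd
  set K : ℝ := 1 + 8 / 3 * D with hK
  have hK0 : 0 < K := by positivity
  refine ⟨1 + 4 * K, by positivity, ?_⟩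
  intro s hs hs1
  have hsq : 0 < Real.sqrt s := Real.sqrt_pos.2 hs
  have hsq2 : Real.sqrt s ^ 2 = s := Real.sq_sqrt hs.le
  have hsq1 : s ≤ Real.sqrt s := by
    rw [Real.le_sqrt' hs]
    nlinarith
  have key := TN_of_C1 (fun θ => (1 - Complex.exp (θ * Complex.I)) * (hG s θ : ℂ))
    (fun θ => (-(Complex.exp (θ * Complex.I) * Complex.I)) * (hG s θ : ℂ) +
      (1 - Complex.exp (θ * Complex.I)) * (hG' s θ : ℂ)) ?_ ?_ ?_
    (fun z => (1 - z) * cut s z) ?_ (Real.sqrt s) (4 * K * Real.sqrt s) ?_ (by positivity) ?_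
  · refine h_TN_mono key (le_of_eq (by ring))
  · intro θ
    simp only
    rw [h_per_exp]
    congr 2
    simp only [hG, Real.cos_add_two_pi]
  · intro θ
    have h1 := (h_hasDerivAt_exp θ).const_sub 1
    have h2 : HasDerivAt (fun θ : ℝ => (hG s θ : ℂ)) (hG' s θ : ℂ) θ :=
      (h_hasDerivAt_G s θ).ofReal_comp
    exact h1.mul h2
  · have h1 := h_cont_G s
    have h2 := h_cont_G' s
    have h3 := h_cont_exp
    have h4 : Continuous (fun θ => (hG s θ : ℂ)) := Complex.continuous_ofReal.comp h1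
    have h5 : Continuous (fun θ => (hG' s θ : ℂ)) := Complex.continuous_ofReal.comp h2
    fun_prop
  · intro θ
    simp only [h_cut_eq]
  · intro θ
    rw [norm_mul, Complex.norm_real, Real.norm_eq_abs, abs_of_nonneg (h_G_mem s θ).1]
    refine le_trans ?_ hsq1
    rcases le_or_gt s ‖1 - Complex.exp (θ * Complex.I)‖ with h | h
    · rw [(h_G_far hs h).1]; simp; exact hs.le
    · calc ‖1 - Complex.exp (θ * Complex.I)‖ * hG s θ ≤ s * 1 := by
            apply mul_le_mul h.le (h_G_mem s θ).2 (h_G_mem s θ).1 hs.le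
        _ = s := mul_one s
  · refine (h_int_bound _ ?_ (5 * K ^ 2 * s ^ 2) s hs (by positivity) ?_).trans ?_
    · have h1 := h_cont_G s
      have h2 := h_cont_G' s
      have h3 := h_cont_exp
      have h4 : Continuous (fun θ => (hG s θ : ℂ)) := Complex.continuous_ofReal.comp h1
      have h5 : Continuous (fun θ => (hG' s θ : ℂ)) := Complex.continuous_ofReal.comp h2
      fun_prop
    · intro θ hθ
      rcases le_or_gt s ‖1 - Complex.exp (θ * Complex.I)‖ with h | h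
      · rw [(h_G_far hs h).1, (h_G_far hs h).2]
        simp
        positivity
      · have hn : ‖(-(Complex.exp (θ * Complex.I) * Complex.I)) * (hG s θ : ℂ) +
            (1 - Complex.exp (θ * Complex.I)) * (hG' s θ : ℂ)‖ ≤ K := by
          refine (norm_add_le _ _).trans ?_
          rw [norm_mul, norm_mul, norm_neg, norm_mul, Complex.norm_I, Complex.norm_exp_ofReal_mul_I,
            Complex.norm_real, Complex.norm_real, Real.norm_eq_abs, Real.norm_eq_abs,
            abs_of_nonneg (h_G_mem s θ).1]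
          have h1 := h_G'_bound hD0 hD hs θ
          have h2 := (h_G_mem s θ).2
          rw [hK]
          nlinarith
        have hρ : ‖1 - Complex.exp (θ * Complex.I)‖ ^ 2 ≤ s ^ 2 := by gcongr
        have hl := h_rho_lower hθ
        rw [le_div_iff₀ (by positivity)]
        calc _ ≤ K ^ 2 * (s ^ 2 + θ ^ 2) := by gcongr
          _ ≤ K ^ 2 * (5 * s ^ 2) := by
            gcongr
            nlinarith
          _ = _ := by ring
    · rw [mul_pow, hsq2]
      have : 5 * K ^ 2 * s ^ 2 * Real.pi / s = 5 * Real.pi * K ^ 2 * s := by field_simp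
      rw [this]
      have hpi := Real.pi_lt_d2
      have : 5 * Real.pi ≤ 16 := by linarith
      calc 5 * Real.pi * K ^ 2 * s ≤ 16 * K ^ 2 * s := by gcongr
        _ = _ := by ring


lemma h_prod_sub_one (N : ℕ) (b : ℕ → ℂ) (δ : ℝ) (hb : ∀ k < N, ‖b k‖ ≤ 1)
    (hδ : ∀ k < N, ‖b k - 1‖ ≤ δ) :
    ‖∏ k ∈ range N, b k‖ ≤ 1 ∧ ‖∏ k ∈ range N, b k - 1‖ ≤ N * δ := by
  induction N with
  | zero => simp
  | succ N ih =>
    obtain ⟨h1, h2⟩ := ih (fun k hk => hb k (by omega)) (fun k hk => hδ k (by omega))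
    rw [prod_range_succ]
    constructor
    · rw [norm_mul]
      exact mul_le_one₀ h1 (norm_nonneg _) (hb N (by omega))
    · have e : (∏ k ∈ range N, b k) * b N - 1 =
          (∏ k ∈ range N, b k) * (b N - 1) + (∏ k ∈ range N, b k - 1) := by ring
      rw [e]
      refine (norm_add_le _ _).trans ?_
      rw [norm_mul]
      have h3 := hδ N (by omega)
      have : ‖∏ k ∈ range N, b k‖ * ‖b N - 1‖ ≤ 1 * δ := by
        apply mul_le_mul h1 h3 (norm_nonneg _) zero_le_one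
      push_cast
      linarith

/-- one Blaschke factor on the circle -/
noncomputable def hb (r : ℝ) (w : ℂ) (θ : ℝ) : ℂ :=
  ((r : ℂ) - w * Complex.exp (θ * Complex.I)) / (1 - (r : ℂ) * w * Complex.exp (θ * Complex.I))

/-- its derivative -/
noncomputable def hb' (r : ℝ) (w : ℂ) (θ : ℝ) : ℂ :=
  -(w * (Complex.exp (θ * Complex.I) * Complex.I) * (1 - (r : ℂ) ^ 2)) /
    (1 - (r : ℂ) * w * Complex.exp (θ * Complex.I)) ^ 2

lemma h_den_ne {r : ℝ} (hr0 : 0 < r) (hr1 : r < 1) {u : ℂ} (hu : ‖u‖ = 1) :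
    (1 : ℂ) - (r : ℂ) * u ≠ 0 := by
  intro h
  have h1 : (r : ℂ) * u = 1 := (sub_eq_zero.1 h).symm
  have h2 := congrArg norm h1
  rw [norm_mul, hu, mul_one, Complex.norm_real, Real.norm_eq_abs, abs_of_pos hr0, norm_one] at h2
  linarith

lemma h_factor {r : ℝ} (hr0 : 0 < r) (hr1 : r < 1) {u : ℂ} (hu : ‖u‖ = 1) :
    ‖((r : ℂ) - u) / (1 - (r : ℂ) * u)‖ ≤ 1 ∧ ‖1 - u‖ ≤ 2 * ‖1 - (r : ℂ) * u‖ ∧
      ‖((r : ℂ) - u) / (1 - (r : ℂ) * u) - 1‖ ≤ 2 * (1 - r) / ‖1 - (r : ℂ) * u‖ := by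
  have hne := h_den_ne hr0 hr1 hu
  have hpos : 0 < ‖1 - (r : ℂ) * u‖ := norm_pos_iff.2 hne
  have hu2 : u.re ^ 2 + u.im ^ 2 = 1 := by
    have : ‖u‖ ^ 2 = 1 := by rw [hu]; norm_num
    rw [← Complex.normSq_eq_norm_sq, Complex.normSq_apply] at this
    nlinarith
  refine ⟨?_, ?_, ?_⟩
  · rw [norm_div, div_le_one hpos]
    apply le_of_eq
    have h1 : ‖(r : ℂ) - u‖ ^ 2 = ‖1 - (r : ℂ) * u‖ ^ 2 := by
      rw [← Complex.normSq_eq_norm_sq, ← Complex.normSq_eq_norm_sq, Complex.normSq_apply,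
        Complex.normSq_apply]
      simp
      linear_combination (1 - r ^ 2) * hu2
    exact (pow_left_inj₀ (norm_nonneg _) (norm_nonneg _) two_ne_zero).1 h1
  · have h1 : 1 - r ≤ ‖1 - (r : ℂ) * u‖ := by
      have := norm_sub_norm_le (1 : ℂ) ((r : ℂ) * u)
      rw [norm_mul, hu, norm_one, Complex.norm_real, Real.norm_eq_abs, abs_of_pos hr0] at this
      linarith
    have h2 : ‖1 - u‖ ≤ ‖1 - (r : ℂ) * u‖ + (1 - r) := by
      have e : (1 : ℂ) - u = (1 - (r : ℂ) * u) + (-(((1 - r : ℝ) : ℂ) * u)) := by push_cast; ring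
      rw [e]
      refine (norm_add_le _ _).trans ?_
      rw [norm_neg, norm_mul, hu, Complex.norm_real, Real.norm_eq_abs,
        abs_of_pos (by linarith : 0 < 1 - r), mul_one]
    linarith
  · have e : ((r : ℂ) - u) / (1 - (r : ℂ) * u) - 1 =
        -((((1 - r : ℝ) : ℂ)) * (1 + u)) / (1 - (r : ℂ) * u) := by
      field_simp
      push_cast
      ring
    rw [e, norm_div, norm_neg, norm_mul, Complex.norm_real, Real.norm_eq_abs,
      abs_of_pos (by linarith : 0 < 1 - r)]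
    have : ‖1 + u‖ ≤ 2 := by
      refine (norm_add_le _ _).trans ?_
      rw [hu, norm_one]; norm_num
    have h1 : 0 < 1 - r := by linarith
    rw [div_le_div_iff_of_pos_right hpos]
    nlinarith

lemma h_norm_exp (θ : ℝ) : ‖Complex.exp (θ * Complex.I)‖ = 1 := Complex.norm_exp_ofReal_mul_I θ

lemma h_den_ne' {r : ℝ} (hr0 : 0 < r) (hr1 : r < 1) {w : ℂ} (hw : ‖w‖ = 1) (θ : ℝ) :
    (1 : ℂ) - (r : ℂ) * w * Complex.exp (θ * Complex.I) ≠ 0 := by
  rw [mul_assoc]
  apply h_den_ne hr0 hr1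
  rw [norm_mul, hw, h_norm_exp, mul_one]

lemma h_hasDerivAt_b {r : ℝ} (hr0 : 0 < r) (hr1 : r < 1) {w : ℂ} (hw : ‖w‖ = 1) (θ : ℝ) :
    HasDerivAt (hb r w) (hb' r w θ) θ := by
  have hne := h_den_ne' hr0 hr1 hw θ
  have he := h_hasDerivAt_exp θ
  have h1 := (he.const_mul w).const_sub (r : ℂ)
  have h2 := (he.const_mul ((r : ℂ) * w)).const_sub 1
  have h3 := h1.div h2 hne
  refine h3.congr_deriv ?_
  unfold hb'
  congr 1
  ring

lemma h_cont_b {r : ℝ} (hr0 : 0 < r) (hr1 : r < 1) {w : ℂ} (hw : ‖w‖ = 1) :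
    Continuous (hb r w) := by
  unfold hb
  exact Continuous.div (by fun_prop) (by fun_prop) (h_den_ne' hr0 hr1 hw)

lemma h_cont_b' {r : ℝ} (hr0 : 0 < r) (hr1 : r < 1) {w : ℂ} (hw : ‖w‖ = 1) :
    Continuous (hb' r w) := by
  unfold hb'
  exact Continuous.div (by fun_prop) (by fun_prop) (fun θ => pow_ne_zero 2 (h_den_ne' hr0 hr1 hw θ))

lemma h_b_bounds {r : ℝ} (hr0 : 0 < r) (hr1 : r < 1) {w : ℂ} (hw : ‖w‖ = 1) (θ : ℝ) {ρ β : ℝ}
    (hρ : ρ = ‖1 - Complex.exp (θ * Complex.I)‖) (hρ0 : 0 < ρ) (hw1 : ‖1 - w‖ ≤ 13 * β)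
    (hβ : 30 * β ≤ ρ) :
    ‖hb r w θ‖ ≤ 1 ∧ ‖hb r w θ - 1‖ ≤ 8 * (1 - r) / ρ ∧ ‖hb' r w θ‖ ≤ 32 * (1 - r) / ρ ^ 2 := by
  have hβ0 : 0 ≤ β := by
    have := norm_nonneg (1 - w)
    linarith
  set z := Complex.exp (θ * Complex.I) with hz
  have hz1 : ‖z‖ = 1 := h_norm_exp θ
  have hu : ‖w * z‖ = 1 := by rw [norm_mul, hw, hz1, mul_one]
  obtain ⟨f1, f2, f3⟩ := h_factor hr0 hr1 hu
  have hlow : ρ / 2 ≤ ‖1 - w * z‖ := by
    have e : (1 : ℂ) - z = (1 - w * z) + (-((1 - w) * z)) := by ring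
    have : ρ ≤ ‖1 - w * z‖ + ‖1 - w‖ := by
      rw [hρ, e]
      refine (norm_add_le _ _).trans ?_
      rw [norm_neg, norm_mul, hz1, mul_one]
    linarith
  have hlow2 : ρ / 4 ≤ ‖1 - (r : ℂ) * (w * z)‖ := by linarith
  have hr : 0 < 1 - r := by linarith
  refine ⟨?_, ?_, ?_⟩
  · rw [hb, ← hz, mul_assoc]; exact f1
  · rw [hb, ← hz, mul_assoc]
    refine f3.trans ?_
    rw [div_le_div_iff₀ (by linarith) hρ0]
    nlinarith
  · rw [hb', ← hz, mul_assoc (r : ℂ) w z, norm_div, norm_neg, norm_mul, norm_mul, norm_mul,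
      Complex.norm_I, hw, hz1, norm_pow]
    have h1 : ‖(1 : ℂ) - (r : ℂ) ^ 2‖ = 1 - r ^ 2 := by
      have : (1 : ℂ) - (r : ℂ) ^ 2 = ((1 - r ^ 2 : ℝ) : ℂ) := by push_cast; ring
      rw [this, Complex.norm_real, Real.norm_eq_abs, abs_of_pos (by nlinarith)]
    have hpp : 0 < ‖1 - (r : ℂ) * (w * z)‖ := by linarith
    rw [h1, one_mul, one_mul, one_mul, div_le_div_iff₀ (by positivity) (by positivity)]
    have h2 : (ρ / 4) ^ 2 ≤ ‖1 - (r : ℂ) * (w * z)‖ ^ 2 := by gcongr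
    have h3 : 1 - r ^ 2 ≤ 2 * (1 - r) := by nlinarith
    calc (1 - r ^ 2) * ρ ^ 2 ≤ (2 * (1 - r)) * ρ ^ 2 := by gcongr
      _ = 32 * (1 - r) * (ρ / 4) ^ 2 := by ring
      _ ≤ 32 * (1 - r) * ‖1 - (r : ℂ) * (w * z)‖ ^ 2 := by gcongr

theorem vB_far : ∃ C : ℝ, 0 < C ∧ ∀ (β s : ℝ), 0 < β → 60 * β ≤ s → s ≤ 1 → ∃ L0 : ℕ, ∀ (L n : ℕ), L0 ≤ L →
    (n : ℝ) ≤ 2 * β * L →
    TN 0 (C * (β + β / Real.sqrt s)) (fun z => (1 - z) * (1 - cut s z) * (vB 10 n L z - 1)) := by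
  obtain ⟨D, hD0, hD⟩ := h_deriv_bdd
  have hpi := Real.pi_pos
  set c₁ : ℝ := 640 * Real.pi with hc₁
  set c₂ : ℝ := 2560 * Real.pi with hc₂
  set C₁ : ℝ := (1 + 8 / 3 * D) * c₁ + c₂ with hC₁
  have hc₁0 : 0 < c₁ := by positivity
  have hc₂0 : 0 < c₂ := by positivity
  have hC₁0 : 0 < C₁ := by positivity
  refine ⟨c₁ + 6 * C₁, by positivity, ?_⟩
  intro β s hβ hβs hs1
  have hs : 0 < s := by linarith
  have hsq : 0 < Real.sqrt s := Real.sqrt_pos.2 hs
  have hsq2 : Real.sqrt s ^ 2 = s := Real.sq_sqrt hs.le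
  refine ⟨32, ?_⟩
  intro L n hL hn
  have hL' : (32 : ℝ) ≤ (L : ℝ) := by exact_mod_cast hL
  have hL0 : (0 : ℝ) < (L : ℝ) := by linarith
  set r : ℝ := (1 - Real.pi * 10 / (L : ℝ)) / (1 + Real.pi * 10 / (L : ℝ)) with hr
  have hx0 : 0 < Real.pi * 10 / (L : ℝ) := by positivity
  have hx1 : Real.pi * 10 / (L : ℝ) < 1 := by
    rw [div_lt_one hL0]
    have := Real.pi_lt_d2
    linarith
  have hr0 : 0 < r := by
    rw [hr]
    apply div_pos <;> linarith
  have hr1 : r < 1 := by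
    rw [hr, div_lt_one (by linarith)]
    linarith
  have hr2 : 1 - r ≤ 20 * Real.pi / L := by
    have e : 1 - r = 2 * (Real.pi * 10 / (L : ℝ)) / (1 + Real.pi * 10 / (L : ℝ)) := by
      rw [hr]; field_simp; ring
    rw [e]
    calc 2 * (Real.pi * 10 / (L : ℝ)) / (1 + Real.pi * 10 / (L : ℝ)) ≤
        2 * (Real.pi * 10 / (L : ℝ)) / 1 := by
          apply div_le_div_of_nonneg_left (by positivity) one_pos (by linarith)
      _ = 20 * Real.pi / L := by ring
  set w : ℕ → ℂ := fun k =>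
    Complex.exp (-(2 * Real.pi * Complex.I * ((k : ℂ) - n + 1 / 2) / ((L : ℝ) : ℂ))) with hwdef
  have hwα : ∀ k, w k = Complex.exp (((-(2 * Real.pi * ((k : ℝ) - n + 1 / 2) / L) : ℝ) : ℂ) *
      Complex.I) := by
    intro k
    rw [hwdef]
    simp only
    congr 1
    push_cast
    ring
  have hw1 : ∀ k, ‖w k‖ = 1 := by
    intro k
    rw [hwα]
    exact h_norm_exp _
  have hw2 : ∀ k < 2 * n, ‖1 - w k‖ ≤ 13 * β := by
    intro k hk
    rw [hwα]
    set α : ℝ := -(2 * Real.pi * ((k : ℝ) - n + 1 / 2) / L) with hα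
    have h1 : ‖1 - Complex.exp ((α : ℂ) * Complex.I)‖ ≤ |α| := by
      apply abs_le_of_sq_le_sq' _ (abs_nonneg _) |>.2
      rw [h_rho_sq, sq_abs]
      have := Real.one_sub_sq_div_two_le_cos (x := α)
      linarith
    refine h1.trans ?_
    have hk' : (k : ℝ) + 1 ≤ 2 * n := by exact_mod_cast hk
    have hk0 : (0 : ℝ) ≤ k := Nat.cast_nonneg k
    have h2 : |(k : ℝ) - n + 1 / 2| ≤ n := by
      rw [abs_le]; constructor <;> linarith
    rw [hα, abs_neg, abs_div, abs_mul, abs_mul, abs_two, abs_of_pos hpi, abs_of_pos hL0]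
    calc 2 * Real.pi * |(k : ℝ) - n + 1 / 2| / L ≤ 2 * Real.pi * (2 * β * L) / L := by
          gcongr
          linarith
      _ = 4 * Real.pi * β := by field_simp; ring
      _ ≤ 13 * β := by
          have := Real.pi_lt_d2
          gcongr
          linarith
  set V : ℝ → ℂ := fun θ => ∏ k ∈ range (2 * n), hb r (w k) θ with hV
  set V' : ℝ → ℂ := fun θ => ∑ k ∈ range (2 * n),
    (∏ j ∈ (range (2 * n)).erase k, hb r (w j) θ) • hb' r (w k) θ with hV'
  have hVd : ∀ θ, HasDerivAt V (V' θ) θ := by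
    intro θ
    have := HasDerivAt.fun_finsetProd (u := range (2 * n)) (f := fun k => hb r (w k))
      (f' := fun k => hb' r (w k) θ) (x := θ) (fun k _ => h_hasDerivAt_b hr0 hr1 (hw1 k) θ)
    exact this
  have hVc : Continuous V := continuous_finsetProd _ (fun k _ => h_cont_b hr0 hr1 (hw1 k))
  have hV'c : Continuous V' := by
    apply continuous_finsetSum
    intro k _
    exact (continuous_finsetProd _ (fun j _ => h_cont_b hr0 hr1 (hw1 j))).smul
      (h_cont_b' hr0 hr1 (hw1 k))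
  have hVB : ∀ θ : ℝ, vB 10 n L (Complex.exp (θ * Complex.I)) = V θ := by
    intro θ
    rw [vB, hV]
    rfl
  have hn2 : ((2 * n : ℕ) : ℝ) ≤ 4 * β * L := by push_cast; linarith
  have hVb : ∀ θ : ℝ, s / 2 < ‖1 - Complex.exp (θ * Complex.I)‖ →
      ‖V θ - 1‖ ≤ c₁ * β / ‖1 - Complex.exp (θ * Complex.I)‖ ∧
      ‖V' θ‖ ≤ c₂ * β / ‖1 - Complex.exp (θ * Complex.I)‖ ^ 2 := by
    intro θ hθ
    set ρ := ‖1 - Complex.exp (θ * Complex.I)‖ with hρ
    have hρ0 : 0 < ρ := by linarith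
    have hbk : ∀ k < 2 * n, ‖hb r (w k) θ‖ ≤ 1 ∧ ‖hb r (w k) θ - 1‖ ≤ 8 * (1 - r) / ρ ∧
        ‖hb' r (w k) θ‖ ≤ 32 * (1 - r) / ρ ^ 2 := fun k hk =>
      h_b_bounds hr0 hr1 (hw1 k) θ hρ hρ0 (hw2 k hk) (by linarith)
    have hrpos : 0 < 1 - r := by linarith
    constructor
    · have h1 := (h_prod_sub_one (2 * n) (fun k => hb r (w k) θ) (8 * (1 - r) / ρ)
        (fun k hk => (hbk k hk).1) (fun k hk => (hbk k hk).2.1)).2
      refine h1.trans ?_
      calc ((2 * n : ℕ) : ℝ) * (8 * (1 - r) / ρ) ≤ (4 * β * L) * (8 * (20 * Real.pi / L) / ρ) := by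
            gcongr
        _ = c₁ * β / ρ := by rw [hc₁]; field_simp; ring
    · rw [hV']
      simp only
      refine (norm_sum_le _ _).trans ?_
      have h2 : ∀ k ∈ range (2 * n), ‖(∏ j ∈ (range (2 * n)).erase k, hb r (w j) θ) •
          hb' r (w k) θ‖ ≤ 32 * (1 - r) / ρ ^ 2 := by
        intro k hk
        rw [norm_smul, norm_prod]
        have h3 : ∏ j ∈ (range (2 * n)).erase k, ‖hb r (w j) θ‖ ≤ 1 := by
          apply Finset.prod_le_one
          · intro j _; exact norm_nonneg _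
          · intro j hj
            exact (hbk j (mem_range.1 (mem_of_mem_erase hj))).1
        calc _ ≤ 1 * (32 * (1 - r) / ρ ^ 2) := by
              apply mul_le_mul h3 (hbk k (mem_range.1 hk)).2.2 (norm_nonneg _) zero_le_one
          _ = _ := one_mul _
      refine (Finset.sum_le_card_nsmul _ _ _ h2).trans ?_
      rw [card_range, nsmul_eq_mul]
      calc ((2 * n : ℕ) : ℝ) * (32 * (1 - r) / ρ ^ 2) ≤
            (4 * β * L) * (32 * (20 * Real.pi / L) / ρ ^ 2) := by gcongr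
        _ = c₂ * β / ρ ^ 2 := by rw [hc₂]; field_simp; ring
  have hFc : Continuous (fun θ : ℝ =>
      ((-(Complex.exp (θ * Complex.I) * Complex.I)) * (1 - (hG s θ : ℂ)) +
      (1 - Complex.exp (θ * Complex.I)) * (-(hG' s θ : ℂ))) * (V θ - 1) +
      ((1 - Complex.exp (θ * Complex.I)) * (1 - (hG s θ : ℂ))) * V' θ) := by
    have h1 := h_cont_G s
    have h2 := h_cont_G' s
    have h3 := h_cont_exp
    have h4 : Continuous (fun θ => (hG s θ : ℂ)) := Complex.continuous_ofReal.comp h1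
    have h5 : Continuous (fun θ => (hG' s θ : ℂ)) := Complex.continuous_ofReal.comp h2
    fun_prop
  have key := TN_of_C1
    (fun θ => ((1 - Complex.exp (θ * Complex.I)) * (1 - (hG s θ : ℂ))) * (V θ - 1))
    (fun θ => ((-(Complex.exp (θ * Complex.I) * Complex.I)) * (1 - (hG s θ : ℂ)) +
      (1 - Complex.exp (θ * Complex.I)) * (-(hG' s θ : ℂ))) * (V θ - 1) +
      ((1 - Complex.exp (θ * Complex.I)) * (1 - (hG s θ : ℂ))) * V' θ) ?_ ?_ hFc
    (fun z => (1 - z) * (1 - cut s z) * (vB 10 n L z - 1)) ?_ (c₁ * β)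
    (6 * C₁ * β / Real.sqrt s) ?_ (by positivity) ?_
  · refine h_TN_mono key ?_
    have : 0 ≤ β / Real.sqrt s := by positivity
    have e : 6 * C₁ * β / Real.sqrt s = 6 * C₁ * (β / Real.sqrt s) := by ring
    rw [e]
    nlinarith [mul_pos hc₁0 hβ, mul_nonneg hc₁0.le this, mul_pos hC₁0 hβ]
  · intro θ
    simp only
    have h1 : hG s (θ + 2 * Real.pi) = hG s θ := by simp only [hG, Real.cos_add_two_pi]
    have h2 : V (θ + 2 * Real.pi) = V θ := by
      rw [← hVB, ← hVB, h_per_exp]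
    rw [h_per_exp, h1, h2]
  · intro θ
    have h1 := (h_hasDerivAt_exp θ).const_sub 1
    have h2 : HasDerivAt (fun θ : ℝ => (hG s θ : ℂ)) (hG' s θ : ℂ) θ :=
      (h_hasDerivAt_G s θ).ofReal_comp
    exact (h1.mul (h2.const_sub 1)).mul ((hVd θ).sub_const 1)
  · intro θ
    simp only [h_cut_eq, hVB]
  · intro θ
    have hGn : ‖(1 : ℂ) - (hG s θ : ℂ)‖ = 1 - hG s θ := by
      have : (1 : ℂ) - (hG s θ : ℂ) = ((1 - hG s θ : ℝ) : ℂ) := by push_cast; ring
      rw [this, Complex.norm_real, Real.norm_eq_abs, abs_of_nonneg (by linarith [(h_G_mem s θ).2])]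
    rw [norm_mul, norm_mul, hGn]
    rcases le_or_gt ‖1 - Complex.exp (θ * Complex.I)‖ (s / 2) with h | h
    · rw [(h_G_near hs h).1]; simp; positivity
    · have h1 := (hVb θ h).1
      have hρ0 : 0 < ‖1 - Complex.exp (θ * Complex.I)‖ := by linarith
      calc ‖1 - Complex.exp (θ * Complex.I)‖ * (1 - hG s θ) * ‖V θ - 1‖
          ≤ ‖1 - Complex.exp (θ * Complex.I)‖ * 1 *
            (c₁ * β / ‖1 - Complex.exp (θ * Complex.I)‖) := by
            have := (h_G_mem s θ).1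
            gcongr
            linarith
        _ = c₁ * β := by field_simp
  · refine (h_int_bound _ hFc (8 * C₁ ^ 2 * β ^ 2) s hs (by positivity) ?_).trans ?_
    · intro θ hθ
      have hGn : ‖(1 : ℂ) - (hG s θ : ℂ)‖ = 1 - hG s θ := by
        have : (1 : ℂ) - (hG s θ : ℂ) = ((1 - hG s θ : ℝ) : ℂ) := by push_cast; ring
        rw [this, Complex.norm_real, Real.norm_eq_abs,
          abs_of_nonneg (by linarith [(h_G_mem s θ).2])]
      rcases le_or_gt ‖1 - Complex.exp (θ * Complex.I)‖ (s / 2) with h | h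
      · rw [(h_G_near hs h).1, (h_G_near hs h).2]
        simp
        positivity
      · obtain ⟨h1, h2⟩ := hVb θ h
        have hl := h_rho_lower hθ
        have h3 := h_G'_bound hD0 hD hs θ
        have h4 := h_G_mem s θ
        set ρ := ‖1 - Complex.exp (θ * Complex.I)‖ with hρ
        have hρ0 : 0 < ρ := by linarith
        have hn : ‖((-(Complex.exp (θ * Complex.I) * Complex.I)) * (1 - (hG s θ : ℂ)) +
            (1 - Complex.exp (θ * Complex.I)) * (-(hG' s θ : ℂ))) * (V θ - 1) +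
            ((1 - Complex.exp (θ * Complex.I)) * (1 - (hG s θ : ℂ))) * V' θ‖ ≤ C₁ * β / ρ := by
          refine (norm_add_le _ _).trans ?_
          rw [norm_mul, norm_mul ((1 - Complex.exp (θ * Complex.I)) * (1 - (hG s θ : ℂ))),
            norm_mul (1 - Complex.exp (θ * Complex.I)), hGn, ← hρ]
          have h5 : ‖(-(Complex.exp (θ * Complex.I) * Complex.I)) * (1 - (hG s θ : ℂ)) +
            (1 - Complex.exp (θ * Complex.I)) * (-(hG' s θ : ℂ))‖ ≤ 1 + 8 / 3 * D := by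
            refine (norm_add_le _ _).trans ?_
            rw [norm_mul, norm_mul, norm_neg, norm_mul, norm_neg, Complex.norm_I, h_norm_exp,
              Complex.norm_real, Real.norm_eq_abs, hGn, ← hρ]
            nlinarith
          calc _ ≤ (1 + 8 / 3 * D) * (c₁ * β / ρ) + (ρ * 1) * (c₂ * β / ρ ^ 2) := by
                gcongr
                linarith
            _ = C₁ * β / ρ := by rw [hC₁]; field_simp
        calc _ ≤ (C₁ * β / ρ) ^ 2 := by gcongr
          _ = C₁ ^ 2 * β ^ 2 / ρ ^ 2 := by rw [div_pow]; ring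
          _ ≤ 8 * C₁ ^ 2 * β ^ 2 / (s ^ 2 + θ ^ 2) := by
            rw [div_le_div_iff₀ (by positivity) (by positivity)]
            have h6 : s ^ 2 + θ ^ 2 ≤ 8 * ρ ^ 2 := by
              have : (s / 2) ^ 2 ≤ ρ ^ 2 := by gcongr
              nlinarith [sq_nonneg θ]
            calc C₁ ^ 2 * β ^ 2 * (s ^ 2 + θ ^ 2) ≤ C₁ ^ 2 * β ^ 2 * (8 * ρ ^ 2) := by gcongr
              _ = _ := by ring
    · have h1 : (6 * C₁ * β / Real.sqrt s) ^ 2 = 36 * C₁ ^ 2 * β ^ 2 / s := by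
        rw [div_pow, hsq2]; ring
      rw [h1, div_le_div_iff_of_pos_right hs]
      have := Real.pi_lt_d2
      have h2 : 0 ≤ C₁ ^ 2 * β ^ 2 := by positivity
      nlinarith

end VG
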