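import Pool.Agent.Helper859.VG.Defs
import Pool.Agent.MP58366f.VBound
import Pool.Agent.MP58366f.Wiener
set_option autoImplicit false
open Finset

namespace VG

theorem vfac_eq (r θ : ℝ) (n k L : ℕ) :
    ((r : ℂ) - Complex.exp (-(2 * Real.pi * Complex.I * ((k : ℂ) - n + 1 / 2) / ((L : ℝ) : ℂ))) *
        Complex.exp (Complex.I * θ))
    / (1 - (r : ℂ) * Complex.exp (-(2 * Real.pi * Complex.I * ((k : ℂ) - n + 1 / 2) / ((L : ℝ) : ℂ)))
        * Complex.exp (Complex.I * θ)) =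
    IM.FF r (θ - ((k : ℝ) - n + 1 / 2) * (2 * Real.pi / L)) := by
  unfold IM.FF
  have h1 : Complex.exp (-(2 * Real.pi * Complex.I * ((k : ℂ) - n + 1 / 2) / ((L : ℝ) : ℂ))) *
      Complex.exp (Complex.I * θ) =
      Complex.exp (Complex.I * ((θ - ((k : ℝ) - n + 1 / 2) * (2 * Real.pi / L) : ℝ) : ℂ)) := by
    rw [← Complex.exp_add]
    congr 1
    push_cast
    ring
  rw [mul_assoc (r : ℂ) _ (Complex.exp (Complex.I * θ)), h1]

/-- TARGET -/
theorem vB_vC (L n K : ℕ) (hL : Real.pi * 10 < L) (hK : L = 2 * n + K) {z : ℂ} (hz : ‖z‖ = 1) :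
    vB 10 n L z * vC 10 n K L z =
      (((((1 - Real.pi * 10 / L) / (1 + Real.pi * 10 / L)) ^ L : ℝ) : ℂ) + z ^ L) /
      (1 + ((((1 - Real.pi * 10 / L) / (1 + Real.pi * 10 / L)) ^ L : ℝ) : ℂ) * z ^ L) ∧
    ‖vC 10 n K L z‖ = 1 ∧ vC 10 n K L 1 = 1 := by
  have hLpos : 0 < L := by
    rcases Nat.eq_zero_or_pos L with h | h
    · exfalso
      rw [h] at hL
      have := Real.pi_pos
      push_cast at hL
      linarith
    · exact h
  obtain ⟨hr0, hr1, -, -⟩ := W702.vB_r 10 (by norm_num) (L : ℝ) hL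
  have hmain : ∀ z : ℂ, ‖z‖ = 1 → vB 10 n L z * vC 10 n K L z =
      (((((1 - Real.pi * 10 / L) / (1 + Real.pi * 10 / L)) ^ L : ℝ) : ℂ) + z ^ L) /
      (1 + ((((1 - Real.pi * 10 / L) / (1 + Real.pi * 10 / L)) ^ L : ℝ) : ℂ) * z ^ L) := by
    intro z hz
    have hzθ : z = Complex.exp (Complex.I * ((Complex.arg z : ℝ) : ℂ)) := by
      have h1 := Complex.norm_mul_exp_arg_mul_I z
      rw [hz, Complex.ofReal_one, one_mul, mul_comm] at h1
      exact h1.symm
    generalize Complex.arg z = θ at hzθ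
    subst hzθ
    have hfull := IM.prod_full (r := (1 - Real.pi * 10 / L) / (1 + Real.pi * 10 / L)) L n hLpos θ
    rw [Complex.ofReal_pow, ← hfull]
    conv => rhs; rw [hK]
    rw [Finset.prod_range_add, ← hK]
    unfold vB vC
    congr 1
    · exact Finset.prod_congr rfl fun k _ => vfac_eq _ θ n k L
    · exact Finset.prod_congr rfl fun k _ => vfac_eq _ θ n (2 * n + k) L
  refine ⟨hmain z hz, ?_, ?_⟩
  · unfold vC
    rw [norm_prod]
    apply Finset.prod_eq_one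
    intro k _
    exact W702.fac_norm_eq hr0 hr1 (W702.vB_w_norm n (L : ℝ) (2 * n + k)) hz
  · have h1 := hmain 1 norm_one
    rw [(W702.vB_basic 10 (by norm_num) n (L : ℝ) hL).2.2.2, one_mul, one_pow, mul_one] at h1
    rw [h1, add_comm]
    apply div_self
    have h2 : (0:ℝ) < 1 + ((1 - Real.pi * 10 / L) / (1 + Real.pi * 10 / L)) ^ L := by positivity
    have h3 : ((1 + ((1 - Real.pi * 10 / L) / (1 + Real.pi * 10 / L)) ^ L : ℝ) : ℂ) ≠ 0 :=
      Complex.ofReal_ne_zero.2 h2.ne'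
    intro h4
    apply h3
    rw [← h4]
    push_cast
    ring

end VG
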