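import Pool.Agent.Helper859.VG.JA
set_option autoImplicit false
open Finset

namespace VG

/-! GIVEN toolbox (proved elsewhere; leave these sorries as they are, use them freely) -/
section given
variable {m : ℕ} {c c' : ℝ} {f g : ℂ → ℂ}
end given

noncomputable def gl (ε ε' : ℝ) (z : ℂ) : ℂ :=
  3 * (Complex.log (1 + ε - z) - Complex.log (1 + ε' - z))

/-! TARGETS -/

theorem TN_of_nat {m : ℕ} {c : ℝ} {f : ℂ → ℂ} (k : ℕ → ℂ)
    (hk : Summable (fun n : ℕ => ‖k n‖ * (1 + (n : ℝ)) ^ m))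
    (hc : ∑' n : ℕ, ‖k n‖ * (1 + (n : ℝ)) ^ m ≤ c)
    (hf : ∀ z : ℂ, ‖z‖ = 1 → f z = ∑' n : ℕ, k n * z ^ n) : TN m c f := by
  have hinj : Function.Injective (fun n : ℕ => (n : ℤ)) := Nat.cast_injective
  set K : ℤ → ℂ := fun n => if 0 ≤ n then k n.toNat else 0 with hK
  have hK0 : ∀ x ∉ Set.range (fun n : ℕ => (n : ℤ)), K x = 0 := by
    intro x hx
    have : ¬ (0 ≤ x) := by
      intro h
      exact hx ⟨x.toNat, by simp [h]⟩
    simp [hK, this]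
  have hKn : ∀ n : ℕ, K (n : ℤ) = k n := by
    intro n; simp [hK]
  have hsum : Summable (fun n : ℤ => ‖K n‖ * (1 + |(n : ℝ)|) ^ m) := by
    rw [← hinj.summable_iff (f := fun n : ℤ => ‖K n‖ * (1 + |(n : ℝ)|) ^ m)]
    · refine hk.congr ?_
      intro n
      simp [hKn]
    · intro x hx
      simp [hK0 x hx]
  refine ⟨K, hsum, ?_, ?_⟩
  · have := hinj.tsum_eq (f := fun n : ℤ => ‖K n‖ * (1 + |(n : ℝ)|) ^ m) (by
      intro x hx
      by_contra h
      exact hx (by simp [hK0 x h]))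
    rw [← this]
    refine le_trans (le_of_eq ?_) hc
    refine tsum_congr ?_
    intro n
    simp [hKn]
  · intro z hz
    rw [hf z hz]
    have := hinj.tsum_eq (f := fun n : ℤ => K n * z ^ n) (by
      intro x hx
      by_contra h
      exact hx (by simp [hK0 x h]))
    rw [← this]
    refine tsum_congr ?_
    intro n
    simp [hKn]

theorem summable_weight (m : ℕ) {q : ℝ} (h0 : 0 < q) (h1 : q < 1) :
    Summable (fun n : ℕ => q ^ n * (1 + (n : ℝ)) ^ m) := by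
  have h := summable_pow_mul_geometric_of_norm_lt_one (R := ℝ) m (r := q)
    (by rw [Real.norm_eq_abs, abs_of_pos h0]; exact h1)
  have h2 := (summable_nat_add_iff 1).2 h
  have h3 := h2.mul_left (q⁻¹)
  refine h3.congr ?_
  intro n
  have : q ≠ 0 := h0.ne'
  push_cast
  field_simp
  ring

/-- coefficients of `gl` -/
noncomputable def glk (ε ε' : ℝ) (n : ℕ) : ℂ :=
  (if n = 0 then 3 * ((Real.log (1 + ε) : ℂ) - (Real.log (1 + ε') : ℂ)) else 0) +
    3 * ((((1 + ε')⁻¹ : ℝ) : ℂ) ^ n / n - (((1 + ε)⁻¹ : ℝ) : ℂ) ^ n / n)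

theorem hasSum_log {ε : ℝ} (h0 : 0 < ε) {z : ℂ} (hz : ‖z‖ ≤ 1) :
    HasSum (fun n : ℕ => ((((1 + ε)⁻¹ : ℝ) : ℂ) ^ n / n) * z ^ n)
      ((Real.log (1 + ε) : ℂ) - Complex.log (1 + ε - z)) := by
  have hpos : (0 : ℝ) < 1 + ε := by linarith
  set w : ℂ := (((1 + ε)⁻¹ : ℝ) : ℂ) * z with hw
  have hwn : ‖w‖ < 1 := by
    rw [hw, norm_mul, Complex.norm_real, Real.norm_eq_abs, abs_of_pos (inv_pos.2 hpos)]
    calc (1 + ε)⁻¹ * ‖z‖ ≤ (1 + ε)⁻¹ * 1 := by gcongr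
      _ < 1 := by rw [mul_one]; exact inv_lt_one_of_one_lt₀ (by linarith)
  have h := Complex.hasSum_taylorSeries_neg_log hwn
  have hne : (1 - w) ≠ 0 := by
    intro h'
    have : w = 1 := by linear_combination -h'
    rw [this] at hwn
    simp at hwn
  have hfac : (1 + ε - z : ℂ) = ((1 + ε : ℝ) : ℂ) * (1 - w) := by
    have : ((1 + ε : ℝ) : ℂ) ≠ 0 := by exact_mod_cast hpos.ne'
    rw [hw]
    push_cast at this ⊢
    field_simp
  have hlog : Complex.log (1 + ε - z) = (Real.log (1 + ε) : ℂ) + Complex.log (1 - w) := by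
    rw [hfac, Complex.log_ofReal_mul hpos hne]
  have hval : ((Real.log (1 + ε) : ℂ) - Complex.log (1 + ε - z)) = -Complex.log (1 - w) := by
    rw [hlog]; ring
  rw [hval]
  refine h.congr_fun ?_
  intro n
  simp only [hw, mul_pow]
  ring

theorem gl_hasSum {ε ε' : ℝ} (h0 : 0 < ε') (h1 : ε' < ε) {z : ℂ} (hz : ‖z‖ ≤ 1) :
    HasSum (fun n : ℕ => glk ε ε' n * z ^ n) (gl ε ε' z) := by
  have hA := hasSum_log h0 hz
  have hB := hasSum_log (h0.trans h1) hz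
  have hC : HasSum (fun n : ℕ => (if n = 0 then
      3 * ((Real.log (1 + ε) : ℂ) - (Real.log (1 + ε') : ℂ)) else 0) * z ^ n)
      (3 * ((Real.log (1 + ε) : ℂ) - (Real.log (1 + ε') : ℂ))) := by
    have := hasSum_single (f := fun n : ℕ => (if n = 0 then
      3 * ((Real.log (1 + ε) : ℂ) - (Real.log (1 + ε') : ℂ)) else 0) * z ^ n) 0 (by
        intro b hb
        simp [hb])
    simpa using this
  have hD := hC.add ((hA.sub hB).mul_left 3)
  convert hD using 1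
  · funext n
    simp only [glk]
    ring
  · simp only [gl]
    ring

theorem glk_norm {ε ε' : ℝ} (h0 : 0 < ε') (h1 : ε' < ε) (n : ℕ) :
    ‖glk ε ε' n‖ ≤ (‖3 * ((Real.log (1 + ε) : ℂ) - (Real.log (1 + ε') : ℂ))‖ + 6) *
      ((1 + ε')⁻¹) ^ n := by
  have hp' : (0 : ℝ) < 1 + ε' := by linarith
  have hp : (0 : ℝ) < 1 + ε := by linarith
  set C : ℂ := 3 * ((Real.log (1 + ε) : ℂ) - (Real.log (1 + ε') : ℂ)) with hC
  rcases Nat.eq_zero_or_pos n with rfl | hn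
  · have e : glk ε ε' 0 = C := by simp [glk, hC]
    rw [e]
    simp
  · have hn0 : n ≠ 0 := hn.ne'
    have hn1 : (1 : ℝ) ≤ n := by exact_mod_cast hn
    have key : ∀ r : ℝ, 0 < r → ‖((r : ℝ) : ℂ) ^ n / n‖ ≤ r ^ n := by
      intro r hr
      rw [norm_div, norm_pow, Complex.norm_real, Real.norm_eq_abs, abs_of_pos hr]
      rw [Complex.norm_natCast]
      exact div_le_self (by positivity) hn1
    have hle : (1 + ε)⁻¹ ^ n ≤ (1 + ε')⁻¹ ^ n := by
      gcongr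
    have h1' := key _ (inv_pos.2 hp')
    have h2' := key _ (inv_pos.2 hp)
    have h3' : (0 : ℝ) ≤ (1 + ε')⁻¹ ^ n := by positivity
    simp only [glk, hn0, if_false, zero_add]
    calc ‖(3 : ℂ) * ((((1 + ε')⁻¹ : ℝ) : ℂ) ^ n / n - (((1 + ε)⁻¹ : ℝ) : ℂ) ^ n / n)‖
        ≤ 3 * (‖(((1 + ε')⁻¹ : ℝ) : ℂ) ^ n / n‖ + ‖(((1 + ε)⁻¹ : ℝ) : ℂ) ^ n / n‖) := by
          rw [norm_mul]
          have : ‖(3 : ℂ)‖ = 3 := by simp
          rw [this]
          gcongr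
          exact norm_sub_le _ _
      _ ≤ 3 * ((1 + ε')⁻¹ ^ n + (1 + ε')⁻¹ ^ n) := by
          gcongr
          exact h2'.trans hle
      _ ≤ (‖C‖ + 6) * (1 + ε')⁻¹ ^ n := by nlinarith [norm_nonneg C]

theorem glk_summable (m : ℕ) {ε ε' : ℝ} (h0 : 0 < ε') (h1 : ε' < ε) :
    Summable (fun n : ℕ => ‖glk ε ε' n‖ * (1 + (n : ℝ)) ^ m) := by
  have hp' : (0 : ℝ) < 1 + ε' := by linarith
  have hs := (summable_weight m (inv_pos.2 hp') (inv_lt_one_of_one_lt₀ (by linarith))).mul_left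
    (‖3 * ((Real.log (1 + ε) : ℂ) - (Real.log (1 + ε') : ℂ))‖ + 6)
  refine Summable.of_nonneg_of_le (fun n => by positivity) ?_ hs
  intro n
  rw [← mul_assoc]
  gcongr
  exact glk_norm h0 h1 n

theorem norm_le_aux {ε ε' : ℝ} (h0 : 0 < ε') (h1 : ε' < ε) {z : ℂ} (hz : ‖z‖ ≤ 1) :
    ‖(1 + ε' - z : ℂ)‖ ≤ ‖(1 + ε - z : ℂ)‖ := by
  have hre : z.re ≤ 1 := (Complex.re_le_norm z).trans hz
  rw [Complex.norm_def, Complex.norm_def]
  apply Real.sqrt_le_sqrt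
  rw [Complex.normSq_apply, Complex.normSq_apply]
  simp
  nlinarith

theorem ne_aux {ε : ℝ} (h0 : 0 < ε) {z : ℂ} (hz : ‖z‖ ≤ 1) : (1 + ε - z : ℂ) ≠ 0 := by
  intro h
  have hre : z.re ≤ 1 := (Complex.re_le_norm z).trans hz
  have := congrArg Complex.re h
  simp at this
  linarith

theorem gl_basic (ε ε' : ℝ) (h0 : 0 < ε') (h1 : ε' < ε) (h2 : ε ≤ 1) : (∃ c, AN c (gl ε ε')) ∧
    (∀ m, ∃ c, TN m c (gl ε ε')) ∧ (∀ z : ℂ, ‖z‖ ≤ 1 → 0 ≤ (gl ε ε' z).re) ∧ (gl ε ε' 1).im = 0 := by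
  refine ⟨⟨∑' n, ‖glk ε ε' n‖, glk ε ε', ?_, le_rfl, ?_⟩, ?_, ?_, ?_⟩
  · simpa using glk_summable 0 h0 h1
  · intro z hz
    exact (gl_hasSum h0 h1 hz).tsum_eq.symm
  · intro m
    exact ⟨_, TN_of_nat (glk ε ε') (glk_summable m h0 h1) le_rfl
      (fun z hz => (gl_hasSum h0 h1 hz.le).tsum_eq.symm)⟩
  · intro z hz
    have hn' : 0 < ‖(1 + ε' - z : ℂ)‖ := norm_pos_iff.2 (ne_aux h0 hz)
    have h := Real.log_le_log hn' (norm_le_aux h0 h1 hz)
    have : (gl ε ε' z).re = 3 * (Real.log ‖(1 + ε - z : ℂ)‖ - Real.log ‖(1 + ε' - z : ℂ)‖) := by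
      simp only [gl]
      have e3 : (3 : ℂ) = ((3 : ℝ) : ℂ) := by norm_num
      rw [e3, Complex.re_ofReal_mul, Complex.sub_re, Complex.log_re, Complex.log_re]
    rw [this]
    linarith
  · have e1 : (1 + (ε : ℂ) - 1) = ((ε : ℝ) : ℂ) := by ring
    have e2 : (1 + (ε' : ℂ) - 1) = ((ε' : ℝ) : ℂ) := by ring
    simp only [gl]
    rw [e1, e2, ← Complex.ofReal_log (h0.trans h1).le, ← Complex.ofReal_log h0.le]
    have e3 : (3 : ℂ) = ((3 : ℝ) : ℂ) := by norm_num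
    rw [e3, ← Complex.ofReal_sub, ← Complex.ofReal_mul, Complex.ofReal_im]

theorem gl_exp (ε ε' : ℝ) (h0 : 0 < ε') (h1 : ε' < ε) (h2 : ε ≤ 1) :
    TN 0 8 (fun z => Complex.exp (-gl ε ε' z)) := by
  have hε : 0 < ε := h0.trans h1
  have hp : (0 : ℝ) < 1 + ε := by linarith
  have hq1 : (1 + ε)⁻¹ < 1 := inv_lt_one_of_one_lt₀ (by linarith)
  have hq0 : 0 < (1 + ε)⁻¹ := inv_pos.2 hp
  -- the geometric part
  have hg : TN 0 1 (fun z : ℂ => ((ε - ε' : ℝ) : ℂ) / (1 + ε - z)) := by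
    have hsumR : HasSum (fun n : ℕ => (ε - ε') * (1 + ε)⁻¹ * (1 + ε)⁻¹ ^ n)
        ((ε - ε') * (1 + ε)⁻¹ * (1 - (1 + ε)⁻¹)⁻¹) :=
      (hasSum_geometric_of_lt_one hq0.le hq1).mul_left _
    refine TN_of_nat (fun n => (((ε - ε') * (1 + ε)⁻¹ * (1 + ε)⁻¹ ^ n : ℝ) : ℂ)) ?_ ?_ ?_
    · refine hsumR.summable.congr ?_
      intro n
      rw [Complex.norm_real, Real.norm_eq_abs, abs_of_nonneg]
      · simp
      · have : 0 ≤ ε - ε' := by linarith
        positivity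
    · have : (∑' n : ℕ, ‖(((ε - ε') * (1 + ε)⁻¹ * (1 + ε)⁻¹ ^ n : ℝ) : ℂ)‖ * (1 + (n : ℝ)) ^ 0)
          = (ε - ε') * (1 + ε)⁻¹ * (1 - (1 + ε)⁻¹)⁻¹ := by
        rw [← hsumR.tsum_eq]
        refine tsum_congr ?_
        intro n
        rw [Complex.norm_real, Real.norm_eq_abs, abs_of_nonneg]
        · simp
        · have : 0 ≤ ε - ε' := by linarith
          positivity
      rw [this]
      have e : (1 + ε)⁻¹ * (1 - (1 + ε)⁻¹)⁻¹ = 1 / ε := by
        field_simp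
        rw [div_eq_iff] <;> simp <;> linarith
      rw [mul_assoc, e, mul_one_div, div_le_one hε]
      linarith
    · intro z hz
      have hw : ‖(((1 + ε)⁻¹ : ℝ) : ℂ) * z‖ < 1 := by
        rw [norm_mul, hz, mul_one, Complex.norm_real, Real.norm_eq_abs, abs_of_pos hq0]
        exact hq1
      have hs := (hasSum_geometric_of_norm_lt_one hw).mul_left (((ε - ε') * (1 + ε)⁻¹ : ℝ) : ℂ)
      have hne := ne_aux hε hz.le
      have hpc : (1 + (ε : ℂ)) ≠ 0 := by exact_mod_cast hp.ne'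
      rw [show (∑' n : ℕ, (((ε - ε') * (1 + ε)⁻¹ * (1 + ε)⁻¹ ^ n : ℝ) : ℂ) * z ^ n)
        = ∑' n : ℕ, (((ε - ε') * (1 + ε)⁻¹ : ℝ) : ℂ) * ((((1 + ε)⁻¹ : ℝ) : ℂ) * z) ^ n from
        tsum_congr (fun n => by push_cast; rw [mul_pow]; ring), hs.tsum_eq]
      have hne2 : (1 - (((1 + ε)⁻¹ : ℝ) : ℂ) * z) ≠ 0 := by
        intro h
        apply hne
        push_cast at h
        field_simp at h
        linear_combination h
      push_cast at hne2 ⊢
      field_simp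
  have h2' : TN 0 2 (fun z : ℂ => 1 - ((ε - ε' : ℝ) : ℂ) / (1 + ε - z)) := by
    have := TN_sub (TN_const 0 1) hg
    refine TN_mono this ?_
    norm_num
  have h3 := TN_pow h2' 3
  have h4 : TN 0 8 (fun z : ℂ => (1 - ((ε - ε' : ℝ) : ℂ) / (1 + ε - z)) ^ 3) := by
    refine TN_mono h3 ?_
    norm_num
  refine TN_congr h4 ?_
  intro z hz
  have hne := ne_aux hε hz.le
  have hne' := ne_aux h0 hz.le
  have : Complex.exp (-gl ε ε' z) = (Complex.exp (Complex.log (1 + ε' - z)) /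
      Complex.exp (Complex.log (1 + ε - z))) ^ 3 := by
    rw [← Complex.exp_sub, ← Complex.exp_nat_mul]
    congr 1
    simp only [gl]
    push_cast
    ring
  rw [this, Complex.exp_log hne, Complex.exp_log hne']
  congr 1
  push_cast
  field_simp
  ring

end VG
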