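import Pool.Agent.Helper859.VG.JA
import Pool.Agent.Helper859.VG.JC
import Pool.Agent.Helper859.VG.JJ1
set_option autoImplicit false
open Finset

namespace VG

/-! GIVEN toolbox (proved elsewhere; leave these sorries as they are, use them freely) -/
section given
variable {m : ℕ} {c c' : ℝ} {f g : ℂ → ℂ}
end given

/-! TARGETS -/

/-- the real profile of `1 - cut` -/
noncomputable def hR (β : ℝ) (θ : ℝ) : ℝ :=
  1 - Real.smoothTransition ((1 - (2 - 2 * Real.cos θ) / β ^ 2) * (4 / 3))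

theorem hR_contDiff (β : ℝ) : ContDiff ℝ 1 (hR β) := by
  unfold hR
  have h1 : ContDiff ℝ 1 (fun θ : ℝ => (1 - (2 - 2 * Real.cos θ) / β ^ 2) * (4 / 3)) := by
    have := Real.contDiff_cos (n := 1)
    fun_prop
  exact contDiff_const.sub ((Real.smoothTransition.contDiff (n := 1)).comp h1)

theorem hR_hasDeriv (β θ : ℝ) : HasDerivAt (hR β) (deriv (hR β) θ) θ :=
  ((hR_contDiff β).differentiable one_ne_zero θ).hasDerivAt

theorem hR_deriv_cont (β : ℝ) : Continuous (deriv (hR β)) :=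
  (hR_contDiff β).continuous_deriv le_rfl

theorem hR_per (β : ℝ) : Function.Periodic (hR β) (2 * Real.pi) := by
  intro θ
  unfold hR
  rw [Real.cos_add_two_pi]

theorem hR_deriv_bound (β : ℝ) : ∃ H1 : ℝ, 0 ≤ H1 ∧ ∀ θ, |deriv (hR β) θ| ≤ H1 := by
  have hper : Function.Periodic (deriv (hR β)) (2 * Real.pi) := by
    intro θ
    have h1 : (fun x => hR β (x + 2 * Real.pi)) = hR β := funext (hR_per β)
    have h2 := deriv_comp_add_const (hR β) (2 * Real.pi) θ
    rw [h1] at h2
    exact h2.symm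
  have hb := hper.isBounded_of_continuous (by positivity) (hR_deriv_cont β)
  obtain ⟨C, hC⟩ := isBounded_iff_forall_norm_le.1 hb
  refine ⟨max C 0, le_max_right _ _, fun θ => ?_⟩
  exact (hC _ ⟨θ, rfl⟩).trans (le_max_left _ _)

theorem hR_nonneg (β θ : ℝ) : 0 ≤ hR β θ := by
  unfold hR
  linarith [Real.smoothTransition.le_one ((1 - (2 - 2 * Real.cos θ) / β ^ 2) * (4 / 3))]

theorem hR_le (β θ : ℝ) : hR β θ ≤ 1 := by
  unfold hR
  linarith [Real.smoothTransition.nonneg ((1 - (2 - 2 * Real.cos θ) / β ^ 2) * (4 / 3))]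

theorem hR_zero (β θ : ℝ) (hβ : 0 < β) (h : 2 - 2 * Real.cos θ ≤ β ^ 2 / 4) : hR β θ = 0 := by
  unfold hR
  rw [Real.smoothTransition.one_of_one_le, sub_self]
  have : (2 - 2 * Real.cos θ) / β ^ 2 ≤ 1 / 4 := by
    rw [div_le_iff₀ (by positivity)]
    linarith
  linarith

theorem hR_deriv_zero (β θ : ℝ) (hβ : 0 < β) (h : 2 - 2 * Real.cos θ < β ^ 2 / 4) :
    deriv (hR β) θ = 0 := by
  have hc : Continuous (fun x : ℝ => 2 - 2 * Real.cos x) := by
    have := Real.continuous_cos
    fun_prop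
  have h1 : ∀ᶠ x in nhds θ, 2 - 2 * Real.cos x < β ^ 2 / 4 :=
    hc.continuousAt.eventually_lt continuousAt_const h
  have h2 : hR β =ᶠ[nhds θ] fun _ => 0 := h1.mono fun x hx => hR_zero β x hβ hx.le
  rw [h2.deriv_eq, deriv_const]

theorem cz (θ : ℝ) : (Complex.exp (θ * Complex.I)).re = Real.cos θ ∧
    (Complex.exp (θ * Complex.I)).im = Real.sin θ :=
  ⟨Complex.exp_ofReal_mul_I_re θ, Complex.exp_ofReal_mul_I_im θ⟩

theorem norm_one_sub (θ : ℝ) : ‖1 - Complex.exp (θ * Complex.I)‖ ^ 2 = 2 - 2 * Real.cos θ := by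
  rw [Complex.sq_norm, Complex.normSq_apply]
  simp only [Complex.sub_re, Complex.one_re, Complex.sub_im, Complex.one_im]
  rw [(cz θ).1, (cz θ).2]
  have := Real.sin_sq_add_cos_sq θ
  linear_combination this

theorem norm_shift (θ t : ℝ) (ht : 0 ≤ t) :
    ‖1 - Complex.exp (θ * Complex.I)‖ ≤ ‖1 + t - Complex.exp (θ * Complex.I)‖ := by
  apply le_of_sq_le_sq _ (norm_nonneg _)
  rw [Complex.sq_norm, Complex.sq_norm, Complex.normSq_apply, Complex.normSq_apply]
  simp only [Complex.sub_re, Complex.one_re, Complex.sub_im, Complex.one_im, Complex.add_re,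
    Complex.add_im, Complex.ofReal_re, Complex.ofReal_im]
  rw [(cz θ).1, (cz θ).2]
  have := Real.cos_le_one θ
  nlinarith

theorem slit (θ t : ℝ) (ht : 0 < t) :
    1 + t - Complex.exp (θ * Complex.I) ∈ Complex.slitPlane := by
  left
  simp only [Complex.sub_re, Complex.one_re, Complex.add_re, Complex.ofReal_re]
  rw [(cz θ).1]
  have := Real.cos_le_one θ
  linarith

theorem cut_eq_1633 (β θ : ℝ) : 1 - cut β (Complex.exp (θ * Complex.I)) = (hR β θ : ℂ) := by
  unfold cut hR
  rw [norm_one_sub]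
  push_cast
  ring

theorem log_deriv (θ t : ℝ) (ht : 0 < t) :
    HasDerivAt (fun x : ℝ => Complex.log (1 + t - Complex.exp (x * Complex.I)))
      (-(Complex.exp (θ * Complex.I) * Complex.I) / (1 + t - Complex.exp (θ * Complex.I))) θ := by
  have h1 : HasDerivAt (fun x : ℝ => Complex.exp (x * Complex.I))
      (Complex.exp (θ * Complex.I) * Complex.I) θ := by
    have h2 : HasDerivAt (fun x : ℝ => (x : ℂ) * Complex.I) Complex.I θ := by
      simpa using (Complex.ofRealCLM.hasDerivAt (x := θ)).mul_const Complex.I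
    exact h2.cexp
  have h3 : HasDerivAt (fun x : ℝ => 1 + (t : ℂ) - Complex.exp (x * Complex.I))
      (-(Complex.exp (θ * Complex.I) * Complex.I)) θ := by
    simpa using h1.const_sub (1 + (t : ℂ))
  exact h3.clog_real (slit θ t ht)

theorem gl_bound (θ ε ε' r : ℝ) (hε' : 0 < ε') (hε : ε' ≤ ε) (hr : 0 < r)
    (h : r ≤ ‖1 - Complex.exp (θ * Complex.I)‖) :
    ‖gl ε ε' (Complex.exp (θ * Complex.I))‖ ≤ 3 * (ε / r) := by
  unfold gl
  rw [norm_mul]
  have h3 : ‖(3 : ℂ)‖ = 3 := by simp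
  rw [h3]
  have h1 : ‖Complex.log (1 + ε - Complex.exp (θ * Complex.I)) -
      Complex.log (1 + ε' - Complex.exp (θ * Complex.I))‖ ≤ 1 / r * (ε - ε') := by
    have hder : ∀ t ∈ Set.Icc ε' ε, HasDerivWithinAt
        (fun t : ℝ => Complex.log (1 + t - Complex.exp (θ * Complex.I)))
        (1 / (1 + t - Complex.exp (θ * Complex.I))) (Set.Icc ε' ε) t := by
      intro t ht
      have ht0 : 0 < t := hε'.trans_le ht.1
      have h2 : HasDerivAt (fun t : ℝ => 1 + (t : ℂ) - Complex.exp (θ * Complex.I)) 1 t := by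
        simpa using ((Complex.ofRealCLM.hasDerivAt (x := t)).const_add 1).sub_const
          (Complex.exp (θ * Complex.I))
      exact (h2.clog_real (slit θ t ht0)).hasDerivWithinAt
    have hb : ∀ t ∈ Set.Ico ε' ε, ‖1 / (1 + t - Complex.exp (θ * Complex.I))‖ ≤ 1 / r := by
      intro t ht
      rw [norm_div, norm_one]
      apply one_div_le_one_div_of_le hr
      exact h.trans (norm_shift θ t (hε'.le.trans ht.1))
    exact norm_image_sub_le_of_norm_deriv_le_segment' hder hb ε (Set.right_mem_Icc.2 hε)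
  have h4 : 1 / r * (ε - ε') ≤ ε / r := by
    rw [div_mul_eq_mul_div, one_mul]
    apply div_le_div_of_nonneg_right _ hr.le
    linarith
  linarith

theorem glp_bound (θ ε ε' r : ℝ) (hε' : 0 < ε') (hε : ε' ≤ ε) (hr : 0 < r)
    (h : r ≤ ‖1 - Complex.exp (θ * Complex.I)‖) :
    ‖3 * (-(Complex.exp (θ * Complex.I) * Complex.I) / (1 + ε - Complex.exp (θ * Complex.I)) -
      -(Complex.exp (θ * Complex.I) * Complex.I) / (1 + ε' - Complex.exp (θ * Complex.I)))‖ ≤
      3 * (ε / r ^ 2) := by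
  have ha := h.trans (norm_shift θ ε (hε'.le.trans hε))
  have hb := h.trans (norm_shift θ ε' hε'.le)
  have hz : ‖Complex.exp (θ * Complex.I)‖ = 1 := Complex.norm_exp_ofReal_mul_I θ
  set z := Complex.exp (θ * Complex.I)
  set a := 1 + (ε : ℂ) - z with hadef
  set b := 1 + (ε' : ℂ) - z with hbdef
  have ha0 : a ≠ 0 := by
    intro h0
    rw [h0, norm_zero] at ha
    linarith
  have hb0 : b ≠ 0 := by
    intro h0
    rw [h0, norm_zero] at hb
    linarith
  have e : (3 : ℂ) * (-(z * Complex.I) / a - -(z * Complex.I) / b) =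
      3 * (z * Complex.I * (((ε - ε' : ℝ) : ℂ) / (a * b))) := by
    have e1 : ((ε - ε' : ℝ) : ℂ) = a - b := by
      rw [hadef, hbdef]
      push_cast
      ring
    rw [e1]
    field_simp
    ring
  rw [e, norm_mul, norm_mul, norm_mul, hz, Complex.norm_I, norm_div, norm_mul, Complex.norm_real,
    Real.norm_of_nonneg (by linarith)]
  have h3 : ‖(3 : ℂ)‖ = 3 := by simp
  rw [h3]
  have h4 : (ε - ε') / (‖a‖ * ‖b‖) ≤ ε / r ^ 2 := by
    rw [sq]
    apply div_le_div₀ (by linarith) (by linarith) (by positivity)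
    gcongr
  linarith
theorem gl_far (β ν : ℝ) (hβ : 0 < β) (hβ1 : β ≤ 1) (hν : 0 < ν) : ∃ ε0 : ℝ, 0 < ε0 ∧ ε0 ≤ 1 ∧ ∀ ε ε' : ℝ, 0 < ε' →
    ε' < ε → ε ≤ ε0 → TN 0 ν (fun z => (1 - cut β z) * gl ε ε' z) := by
  obtain ⟨H1, hH1, hH⟩ := hR_deriv_bound β
  set r : ℝ := β / 2 with hr
  have hr0 : 0 < r := by positivity
  set C : ℝ := 3 / r + 3 * (H1 * (3 / r) + 3 / r ^ 2) with hC
  have hC0 : 0 < C := by positivity
  refine ⟨min 1 (ν / C), by positivity, min_le_left _ _, ?_⟩
  intro ε ε' hε' hlt hle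
  have hε0 : 0 < ε := hε'.trans hlt
  have hεC : ε * C ≤ ν := by
    have := hle.trans (min_le_right _ _)
    rwa [le_div_iff₀ hC0] at this
  -- derivative
  let g : ℝ → ℂ := fun θ => gl ε ε' (Complex.exp (θ * Complex.I))
  let g' : ℝ → ℂ := fun θ =>
    3 * (-(Complex.exp (θ * Complex.I) * Complex.I) / (1 + ε - Complex.exp (θ * Complex.I)) -
      -(Complex.exp (θ * Complex.I) * Complex.I) / (1 + ε' - Complex.exp (θ * Complex.I)))
  have hg : ∀ θ, HasDerivAt g (g' θ) θ := fun θ =>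
    ((log_deriv θ ε hε0).sub (log_deriv θ ε' hε')).const_mul 3
  have hgc : Continuous g := continuous_iff_continuousAt.2 fun θ => (hg θ).continuousAt
  have hne : ∀ θ t : ℝ, 0 < t → 1 + (t : ℂ) - Complex.exp (θ * Complex.I) ≠ 0 := fun θ t ht =>
    Complex.slitPlane_ne_zero (slit θ t ht)
  have hgc' : Continuous g' := by
    have hz : Continuous (fun θ : ℝ => Complex.exp (θ * Complex.I)) := by fun_prop
    refine continuous_const.mul (Continuous.sub ?_ ?_)
    · exact ((hz.mul continuous_const).neg).div (continuous_const.sub hz) fun θ => hne θ ε hε0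
    · exact ((hz.mul continuous_const).neg).div (continuous_const.sub hz) fun θ => hne θ ε' hε'
  let F : ℝ → ℂ := fun θ => (hR β θ : ℂ) * g θ
  let F' : ℝ → ℂ := fun θ => ((deriv (hR β) θ : ℝ) : ℂ) * g θ + (hR β θ : ℂ) * g' θ
  have hF : ∀ θ, HasDerivAt F (F' θ) θ := fun θ => (hR_hasDeriv β θ).ofReal_comp.mul (hg θ)
  have hFc : Continuous F' := by
    refine Continuous.add (Continuous.mul ?_ hgc) (Continuous.mul ?_ hgc')
    · exact Complex.continuous_ofReal.comp (hR_deriv_cont β)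
    · exact Complex.continuous_ofReal.comp (hR_contDiff β).continuous
  have hdich : ∀ θ : ℝ, (hR β θ = 0 ∧ deriv (hR β) θ = 0) ∨
      r ≤ ‖1 - Complex.exp (θ * Complex.I)‖ := by
    intro θ
    rcases lt_or_ge (2 - 2 * Real.cos θ) (β ^ 2 / 4) with h | h
    · exact Or.inl ⟨hR_zero β θ hβ h.le, hR_deriv_zero β θ hβ h⟩
    · right
      apply le_of_sq_le_sq _ (norm_nonneg _)
      rw [norm_one_sub, hr]
      linarith
  have hFb : ∀ θ, ‖F θ‖ ≤ 3 * (ε / r) := by
    intro θ
    rcases hdich θ with ⟨h, _⟩ | h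
    · simp only [F, h]
      simp only [Complex.ofReal_zero, zero_mul, norm_zero]
      positivity
    · simp only [F]
      rw [norm_mul, Complex.norm_real, Real.norm_of_nonneg (hR_nonneg β θ)]
      have h1 := gl_bound θ ε ε' r hε' hlt.le hr0 h
      calc hR β θ * ‖g θ‖ ≤ 1 * ‖g θ‖ := by
            gcongr
            exact hR_le β θ
        _ ≤ _ := by rw [one_mul]; exact h1
  have hFb' : ∀ θ, ‖F' θ‖ ≤ H1 * (3 * (ε / r)) + 3 * (ε / r ^ 2) := by
    intro θ
    rcases hdich θ with ⟨h, h'⟩ | h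
    · simp only [F', h, h']
      simp only [Complex.ofReal_zero, zero_mul, add_zero, norm_zero]
      positivity
    · have h1 := gl_bound θ ε ε' r hε' hlt.le hr0 h
      have h2 := glp_bound θ ε ε' r hε' hlt.le hr0 h
      have h3 := hH θ
      simp only [F']
      refine (norm_add_le _ _).trans ?_
      rw [norm_mul, norm_mul, Complex.norm_real, Complex.norm_real, Real.norm_eq_abs,
        Real.norm_of_nonneg (hR_nonneg β θ)]
      have h4 : |deriv (hR β) θ| * ‖g θ‖ ≤ H1 * (3 * (ε / r)) := by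
        gcongr
      have h5 : hR β θ * ‖g' θ‖ ≤ 1 * (3 * (ε / r ^ 2)) := by
        gcongr
        exact hR_le β θ
      linarith
  set B : ℝ := H1 * (3 * (ε / r)) + 3 * (ε / r ^ 2) with hB
  have hB0 : 0 ≤ B := by positivity
  have hper : Function.Periodic F (2 * Real.pi) := by
    intro θ
    simp only [F, g]
    rw [hR_per β θ]
    congr 2
    push_cast
    rw [add_mul, Complex.exp_add, Complex.exp_two_pi_mul_I, mul_one]
  have hint : ∫ θ in (-Real.pi)..Real.pi, ‖F' θ‖ ^ 2 ≤ (3 * B) ^ 2 := by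
    have h1 : ∫ θ in (-Real.pi)..Real.pi, ‖F' θ‖ ^ 2 ≤ ∫ θ in (-Real.pi)..Real.pi, B ^ 2 := by
      apply intervalIntegral.integral_mono_on
      · linarith [Real.pi_pos]
      · exact (hFc.norm.pow 2).intervalIntegrable _ _
      · exact continuous_const.intervalIntegrable _ _
      · intro θ _
        have := hFb' θ
        gcongr
    refine h1.trans ?_
    rw [intervalIntegral.integral_const, smul_eq_mul]
    have := Real.pi_lt_four
    nlinarith [sq_nonneg B]
  have hTN := TN_of_C1 F F' hper hF hFc (fun z => (1 - cut β z) * gl ε ε' z)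
    (fun θ => by simp only [F, g]; rw [cut_eq_1633]) (3 * (ε / r)) (3 * B) hFb (by positivity) hint
  refine TN_mono hTN ?_
  have e : 3 * (ε / r) + 3 * B = ε * C := by
    rw [hB, hC]
    ring
  rw [e]
  exact hεC

end VG
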