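import Pool.Agent.Helper859.VG.JA
import Pool.Agent.Helper859.VG.JC
import Pool.Agent.Helper859.VG.JJ1
set_option autoImplicit false
open Finset

namespace VG

/-! GIVEN toolbox (proved elsewhere; leave these sorries as they are, use them freely) -/
section given
variable {m : ℕ} {c c' : ℝ} {f g : ℂ → ℂ}
end given

/-! TARGETS -/

theorem st_deriv_neg {x : ℝ} (hx : x < 0) : deriv Real.smoothTransition x = 0 := by
  have : Real.smoothTransition =ᶠ[nhds x] fun _ => (0 : ℝ) := by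
    filter_upwards [Iio_mem_nhds hx] with y hy
    exact Real.smoothTransition.zero_of_nonpos (le_of_lt hy)
  rw [this.deriv_eq]; simp

theorem st_deriv_big {x : ℝ} (hx : 1 < x) : deriv Real.smoothTransition x = 0 := by
  have : Real.smoothTransition =ᶠ[nhds x] fun _ => (1 : ℝ) := by
    filter_upwards [Ioi_mem_nhds hx] with y hy
    exact Real.smoothTransition.one_of_one_le (le_of_lt hy)
  rw [this.deriv_eq]; simp

theorem st_deriv_bound : ∃ D : ℝ, 0 ≤ D ∧ ∀ x, |deriv Real.smoothTransition x| ≤ D := by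
  have hc : Continuous (deriv Real.smoothTransition) :=
    (Real.smoothTransition.contDiff (n := 1)).continuous_deriv le_rfl
  obtain ⟨C, hC⟩ := (isCompact_Icc (a := (0 : ℝ)) (b := 1)).exists_bound_of_continuousOn hc.continuousOn
  refine ⟨max C 0, le_max_right _ _, fun x => ?_⟩
  rcases lt_or_ge x 0 with h | h
  · rw [st_deriv_neg h]; simp
  · rcases lt_or_ge 1 x with h' | h'
    · rw [st_deriv_big h']; simp
    · exact le_trans (hC x ⟨h, h'⟩) (le_max_left _ _)

theorem st_hasDerivAt (x : ℝ) : HasDerivAt Real.smoothTransition (deriv Real.smoothTransition x) x :=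
  ((Real.smoothTransition.contDiff (n := 1)).differentiable (by norm_num) x).hasDerivAt

noncomputable def psi1 (a c : ℝ) : ℝ := Real.smoothTransition ((1 - 2 * c / a ^ 2) * (4 / 3))

theorem psi1_hasDerivAt {a : ℝ} (ha : 0 < a) (c : ℝ) :
    HasDerivAt (psi1 a) (deriv Real.smoothTransition ((1 - 2 * c / a ^ 2) * (4 / 3)) * (-(8 / (3 * a ^ 2)))) c := by
  have h1 : HasDerivAt (fun c : ℝ => (1 - 2 * c / a ^ 2) * (4 / 3)) (-(8 / (3 * a ^ 2))) c := by
    have h2 : HasDerivAt (fun c : ℝ => 2 * c / a ^ 2) (2 * 1 / a ^ 2) c :=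
      ((hasDerivAt_id c).const_mul 2).div_const _
    have h3 := (h2.const_sub 1).mul_const (4 / 3 : ℝ)
    refine h3.congr_deriv ?_
    field_simp
    norm_num
  exact (st_hasDerivAt _).comp c h1

theorem psi1_deriv_bound {a D : ℝ} (ha : 0 < a) (hD : ∀ x, |deriv Real.smoothTransition x| ≤ D)
    {c : ℝ} (hc : 0 < c) :
    |deriv Real.smoothTransition ((1 - 2 * c / a ^ 2) * (4 / 3)) * (-(8 / (3 * a ^ 2)))| ≤ (4 / 3) * D / c := by
  have hD0 : 0 ≤ D := le_trans (abs_nonneg _) (hD 0)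
  rcases lt_or_ge (a ^ 2) (2 * c) with h | h
  · have : (1 - 2 * c / a ^ 2) * (4 / 3) < 0 := by
      have : 1 < 2 * c / a ^ 2 := by rw [one_lt_div (by positivity)]; exact h
      nlinarith
    rw [st_deriv_neg this]; simp; positivity
  · rw [abs_mul, abs_neg, abs_of_pos (by positivity : (0 : ℝ) < 8 / (3 * a ^ 2))]
    have h1 : 8 / (3 * a ^ 2) ≤ 4 / 3 / c := by
      rw [div_div, div_le_div_iff₀ (by positivity) (by positivity)]
      nlinarith
    calc |deriv Real.smoothTransition ((1 - 2 * c / a ^ 2) * (4 / 3))| * (8 / (3 * a ^ 2))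
        ≤ D * (4 / 3 / c) := mul_le_mul (hD _) h1 (by positivity) hD0
      _ = (4 / 3) * D / c := by ring

theorem psi1_one {a c : ℝ} (ha : 0 < a) (hc : c ≤ a ^ 2 / 8) : psi1 a c = 1 := by
  unfold psi1
  apply Real.smoothTransition.one_of_one_le
  have : 2 * c / a ^ 2 ≤ 1 / 4 := by
    rw [div_le_div_iff₀ (by positivity) (by norm_num)]; linarith
  linarith

theorem psi1_zero {a c : ℝ} (ha : 0 < a) (hc : a ^ 2 / 2 ≤ c) : psi1 a c = 0 := by
  unfold psi1
  apply Real.smoothTransition.zero_of_nonpos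
  have : 1 ≤ 2 * c / a ^ 2 := by
    rw [one_le_div (by positivity)]; linarith
  nlinarith

theorem psi1_mem (a c : ℝ) : 0 ≤ psi1 a c ∧ psi1 a c ≤ 1 :=
  ⟨Real.smoothTransition.nonneg _, Real.smoothTransition.le_one _⟩

theorem psi1_contDiff {a : ℝ} : ContDiff ℝ 1 (psi1 a) := by
  unfold psi1
  exact Real.smoothTransition.contDiff.comp (by fun_prop)

noncomputable def Qf (a a' c : ℝ) : ℝ := (psi1 a c - psi1 a' c) / c

theorem Qf_zero_small {a a' c : ℝ} (ha' : 0 < a') (haa : a' ≤ a / 2) (hc : c ≤ a' ^ 2 / 8) : Qf a a' c = 0 := by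
  unfold Qf
  rw [psi1_one ha' hc, psi1_one (by linarith : 0 < a)]
  · simp
  · refine hc.trans ?_
    have : a' ^ 2 ≤ a ^ 2 := by nlinarith
    linarith

theorem Qf_zero_big {a a' c : ℝ} (ha' : 0 < a') (haa : a' ≤ a / 2) (hc : a ^ 2 / 2 ≤ c) : Qf a a' c = 0 := by
  unfold Qf
  rw [psi1_zero (by linarith : 0 < a) hc, psi1_zero ha']
  · simp
  · refine le_trans ?_ hc
    have : a' ^ 2 ≤ a ^ 2 := by nlinarith
    linarith

theorem Qf_contDiff {a a' : ℝ} (ha' : 0 < a') (haa : a' ≤ a / 2) : ContDiff ℝ 1 (Qf a a') := by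
  rw [contDiff_iff_contDiffAt]
  intro c
  by_cases hc : c = 0
  · subst hc
    have : Qf a a' =ᶠ[nhds 0] fun _ => (0 : ℝ) := by
      have : (0 : ℝ) < a' ^ 2 / 8 := by positivity
      filter_upwards [Iio_mem_nhds this] with y hy
      exact Qf_zero_small ha' haa (le_of_lt hy)
    exact contDiffAt_const.congr_of_eventuallyEq this
  · exact ((psi1_contDiff.sub psi1_contDiff).contDiffAt).div contDiffAt_id hc

theorem Qf_bound {a a' c : ℝ} (hc : 0 < c) : |Qf a a' c| ≤ 1 / c := by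
  unfold Qf
  rw [abs_div, abs_of_pos hc]
  refine div_le_div_of_nonneg_right ?_ hc.le
  have h1 := psi1_mem a c
  have h2 := psi1_mem a' c
  rw [abs_le]; constructor <;> linarith [h1.1, h1.2, h2.1, h2.2]

theorem Qf_deriv {a a' D : ℝ} (ha' : 0 < a') (haa : a' ≤ a / 2)
    (hD : ∀ x, |deriv Real.smoothTransition x| ≤ D) {c : ℝ} (hc : 0 < c) :
    ∃ q, HasDerivAt (Qf a a') q c ∧ |q| ≤ ((8 / 3) * D + 1) / c ^ 2 := by
  have ha : 0 < a := by linarith
  have h1 := psi1_hasDerivAt ha c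
  have h2 := psi1_hasDerivAt ha' c
  have b1 := psi1_deriv_bound ha hD hc
  have b2 := psi1_deriv_bound ha' hD hc
  set p1 := deriv Real.smoothTransition ((1 - 2 * c / a ^ 2) * (4 / 3)) * (-(8 / (3 * a ^ 2)))
  set p2 := deriv Real.smoothTransition ((1 - 2 * c / a' ^ 2) * (4 / 3)) * (-(8 / (3 * a' ^ 2)))
  have h3 := (h1.sub h2).div (hasDerivAt_id c) hc.ne'
  refine ⟨_, h3, ?_⟩
  simp only [id]
  have m1 := psi1_mem a c
  have m2 := psi1_mem a' c
  rw [abs_div, abs_of_pos (by positivity : (0 : ℝ) < c ^ 2)]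
  refine div_le_div_of_nonneg_right ?_ (by positivity)
  have e1 : |(p1 - p2) * c| ≤ (8 / 3) * D := by
    rw [abs_mul, abs_of_pos hc]
    have : |p1 - p2| ≤ (4 / 3) * D / c + (4 / 3) * D / c := by
      have := abs_sub p1 p2
      linarith
    calc |p1 - p2| * c ≤ ((4 / 3) * D / c + (4 / 3) * D / c) * c := mul_le_mul_of_nonneg_right this hc.le
      _ = (8 / 3) * D := by field_simp; ring
  have e2 : |(psi1 a c - psi1 a' c) * 1| ≤ 1 := by
    rw [mul_one, abs_le]; constructor <;> linarith [m1.1, m1.2, m2.1, m2.2]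
  exact (abs_sub _ _).trans (add_le_add e1 e2)

/-- the function on the circle in the angle variable -/
noncomputable def wf (ε ε' θ : ℝ) : ℂ := (1 + ε' - Complex.exp (θ * Complex.I)) / (1 + ε - Complex.exp (θ * Complex.I))

theorem den_bound {ε : ℝ} (hε : 0 < ε) (θ : ℝ) : ε ≤ ‖(1 + ε - Complex.exp (θ * Complex.I) : ℂ)‖ := by
  have h1 : ‖(1 + ε : ℂ)‖ = 1 + ε := by
    have : (1 + ε : ℂ) = ((1 + ε : ℝ) : ℂ) := by push_cast; rfl
    rw [this, Complex.norm_real, Real.norm_eq_abs, abs_of_pos (by linarith)]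
  have h2 : ‖Complex.exp (θ * Complex.I)‖ = 1 := Complex.norm_exp_ofReal_mul_I θ
  have h3 := norm_sub_norm_le (1 + ε : ℂ) (Complex.exp (θ * Complex.I))
  rw [h1, h2] at h3
  linarith

theorem den_ne_1632 {ε : ℝ} (hε : 0 < ε) (θ : ℝ) : (1 + ε - Complex.exp (θ * Complex.I) : ℂ) ≠ 0 := by
  intro h
  have := den_bound hε θ
  rw [h, norm_zero] at this
  linarith

theorem exp_hasDerivAt (θ : ℝ) : HasDerivAt (fun θ : ℝ => Complex.exp (θ * Complex.I))
    (Complex.exp (θ * Complex.I) * Complex.I) θ := by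
  have h1 : HasDerivAt (fun θ : ℝ => (θ : ℂ) * Complex.I) (1 * Complex.I) θ :=
    (Complex.ofRealCLM.hasDerivAt (x := θ)).mul_const _
  rw [one_mul] at h1
  exact h1.cexp

theorem wf_hasDerivAt {ε : ℝ} (hε : 0 < ε) (ε' θ : ℝ) :
    HasDerivAt (wf ε ε') (Complex.exp (θ * Complex.I) * Complex.I * (ε' - ε) /
      (1 + ε - Complex.exp (θ * Complex.I)) ^ 2) θ := by
  have h := exp_hasDerivAt θ
  have h1 := (h.const_sub (1 + ε' : ℂ)).div (h.const_sub (1 + ε : ℂ)) (den_ne_1632 hε θ)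
  refine HasDerivAt.congr_deriv (f := wf ε ε') h1 ?_
  congr 1
  ring

theorem sq_r (θ : ℝ) : ‖1 - Complex.exp (θ * Complex.I)‖ ^ 2 = 2 * (1 - Real.cos θ) := by
  rw [← Complex.normSq_eq_norm_sq, Complex.normSq_apply]
  simp only [Complex.sub_re, Complex.one_re, Complex.exp_ofReal_mul_I_re, Complex.sub_im, Complex.one_im,
    Complex.exp_ofReal_mul_I_im]
  have := Real.sin_sq_add_cos_sq θ
  nlinarith

noncomputable def gf (a a' θ : ℝ) : ℝ := Real.sin θ * Qf a a' (1 - Real.cos θ)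

noncomputable def Ff (ε a a' θ : ℝ) : ℂ :=
  wf ε (a' / 2) θ ^ 3 * (Complex.exp (-((gf a a' θ : ℝ) * Complex.I)) - 1)

theorem Ff_zero {ε a a' θ : ℝ} (h : Qf a a' (1 - Real.cos θ) = 0) : Ff ε a a' θ = 0 := by
  simp [Ff, gf, h]

theorem Ff_contDiff {ε a a' : ℝ} (hε : 0 < ε) (ha' : 0 < a') (haa : a' ≤ a / 2) :
    ContDiff ℝ 1 (Ff ε a a') := by
  have hexp : ContDiff ℝ 1 (fun θ : ℝ => Complex.exp (θ * Complex.I)) := by
    exact (Complex.ofRealCLM.contDiff.mul contDiff_const).cexp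
  have hw : ContDiff ℝ 1 (wf ε (a' / 2)) := by
    have h1 : ContDiff ℝ 1 (fun θ : ℝ => ((1 + ε - Complex.exp (θ * Complex.I) : ℂ))⁻¹) :=
      ContDiff.inv (contDiff_const.sub hexp) (fun θ => den_ne_1632 hε θ)
    have h2 : ContDiff ℝ 1 (fun θ : ℝ => ((1 + ((a' / 2 : ℝ) : ℂ) - Complex.exp (θ * Complex.I) : ℂ))) :=
      contDiff_const.sub hexp
    have h3 := h2.mul h1
    exact h3
  have hg : ContDiff ℝ 1 (gf a a') := by
    refine Real.contDiff_sin.mul ?_
    exact (Qf_contDiff ha' haa).comp (contDiff_const.sub Real.contDiff_cos)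
  refine (hw.pow 3).mul (ContDiff.sub ?_ contDiff_const)
  refine ContDiff.cexp ?_
  refine ContDiff.neg ?_
  exact (Complex.ofRealCLM.contDiff.comp hg).mul contDiff_const

theorem cexp_I_norm (t : ℝ) : ‖Complex.exp (-((t : ℝ) * Complex.I))‖ = 1 := by
  have : (-((t : ℝ) * Complex.I) : ℂ) = ((-t : ℝ) : ℂ) * Complex.I := by push_cast; ring
  rw [this, Complex.norm_exp_ofReal_mul_I]

theorem wf_bound {ε a' : ℝ} (hε : 0 < ε) (ha' : 0 < a') {θ r : ℝ}
    (hr : r = ‖1 - Complex.exp (θ * Complex.I)‖) (hr1 : a' / 2 ≤ r) :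
    ‖wf ε (a' / 2) θ‖ ≤ 2 * r / ε := by
  unfold wf
  rw [norm_div]
  have h1 : ‖(1 + ((a' / 2 : ℝ) : ℂ) - Complex.exp (θ * Complex.I) : ℂ)‖ ≤ 2 * r := by
    have : (1 + ((a' / 2 : ℝ) : ℂ) - Complex.exp (θ * Complex.I) : ℂ)
        = (1 - Complex.exp (θ * Complex.I)) + ((a' / 2 : ℝ) : ℂ) := by ring
    rw [this]
    refine (norm_add_le _ _).trans ?_
    rw [Complex.norm_real, Real.norm_eq_abs, abs_of_pos (by linarith), ← hr]
    linarith
  exact div_le_div₀ (by linarith) h1 hε (den_bound hε θ)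

theorem Ff_deriv_bound {ε a a' D : ℝ} (hε : 0 < ε) (ha' : 0 < a') (haa : a' ≤ a / 2) (haε : a ≤ ε) (ha1 : a ≤ 1)
    (hD : ∀ x, |deriv Real.smoothTransition x| ≤ D) (θ : ℝ) :
    ‖Ff ε a a' θ‖ ≤ 16 * a / ε ^ 3 ∧ ‖deriv (Ff ε a a') θ‖ ≤ (72 + 16 * ((16 / 3) * D + 3)) * a / ε ^ 3 := by
  have ha : 0 < a := by linarith
  have hD0 : 0 ≤ D := le_trans (abs_nonneg _) (hD 0)
  have hcont : Continuous fun θ : ℝ => 1 - Real.cos θ := by fun_prop
  by_cases h1 : 1 - Real.cos θ < a' ^ 2 / 8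
  · have hz : Ff ε a a' =ᶠ[nhds θ] fun _ => (0 : ℂ) := by
      have : {t : ℝ | 1 - Real.cos t < a' ^ 2 / 8} ∈ nhds θ := (isOpen_lt hcont continuous_const).mem_nhds h1
      filter_upwards [this] with t ht
      exact Ff_zero (Qf_zero_small ha' haa (le_of_lt ht))
    rw [hz.deriv_eq, hz.eq_of_nhds]
    simp
    constructor <;> positivity
  by_cases h2 : a ^ 2 / 2 < 1 - Real.cos θ
  · have hz : Ff ε a a' =ᶠ[nhds θ] fun _ => (0 : ℂ) := by
      have : {t : ℝ | a ^ 2 / 2 < 1 - Real.cos t} ∈ nhds θ := (isOpen_lt continuous_const hcont).mem_nhds h2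
      filter_upwards [this] with t ht
      exact Ff_zero (Qf_zero_big ha' haa (le_of_lt ht))
    rw [hz.deriv_eq, hz.eq_of_nhds]
    simp
    constructor <;> positivity
  push Not at h1 h2
  have hsq := sq_r θ
  set r := ‖1 - Complex.exp (θ * Complex.I)‖ with hr
  have hr0 : 0 ≤ r := norm_nonneg _
  set c := 1 - Real.cos θ with hcdef
  have hc : 0 < c := lt_of_lt_of_le (by positivity) h1
  have hra : r ≤ a := by
    have : r ^ 2 ≤ a ^ 2 := by rw [hsq]; linarith
    exact abs_le_of_sq_le_sq' this ha.le |>.2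
  have hra' : a' / 2 ≤ r := by
    have : (a' / 2) ^ 2 ≤ r ^ 2 := by rw [hsq]; nlinarith
    exact (abs_le_of_sq_le_sq' this hr0).2
  have hw := wf_bound hε ha' hr hra'
  have hw3 : ‖wf ε (a' / 2) θ ^ 3‖ ≤ 8 * r ^ 3 / ε ^ 3 := by
    rw [norm_pow]
    calc ‖wf ε (a' / 2) θ‖ ^ 3 ≤ (2 * r / ε) ^ 3 := pow_le_pow_left₀ (norm_nonneg _) hw 3
      _ = 8 * r ^ 3 / ε ^ 3 := by ring
  have hE : ‖Complex.exp (-((gf a a' θ : ℝ) * Complex.I)) - 1‖ ≤ 2 := by
    refine (norm_sub_le _ _).trans ?_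
    rw [cexp_I_norm, norm_one]; norm_num
  have hr3 : r ^ 3 ≤ a := by
    have : r ^ 3 ≤ a ^ 3 := pow_le_pow_left₀ hr0 hra 3
    have : a ^ 3 ≤ a := by nlinarith [mul_nonneg ha.le ha.le, mul_pos ha ha]
    linarith
  have hr2 : r ^ 2 ≤ a := by
    have : r ^ 2 ≤ a ^ 2 := pow_le_pow_left₀ hr0 hra 2
    have : a ^ 2 ≤ a := by nlinarith
    linarith
  constructor
  · unfold Ff
    rw [norm_mul]
    calc ‖wf ε (a' / 2) θ ^ 3‖ * ‖Complex.exp (-((gf a a' θ : ℝ) * Complex.I)) - 1‖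
        ≤ (8 * r ^ 3 / ε ^ 3) * 2 := mul_le_mul hw3 hE (norm_nonneg _) (by positivity)
      _ = 16 * r ^ 3 / ε ^ 3 := by ring
      _ ≤ 16 * a / ε ^ 3 := by
        refine div_le_div_of_nonneg_right ?_ (by positivity)
        linarith
  · obtain ⟨q, hq, hqb⟩ := Qf_deriv ha' haa hD hc
    have hcos : HasDerivAt (fun t : ℝ => 1 - Real.cos t) (Real.sin θ) θ := by
      have := (Real.hasDerivAt_cos θ).const_sub 1
      simpa using this
    have hQc : HasDerivAt (fun t : ℝ => Qf a a' (1 - Real.cos t)) (q * Real.sin θ) θ :=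
      HasDerivAt.comp (h₂ := Qf a a') θ hq hcos
    have hg : HasDerivAt (gf a a') (Real.cos θ * Qf a a' c + Real.sin θ * (q * Real.sin θ)) θ :=
      (Real.hasDerivAt_sin θ).mul hQc
    set g' := Real.cos θ * Qf a a' c + Real.sin θ * (q * Real.sin θ) with hg'
    have hgb : |g'| ≤ ((16 / 3) * D + 3) / c := by
      have hs : Real.sin θ ^ 2 ≤ 2 * c := by
        have h3 := Real.sin_sq_add_cos_sq θ
        have h4 := Real.cos_le_one θ
        have h5 := Real.neg_one_le_cos θ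
        rw [hcdef]; nlinarith
      have e1 : |Real.cos θ * Qf a a' c| ≤ 1 / c := by
        rw [abs_mul]
        calc |Real.cos θ| * |Qf a a' c| ≤ 1 * (1 / c) :=
              mul_le_mul (Real.abs_cos_le_one θ) (Qf_bound hc) (abs_nonneg _) (by norm_num)
          _ = 1 / c := by ring
      have e2 : |Real.sin θ * (q * Real.sin θ)| ≤ 2 * ((8 / 3) * D + 1) / c := by
        have : Real.sin θ * (q * Real.sin θ) = q * Real.sin θ ^ 2 := by ring
        rw [this, abs_mul, abs_of_nonneg (sq_nonneg (Real.sin θ))]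
        calc |q| * Real.sin θ ^ 2 ≤ (((8 / 3) * D + 1) / c ^ 2) * (2 * c) :=
              mul_le_mul hqb hs (sq_nonneg _) (by positivity)
          _ = 2 * ((8 / 3) * D + 1) / c := by field_simp
      calc |g'| ≤ |Real.cos θ * Qf a a' c| + |Real.sin θ * (q * Real.sin θ)| := abs_add_le _ _
        _ ≤ 1 / c + 2 * ((8 / 3) * D + 1) / c := add_le_add e1 e2
        _ = ((16 / 3) * D + 3) / c := by ring
    have hE' : HasDerivAt (fun t : ℝ => Complex.exp (-((gf a a' t : ℝ) * Complex.I)) - 1)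
        (Complex.exp (-((gf a a' θ : ℝ) * Complex.I)) * (-((g' : ℂ) * Complex.I))) θ := by
      have h3 : HasDerivAt (fun t : ℝ => ((gf a a' t : ℝ) : ℂ)) (g' : ℂ) θ := hg.ofReal_comp
      have h4 := ((h3.mul_const Complex.I).neg).cexp.sub_const 1
      exact h4
    have hF := (((wf_hasDerivAt hε (a' / 2) θ).pow 3)).mul hE'
    have hF' : deriv (Ff ε a a') θ = _ := HasDerivAt.deriv hF
    rw [hF']
    have hwd : ‖(Complex.exp (θ * Complex.I) * Complex.I * (((a' / 2 : ℝ) : ℂ) - ε) /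
      (1 + ε - Complex.exp (θ * Complex.I)) ^ 2)‖ ≤ 1 / ε := by
      rw [norm_div, norm_mul, norm_mul, Complex.norm_exp_ofReal_mul_I, Complex.norm_I, norm_pow]
      have h3 : ‖(((a' / 2 : ℝ) : ℂ) - ε)‖ ≤ ε := by
        have : (((a' / 2 : ℝ) : ℂ) - ε) = ((a' / 2 - ε : ℝ) : ℂ) := by push_cast; ring
        rw [this, Complex.norm_real, Real.norm_eq_abs, abs_le]
        constructor <;> linarith
      have h4 : ε ^ 2 ≤ ‖(1 + ε - Complex.exp (θ * Complex.I) : ℂ)‖ ^ 2 :=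
        pow_le_pow_left₀ hε.le (den_bound hε θ) 2
      calc 1 * 1 * ‖(((a' / 2 : ℝ) : ℂ) - ε)‖ / ‖(1 + ε - Complex.exp (θ * Complex.I) : ℂ)‖ ^ 2
          ≤ ε / ε ^ 2 := by
            rw [one_mul, one_mul]
            exact div_le_div₀ hε.le h3 (by positivity) h4
        _ = 1 / ε := by field_simp
    refine (norm_add_le _ _).trans ?_
    have t1 : ‖(((3 : ℕ) : ℂ) * wf ε (a' / 2) θ ^ (3 - 1) * (Complex.exp (θ * Complex.I) * Complex.I * (((a' / 2 : ℝ) : ℂ) - ε) /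
      (1 + ε - Complex.exp (θ * Complex.I)) ^ 2)) * (Complex.exp (-((gf a a' θ : ℝ) * Complex.I)) - 1)‖
        ≤ 24 * r ^ 2 / ε ^ 3 := by
      rw [norm_mul, norm_mul, norm_mul, norm_pow]
      have h5 : ‖wf ε (a' / 2) θ‖ ^ (3 - 1) ≤ (2 * r / ε) ^ 2 := pow_le_pow_left₀ (norm_nonneg _) hw 2
      have h6 : ‖((3 : ℕ) : ℂ)‖ = 3 := by simp
      rw [h6]
      calc 3 * ‖wf ε (a' / 2) θ‖ ^ (3 - 1) * ‖(Complex.exp (θ * Complex.I) * Complex.I * (((a' / 2 : ℝ) : ℂ) - ε) /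
              (1 + ε - Complex.exp (θ * Complex.I)) ^ 2)‖ * ‖Complex.exp (-((gf a a' θ : ℝ) * Complex.I)) - 1‖
          ≤ 3 * (2 * r / ε) ^ 2 * (1 / ε) * 2 := by
            refine mul_le_mul ?_ hE (norm_nonneg _) (by positivity)
            refine mul_le_mul ?_ hwd (norm_nonneg _) (by positivity)
            exact mul_le_mul_of_nonneg_left h5 (by norm_num)
        _ = 24 * r ^ 2 / ε ^ 3 := by ring
    have t2 : ‖(wf ε (a' / 2) θ ^ 3) * (Complex.exp (-((gf a a' θ : ℝ) * Complex.I)) * (-((g' : ℂ) * Complex.I)))‖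
        ≤ 16 * ((16 / 3) * D + 3) * r / ε ^ 3 := by
      rw [norm_mul, norm_mul, cexp_I_norm, norm_neg, norm_mul, Complex.norm_I, Complex.norm_real, Real.norm_eq_abs]
      have hr00 : 0 < r := lt_of_lt_of_le (by positivity) hra'
      have hcr : c = r ^ 2 / 2 := by rw [hsq]; ring
      calc ‖wf ε (a' / 2) θ ^ 3‖ * (1 * (|g'| * 1)) ≤ (8 * r ^ 3 / ε ^ 3) * (1 * ((((16 / 3) * D + 3) / c) * 1)) := by
            refine mul_le_mul hw3 ?_ (by positivity) (by positivity)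
            simpa using hgb
        _ = 16 * ((16 / 3) * D + 3) * r / ε ^ 3 := by
            rw [hcr]; field_simp; ring
    calc _ ≤ 24 * r ^ 2 / ε ^ 3 + 16 * ((16 / 3) * D + 3) * r / ε ^ 3 := add_le_add t1 t2
      _ ≤ (72 + 16 * ((16 / 3) * D + 3)) * a / ε ^ 3 := by
        rw [← add_div]
        refine div_le_div_of_nonneg_right ?_ (by positivity)
        have : 16 * ((16 / 3) * D + 3) * r ≤ 16 * ((16 / 3) * D + 3) * a :=
          mul_le_mul_of_nonneg_left hra (by positivity)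
        nlinarith

theorem quot_eq {θ : ℝ} (hc : 1 - Real.cos θ ≠ 0) :
    (1 + Complex.exp (θ * Complex.I)) / (1 - Complex.exp (θ * Complex.I))
      = ((Real.sin θ / (1 - Real.cos θ) : ℝ) : ℂ) * Complex.I := by
  have hne : (1 - Complex.exp (θ * Complex.I) : ℂ) ≠ 0 := by
    intro h
    have h1 := sq_r θ
    rw [h] at h1
    simp at h1
    apply hc
    linarith
  rw [div_eq_iff hne]
  have hs := Real.sin_sq_add_cos_sq θ
  apply Complex.ext
  · simp only [Complex.add_re, Complex.one_re, Complex.exp_ofReal_mul_I_re, Complex.mul_re, Complex.ofReal_re,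
      Complex.I_re, Complex.ofReal_im, Complex.I_im, Complex.mul_im, Complex.sub_re, Complex.sub_im,
      Complex.one_im, Complex.exp_ofReal_mul_I_im]
    field_simp
    nlinarith
  · simp only [Complex.add_im, Complex.one_re, Complex.exp_ofReal_mul_I_re, Complex.mul_re, Complex.ofReal_re,
      Complex.I_re, Complex.ofReal_im, Complex.I_im, Complex.mul_im, Complex.sub_re, Complex.sub_im,
      Complex.one_im, Complex.exp_ofReal_mul_I_im]
    field_simp
    ring

theorem f_eq {ε a a' : ℝ} (hε : 0 < ε) (ha' : 0 < a') (haa : a' ≤ a / 2) (θ : ℝ) :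
    (fun z => Complex.exp (-gl ε (a' / 2) z) *
      (Complex.exp (-((cut a z - cut a' z) * ((1 + z) / (1 - z)))) - 1)) (Complex.exp (θ * Complex.I))
      = Ff ε a a' θ := by
  have hcut : ∀ s : ℝ, cut s (Complex.exp (θ * Complex.I)) = ((psi1 s (1 - Real.cos θ) : ℝ) : ℂ) := by
    intro s
    unfold cut psi1
    rw [sq_r]
  simp only [hcut]
  have hA : Complex.exp (-gl ε (a' / 2) (Complex.exp (θ * Complex.I))) = wf ε (a' / 2) θ ^ 3 := by
    unfold gl wf
    have hA1 := den_ne_1632 hε θ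
    have hB1 := den_ne_1632 (half_pos ha') θ
    rw [show (-(3 * (Complex.log (1 + (ε : ℂ) - Complex.exp (θ * Complex.I)) -
        Complex.log (1 + ((a' / 2 : ℝ) : ℂ) - Complex.exp (θ * Complex.I)))))
      = ((3 : ℕ) : ℂ) * (Complex.log (1 + ((a' / 2 : ℝ) : ℂ) - Complex.exp (θ * Complex.I))
        - Complex.log (1 + (ε : ℂ) - Complex.exp (θ * Complex.I))) by push_cast; ring]
    rw [Complex.exp_nat_mul, Complex.exp_sub, Complex.exp_log hA1, Complex.exp_log hB1]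
  rw [hA]
  unfold Ff
  congr 2
  congr 1
  by_cases hc : 1 - Real.cos θ = 0
  · rw [hc]
    have h0 : psi1 a 0 - psi1 a' 0 = 0 := by
      rw [psi1_one ha' (by positivity), psi1_one (by linarith) (by positivity)]; ring
    have h1 : ((psi1 a 0 : ℝ) : ℂ) - ((psi1 a' 0 : ℝ) : ℂ) = 0 := by
      rw [← Complex.ofReal_sub, h0]; simp
    rw [h1]
    simp [gf, Qf, hc]
  · rw [quot_eq hc]
    unfold gf Qf
    push_cast
    ring

theorem gl_near (ε ν : ℝ) (hε : 0 < ε) (hε1 : ε ≤ 1) (hν : 0 < ν) : ∃ a0 : ℝ, 0 < a0 ∧ a0 ≤ ε ∧ ∀ a a' : ℝ, 0 < a' →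
    a' ≤ a / 2 → a ≤ a0 →
    TN 0 ν (fun z => Complex.exp (-gl ε (a' / 2) z) *
      (Complex.exp (-((cut a z - cut a' z) * ((1 + z) / (1 - z)))) - 1)) := by
  obtain ⟨D, hD0, hD⟩ := st_deriv_bound
  set K : ℝ := 72 + 16 * ((16 / 3) * D + 3) with hK
  have hKp : 0 < K := by positivity
  refine ⟨min ε (ν * ε ^ 3 / (16 + 3 * K)), lt_min hε (by positivity), min_le_left _ _, ?_⟩
  intro a a' ha' haa ha0
  have ha : 0 < a := by linarith
  have haε : a ≤ ε := ha0.trans (min_le_left _ _)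
  have ha1 : a ≤ 1 := haε.trans hε1
  have haν : a ≤ ν * ε ^ 3 / (16 + 3 * K) := ha0.trans (min_le_right _ _)
  have hC := Ff_contDiff hε ha' haa
  have hb := Ff_deriv_bound hε ha' haa haε ha1 hD
  have hM : 16 * a / ε ^ 3 + 3 * (K * a / ε ^ 3) ≤ ν := by
    rw [le_div_iff₀ (by positivity)] at haν
    have e : 16 * a / ε ^ 3 + 3 * (K * a / ε ^ 3) = (a * (16 + 3 * K)) / ε ^ 3 := by ring
    rw [e, div_le_iff₀ (by positivity)]
    exact haν
  refine TN_mono (TN_of_C1 (Ff ε a a') (deriv (Ff ε a a')) ?_ ?_ ?_ _ (f_eq hε ha' haa) (16 * a / ε ^ 3)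
    (3 * (K * a / ε ^ 3)) (fun θ => (hb θ).1) (by positivity) ?_) hM
  · intro θ
    rw [← f_eq hε ha' haa, ← f_eq hε ha' haa]
    have : Complex.exp (((θ + 2 * Real.pi : ℝ) : ℂ) * Complex.I) = Complex.exp (θ * Complex.I) := by
      push_cast
      rw [add_mul, Complex.exp_add, Complex.exp_two_pi_mul_I, mul_one]
    rw [this]
  · intro θ
    exact (hC.differentiable (by norm_num) θ).hasDerivAt
  · exact hC.continuous_deriv le_rfl
  · have hcd : Continuous (deriv (Ff ε a a')) := hC.continuous_deriv le_rfl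
    have h1 : ∀ θ, ‖deriv (Ff ε a a') θ‖ ^ 2 ≤ (K * a / ε ^ 3) ^ 2 := fun θ =>
      pow_le_pow_left₀ (norm_nonneg _) (hb θ).2 2
    have hpi : -Real.pi ≤ Real.pi := by linarith [Real.pi_pos]
    calc ∫ θ in (-Real.pi)..Real.pi, ‖deriv (Ff ε a a') θ‖ ^ 2
        ≤ ∫ θ in (-Real.pi)..Real.pi, (K * a / ε ^ 3) ^ 2 := by
          refine intervalIntegral.integral_mono_on hpi ?_ ?_ (fun θ _ => h1 θ)
          · exact (hcd.norm.pow 2).intervalIntegrable _ _
          · exact continuous_const.intervalIntegrable _ _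
      _ = (2 * Real.pi) * (K * a / ε ^ 3) ^ 2 := by
          rw [intervalIntegral.integral_const, smul_eq_mul]; ring
      _ ≤ (3 * (K * a / ε ^ 3)) ^ 2 := by
          have := Real.pi_lt_four
          have h4 : 0 ≤ (K * a / ε ^ 3) ^ 2 := sq_nonneg _
          nlinarith

end VG
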