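import Pool.Agent.MP58366f.GL5
set_option autoImplicit false
set_option linter.unusedSectionVars false
open Finset

namespace IM

noncomputable def psym2 (N : ℕ) [NeZero N] (κ : ℤ → ℂ) : ZMod N → ℂ :=
  fun j => ∑' m : ℤ, κ m * E (j * (m : ZMod N))

noncomputable def eta2 (ℓ : ℕ) (κ : ℤ → ℂ) : ℝ := ∑' m : ℤ, ‖κ m‖ * wt ℓ m.natAbs

section Adapted
variable {N : ℕ} [NeZero N]

noncomputable def Kact2 (κ : ℤ → ℂ) (f : ZMod N → ℂ) : ZMod N → ℂ := fun n => ∑' m : ℤ, κ m * f (n - (m : ZMod N))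

lemma summable_bdd2 {κ : ℤ → ℂ} (hκ : Summable fun m => ‖κ m‖) {c : ℤ → ℂ} {B : ℝ} (hc : ∀ m, ‖c m‖ ≤ B) :
    Summable fun m => κ m * c m := by
  apply Summable.of_norm
  apply Summable.of_nonneg_of_le (fun _ => norm_nonneg _) (fun m => ?_) (hκ.mul_right B)
  rw [norm_mul]
  gcongr
  exact hc m

lemma Kact2_summable {κ : ℤ → ℂ} (hκ : Summable fun m => ‖κ m‖) (f : ZMod N → ℂ) (n : ZMod N) :
    Summable fun m : ℤ => κ m * f (n - (m : ZMod N)) := by
  obtain ⟨B, hB⟩ := exists_bound f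
  exact summable_bdd2 hκ (B := B) fun m => hB _

lemma T_psym2 {κ : ℤ → ℂ} (hκ : Summable fun m => ‖κ m‖) (f : ZMod N → ℂ) : T (psym2 N κ) f = Kact2 κ f := by
  apply F_inj; intro j
  rw [F_T]
  unfold F Kact2 psym2
  have h1 : ∀ l : ZMod N, (∑' m : ℤ, κ m * f (l - (m : ZMod N))) * E (j * l)
      = ∑' m : ℤ, κ m * (f (l - (m : ZMod N)) * E (j * l)) := by
    intro l
    rw [← tsum_mul_right]
    apply tsum_congr; intro m; ring
  simp_rw [h1]
  rw [← Summable.tsum_finsetSum]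
  · rw [← tsum_mul_right]
    apply tsum_congr; intro m
    rw [← Finset.mul_sum, mul_assoc]
    congr 1
    rw [Finset.mul_sum, ← Equiv.sum_comp (Equiv.addRight (m : ZMod N)) (fun l => f (l - (m : ZMod N)) * E (j * l))]
    apply Finset.sum_congr rfl; intro l _
    simp only [Equiv.coe_addRight, add_sub_cancel_right]
    rw [mul_add, E_add]; ring
  · intro l _
    obtain ⟨B, hB⟩ := exists_bound f
    apply summable_bdd2 hκ (B := B)
    intro m
    rw [norm_mul, E_norm, mul_one]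
    exact hB _

lemma N4_tsum_le2 {a : ℤ → ZMod N → ℂ} (ha : Summable fun m => N4 (a m)) :
    N4 (fun n => ∑' m, a m n) ≤ ∑' m, N4 (a m) := by
  set b : ℤ → PiLp 4 (fun _ : ZMod N => ℂ) := fun m => WithLp.toLp 4 (a m) with hb
  have hbn : Summable fun m => ‖b m‖ := ha
  have hs : Summable b := Summable.of_norm hbn
  have h1 : (WithLp.toLp 4 (fun n => ∑' m, a m n) : PiLp 4 (fun _ : ZMod N => ℂ)) = ∑' m, b m := by
    ext n
    have h2 := (PiLp.proj (𝕜 := ℂ) 4 (fun _ : ZMod N => ℂ) n).map_tsum hs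
    simp only [PiLp.proj_apply] at h2
    rw [h2]
  unfold N4
  rw [h1]
  exact norm_tsum_le_tsum_norm hbn

lemma N2_tsum_le2 {a : ℤ → ZMod N → ℂ} (ha : Summable fun m => N2 (a m)) :
    N2 (fun n => ∑' m, a m n) ≤ ∑' m, N2 (a m) := by
  set b : ℤ → PiLp 2 (fun _ : ZMod N => ℂ) := fun m => WithLp.toLp 2 (a m) with hb
  have hbn : Summable fun m => ‖b m‖ := ha
  have hs : Summable b := Summable.of_norm hbn
  have h1 : (WithLp.toLp 2 (fun n => ∑' m, a m n) : PiLp 2 (fun _ : ZMod N => ℂ)) = ∑' m, b m := by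
    ext n
    have h2 := (PiLp.proj (𝕜 := ℂ) 2 (fun _ : ZMod N => ℂ) n).map_tsum hs
    simp only [PiLp.proj_apply] at h2
    rw [h2]
  unfold N2
  rw [h1]
  exact norm_tsum_le_tsum_norm hbn


lemma shift_wt2 {ℓ : ℕ} (hℓ : ℓ ∣ N) (m : ℤ) {g : ZMod N → ℂ} (hg : BC ℓ g) :
    N4 (fun n => g n - g (n - (m : ZMod N))) ≤ wt ℓ m.natAbs * N4 g := by
  rcases Int.natAbs_eq m with h | h
  · have h1 := shift_wt hℓ m.natAbs hg
    have e : ((m.natAbs : ℕ) : ZMod N) = ((m : ℤ) : ZMod N) := by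
      conv_rhs => rw [h]
      rw [Int.cast_natCast]
    rwa [e] at h1
  · have h1 := shift_wt hℓ m.natAbs hg
    have e : ((m : ℤ) : ZMod N) = - ((m.natAbs : ℕ) : ZMod N) := by
      conv_lhs => rw [h]
      rw [Int.cast_neg, Int.cast_natCast]
    have h2 : N4 (fun n => g n - g (n - (m : ZMod N))) =
        N4 (fun n => g n - g (n - ((m.natAbs : ℕ) : ZMod N))) := by
      rw [← N4_translate (fun n => g n - g (n - (m : ZMod N))) ((m.natAbs : ℕ) : ZMod N)]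
      refine N4_congr_norm fun n => ?_
      rw [e, norm_sub_rev]
      congr 2
      congr 1
      ring
    rw [h2]; exact h1

lemma eta2_summable {κ : ℤ → ℂ} (hκ : Summable fun m => ‖κ m‖) (ℓ : ℕ) : Summable fun m => ‖κ m‖ * wt ℓ m.natAbs :=
  Summable.of_nonneg_of_le (fun m => mul_nonneg (norm_nonneg _) (wt_nonneg _ _))
    (fun m => mul_le_mul_of_nonneg_left (wt_le ℓ m.natAbs) (norm_nonneg _)) (hκ.mul_right 2)

lemma eta2_nonneg (ℓ : ℕ) (κ : ℤ → ℂ) : 0 ≤ eta2 ℓ κ :=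
  tsum_nonneg fun m => mul_nonneg (norm_nonneg _) (wt_nonneg _ _)

/-- kernel with vanishing sum acting on block-constant functions -/
lemma Kact2_BC {ℓ : ℕ} (hℓ : ℓ ∣ N) {κ : ℤ → ℂ} (hκ : Summable fun m => ‖κ m‖) (h0 : ∑' m, κ m = 0)
    {X : ZMod N → ℂ} (hX : BC ℓ X) : N4 (Kact2 κ X) ≤ eta2 ℓ κ * N4 X := by
  have h1 : Kact2 κ X = fun n => ∑' m : ℤ, κ m * (-(X n - X (n - (m : ZMod N)))) := by
    funext n
    have : ∀ m : ℤ, κ m * (-(X n - X (n - (m : ZMod N)))) = κ m * X (n - (m : ZMod N)) - κ m * X n := by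
      intro m; ring
    simp_rw [this]
    rw [Summable.tsum_sub (Kact2_summable hκ X n) (hκ.of_norm.mul_right _), tsum_mul_right, h0]
    simp [Kact2]
  rw [h1]
  have hb : ∀ m : ℤ, N4 (fun n : ZMod N => κ m * (-(X n - X (n - (m : ZMod N))))) ≤ (‖κ m‖ * wt ℓ m.natAbs) * N4 X := by
    intro m
    have h2 : N4 (fun n : ZMod N => κ m * (-(X n - X (n - (m : ZMod N)))))
        = ‖κ m‖ * N4 (fun n : ZMod N => X n - X (n - (m : ZMod N))) := by
      have e1 : (fun n : ZMod N => κ m * (-(X n - X (n - (m : ZMod N)))))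
          = (-κ m) • (fun n : ZMod N => X n - X (n - (m : ZMod N))) := by
        funext n; simp; ring
      rw [e1, N4_smul, norm_neg]
    rw [h2, mul_assoc]
    gcongr
    exact shift_wt2 hℓ m hX
  have hs : Summable fun m : ℤ => N4 (fun n : ZMod N => κ m * (-(X n - X (n - (m : ZMod N))))) :=
    Summable.of_nonneg_of_le (fun m => N4_nonneg _) hb ((eta2_summable hκ ℓ).mul_right _)
  calc _ ≤ ∑' m : ℤ, N4 (fun n : ZMod N => κ m * (-(X n - X (n - (m : ZMod N))))) := N4_tsum_le2 hs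
    _ ≤ ∑' m : ℤ, (‖κ m‖ * wt ℓ m.natAbs) * N4 X := hs.tsum_le_tsum hb ((eta2_summable hκ ℓ).mul_right _)
    _ = _ := by rw [tsum_mul_right]; rfl

/-- linear terms -/
lemma lin_term2 {ℓ : ℕ} (hℓ : ℓ ∣ N) {κ : ℤ → ℂ} (hκ : Summable fun m => ‖κ m‖)
    {g1 g2 g3 : ZMod N → ℂ} (h1 : BC ℓ g1) (h2 : BC ℓ g2) (h3 : BC ℓ g3) {x : ZMod N → ℂ}
    (hx : Av ℓ x = 0) :
    ‖∑ n, g1 n * g2 n * g3 n * Kact2 κ x n‖ ≤ 3 * eta2 ℓ κ * (N4 g1 * N4 g2 * N4 g3 * N4 x) := by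
  set G : ZMod N → ℂ := fun n => g1 n * g2 n * g3 n with hG
  have hGBC : BC ℓ G := (h1.mul h2).mul h3
  have e1 : ∑ n, G n * Kact2 κ x n = ∑' m : ℤ, κ m * ∑ n, G n * x (n - (m : ZMod N)) := by
    unfold Kact2
    have : ∀ n, G n * ∑' m : ℤ, κ m * x (n - (m : ZMod N)) = ∑' m : ℤ, κ m * (G n * x (n - (m : ZMod N))) := by
      intro n
      rw [← tsum_mul_left]; apply tsum_congr; intro m; ring
    simp_rw [this]
    rw [← Summable.tsum_finsetSum]
    · apply tsum_congr; intro m; rw [Finset.mul_sum]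
    · intro n _
      obtain ⟨B, hB⟩ := exists_bound x
      apply summable_bdd2 hκ (B := ‖G n‖ * B)
      intro m; rw [norm_mul]; gcongr; exact hB _
  have e2 : ∀ m : ℤ, ∑ n, G n * x (n - (m : ZMod N)) = ∑ n, (G n - G (n - (m : ZMod N))) * x (n - (m : ZMod N)) := by
    intro m
    have : ∑ n : ZMod N, G (n - (m : ZMod N)) * x (n - (m : ZMod N)) = 0 := by
      rw [sum_sub (fun n => G n * x n)]
      exact sum_mul_eq_zero hℓ hGBC hx
    simp_rw [sub_mul]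
    rw [Finset.sum_sub_distrib, this, sub_zero]
  have e3 : ∀ m : ℤ, ‖∑ n, G n * x (n - (m : ZMod N))‖ ≤ wt ℓ m.natAbs * (3 * (N4 g1 * N4 g2 * N4 g3 * N4 x)) := by
    intro m
    rw [e2]
    set τ : (ZMod N → ℂ) → (ZMod N → ℂ) := fun g n => g (n - (m : ZMod N)) with hτ
    set D : (ZMod N → ℂ) → (ZMod N → ℂ) := fun g n => g n - g (n - (m : ZMod N)) with hD
    have hτN : ∀ g, N4 (τ g) = N4 g := fun g => N4_translate g _
    have hDN : ∀ g, BC ℓ g → N4 (D g) ≤ wt ℓ m.natAbs * N4 g := fun g hg => shift_wt2 hℓ m hg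
    calc _ ≤ ∑ n, ‖(G n - G (n - (m : ZMod N))) * x (n - (m : ZMod N))‖ := norm_sum_le _ _
      _ ≤ ∑ n, (‖D g1 n‖ * ‖g2 n‖ * ‖g3 n‖ * ‖τ x n‖ + ‖τ g1 n‖ * ‖D g2 n‖ * ‖g3 n‖ * ‖τ x n‖
            + ‖τ g1 n‖ * ‖τ g2 n‖ * ‖D g3 n‖ * ‖τ x n‖) := by
          apply Finset.sum_le_sum; intro n _
          have : (G n - G (n - (m : ZMod N))) * x (n - (m : ZMod N)) =
              D g1 n * g2 n * g3 n * τ x n + τ g1 n * D g2 n * g3 n * τ x n + τ g1 n * τ g2 n * D g3 n * τ x n := by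
            simp only [hG, hD, hτ]; ring
          rw [this]
          refine (norm_add₃_le).trans (le_of_eq ?_)
          simp only [norm_mul]
      _ = (∑ n, ‖D g1 n‖ * ‖g2 n‖ * ‖g3 n‖ * ‖τ x n‖) + (∑ n, ‖τ g1 n‖ * ‖D g2 n‖ * ‖g3 n‖ * ‖τ x n‖)
            + (∑ n, ‖τ g1 n‖ * ‖τ g2 n‖ * ‖D g3 n‖ * ‖τ x n‖) := by
          rw [Finset.sum_add_distrib, Finset.sum_add_distrib]
      _ ≤ N4 (D g1) * N4 g2 * N4 g3 * N4 (τ x) + N4 (τ g1) * N4 (D g2) * N4 g3 * N4 (τ x)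
            + N4 (τ g1) * N4 (τ g2) * N4 (D g3) * N4 (τ x) := by
          gcongr <;> exact holder4 _ _ _ _
      _ ≤ (wt ℓ m.natAbs * N4 g1) * N4 g2 * N4 g3 * N4 x + N4 g1 * (wt ℓ m.natAbs * N4 g2) * N4 g3 * N4 x
            + N4 g1 * N4 g2 * (wt ℓ m.natAbs * N4 g3) * N4 x := by
          have a1 := N4_nonneg g1
          have a2 := N4_nonneg g2
          have a3 := N4_nonneg g3
          have a4 := N4_nonneg x
          rw [hτN, hτN, hτN]
          have b1 := hDN g1 h1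
          have b2 := hDN g2 h2
          have b3 := hDN g3 h3
          gcongr
      _ = _ := by ring
  have hs : Summable fun m : ℤ => ‖κ m‖ * (wt ℓ m.natAbs * (3 * (N4 g1 * N4 g2 * N4 g3 * N4 x))) := by
    have := (eta2_summable hκ ℓ).mul_right (3 * (N4 g1 * N4 g2 * N4 g3 * N4 x))
    refine this.congr fun m => by ring
  rw [e1]
  refine (tsum_of_norm_bounded (g := fun m => ‖κ m‖ * (wt ℓ m.natAbs * (3 * (N4 g1 * N4 g2 * N4 g3 * N4 x)))) hs.hasSum ?_).trans (le_of_eq ?_)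
  · intro m
    rw [norm_mul]
    gcongr
    exact e3 m
  · have : (fun m => ‖κ m‖ * (wt ℓ m.natAbs * (3 * (N4 g1 * N4 g2 * N4 g3 * N4 x))))
        = fun m => (‖κ m‖ * wt ℓ m.natAbs) * (3 * (N4 g1 * N4 g2 * N4 g3 * N4 x)) := by funext m; ring
    rw [this, tsum_mul_right, eta2]; ring

/-- commutator -/
lemma comm_N22 {ℓ : ℕ} (hℓ : ℓ ∣ N) {κ : ℤ → ℂ} (hκ : Summable fun m => ‖κ m‖)
    {Y : ZMod N → ℂ} (hY : BC ℓ Y) (x : ZMod N → ℂ) :
    N2 (fun n => Y n * Kact2 κ x n - Kact2 κ (fun n => Y n * x n) n) ≤ eta2 ℓ κ * (N4 Y * N4 x) := by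
  have h1 : (fun n => Y n * Kact2 κ x n - Kact2 κ (fun n => Y n * x n) n)
      = fun n => ∑' m : ℤ, κ m * ((Y n - Y (n - (m : ZMod N))) * x (n - (m : ZMod N))) := by
    funext n
    unfold Kact2
    rw [← tsum_mul_left, ← Summable.tsum_sub]
    · apply tsum_congr; intro m; ring
    · exact (Kact2_summable hκ x n).mul_left _
    · exact Kact2_summable hκ (fun n => Y n * x n) n
  rw [h1]
  have hb : ∀ m : ℤ, N2 (fun n : ZMod N => κ m * ((Y n - Y (n - (m : ZMod N))) * x (n - (m : ZMod N))))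
      ≤ (‖κ m‖ * wt ℓ m.natAbs) * (N4 Y * N4 x) := by
    intro m
    have e1 : (fun n : ZMod N => κ m * ((Y n - Y (n - (m : ZMod N))) * x (n - (m : ZMod N))))
        = (κ m) • (fun n : ZMod N => (Y n - Y (n - (m : ZMod N))) * x (n - (m : ZMod N))) := by
      funext n; simp
    rw [e1, N2_smul, mul_assoc]
    gcongr
    calc _ ≤ N4 (fun n : ZMod N => Y n - Y (n - (m : ZMod N))) * N4 (fun n : ZMod N => x (n - (m : ZMod N))) :=
          N2_mul_le _ _
      _ ≤ (wt ℓ m.natAbs * N4 Y) * N4 x := by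
          rw [N4_translate]
          have := N4_nonneg x
          gcongr
          exact shift_wt2 hℓ m hY
      _ = _ := by ring
  have hs : Summable fun m : ℤ => N2 (fun n : ZMod N => κ m * ((Y n - Y (n - (m : ZMod N))) * x (n - (m : ZMod N)))) :=
    Summable.of_nonneg_of_le (fun m => N2_nonneg _) hb ((eta2_summable hκ ℓ).mul_right _)
  calc _ ≤ ∑' m : ℤ, N2 (fun n : ZMod N => κ m * ((Y n - Y (n - (m : ZMod N))) * x (n - (m : ZMod N)))) := N2_tsum_le2 hs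
    _ ≤ ∑' m : ℤ, (‖κ m‖ * wt ℓ m.natAbs) * (N4 Y * N4 x) := hs.tsum_le_tsum hb ((eta2_summable hκ ℓ).mul_right _)
    _ = _ := by rw [tsum_mul_right]; rfl

/-- the Lyapunov step -/
lemma lyap_step2 {ℓ ℓ' : ℕ} (hℓ : ℓ ∣ ℓ') (hℓ' : ℓ' ∣ N) {κ : ℤ → ℂ} (hκ : Summable fun m => ‖κ m‖)
    {C : ℝ} (hC : 0 ≤ C) (hMB : MB C (fun j : ZMod N => 1 + psym2 N κ j))
    (hM2 : ∀ j : ZMod N, ‖1 + psym2 N κ j‖ ≤ 1) {A : ℝ} (hA : A = 288 + 18 * C ^ 4)
    {X Y x : ZMod N → ℂ} (hX : BC ℓ' X) (hY : BC ℓ' Y) (hx : Av ℓ' x = 0)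
    (hη : eta2 ℓ' κ ≤ 1) :
    ∑ n, WL A (X n) (Y n) - 117 * eta2 ℓ' κ * (N4 X + N4 Y + N4 x) ^ 4 ≤
      ∑ n, WL A (X n + x n) (Y n + Av ℓ (T (fun j : ZMod N => 1 + psym2 N κ j) x) n) := by
  have hA288 : 288 ≤ A := by rw [hA]; nlinarith [pow_nonneg hC 4]
  have hℓN : ℓ ∣ N := hℓ.trans hℓ'
  set η := eta2 ℓ' κ with hηdef
  have hη0 : 0 ≤ η := eta2_nonneg _ _
  set y := Av ℓ (T (fun j : ZMod N => 1 + psym2 N κ j) x) with hy
  have hTx : T (fun j : ZMod N => 1 + psym2 N κ j) x = x + Kact2 κ x := by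
    rw [T_add_symb, T_one, T_psym2 hκ]
  have nX := N4_nonneg X
  have nY := N4_nonneg Y
  have nx := N4_nonneg x
  -- L1
  have L1 : ∑ n, ‖y n‖ ^ 4 ≤ C ^ 4 * ∑ n, ‖x n‖ ^ 4 := by
    rw [← N4_pow, ← N4_pow, ← mul_pow]
    apply pow_le_pow_left₀ (N4_nonneg _)
    exact (N4_Av_le hℓN _).trans (hMB x)
  -- L2
  have L2 : ∑ n, ‖Y n‖ ^ 2 * ‖y n‖ ^ 2 ≤ ∑ n, ‖Y n‖ ^ 2 * ‖x n‖ ^ 2 + 3 * η * (N4 Y ^ 2 * N4 x ^ 2) := by
    have a1 : ∑ n, ‖Y n‖ ^ 2 * ‖y n‖ ^ 2 ≤ ∑ n, ‖Y n‖ ^ 2 * ‖(x + Kact2 κ x) n‖ ^ 2 := by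
      rw [hy, hTx]
      exact sum_Av_norm_pow hℓN ((hY.mono hℓ).comp fun z => ‖z‖ ^ 2) (fun _ => by positivity) _ 2
    have a2 : ∑ n, ‖Y n‖ ^ 2 * ‖(x + Kact2 κ x) n‖ ^ 2 = N2 (fun n => Y n * (x + Kact2 κ x) n) ^ 2 := by
      rw [N2_sq]; apply Finset.sum_congr rfl; intro n _; rw [norm_mul]; ring
    have a3 : ∑ n, ‖Y n‖ ^ 2 * ‖x n‖ ^ 2 = N2 (fun n => Y n * x n) ^ 2 := by
      rw [N2_sq]; apply Finset.sum_congr rfl; intro n _; rw [norm_mul]; ring
    have a4 : (fun n => Y n * (x + Kact2 κ x) n) = T (fun j : ZMod N => 1 + psym2 N κ j) (fun n => Y n * x n)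
        + (fun n => Y n * Kact2 κ x n - Kact2 κ (fun n => Y n * x n) n) := by
      rw [T_add_symb, T_one, T_psym2 hκ]
      funext n
      simp only [Pi.add_apply]; ring
    have a5 : N2 (fun n => Y n * (x + Kact2 κ x) n) ≤ N2 (fun n => Y n * x n) + η * (N4 Y * N4 x) := by
      rw [a4]
      refine (N2_add_le _ _).trans ?_
      have b1 := T_N2 (m := fun j : ZMod N => 1 + psym2 N κ j) zero_le_one hM2 (fun n => Y n * x n)
      have b2 := comm_N22 hℓ' hκ hY x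
      rw [one_mul] at b1
      exact add_le_add b1 b2
    have a6 : N2 (fun n => Y n * x n) ≤ N4 Y * N4 x := N2_mul_le _ _
    rw [a3]
    refine a1.trans ?_
    rw [a2]
    have n2 := N2_nonneg (fun n => Y n * x n)
    have n3 := N2_nonneg (fun n => Y n * (x + Kact2 κ x) n)
    have hP : 0 ≤ N4 Y * N4 x := by positivity
    calc N2 (fun n => Y n * (x + Kact2 κ x) n) ^ 2 ≤ (N2 (fun n => Y n * x n) + η * (N4 Y * N4 x)) ^ 2 := by gcongr
      _ = N2 (fun n => Y n * x n) ^ 2 + 2 * η * N2 (fun n => Y n * x n) * (N4 Y * N4 x)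
          + η * η * (N4 Y * N4 x) ^ 2 := by ring
      _ ≤ N2 (fun n => Y n * x n) ^ 2 + 2 * η * (N4 Y * N4 x) * (N4 Y * N4 x)
          + η * 1 * (N4 Y * N4 x) ^ 2 := by gcongr
      _ = _ := by ring
  -- L3
  have L3 : ∀ Z : ZMod N → ℂ, BC ℓ' Z → ∀ V : ZMod N → ℂ, BC ℓ' V →
      |∑ n, ‖Z n‖ ^ 2 * ((starRingEnd ℂ) (V n) * y n).re| ≤ 3 * η * (N4 Z * N4 Z * N4 V * N4 x) := by
    intro Z hZ V hV
    have c1 : ∑ n, (Z n * (starRingEnd ℂ) (Z n) * (starRingEnd ℂ) (V n)) * y n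
        = ∑ n, Z n * (starRingEnd ℂ) (Z n) * (starRingEnd ℂ) (V n) * Kact2 κ x n := by
      have hBC : BC ℓ' (fun n => Z n * (starRingEnd ℂ) (Z n) * (starRingEnd ℂ) (V n)) :=
        (hZ.mul (hZ.comp (starRingEnd ℂ))).mul (hV.comp (starRingEnd ℂ))
      rw [hy, sum_Av hℓN (hBC.mono hℓ) (T (fun j : ZMod N => 1 + psym2 N κ j) x), hTx]
      simp only [Pi.add_apply, mul_add]
      rw [Finset.sum_add_distrib, sum_mul_eq_zero hℓ' hBC hx, zero_add]
    have c2 := lin_term2 hℓ' hκ hZ (hZ.comp (starRingEnd ℂ)) (hV.comp (starRingEnd ℂ)) hx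
    rw [← c1] at c2
    have c3 : N4 (fun n => (starRingEnd ℂ) (Z n)) = N4 Z := N4_congr_norm fun n => Complex.norm_conj _
    have c4 : N4 (fun n => (starRingEnd ℂ) (V n)) = N4 V := N4_congr_norm fun n => Complex.norm_conj _
    rw [c3, c4] at c2
    refine le_trans ?_ c2
    refine le_trans (le_of_eq ?_) (Complex.abs_re_le_norm _)
    congr 1
    rw [Complex.re_sum]
    apply Finset.sum_congr rfl; intro n _
    have : Z n * (starRingEnd ℂ) (Z n) * (starRingEnd ℂ) (V n) * y n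
        = ((‖Z n‖ ^ 2 : ℝ) : ℂ) * ((starRingEnd ℂ) (V n) * y n) := by
      rw [Complex.mul_conj, Complex.normSq_eq_norm_sq]; ring
    rw [this, Complex.re_ofReal_mul]
  have Z1 := re_sum_zero hℓ' hX hX hx
  have Z2 := re_sum_zero hℓ' hX hY hx
  have L3a := L3 X hX Y hY
  have L3b := L3 Y hY Y hY
  have key : ∑ n, ((A - 288) / 8 * ‖x n‖ ^ 4 + 12 * (‖Y n‖ ^ 2 * ‖x n‖ ^ 2) - 11 * (‖Y n‖ ^ 2 * ‖y n‖ ^ 2)
      - 9 / 4 * ‖y n‖ ^ 4
      + (4 * A * (‖X n‖ ^ 2 * ((starRingEnd ℂ) (X n) * x n).re) + 24 * (‖X n‖ ^ 2 * ((starRingEnd ℂ) (Y n) * y n).re)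
        + 24 * (‖Y n‖ ^ 2 * ((starRingEnd ℂ) (X n) * x n).re) - 4 * (‖Y n‖ ^ 2 * ((starRingEnd ℂ) (Y n) * y n).re)))
      ≤ ∑ n, (WL A (X n + x n) (Y n + y n) - WL A (X n) (Y n)) :=
    Finset.sum_le_sum fun n _ => point_lyap A hA288 _ _ _ _
  simp only [Finset.sum_add_distrib, Finset.sum_sub_distrib, ← Finset.mul_sum] at key
  rw [Z1, Z2] at key
  have hS : 117 * η * (N4 X + N4 Y + N4 x) ^ 4 ≥ 24 * (3 * η * (N4 X * N4 X * N4 Y * N4 x))
      + 4 * (3 * η * (N4 Y * N4 Y * N4 Y * N4 x)) + 11 * (3 * η * (N4 Y ^ 2 * N4 x ^ 2)) := by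
    set S := N4 X + N4 Y + N4 x
    have s1 : N4 X ≤ S := by simp only [S]; linarith
    have s2 : N4 Y ≤ S := by simp only [S]; linarith
    have s3 : N4 x ≤ S := by simp only [S]; linarith
    have s0 : 0 ≤ S := by positivity
    calc 24 * (3 * η * (N4 X * N4 X * N4 Y * N4 x))
      + 4 * (3 * η * (N4 Y * N4 Y * N4 Y * N4 x)) + 11 * (3 * η * (N4 Y ^ 2 * N4 x ^ 2))
        ≤ 24 * (3 * η * (S * S * S * S))
      + 4 * (3 * η * (S * S * S * S)) + 11 * (3 * η * (S ^ 2 * S ^ 2)) := by gcongr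
      _ = 117 * η * S ^ 4 := by ring
      _ ≤ _ := le_rfl
  have hC4 : (A - 288) / 8 * ∑ n, ‖x n‖ ^ 4 - 9 / 4 * ∑ n, ‖y n‖ ^ 4 ≥ 0 := by
    rw [hA]
    have : 0 ≤ ∑ n, ‖x n‖ ^ 4 := by positivity
    nlinarith
  have habs1 := (abs_le.1 L3a)
  have habs2 := (abs_le.1 L3b)
  have hpos : 0 ≤ ∑ n, ‖Y n‖ ^ 2 * ‖x n‖ ^ 2 := by positivity
  linarith [habs1.1, habs1.2, habs2.1, habs2.2]

end Adapted

/-- TARGET: Gluing theorem for two-sided kernels -/
theorem gluing2 (C : ℝ) (hC : 1 ≤ C) : ∃ K ε₀ : ℝ, 0 < K ∧ 0 < ε₀ ∧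
    ∀ (N : ℕ) [NeZero N] (J : ℕ) (κ : ℕ → ℤ → ℂ) (ℓ : ℕ → ℕ) (δ ε : ℕ → ℝ),
      ℓ 0 = 1 → (∀ j < J, ℓ j ∣ ℓ (j + 1)) → ℓ J ∣ N →
      (∀ j < J, Summable fun m => ‖κ j m‖) → (∀ j < J, ∑' m, κ j m = 0) →
      (∀ j < J, ∀ i : ZMod N, ‖1 + psym2 N (κ j) i‖ ≤ 1) →
      (∀ j < J, MB C (fun i : ZMod N => 1 + psym2 N (κ j) i)) →
      (∀ j < J, MB (δ j) (fun i : ZMod N => (1 - E i) * psym2 N (κ j) i)) →
      (∀ j < J, MB (ε j) (fun i : ZMod N => (∏ i' ∈ range j, (1 + psym2 N (κ i') i) - 1) * psym2 N (κ j) i)) →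
      (∑ j ∈ range J, (ε j + 4 * ℓ j * δ j + eta2 (ℓ (j + 1)) (κ j)) ≤ ε₀) →
      (∀ j < J, 0 ≤ ε j) → (∀ j < J, 0 ≤ δ j) →
      MB K (fun i : ZMod N => ∏ j ∈ range J, (1 + psym2 N (κ j) i)) := by
  set A : ℝ := 288 + 18 * C ^ 4 with hA
  have hC0 : 0 ≤ C := by linarith
  have hApos : 288 ≤ A := by rw [hA]; nlinarith [pow_nonneg hC0 4]
  set K2 : ℝ := 4 * (A + 72) with hK2
  have hK2pos : 1 ≤ K2 := by rw [hK2]; linarith
  set ε₀ : ℝ := min 1 ((A + 72) / (117 * (3 + K2) ^ 4)) with hε₀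
  have hε₀pos : 0 < ε₀ := by rw [hε₀]; positivity
  refine ⟨K2 + 1, ε₀, by linarith, hε₀pos, ?_⟩
  intro N _ J κ ℓ δ ε hℓ0 hℓd hℓJ hκ hκ0 hM2 hMB hδ hε hsum hε0 hδ0
  intro f
  set φ := N4 f with hφ
  have hφ0 : 0 ≤ φ := N4_nonneg f
  -- notation
  set u : ℕ → ZMod N → ℂ := fun j i => 1 + psym2 N (κ j) i with hu
  set X : ℕ → ZMod N → ℂ := fun j => Av (ℓ j) f with hX
  set Y : ℕ → ZMod N → ℂ := fun j => X J + ∑ i ∈ Ico j J, Av (ℓ i) (T (u i) (X i - X (i + 1))) with hY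
  set η : ℕ → ℝ := fun j => eta2 (ℓ (j + 1)) (κ j) with hη
  have hη0 : ∀ j, 0 ≤ η j := fun j => eta2_nonneg _ _
  have hdvd : ∀ j ≤ J, ∀ k ≤ J, j ≤ k → ℓ j ∣ ℓ k := by
    intro j _ k hk hjk
    induction k, hjk using Nat.le_induction with
    | base => exact dvd_rfl
    | succ k hjk ih => exact (ih (by omega)).trans (hℓd k (by omega))
  have hdN : ∀ j ≤ J, ℓ j ∣ N := fun j hj => (hdvd j hj J le_rfl hj).trans hℓJ
  have hXN : ∀ j ≤ J, N4 (X j) ≤ φ := fun j hj => N4_Av_le (hdN j hj) f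
  have hXBC : ∀ j, BC (ℓ j) (X j) := fun j => Av_BC _ _
  have hxN : ∀ j < J, N4 (X j - X (j + 1)) ≤ 2 * φ := by
    intro j hj
    have := N4_sub_le (X j) (X (j + 1))
    linarith [hXN j hj.le, hXN (j + 1) hj]
  have hAvAv : ∀ j < J, Av (ℓ (j + 1)) (X j) = X (j + 1) := by
    intro j hj
    -- averaging twice
    funext n
    have hN : 0 < N := Nat.pos_of_ne_zero (NeZero.ne N)
    have hdj : ℓ (j + 1) ∣ N := hdN (j + 1) hj
    -- test against block-constant functions: use indicator of the block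
    classical
    set G : ZMod N → ℂ := fun m => if m.val / ℓ (j + 1) = n.val / ℓ (j + 1) then 1 else 0 with hG
    have hGBC : BC (ℓ (j + 1)) G := by
      intro a b hab; simp only [hG, hab]
    have e1 : ∑ m, G m * Av (ℓ (j + 1)) (X j) m = ∑ m, G m * X j m := sum_Av hdj hGBC (X j)
    have e2 : ∑ m, G m * X j m = ∑ m, G m * f m :=
      sum_Av (hdN j hj.le) (hGBC.mono (hℓd j hj)) f
    have e3 : ∑ m, G m * X (j + 1) m = ∑ m, G m * f m := sum_Av hdj hGBC f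
    have e4 : ∀ Z : ZMod N → ℂ, BC (ℓ (j + 1)) Z → ∑ m, G m * Z m = (∑ m, G m) * Z n := by
      intro Z hZ
      rw [Finset.sum_mul]
      apply Finset.sum_congr rfl; intro m _
      by_cases hm : m.val / ℓ (j + 1) = n.val / ℓ (j + 1)
      · rw [hZ m n hm]
      · simp [hG, hm]
    have e5 : (∑ m, G m) ≠ 0 := by
      have : (∑ m, G m) = ((Finset.univ.filter fun m : ZMod N => m.val / ℓ (j + 1) = n.val / ℓ (j + 1)).card : ℂ) := by
        simp [hG]
      rw [this]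
      have : n ∈ (Finset.univ.filter fun m : ZMod N => m.val / ℓ (j + 1) = n.val / ℓ (j + 1)) := by simp
      exact_mod_cast (Finset.card_pos.2 ⟨n, this⟩).ne'
    have e6 := e4 (Av (ℓ (j + 1)) (X j)) (Av_BC _ _)
    have e7 := e4 (X (j + 1)) (hXBC _)
    have : (∑ m, G m) * Av (ℓ (j + 1)) (X j) n = (∑ m, G m) * X (j + 1) n := by
      rw [← e6, ← e7, e1, e2, e3]
    exact mul_left_cancel₀ e5 this
  have hAvx : ∀ j < J, Av (ℓ (j + 1)) (X j - X (j + 1)) = 0 := by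
    intro j hj
    rw [Av_sub, hAvAv j hj, Av_fix (hdN (j + 1) hj) (hXBC (j + 1)), sub_self]
  have hYBC : ∀ j ≤ J, BC (ℓ j) (Y j) := by
    intro j hj
    have : ∀ s : Finset ℕ, (∀ i ∈ s, j ≤ i ∧ i < J) → BC (ℓ j) (∑ i ∈ s, Av (ℓ i) (T (u i) (X i - X (i + 1)))) := by
      intro s
      induction s using Finset.induction_on with
      | empty => intro _ a b _; simp
      | insert a s ha ih =>
        intro hs
        rw [Finset.sum_insert ha]
        have h1 := hs a (Finset.mem_insert_self _ _)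
        exact ((Av_BC _ _).mono (hdvd j hj a h1.2.le h1.1)).add (ih fun i hi => hs i (Finset.mem_insert_of_mem hi))
    exact ((hXBC J).mono (hdvd j hj J le_rfl hj)).add (this _ fun i hi => by simpa using hi)
  have hYrec : ∀ j < J, Y j = Y (j + 1) + Av (ℓ j) (T (u j) (X j - X (j + 1))) := by
    intro j hj
    simp only [hY]
    rw [Finset.sum_eq_sum_Ico_succ_bot hj]
    abel
  have hsumη : ∀ j ≤ J, ∑ i ∈ Ico j J, η i ≤ ε₀ := by
    intro j hj
    calc ∑ i ∈ Ico j J, η i ≤ ∑ i ∈ range J, η i := by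
          apply Finset.sum_le_sum_of_subset_of_nonneg
          · intro i hi; simp at hi ⊢; omega
          · intro i _ _; exact hη0 i
      _ ≤ ∑ j ∈ range J, (ε j + 4 * ℓ j * δ j + eta2 (ℓ (j + 1)) (κ j)) := by
          apply Finset.sum_le_sum; intro i hi
          have hi' : i < J := by simpa using hi
          have := hε0 i hi'
          have h2 := hδ0 i hi'
          have : 0 ≤ 4 * (ℓ i : ℝ) * δ i := by positivity
          simp only [hη]; linarith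
      _ ≤ ε₀ := hsum
  have hη1 : ∀ j < J, η j ≤ 1 := by
    intro j hj
    have h1 := hsumη j hj.le
    have h2 : η j ≤ ∑ i ∈ Ico j J, η i :=
      Finset.single_le_sum (f := η) (fun i _ => hη0 i) (by simp [hj])
    have h3 : ε₀ ≤ 1 := min_le_left _ _
    linarith
  -- from the Lyapunov bound to the norm bound
  have hnorm : ∀ j ≤ J, -(117 * (∑ i ∈ Ico j J, η i) * ((3 + K2) * φ) ^ 4) ≤ ∑ n, WL A (X j n) (Y j n) →
      N4 (Y j) ≤ K2 * φ := by
    intro j hj hW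
    have h1 : ∑ n, WL A (X j n) (Y j n) ≤ (A + 72) * N4 (X j) ^ 4 - 1 / 2 * N4 (Y j) ^ 4 := by
      rw [N4_pow, N4_pow, Finset.mul_sum, Finset.mul_sum, ← Finset.sum_sub_distrib]
      exact Finset.sum_le_sum fun n _ => WL_le _ _
    have h2 : N4 (X j) ^ 4 ≤ φ ^ 4 := pow_le_pow_left₀ (N4_nonneg _) (hXN j hj) 4
    have h3 : 117 * (∑ i ∈ Ico j J, η i) * ((3 + K2) * φ) ^ 4 ≤ (A + 72) * φ ^ 4 := by
      have h4 : ∑ i ∈ Ico j J, η i ≤ (A + 72) / (117 * (3 + K2) ^ 4) :=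
        (hsumη j hj).trans (min_le_right _ _)
      have h5 : 0 < 117 * (3 + K2) ^ 4 := by positivity
      rw [le_div_iff₀ h5] at h4
      calc 117 * (∑ i ∈ Ico j J, η i) * ((3 + K2) * φ) ^ 4
          = ((∑ i ∈ Ico j J, η i) * (117 * (3 + K2) ^ 4)) * φ ^ 4 := by ring
        _ ≤ _ := by gcongr
    have h6 : N4 (Y j) ^ 4 ≤ K2 * φ ^ 4 := by rw [hK2]; nlinarith
    apply le_of_pow_le_pow_left₀ (n := 4) (by norm_num) (by positivity)
    calc _ ≤ _ := h6
      _ ≤ K2 ^ 4 * φ ^ 4 := by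
        gcongr
        calc K2 = K2 * 1 := by ring
          _ ≤ K2 * K2 ^ 3 := by gcongr; exact one_le_pow₀ hK2pos
          _ = _ := by ring
      _ = _ := by ring
  have main : ∀ k ≤ J, -(117 * (∑ i ∈ Ico (J - k) J, η i) * ((3 + K2) * φ) ^ 4)
      ≤ ∑ n, WL A (X (J - k) n) (Y (J - k) n) := by
    intro k
    induction k with
    | zero =>
      intro _
      simp only [Nat.sub_zero, Finset.Ico_self, Finset.sum_empty, mul_zero, zero_mul, neg_zero]
      have : Y J = X J := by simp [hY]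
      rw [this]
      apply Finset.sum_nonneg; intro n _
      unfold WL
      nlinarith [pow_nonneg (norm_nonneg (X J n)) 4]
    | succ k ih =>
      intro hk
      have ih' := ih (by omega)
      set j := J - (k + 1) with hj
      have hjk : J - k = j + 1 := by omega
      have hjJ : j < J := by omega
      rw [hjk] at ih'
      have hYn := hnorm (j + 1) (by omega) ih'
      have step := lyap_step2 (hℓd j hjJ) (hdN (j + 1) hjJ) (hκ j hjJ) hC0 (hMB j hjJ) (hM2 j hjJ) hA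
        (hXBC (j + 1)) (hYBC (j + 1) hjJ) (hAvx j hjJ) (hη1 j hjJ)
      have e1 : ∀ n, X (j + 1) n + (X j - X (j + 1)) n = X j n := by intro n; simp
      have e2 : ∀ n, Y (j + 1) n + Av (ℓ j) (T (fun i : ZMod N => 1 + psym2 N (κ j) i) (X j - X (j + 1))) n = Y j n := by
        intro n; rw [hYrec j hjJ]; rfl
      simp only [e1, e2] at step
      have hS : (N4 (X (j + 1)) + N4 (Y (j + 1)) + N4 (X j - X (j + 1))) ^ 4 ≤ ((3 + K2) * φ) ^ 4 := by
        apply pow_le_pow_left₀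
        · have := N4_nonneg (X (j + 1)); have := N4_nonneg (Y (j + 1)); have := N4_nonneg (X j - X (j + 1))
          positivity
        · linarith [hXN (j + 1) hjJ, hxN j hjJ]
      have hηj := hη0 j
      rw [Finset.sum_eq_sum_Ico_succ_bot hjJ]
      have h7 : 117 * η j * (N4 (X (j + 1)) + N4 (Y (j + 1)) + N4 (X j - X (j + 1))) ^ 4
          ≤ 117 * η j * ((3 + K2) * φ) ^ 4 := by gcongr
      have h8 : 117 * eta2 (ℓ (j + 1)) (κ j) * (N4 (X (j + 1)) + N4 (Y (j + 1)) + N4 (X j - X (j + 1))) ^ 4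
          ≤ 117 * η j * ((3 + K2) * φ) ^ 4 := h7
      nlinarith
  have hY0 : N4 (Y 0) ≤ K2 * φ := by
    apply hnorm 0 (Nat.zero_le _)
    have := main J le_rfl
    simpa using this
  -- comparison of the product with `Y 0`
  have hX0 : X 0 = f := by
    apply Av_fix (by rw [hℓ0]; exact one_dvd _) 
    intro a b hab
    rw [hℓ0, Nat.div_one, Nat.div_one] at hab
    rw [ZMod.val_injective N hab]
  have hprod : ∀ J', (fun i : ZMod N => ∏ j ∈ range J', u j i) =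
      fun i => 1 + ∑ j ∈ range J', (psym2 N (κ j) i + (∏ i' ∈ range j, u i' i - 1) * psym2 N (κ j) i) := by
    intro J'
    funext i
    induction J' with
    | zero => simp
    | succ J' ih =>
      rw [Finset.prod_range_succ, Finset.sum_range_succ]
      have : ∏ j ∈ range J', u j i = 1 + ∑ j ∈ range J', (psym2 N (κ j) i + (∏ i' ∈ range j, u i' i - 1) * psym2 N (κ j) i) := ih
      rw [← add_assoc, ← this]
      simp only [hu]; ring
  have hTsum : ∀ J' (g : ℕ → ZMod N → ℂ) (h : ZMod N → ℂ), T (fun i => ∑ j ∈ range J', g j i) h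
      = ∑ j ∈ range J', T (g j) h := by
    intro J' g h
    induction J' with
    | zero =>
      have := T_smul_symb (N := N) 0 (fun _ => (1:ℂ)) h
      simpa using this
    | succ J' ih =>
      rw [Finset.sum_range_succ, ← ih, ← T_add_symb]
      congr 1; funext i; rw [Finset.sum_range_succ]
  have hTprod : T (fun i : ZMod N => ∏ j ∈ range J, u j i) f
      = f + ∑ j ∈ range J, (T (psym2 N (κ j)) f + T (fun i => (∏ i' ∈ range j, u i' i - 1) * psym2 N (κ j) i) f) := by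
    rw [hprod J, T_add_symb, T_one, hTsum]
    congr 1
    apply Finset.sum_congr rfl; intro j _
    rw [T_add_symb]
  have hY0eq : Y 0 = f + ∑ j ∈ range J, Av (ℓ j) (T (psym2 N (κ j)) (X j - X (j + 1))) := by
    simp only [hY]
    rw [← Finset.range_eq_Ico]
    have h1 : ∀ j ∈ range J, Av (ℓ j) (T (u j) (X j - X (j + 1))) =
        (X j - X (j + 1)) + Av (ℓ j) (T (psym2 N (κ j)) (X j - X (j + 1))) := by
      intro j hj
      have hj' : j < J := by simpa using hj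
      have : T (u j) (X j - X (j + 1)) = (X j - X (j + 1)) + T (psym2 N (κ j)) (X j - X (j + 1)) := by
        simp only [hu]; rw [T_add_symb, T_one]
      rw [this, Av_add, Av_fix (hdN j hj'.le)]
      exact (hXBC j).sub ((hXBC (j + 1)).mono (hℓd j hj'))
    rw [Finset.sum_congr rfl h1, Finset.sum_add_distrib, Finset.sum_range_sub', hX0]
    abel
  have hdiff : T (fun i : ZMod N => ∏ j ∈ range J, u j i) f - Y 0 = ∑ j ∈ range J,
      (T (fun i => (∏ i' ∈ range j, u i' i - 1) * psym2 N (κ j) i) f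
        + (T (psym2 N (κ j)) (f - X j) + T (psym2 N (κ j)) (X (j + 1))
          + (T (psym2 N (κ j)) (X j - X (j + 1)) - Av (ℓ j) (T (psym2 N (κ j)) (X j - X (j + 1)))))) := by
    rw [hTprod, hY0eq, add_sub_add_left_eq_sub, ← Finset.sum_sub_distrib]
    apply Finset.sum_congr rfl; intro j _
    rw [T_sub, T_sub]; abel
  have hterm : ∀ j < J, N4 (T (fun i => (∏ i' ∈ range j, u i' i - 1) * psym2 N (κ j) i) f
        + (T (psym2 N (κ j)) (f - X j) + T (psym2 N (κ j)) (X (j + 1))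
          + (T (psym2 N (κ j)) (X j - X (j + 1)) - Av (ℓ j) (T (psym2 N (κ j)) (X j - X (j + 1))))))
      ≤ (ε j + 4 * ℓ j * δ j + η j) * φ := by
    intro j hj
    have hδj := hδ0 j hj
    have t1 : N4 (T (fun i => (∏ i' ∈ range j, u i' i - 1) * psym2 N (κ j) i) f) ≤ ε j * φ := hε j hj f
    have t2 : N4 (T (psym2 N (κ j)) (f - X j)) ≤ 2 * ℓ j * δ j * φ := by
      obtain ⟨G, hG1, hG2⟩ := exists_primitive (hdN j hj.le) f
      have : T (psym2 N (κ j)) (f - X j) = T (fun i : ZMod N => (1 - E i) * psym2 N (κ j) i) G := by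
        have g1 : f - X j = T (fun i : ZMod N => 1 - E i) G := by
          have : (fun i : ZMod N => 1 - E i) = fun i => 1 + (-1) * E (i * 1) := by funext i; simp; ring
          rw [this, T_add_symb, T_one, T_smul_symb, T_trans]
          funext n
          have := hG1 n
          simp only [Pi.add_apply, Pi.smul_apply, Pi.sub_apply, smul_eq_mul]
          rw [this]; ring
        rw [g1, ← T_mul]
        congr 1; funext i; ring
      rw [this]
      calc _ ≤ δ j * N4 G := hδ j hj G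
        _ ≤ δ j * (2 * ℓ j * N4 f) := by gcongr
        _ = _ := by ring
    have t3 : N4 (T (psym2 N (κ j)) (X (j + 1))) ≤ η j * φ := by
      rw [T_psym2 (hκ j hj)]
      calc _ ≤ eta2 (ℓ (j + 1)) (κ j) * N4 (X (j + 1)) := Kact2_BC (hdN (j + 1) hj) (hκ j hj) (hκ0 j hj) (hXBC _)
        _ ≤ _ := by
          have := hη0 j
          exact mul_le_mul_of_nonneg_left (hXN (j + 1) hj) this
    have t4 : N4 (T (psym2 N (κ j)) (X j - X (j + 1)) - Av (ℓ j) (T (psym2 N (κ j)) (X j - X (j + 1))))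
        ≤ 2 * ℓ j * δ j * φ := by
      refine (N4_sub_Av_le (hdN j hj.le) _).trans ?_
      have : (fun n => T (psym2 N (κ j)) (X j - X (j + 1)) n - T (psym2 N (κ j)) (X j - X (j + 1)) (n - 1))
          = T (fun i : ZMod N => (1 - E i) * psym2 N (κ j) i) (X j - X (j + 1)) := by
        rw [T_mul]
        have : (fun i : ZMod N => 1 - E i) = fun i => 1 + (-1) * E (i * 1) := by funext i; simp; ring
        rw [this, T_add_symb, T_one, T_smul_symb, T_trans]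
        funext n
        simp only [Pi.add_apply, Pi.smul_apply, smul_eq_mul]; ring
      rw [this]
      calc _ ≤ (ℓ j : ℝ) * (δ j * N4 (X j - X (j + 1))) := by gcongr; exact hδ j hj _
        _ ≤ (ℓ j : ℝ) * (δ j * (2 * φ)) := by gcongr; exact hxN j hj
        _ = _ := by ring
    calc _ ≤ N4 (T (fun i => (∏ i' ∈ range j, u i' i - 1) * psym2 N (κ j) i) f)
        + (N4 (T (psym2 N (κ j)) (f - X j)) + N4 (T (psym2 N (κ j)) (X (j + 1)))
          + N4 (T (psym2 N (κ j)) (X j - X (j + 1)) - Av (ℓ j) (T (psym2 N (κ j)) (X j - X (j + 1))))) := by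
          refine (N4_add_le _ _).trans ?_
          gcongr
          refine (N4_add_le _ _).trans ?_
          gcongr
          exact N4_add_le _ _
      _ ≤ ε j * φ + (2 * ℓ j * δ j * φ + η j * φ + 2 * ℓ j * δ j * φ) := by gcongr
      _ = _ := by ring
  have hfin : N4 (T (fun i : ZMod N => ∏ j ∈ range J, u j i) f - Y 0) ≤ ε₀ * φ := by
    rw [hdiff]
    calc _ ≤ _ := N4_sum_le _ _
      _ ≤ ∑ j ∈ range J, (ε j + 4 * ℓ j * δ j + η j) * φ :=
          Finset.sum_le_sum fun j hj => hterm j (by simpa using hj)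
      _ = (∑ j ∈ range J, (ε j + 4 * ℓ j * δ j + η j)) * φ := by rw [Finset.sum_mul]
      _ ≤ ε₀ * φ := by gcongr
  calc N4 (T (fun i : ZMod N => ∏ j ∈ range J, u j i) f)
      = N4 ((T (fun i : ZMod N => ∏ j ∈ range J, u j i) f - Y 0) + Y 0) := by congr 1; abel
    _ ≤ _ := N4_add_le _ _
    _ ≤ ε₀ * φ + K2 * φ := add_le_add hfin hY0
    _ ≤ 1 * φ + K2 * φ := by gcongr; exact min_le_left _ _
    _ = _ := by ring

end IM
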