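import Mathlib
set_option autoImplicit false
open Finset Metric

/-- `I` is (on the unit disc) a Blaschke product: `c * z^k * ∏ (|a|/a) (a - z)/(1 - conj a z)` with
`|c| = 1`, `0 < |a_i| < 1` and `∑ (1 - |a_i|) < ∞` (finite or infinite index type). -/
def IsBlaschke (I : ℂ → ℂ) : Prop :=
  ∃ (ι : Type) (a : ι → ℂ) (c : ℂ) (k : ℕ) (P : ℂ → ℂ), ‖c‖ = 1 ∧ (∀ i, 0 < ‖a i‖ ∧ ‖a i‖ < 1) ∧
    Summable (fun i => 1 - ‖a i‖) ∧
    (∀ z ∈ ball (0 : ℂ) 1, HasProd (fun i => ((‖a i‖ : ℂ) / a i) * ((a i - z) / (1 - (starRingEnd ℂ) (a i) * z))) (P z)) ∧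
    ∀ z ∈ ball (0 : ℂ) 1, I z = c * z ^ k * P z

namespace J1639

open Filter Topology

noncomputable def bl (a z : ℂ) : ℂ := ((‖a‖ : ℂ) / a) * ((a - z) / (1 - (starRingEnd ℂ) a * z))

theorem den_ne_1639 {a z : ℂ} (ha : ‖a‖ < 1) (hz : ‖z‖ ≤ 1) : 1 - (starRingEnd ℂ) a * z ≠ 0 := by
  intro h
  have h1 : (starRingEnd ℂ) a * z = 1 := by linear_combination -h
  have h2 : ‖(starRingEnd ℂ) a * z‖ = 1 := by rw [h1]; simp
  rw [norm_mul, RCLike.norm_conj] at h2
  have : ‖a‖ * ‖z‖ ≤ ‖a‖ * 1 := mul_le_mul_of_nonneg_left hz (norm_nonneg _)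
  linarith

theorem bl_sub_one {a z : ℂ} (ha0 : 0 < ‖a‖) (ha : ‖a‖ < 1) (hz : ‖z‖ ≤ 1) :
    bl a z - 1 = -((1 - ‖a‖ : ℝ) : ℂ) * (1 + ((‖a‖ : ℂ) / a) * z) / (1 - (starRingEnd ℂ) a * z) := by
  have hd := den_ne_1639 ha hz
  have ha' : a ≠ 0 := norm_pos_iff.mp ha0
  have hc : (starRingEnd ℂ) a = (‖a‖ : ℂ) * ((‖a‖ : ℂ) / a) := by
    have h1 : (starRingEnd ℂ) a * a = ((‖a‖ : ℂ)) ^ 2 := by
      rw [mul_comm, Complex.mul_conj, Complex.normSq_eq_norm_sq]; push_cast; ring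
    field_simp
    linear_combination h1
  unfold bl
  rw [eq_div_iff hd]
  rw [sub_mul, mul_assoc, div_mul_cancel₀ _ hd, one_mul]
  have h2 : (‖a‖ : ℂ) / a * (a - z) = ‖a‖ - (‖a‖ : ℂ) / a * z := by
    field_simp
  rw [h2]
  conv_lhs => rw [hc]
  push_cast
  ring

theorem norm_bl_sub_one {a z : ℂ} {r : ℝ} (ha0 : 0 < ‖a‖) (ha : ‖a‖ < 1) (hr : r < 1) (hz : ‖z‖ ≤ r) :
    ‖bl a z - 1‖ ≤ (1 - ‖a‖) * (2 / (1 - r)) := by
  have hz1 : ‖z‖ ≤ 1 := by linarith
  rw [bl_sub_one ha0 ha hz1]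
  rw [norm_div, norm_mul, norm_neg, Complex.norm_real, Real.norm_of_nonneg (by linarith)]
  rw [mul_div_assoc]
  apply mul_le_mul_of_nonneg_left _ (by linarith)
  have h1 : ‖1 + ((‖a‖ : ℂ) / a) * z‖ ≤ 2 := by
    calc ‖1 + ((‖a‖ : ℂ) / a) * z‖ ≤ ‖(1 : ℂ)‖ + ‖((‖a‖ : ℂ) / a) * z‖ := norm_add_le _ _
      _ = 1 + ‖z‖ := by
        rw [norm_mul, norm_div, Complex.norm_real, norm_norm, div_self (ne_of_gt ha0)]; simp
      _ ≤ 2 := by linarith
  have h2 : 1 - r ≤ ‖1 - (starRingEnd ℂ) a * z‖ := by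
    calc 1 - r ≤ 1 - ‖(starRingEnd ℂ) a * z‖ := by
          rw [norm_mul, RCLike.norm_conj]
          have : ‖a‖ * ‖z‖ ≤ 1 * r := mul_le_mul ha.le hz (norm_nonneg _) (by norm_num)
          linarith
      _ = ‖(1 : ℂ)‖ - ‖(starRingEnd ℂ) a * z‖ := by simp
      _ ≤ _ := norm_sub_norm_le _ _
  exact div_le_div₀ (by norm_num) h1 (by linarith) h2

theorem continuousOn_bl {a : ℂ} (ha : ‖a‖ < 1) : ContinuousOn (bl a) (closedBall 0 1) := by
  unfold bl
  apply ContinuousOn.mul continuousOn_const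
  apply ContinuousOn.div (by fun_prop) (by fun_prop)
  intro z hz
  exact den_ne_1639 ha (by simpa using hz)

theorem differentiableOn_bl {a : ℂ} (ha : ‖a‖ < 1) : DifferentiableOn ℂ (bl a) (ball 0 1) := by
  unfold bl
  apply DifferentiableOn.mul (differentiableOn_const _)
  apply DifferentiableOn.div (by fun_prop) (by fun_prop)
  intro z hz
  exact den_ne_1639 ha (by simp at hz; exact hz.le)

theorem norm_bl_sphere {a z : ℂ} (ha0 : 0 < ‖a‖) (ha : ‖a‖ < 1) (hz : ‖z‖ = 1) : ‖bl a z‖ = 1 := by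
  unfold bl
  have hd := den_ne_1639 ha hz.le
  rw [norm_mul, norm_div, norm_div, Complex.norm_real, norm_norm, div_self (ne_of_gt ha0), one_mul]
  rw [div_eq_one_iff_eq (by simpa using hd)]
  have h1 : (starRingEnd ℂ) z * z = 1 := by
    rw [mul_comm, Complex.mul_conj, Complex.normSq_eq_norm_sq, hz]; simp
  have h2 : 1 - (starRingEnd ℂ) a * z = (starRingEnd ℂ) (z - a) * z := by
    rw [map_sub]; linear_combination -h1
  rw [h2, norm_mul, RCLike.norm_conj, hz, mul_one, norm_sub_rev]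

/-- the remaining product is analytic -/
theorem rest_diff {ι : Type} (a : ι → ℂ) (ha : ∀ i, 0 < ‖a i‖ ∧ ‖a i‖ < 1)
    (hs : Summable (fun i => 1 - ‖a i‖)) :
    ∃ R : ℂ → ℂ, DifferentiableOn ℂ R (ball 0 1) ∧ ∀ z ∈ ball (0 : ℂ) 1, HasProd (fun i => bl (a i) z) (R z) := by
  refine ⟨fun z => ∏' i, (1 + (bl (a i) z - 1)), ?_, ?_⟩
  · have hL : HasProdLocallyUniformlyOn (fun i z => 1 + (bl (a i) z - 1))
        (fun z => ∏' i, (1 + (bl (a i) z - 1))) (ball (0 : ℂ) 1) := by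
      apply hasProdLocallyUniformlyOn_of_of_forall_exists_nhds
      intro x hx
      have hx1 : ‖x‖ < 1 := by simpa using hx
      refine ⟨closedBall 0 ((1 + ‖x‖) / 2), ?_, ?_⟩
      · apply mem_nhdsWithin_of_mem_nhds
        apply closedBall_mem_nhds_of_mem
        simp
        linarith
      · apply Summable.hasProdUniformlyOn_one_add (isCompact_closedBall _ _) (hs.mul_right (2 / (1 - (1 + ‖x‖) / 2)))
        · apply Filter.Eventually.of_forall
          intro i z hz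
          exact norm_bl_sub_one (ha i).1 (ha i).2 (by linarith) (by simpa using hz)
        · intro i
          apply ContinuousOn.sub _ continuousOn_const
          apply (continuousOn_bl (ha i).2).mono
          apply closedBall_subset_closedBall
          linarith
    apply TendstoLocallyUniformlyOn.differentiableOn (hasProdLocallyUniformlyOn_iff_tendstoLocallyUniformlyOn.mp hL) _ isOpen_ball
    apply Filter.Eventually.of_forall
    intro s
    apply DifferentiableOn.fun_finsetProd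
    intro i _
    have := differentiableOn_bl (ha i).2
    simpa using this
  · intro z hz
    have hz1 : ‖z‖ < 1 := by simpa using hz
    have : Multipliable (fun i => 1 + (bl (a i) z - 1)) := by
      apply multipliable_one_add_of_summable
      apply Summable.of_nonneg_of_le (fun _ => norm_nonneg _) _ (hs.mul_right (2 / (1 - ‖z‖)))
      intro i
      exact norm_bl_sub_one (ha i).1 (ha i).2 hz1 le_rfl
    have h := this.hasProd
    simpa using h

theorem re_pos {z : ℂ} (hz : ‖z‖ < 1) : 0 < ((1 + z) / (1 - z)).re := by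
  have h1 : (1 - z) ≠ 0 := by
    intro h
    have : z = 1 := by linear_combination -h
    rw [this] at hz
    simp at hz
  have h2 : 0 < Complex.normSq (1 - z) := Complex.normSq_pos.mpr h1
  have h3 : Complex.normSq z < 1 := by
    rw [Complex.normSq_eq_norm_sq]
    nlinarith [norm_nonneg z]
  rw [Complex.div_re]
  rw [← add_div]
  apply div_pos _ h2
  simp [Complex.normSq_apply] at h3 ⊢
  nlinarith

theorem key {ι : Type} (a : ι → ℂ) (ha : ∀ i, 0 < ‖a i‖ ∧ ‖a i‖ < 1)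
    (hs : Summable (fun i => 1 - ‖a i‖)) (P B : ℂ → ℂ) (k : ℕ) (c : ℂ) (hc : ‖c‖ = 1)
    (hP : ∀ z ∈ ball (0 : ℂ) 1, HasProd (fun i => bl (a i) z) (P z))
    (hB1 : ∀ z ∈ ball (0 : ℂ) 1, ‖B z‖ ≤ 1)
    (hI : ∀ z ∈ ball (0 : ℂ) 1, Complex.exp (-((1 + z) / (1 - z))) * B z = c * z ^ k * P z)
    (s : Finset ι) (z0 : ℂ) (hz0 : z0 ∈ ball (0 : ℂ) 1) :
    ‖B z0‖ ≤ ‖z0‖ ^ k * ∏ i ∈ s, ‖bl (a i) z0‖ := by
  classical
  obtain ⟨R, hRd, hR⟩ := rest_diff (fun i : ((↑s : Set ι)ᶜ : Set ι) => a i) (fun i => ha i)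
    (hs.comp_injective Subtype.val_injective)
  set F : ℂ → ℂ := fun z => z ^ k * ∏ i ∈ s, bl (a i) z with hF
  set G : ℂ → ℂ := fun z => c * R z * Complex.exp ((1 + z) / (1 - z)) with hG
  have hPR : ∀ z ∈ ball (0 : ℂ) 1, P z = (∏ i ∈ s, bl (a i) z) * R z := by
    intro z hz
    have h1 := Finset.hasProd s (fun i => bl (a i) z)
    have h2 := HasProd.mul_compl (s := (↑s : Set ι)) (f := fun i => bl (a i) z) h1 (hR z hz)
    exact (hP z hz).unique h2
  have hBF : ∀ z ∈ ball (0 : ℂ) 1, B z = F z * G z := by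
    intro z hz
    have h1 := hI z hz
    rw [hPR z hz] at h1
    have h2 : Complex.exp ((1 + z) / (1 - z)) * Complex.exp (-((1 + z) / (1 - z))) = 1 := by
      rw [← Complex.exp_add]; simp
    calc B z = (Complex.exp ((1 + z) / (1 - z)) * Complex.exp (-((1 + z) / (1 - z)))) * B z := by rw [h2, one_mul]
      _ = Complex.exp ((1 + z) / (1 - z)) * (Complex.exp (-((1 + z) / (1 - z))) * B z) := by ring
      _ = _ := by rw [h1, hF, hG]; ring
  have hGd : DifferentiableOn ℂ G (ball 0 1) := by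
    apply DifferentiableOn.mul (hRd.const_mul c)
    apply DifferentiableOn.cexp
    apply DifferentiableOn.div (by fun_prop) (by fun_prop)
    intro z hz h
    have : z = 1 := by linear_combination -h
    rw [this] at hz
    simp at hz
  have hFc : ContinuousOn F (closedBall 0 1) := by
    apply ContinuousOn.mul (by fun_prop)
    apply continuousOn_finsetProd
    intro i _
    exact continuousOn_bl (ha i).2
  have hF1 : ∀ z, ‖z‖ = 1 → ‖F z‖ = 1 := by
    intro z hz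
    simp only [hF, norm_mul, norm_pow, hz, one_pow, one_mul, norm_prod]
    apply Finset.prod_eq_one
    intro i _
    exact norm_bl_sphere (ha i).1 (ha i).2 hz
  have hz01 : ‖z0‖ < 1 := by simpa using hz0
  have hG1 : ‖G z0‖ ≤ 1 := by
    by_contra hcon
    push Not at hcon
    -- choose ε with (1-ε)⁻¹ < ‖G z0‖
    set t : ℝ := ‖G z0‖⁻¹ with ht
    have ht1 : t < 1 := inv_lt_one_of_one_lt₀ hcon
    have ht0 : 0 < t := by positivity
    -- compact set where ‖F‖ ≤ t
    let K : Set ℂ := closedBall 0 1 ∩ {z | ‖F z‖ ≤ t}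
    have hKc : IsCompact K := by
      have : IsClosed K := by
        have := hFc.norm.preimage_isClosed_of_isClosed isClosed_closedBall (isClosed_Iic (a := t))
        exact this
      exact (isCompact_closedBall (0:ℂ) 1).of_isClosed_subset this Set.inter_subset_left
    have hex : ∃ ρ : ℝ, ρ < 1 ∧ ∀ z ∈ K, ‖z‖ ≤ ρ := by
      rcases K.eq_empty_or_nonempty with hK | hK
      · exact ⟨0, by norm_num, by simp [hK]⟩
      · obtain ⟨w, hw, hwm⟩ := hKc.exists_isMaxOn hK continuous_norm.continuousOn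
        refine ⟨‖w‖, ?_, fun z hz => hwm hz⟩
        have h1 : ‖w‖ ≤ 1 := by simpa using hw.1
        rcases h1.lt_or_eq with h | h
        · exact h
        · exfalso
          have h2 := hF1 w h
          have h3 : ‖F w‖ ≤ t := hw.2
          linarith
    obtain ⟨ρ, hρ, hρK⟩ := hex
    obtain ⟨r, hr1, hr2⟩ := exists_between (max_lt hρ hz01)
    have hr3 : ρ < r := lt_of_le_of_lt (le_max_left _ _) hr1
    have hr4 : ‖z0‖ < r := lt_of_le_of_lt (le_max_right _ _) hr1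
    have hr0 : 0 < r := lt_of_le_of_lt (norm_nonneg _) hr4
    -- on the sphere of radius r, ‖G‖ ≤ C < ‖G z0‖
    have hsph : ∀ z ∈ sphere (0 : ℂ) r, ‖G z‖ < ‖G z0‖ := by
      intro z hz
      have hz' : ‖z‖ = r := by simpa using hz
      have hFt : t < ‖F z‖ := by
        by_contra h
        push Not at h
        have := hρK z ⟨by simp [hz']; exact hr2.le, h⟩
        linarith
      have hb := hBF z (by simp [hz']; exact hr2)
      have hb2 : ‖F z‖ * ‖G z‖ ≤ 1 := by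
        rw [← norm_mul, ← hb]
        exact hB1 z (by simp [hz']; exact hr2)
      have hG0 : 0 < ‖G z0‖ := by linarith
      by_contra h
      push Not at h
      have : t * ‖G z0‖ = 1 := by rw [ht]; field_simp
      have h5 : t * ‖G z0‖ < ‖F z‖ * ‖G z‖ := by
        apply mul_lt_mul hFt h hG0 (norm_nonneg _)
      linarith
    -- max over sphere
    obtain ⟨w, hw, hwm⟩ := (isCompact_sphere (0 : ℂ) r).exists_isMaxOn
      (NormedSpace.sphere_nonempty.mpr hr0.le)
      ((hGd.continuousOn.mono (fun z hz => by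
        have : ‖z‖ = r := by simpa using hz
        simp [this]; exact hr2)).norm)
    have hmax : ‖G z0‖ ≤ ‖G w‖ := by
      apply Complex.norm_le_of_forall_mem_frontier_norm_le (U := ball (0 : ℂ) r) isBounded_ball
      · apply DiffContOnCl.mk_ball
        · exact hGd.mono (ball_subset_ball hr2.le)
        · exact hGd.continuousOn.mono (closedBall_subset_ball hr2)
      · intro z hz
        rw [frontier_ball _ (ne_of_gt hr0)] at hz
        exact hwm hz
      · rw [closure_ball _ (ne_of_gt hr0)]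
        simp; exact hr4.le
    exact absurd (hsph w hw) (not_lt.mpr hmax)
  calc ‖B z0‖ = ‖F z0‖ * ‖G z0‖ := by rw [hBF z0 hz0, norm_mul]
    _ ≤ ‖F z0‖ * 1 := mul_le_mul_of_nonneg_left hG1 (norm_nonneg _)
    _ = _ := by simp [hF, norm_mul, norm_pow, norm_prod]

end J1639

/-- TARGET -/
theorem not_blaschke (I B : ℂ → ℂ) (hB : DifferentiableOn ℂ B (ball 0 1)) (hB1 : ∀ z ∈ ball (0 : ℂ) 1, ‖B z‖ ≤ 1)
    (hI : ∀ z ∈ ball (0 : ℂ) 1, I z = Complex.exp (-((1 + z) / (1 - z))) * B z)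
    (hne : ∃ z ∈ ball (0 : ℂ) 1, B z ≠ 0) : ¬ IsBlaschke I := by
  rintro ⟨ι, a, c, k, P, hc, ha, hs, hP, hIP⟩
  obtain ⟨z0, hz0, hBz⟩ := hne
  have hkey : ∀ s : Finset ι, ‖B z0‖ ≤ ‖z0‖ ^ k * ∏ i ∈ s, ‖J1639.bl (a i) z0‖ := by
    intro s
    apply J1639.key a ha hs P B k c hc hP hB1 _ s z0 hz0
    intro z hz
    rw [← hI z hz, hIP z hz]
  have hlim : Filter.Tendsto (fun s : Finset ι => ‖z0‖ ^ k * ∏ i ∈ s, ‖J1639.bl (a i) z0‖) Filter.atTop
      (nhds (‖z0‖ ^ k * ‖P z0‖)) := by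
    apply Filter.Tendsto.const_mul
    have h1 : Filter.Tendsto (fun s : Finset ι => ∏ i ∈ s, J1639.bl (a i) z0) Filter.atTop (nhds (P z0)) := hP z0 hz0
    have h2 := h1.norm
    simpa only [norm_prod] using h2
  have hle : ‖B z0‖ ≤ ‖z0‖ ^ k * ‖P z0‖ := ge_of_tendsto' hlim hkey
  have h3 : ‖I z0‖ = ‖z0‖ ^ k * ‖P z0‖ := by
    rw [hIP z0 hz0, norm_mul, norm_mul, hc, one_mul, norm_pow]
  have h4 : ‖I z0‖ = Real.exp (-((1 + z0) / (1 - z0)).re) * ‖B z0‖ := by
    rw [hI z0 hz0, norm_mul, Complex.norm_exp, Complex.neg_re]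
  have h5 : 0 < ((1 + z0) / (1 - z0)).re := J1639.re_pos (by simpa using hz0)
  have h6 : Real.exp (-((1 + z0) / (1 - z0)).re) < 1 := by
    rw [Real.exp_lt_one_iff]; linarith
  have h7 : 0 < ‖B z0‖ := norm_pos_iff.mpr hBz
  nlinarith
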