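import Pool.Agent.Helper859.VG.JA
import Pool.Agent.MP58366f.Base
import Pool.Agent.MP58366f.Fin1
set_option autoImplicit false
set_option linter.unusedSectionVars false
open Finset

namespace VG

lemma E_zpow' {N : ℕ} [NeZero N] (j : ZMod N) (n : ℤ) : IM.E (j * (n : ZMod N)) = IM.E j ^ n := by
  have h := AddChar.map_zsmul_eq_zpow (ZMod.stdAddChar (N := N)) n j
  rw [zsmul_eq_mul] at h
  unfold IM.E
  rw [mul_comm]
  exact h

lemma TN0_iff {c : ℝ} {f : ℂ → ℂ} (h : TN 0 c f) : ∃ k : ℤ → ℂ, Summable (fun n : ℤ => ‖k n‖) ∧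
    ∑' n : ℤ, ‖k n‖ ≤ c ∧ ∀ z : ℂ, ‖z‖ = 1 → f z = ∑' n : ℤ, k n * z ^ n := by
  obtain ⟨k, h1, h2, h3⟩ := h
  simp only [pow_zero, mul_one] at h1 h2
  exact ⟨k, h1, h2, h3⟩

lemma norm_term {k : ℤ → ℂ} {z : ℂ} (hz : ‖z‖ = 1) (n : ℤ) : ‖k n * z ^ n‖ = ‖k n‖ := by
  rw [norm_mul, norm_zpow, hz, one_zpow, mul_one]

lemma summ_term {k : ℤ → ℂ} (hk : Summable fun n => ‖k n‖) {z : ℂ} (hz : ‖z‖ = 1) :
    Summable fun n : ℤ => k n * z ^ n := by
  apply Summable.of_norm
  simp_rw [norm_term hz]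
  exact hk

/-! TARGETS -/
theorem MB_of_TN {c : ℝ} {f : ℂ → ℂ} (h : TN 0 c f) (N : ℕ) [NeZero N] :
    IM.MB c (fun j : ZMod N => f (IM.E j)) := by
  obtain ⟨k, hk, hkc, hf⟩ := TN0_iff h
  have hmono : Filter.Tendsto (fun M : ℕ => Finset.Icc (-(M : ℤ)) M) Filter.atTop Filter.atTop := by
    apply Filter.tendsto_atTop_finset_of_monotone
    · intro a b hab
      apply Finset.Icc_subset_Icc
      · simpa using hab
      · exact_mod_cast hab
    · intro x
      refine ⟨x.natAbs, ?_⟩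
      rw [Finset.mem_Icc]
      omega
  apply IM.MB.lim (m := fun M (j : ZMod N) => ∑ n ∈ Finset.Icc (-(M : ℤ)) M, k n * IM.E j ^ n)
  · intro M
    have h1 := IM.MB.sum (N := N) (Finset.Icc (-(M : ℤ)) M) (fun n => ‖k n‖ * 1)
      (fun n j => k n * IM.E (j * (n : ZMod N))) (fun n _ => (IM.MB.trans (N := N) (n : ZMod N)).smul (k n))
    refine (h1.mono ?_).congr fun j => ?_
    · simp only [mul_one]
      exact (hk.sum_le_tsum _ (fun _ _ => norm_nonneg _)).trans hkc
    · apply Finset.sum_congr rfl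
      intro n _
      rw [E_zpow']
  · intro j
    rw [hf _ (IM.E_norm j)]
    exact (summ_term hk (IM.E_norm j)).hasSum.comp hmono

lemma MB_zpow_sub {N : ℕ} [NeZero N] {μ : ℝ} {s : ZMod N → ℂ}
    (h : IM.MB μ (fun i => (1 - IM.E i) * s i)) (n : ℤ) :
    IM.MB (|(n : ℝ)| * μ) (fun i : ZMod N => (IM.E i ^ n - 1) * s i) := by
  rcases le_total 0 n with hn | hn
  · obtain ⟨m, rfl⟩ := Int.eq_ofNat_of_zero_le hn
    have := IM.MB_pow_sub h m
    simpa using this
  · obtain ⟨m, hm⟩ := Int.eq_ofNat_of_zero_le (neg_nonneg.mpr hn)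
    have hn' : n = -(m : ℤ) := by omega
    subst hn'
    have h1 := IM.MB_pow_sub h m
    have h2 := ((IM.MB.trans (N := N) ((-(m : ℤ) : ℤ) : ZMod N)).mul zero_le_one h1).smul (-1)
    refine (h2.mono ?_).congr fun j => ?_
    · simp
    · rw [E_zpow', zpow_neg, zpow_natCast]
      have : IM.E j ^ m ≠ 0 := by
        apply pow_ne_zero
        rw [← norm_ne_zero_iff, IM.E_norm]; norm_num
      field_simp
      ring

theorem lemS2 {C : ℝ} (hC : 1 ≤ C) {B : ℂ → ℂ} {c : ℝ} (hB : TN 0 c B) (hB1 : B 1 = 1) {e : ℝ} (he : 0 < e) :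
    ∃ μ0 : ℝ, 0 < μ0 ∧ ∀ μ : ℝ, 0 < μ → μ ≤ μ0 → ∀ (u : ℂ → ℂ) (N : ℕ) [NeZero N],
      IM.MB C (fun i : ZMod N => u (IM.E i)) → IM.MB μ (fun i : ZMod N => (1 - IM.E i) * (u (IM.E i) - 1)) →
      IM.MB e (fun i : ZMod N => (B (IM.E i) - 1) * (u (IM.E i) - 1)) := by
  classical
  obtain ⟨b, hb, -, hbB⟩ := TN0_iff hB
  have hbs : Summable b := hb.of_norm
  have hsum1 : ∑' m, b m = 1 := by
    have := hbB 1 (by simp)
    simp only [one_zpow, mul_one] at this
    rw [← this, hB1]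
  -- tail
  have htail := tendsto_tsum_compl_atTop_zero (fun n : ℤ => ‖b n‖)
  obtain ⟨S, hS⟩ := Filter.eventually_atTop.1
    (htail.eventually (eventually_le_nhds (by positivity : 0 < e / (4 * (C + 1)))))
  have hS' := hS S le_rfl
  set D : ℝ := ∑ n ∈ S, ‖b n‖ * |(n : ℝ)| with hD
  have hD0 : 0 ≤ D := by positivity
  refine ⟨e / (2 * (D + 1)), by positivity, ?_⟩
  intro μ hμ hμ0 u N _ hmbu hsmall
  set r : ℤ → ℂ := fun n => if n ∈ S then 0 else b n with hr
  have hrn : Summable fun n => ‖r n‖ := by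
    apply Summable.of_nonneg_of_le (fun _ => norm_nonneg _) (fun n => ?_) hb
    simp only [hr]
    split_ifs
    · simp
    · exact le_rfl
  set τ := ∑' n, ‖r n‖ with hτ
  have hτ0 : 0 ≤ τ := tsum_nonneg fun _ => norm_nonneg _
  have hτS : τ ≤ e / (4 * (C + 1)) := by
    refine le_trans (le_of_eq ?_) hS'
    rw [hτ]
    rw [← tsum_subtype_eq_of_support_subset (s := {x | x ∉ S})]
    · apply tsum_congr
      rintro ⟨n, hn⟩
      have hn' : n ∉ S := hn
      simp [hr, hn']
    · intro n hn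
      simp only [hr, Function.mem_support] at hn
      by_contra hcon
      have hn' : n ∈ S := by simpa using hcon
      simp [hn'] at hn
  set R : ℂ → ℂ := fun z => ∑' n, r n * z ^ n with hR
  have hRTN : TN 0 τ R := ⟨r, by simpa using hrn, by simp [hτ], fun z _ => rfl⟩
  have hsplit : ∀ z : ℂ, ‖z‖ = 1 → ∑' n, b n * z ^ n = ∑ n ∈ S, b n * z ^ n + R z := by
    intro z hz
    have h1 := summ_term hb hz
    have h2 := summ_term hrn hz
    have h3 : Summable fun n : ℤ => (if n ∈ S then b n else 0) * z ^ n := by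
      apply summable_of_finite_support
      apply (Finset.finite_toSet S).subset
      intro n hn
      simp only [Function.mem_support] at hn
      by_contra hcon
      have : n ∉ S := by simpa using hcon
      simp [this] at hn
    have h4 : ∑' n, b n * z ^ n = ∑' n, ((if n ∈ S then b n else 0) * z ^ n + r n * z ^ n) := by
      apply tsum_congr
      intro n
      simp only [hr]
      split_ifs <;> simp
    rw [h4, h3.tsum_add h2]
    congr 1
    rw [tsum_eq_sum (s := S)]
    · apply Finset.sum_congr rfl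
      intro n hn
      simp [hn]
    · intro n hn
      simp [hn]
  have hdec : ∀ z : ℂ, ‖z‖ = 1 → B z - 1 = ∑ n ∈ S, b n * (z ^ n - 1) + (R z - R 1) := by
    intro z hz
    have e1 := hsplit z hz
    have e2 := hsplit 1 (by simp)
    simp only [one_zpow, mul_one] at e2
    rw [hsum1] at e2
    rw [hbB z hz, e1]
    conv_lhs => rw [e2]
    simp only [mul_sub, mul_one, Finset.sum_sub_distrib]
    ring
  have hMBκ : IM.MB (C + 1) (fun i : ZMod N => u (IM.E i) - 1) := by
    have h1 := hmbu.add (IM.MB.const (N := N) (-1 : ℂ))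
    refine (h1.mono (by simp)).congr fun j => by ring
  have h1 : IM.MB (D * μ) (fun i : ZMod N => ∑ n ∈ S, b n * ((IM.E i ^ n - 1) * (u (IM.E i) - 1))) := by
    have := IM.MB.sum S (fun n => ‖b n‖ * (|(n : ℝ)| * μ))
      (fun n (i : ZMod N) => b n * ((IM.E i ^ n - 1) * (u (IM.E i) - 1)))
      (fun n _ => (MB_zpow_sub hsmall n).smul (b n))
    refine this.mono (le_of_eq ?_)
    rw [hD, Finset.sum_mul]
    apply Finset.sum_congr rfl; intro m _; ring
  have h2 : IM.MB (2 * τ * (C + 1)) (fun i : ZMod N => (R (IM.E i) - R 1) * (u (IM.E i) - 1)) := by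
    have h3 : IM.MB (2 * τ) (fun i : ZMod N => R (IM.E i) - R 1) := by
      have e1 := MB_of_TN hRTN N
      have e2 := IM.MB.const (N := N) (-(R 1))
      refine ((e1.add e2).mono ?_).congr fun j => by ring
      have : ‖R 1‖ ≤ τ := by
        simp only [hR, one_zpow, mul_one]
        exact norm_tsum_le_tsum_norm hrn
      rw [norm_neg]; linarith
    exact h3.mul (by positivity) hMBκ
  refine ((h1.add h2).mono ?_).congr fun j => ?_
  · have e1 : D * μ ≤ e / 2 := by
      calc D * μ ≤ (D + 1) * (e / (2 * (D + 1))) := by gcongr; linarith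
        _ = e / 2 := by field_simp
    have e2 : 2 * τ * (C + 1) ≤ e / 2 := by
      have : τ * (4 * (C + 1)) ≤ e := by
        rwa [← le_div_iff₀ (by positivity)]
      linarith
    linarith
  · rw [hdec _ (IM.E_norm j), add_mul, Finset.sum_mul]
    congr 1
    apply Finset.sum_congr rfl; intro m _; ring

/-- coefficients of a TN function minus 1, in the form needed for `gluing2` -/
theorem exists_kernel {c : ℝ} {u : ℂ → ℂ} (h : TN 0 c u) (h1 : u 1 = 1) : ∃ κ : ℤ → ℂ, (Summable fun n => ‖κ n‖) ∧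
    ∑' n, κ n = 0 ∧ ∀ (N : ℕ) [NeZero N] (j : ZMod N), ∑' m : ℤ, κ m * IM.E (j * (m : ZMod N)) = u (IM.E j) - 1 := by
  classical
  obtain ⟨k, hk, -, hf⟩ := TN0_iff h
  have hδs : ∀ (z : ℂ), Summable fun n : ℤ => (if n = 0 then (1:ℂ) else 0) * z ^ n := by
    intro z
    apply summable_of_finite_support
    apply (Set.finite_singleton (0:ℤ)).subset
    intro n hn
    simp only [Function.mem_support] at hn
    by_contra hcon
    have : n ≠ 0 := by simpa using hcon
    simp [this] at hn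
  have hδ : ∀ (z : ℂ), ∑' n : ℤ, (if n = 0 then (1:ℂ) else 0) * z ^ n = 1 := by
    intro z
    rw [tsum_eq_single 0]
    · simp
    · intro n hn; simp [hn]
  have hgen : ∀ z : ℂ, ‖z‖ = 1 → ∑' n : ℤ, (k n - if n = 0 then (1:ℂ) else 0) * z ^ n = u z - 1 := by
    intro z hz
    have e1 := summ_term hk hz
    rw [hf z hz]
    conv_rhs => rw [← hδ z, ← e1.tsum_sub (hδs z)]
    apply tsum_congr
    intro n; ring
  refine ⟨fun n => k n - if n = 0 then 1 else 0, ?_, ?_, ?_⟩
  · have h2 : Summable fun n : ℤ => ‖(if n = 0 then (1:ℂ) else 0)‖ := by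
      apply summable_of_finite_support
      apply (Set.finite_singleton (0:ℤ)).subset
      intro n hn
      simp only [Function.mem_support] at hn
      by_contra hcon
      have : n ≠ 0 := by simpa using hcon
      simp [this] at hn
    exact Summable.of_nonneg_of_le (fun _ => norm_nonneg _) (fun n => norm_sub_le _ _) (hk.add h2)
  · have := hgen 1 (by simp)
    simp only [one_zpow, mul_one] at this
    rw [this, h1, sub_self]
  · intro N _ j
    rw [← hgen _ (IM.E_norm j)]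
    apply tsum_congr
    intro n
    rw [E_zpow']

theorem eta2_small {κ : ℤ → ℂ} (hκ : Summable fun m => ‖κ m‖) {ε : ℝ} (hε : 0 < ε) :
    ∃ ℓ0 : ℕ, ∀ ℓ ≥ ℓ0, ∑' m : ℤ, ‖κ m‖ * IM.wt ℓ m.natAbs ≤ ε := by
  have h : Filter.Tendsto (fun ℓ : ℕ => ∑' m : ℤ, ‖κ m‖ * IM.wt ℓ m.natAbs) Filter.atTop
      (nhds (∑' m : ℤ, ‖κ m‖ * 0)) := by
    apply tendsto_tsum_of_dominated_convergence (bound := fun m => ‖κ m‖ * 2) (hκ.mul_right 2)
    · intro m; exact (IM.wt_tendsto m.natAbs).const_mul _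
    · apply Filter.Eventually.of_forall
      intro ℓ m
      rw [Real.norm_of_nonneg (mul_nonneg (norm_nonneg _) (IM.wt_nonneg _ _))]
      exact mul_le_mul_of_nonneg_left (IM.wt_le ℓ _) (norm_nonneg _)
  simp only [mul_zero, tsum_zero] at h
  have h2 := h.eventually (eventually_le_nhds hε)
  obtain ⟨ℓ0, hℓ0⟩ := Filter.eventually_atTop.1 h2
  exact ⟨ℓ0, hℓ0⟩

end VG
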