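import Pool.Agent.Helper859.VG.Defs
import Pool.Agent.Helper859.VG.JA
import Pool.Agent.Helper859.VG.JB
import Pool.Agent.Helper859.VG.JC
import Pool.Agent.Helper859.VG.JD
import Pool.Agent.Helper859.VG.JE
import Pool.Agent.Helper859.VG.JF
import Pool.Agent.Helper859.VG.JG
import Pool.Agent.Helper859.VG.JH
import Pool.Agent.Helper859.VG.JI
import Pool.Agent.Helper859.VG.JJ1
import Pool.Agent.Helper859.VG.JJ2
import Pool.Agent.Helper859.VG.JJ3
import Pool.Agent.Helper859.VG.JK
import Pool.Agent.Helper859.VG.JL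
import Pool.Agent.Helper859.VG.JM
import Pool.Agent.Helper859.VG.JN
import Pool.Agent.MP58366f.GL5
import Pool.Agent.MP58366f.Wiener
import Pool.Agent.MP58366f.VBound
import Pool.Agent.MP58366f.Fin1
import Pool.Agent.MP58366f.Coef
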