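import Pool.Agent.MP58366f.Base
import Pool.Agent.MP58366f.Coef
set_option autoImplicit false
set_option linter.unusedSectionVars false
open Finset

namespace VGL

open IM

variable {N : ℕ} [NeZero N]

noncomputable def KZ (κ : ℤ → ℂ) (f : ZMod N → ℂ) : ZMod N → ℂ :=
  fun x => ∑' k : ℤ, κ k * f (x - (k : ZMod N))

lemma E_zpow (j : ZMod N) (k : ℤ) : (E j) ^ k = E (j * (k : ZMod N)) := by
  unfold E
  rw [← AddChar.map_zsmul_eq_zpow]
  congr 1
  rw [zsmul_eq_mul, mul_comm]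

lemma exists_bd (f : ZMod N → ℂ) : ∃ B : ℝ, 0 ≤ B ∧ ∀ x, ‖f x‖ ≤ B := by
  refine ⟨∑ x, ‖f x‖, Finset.sum_nonneg fun _ _ => norm_nonneg _, fun x => ?_⟩
  exact Finset.single_le_sum (f := fun x => ‖f x‖) (fun _ _ => norm_nonneg _) (Finset.mem_univ x)

lemma sum_bd {κ : ℤ → ℂ} (hκ : Summable fun n => ‖κ n‖) {B : ℝ} {u : ℤ → ℂ}
    (hu : ∀ n, ‖u n‖ ≤ B) : Summable fun n => κ n * u n := by
  apply Summable.of_norm
  refine Summable.of_nonneg_of_le (fun _ => norm_nonneg _) (fun m => ?_) (hκ.mul_right B)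
  rw [norm_mul]
  exact mul_le_mul_of_nonneg_left (hu m) (norm_nonneg _)

lemma T_KZ {κ : ℤ → ℂ} (hκ : Summable fun n => ‖κ n‖) {g : ℂ → ℂ}
    (hg : ∀ z : ℂ, ‖z‖ = 1 → g z = ∑' n : ℤ, κ n * z ^ n) (f : ZMod N → ℂ) :
    T (fun i : ZMod N => g (E i)) f = KZ κ f := by
  apply F_inj; intro j
  rw [F_T]
  unfold F KZ
  obtain ⟨B, hB0, hB⟩ := exists_bd f
  have h1 : ∀ l : ZMod N, (∑' m : ℤ, κ m * f (l - (m : ZMod N))) * E (j * l)
      = ∑' m : ℤ, κ m * (f (l - (m : ZMod N)) * E (j * l)) := by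
    intro l
    rw [← tsum_mul_right]
    apply tsum_congr; intro m; ring
  simp_rw [h1]
  rw [← Summable.tsum_finsetSum]
  · rw [hg _ (E_norm j), ← tsum_mul_right]
    apply tsum_congr; intro m
    rw [← Finset.mul_sum, mul_assoc]
    congr 1
    rw [E_zpow, Finset.mul_sum, ← Equiv.sum_comp (Equiv.addRight (m : ZMod N))
      (fun l => f (l - (m : ZMod N)) * E (j * l))]
    apply Finset.sum_congr rfl; intro l _
    simp only [Equiv.coe_addRight, add_sub_cancel_right]
    rw [mul_add, E_add]; ring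
  · intro l _
    apply sum_bd hκ (B := B)
    intro m
    rw [norm_mul, E_norm, mul_one]
    exact hB _

/-- periodisation -/
noncomputable def per (N : ℕ) (a : ℤ →₀ ℂ) (x : ZMod N) : ℂ :=
  ∑ m ∈ a.support, if (m : ZMod N) = x then a m else 0

lemma per_bd (N : ℕ) (a : ℤ →₀ ℂ) (x : ZMod N) : ‖per N a x‖ ≤ ∑ m ∈ a.support, ‖a m‖ := by
  unfold per
  refine (norm_sum_le _ _).trans (Finset.sum_le_sum fun m _ => ?_)
  split_ifs
  · exact le_rfl
  · rw [norm_zero]; exact norm_nonneg _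

lemma cast_inj' {N : ℕ} {x y : ℤ} (h : (x : ZMod N) = (y : ZMod N)) (hlt : |x - y| < N) : x = y := by
  rw [ZMod.intCast_eq_intCast_iff_dvd_sub] at h
  have h2 : (N : ℤ) ∣ x - y := by
    have := (dvd_neg (a := (N : ℤ))).2 h
    rwa [neg_sub] at this
  have := Int.eq_zero_of_abs_lt_dvd h2 hlt
  omega

lemma per_apply (N : ℕ) (a : ℤ →₀ ℂ) (y : ℤ) (h : ∀ m ∈ a.support, |m - y| < N) :
    per N a (y : ZMod N) = a y := by
  unfold per
  by_cases hy : y ∈ a.support
  · rw [Finset.sum_eq_single y]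
    · rw [if_pos rfl]
    · intro m hm hmy
      rw [if_neg]
      intro he
      exact hmy (cast_inj' he (h m hm))
    · intro h2; exact absurd hy h2
  · have h0 : a y = 0 := by simpa using hy
    rw [h0]
    apply Finset.sum_eq_zero
    intro m hm
    rw [if_neg]
    intro he
    have := cast_inj' he (h m hm)
    rw [this] at hm
    exact hy hm

end VGL

open VGL in
/-- TARGET: if the symbol `g = ∑ κ_n z^n` is an ℓ⁴(ZMod N) multiplier with norm ≤ K for all N divisible by l,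
then convolution with κ is bounded by K on ℓ⁴(ℤ). -/
theorem transfer2 (K : ℝ) (hK : 0 ≤ K) (κ : ℤ → ℂ) (hκ : Summable fun n => ‖κ n‖) (g : ℂ → ℂ)
    (hg : ∀ z : ℂ, ‖z‖ = 1 → g z = ∑' n : ℤ, κ n * z ^ n) (l : ℕ) (hl : 0 < l)
    (hMB : ∀ (N : ℕ) [NeZero N], l ∣ N → IM.MB K (fun i : ZMod N => g (IM.E i)))
    (a : ℤ →₀ ℂ) (s : Finset ℤ) :
    ∑ n ∈ s, ‖∑ m ∈ a.support, κ (n - m) * a m‖ ^ 4 ≤ K ^ 4 * ∑ m ∈ a.support, ‖a m‖ ^ 4 := by
  classical
  set A : ℝ := ∑ m ∈ a.support, ‖a m‖ with hA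
  -- a radius containing everything
  obtain ⟨R, hR⟩ : ∃ R : ℕ, ∀ m ∈ s ∪ a.support, |m| ≤ (R : ℤ) := by
    refine ⟨∑ m ∈ s ∪ a.support, m.natAbs, fun m hm => ?_⟩
    have := Finset.single_le_sum (f := fun m : ℤ => m.natAbs) (fun _ _ => Nat.zero_le _) hm
    rw [Int.abs_eq_natAbs]
    exact_mod_cast this
  have hfin : ∀ (N : ℕ) [NeZero N], l ∣ N → 2 * R < N →
      ∑ n ∈ s, ‖KZ κ (per N a) (n : ZMod N)‖ ^ 4 ≤ K ^ 4 * ∑ m ∈ a.support, ‖a m‖ ^ 4 := by
    intro N _ hlN hRN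
    have h1 := hMB N hlN (per N a)
    rw [T_KZ hκ hg] at h1
    have h2 : IM.N4 (KZ κ (per N a)) ^ 4 ≤ (K * IM.N4 (per N a)) ^ 4 :=
      pow_le_pow_left₀ (IM.N4_nonneg _) h1 4
    rw [mul_pow, IM.N4_pow, IM.N4_pow] at h2
    have hinj : ∀ t : Finset ℤ, t ⊆ s ∪ a.support →
        Set.InjOn (fun n : ℤ => (n : ZMod N)) (t : Set ℤ) := by
      intro t ht x hx y hy hxy
      apply cast_inj' hxy
      have hx' := abs_le.1 (hR x (ht hx))
      have hy' := abs_le.1 (hR y (ht hy))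
      rw [abs_lt]
      constructor <;> omega
    have h3 : ∑ n ∈ s, ‖KZ κ (per N a) (n : ZMod N)‖ ^ 4 ≤ ∑ x, ‖KZ κ (per N a) x‖ ^ 4 := by
      rw [← Finset.sum_image (f := fun x : ZMod N => ‖KZ κ (per N a) x‖ ^ 4)
        (hinj s Finset.subset_union_left)]
      exact Finset.sum_le_sum_of_subset_of_nonneg (Finset.subset_univ _)
        (fun _ _ _ => by positivity)
    have h4 : ∑ x, ‖per N a x‖ ^ 4 = ∑ m ∈ a.support, ‖a m‖ ^ 4 := by
      have h5 : ∑ m ∈ a.support, ‖a m‖ ^ 4 =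
          ∑ x ∈ a.support.image (fun n : ℤ => (n : ZMod N)), ‖per N a x‖ ^ 4 := by
        rw [Finset.sum_image (hinj a.support Finset.subset_union_right)]
        apply Finset.sum_congr rfl
        intro m hm
        rw [per_apply]
        intro m' hm'
        have hx' := abs_le.1 (hR m (Finset.subset_union_right hm))
        have hy' := abs_le.1 (hR m' (Finset.subset_union_right hm'))
        rw [abs_lt]
        constructor <;> omega
      rw [h5]
      symm
      apply Finset.sum_subset (Finset.subset_univ _)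
      intro x _ hx
      have : per N a x = 0 := by
        unfold per
        apply Finset.sum_eq_zero
        intro m hm
        rw [if_neg]
        intro he
        apply hx
        rw [Finset.mem_image]
        exact ⟨m, hm, he⟩
      rw [this]; simp
    rw [h4] at h2
    exact h3.trans h2
  -- the limit
  have hlim : ∀ n ∈ s, Filter.Tendsto
      (fun k : ℕ => ∑' j : ℤ, κ j * per (l * (k + 1)) a ((n : ZMod (l * (k + 1))) -
        (j : ZMod (l * (k + 1))))) Filter.atTop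
      (nhds (∑ m ∈ a.support, κ (n - m) * a m)) := by
    intro n _
    have h1 : ∑ m ∈ a.support, κ (n - m) * a m = ∑' j : ℤ, κ j * a (n - j) := by
      rw [← Equiv.tsum_eq (Equiv.subLeft n) (fun j : ℤ => κ j * a (n - j))]
      simp only [Equiv.subLeft_apply, sub_sub_cancel]
      rw [tsum_eq_sum (s := a.support)]
      intro m hm
      have h0 : a m = 0 := by simpa using hm
      rw [h0, mul_zero]
    rw [h1]
    refine tendsto_tsum_of_dominated_convergence (bound := fun m => ‖κ m‖ * A) (hκ.mul_right A)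
      ?_ ?_
    · intro j
      refine tendsto_const_nhds.congr' ?_
      filter_upwards [Filter.eventually_ge_atTop (R + (n - j).natAbs)] with k hk
      have h2 : ((n : ZMod (l * (k + 1))) - (j : ZMod (l * (k + 1)))) =
          ((n - j : ℤ) : ZMod (l * (k + 1))) := by push_cast; rfl
      rw [h2, per_apply]
      intro m hm
      have hx' := abs_le.1 (hR m (Finset.subset_union_right hm))
      have h3 : k + 1 ≤ l * (k + 1) := Nat.le_mul_of_pos_left _ hl
      have h4 : ((k + 1 : ℕ) : ℤ) ≤ ((l * (k + 1) : ℕ) : ℤ) := by exact_mod_cast h3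
      rw [abs_lt]
      constructor <;> omega
    · refine Filter.Eventually.of_forall (fun k m => ?_)
      rw [norm_mul]
      apply mul_le_mul_of_nonneg_left _ (norm_nonneg _)
      exact per_bd _ _ _
  have hlim2 : Filter.Tendsto (fun k : ℕ => ∑ n ∈ s,
      ‖∑' j : ℤ, κ j * per (l * (k + 1)) a ((n : ZMod (l * (k + 1))) -
        (j : ZMod (l * (k + 1))))‖ ^ 4) Filter.atTop
      (nhds (∑ n ∈ s, ‖∑ m ∈ a.support, κ (n - m) * a m‖ ^ 4)) :=
    tendsto_finsetSum _ (fun n hn => ((hlim n hn).norm).pow 4)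
  refine le_of_tendsto hlim2 ?_
  filter_upwards [Filter.eventually_ge_atTop (2 * R)] with k hk
  haveI : NeZero (l * (k + 1)) := ⟨by positivity⟩
  have h3 : k + 1 ≤ l * (k + 1) := Nat.le_mul_of_pos_left _ hl
  exact hfin (l * (k + 1)) (dvd_mul_right _ _) (by omega)
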