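import Pool.Agent.Helper859.VG.Rec

set_option autoImplicit false
open Finset Filter Topology

namespace VG

/-- Fourier coefficients of an absolutely convergent series by integration -/
theorem coef_int {k : ℤ → ℂ} (hk : Summable fun n => ‖k n‖) (j : ℤ) :
    ∫ θ in (0:ℝ)..(2 * Real.pi), (∑' n : ℤ, k n * (Complex.exp (θ * Complex.I)) ^ n) *
      (Complex.exp (θ * Complex.I)) ^ (-j) = (2 * Real.pi) * k j := by
  have hint : ∀ n : ℤ, ∫ θ in (0:ℝ)..(2 * Real.pi), k n * (Complex.exp (θ * Complex.I)) ^ (n - j) =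
      if n = j then (2 * Real.pi) * k j else 0 := by
    intro n
    have e : ∀ θ : ℝ, (Complex.exp (θ * Complex.I)) ^ (n - j) = Complex.exp ((((n - j : ℤ) : ℂ) * Complex.I) * θ) := by
      intro θ
      rw [← Complex.exp_int_mul]; congr 1; ring
    simp_rw [e]
    rw [intervalIntegral.integral_const_mul]
    split_ifs with hn
    · rw [hn]
      simp
      ring
    · have hne : (((n - j : ℤ) : ℂ) * Complex.I) ≠ 0 := by
        apply mul_ne_zero _ Complex.I_ne_zero
        exact_mod_cast sub_ne_zero.2 hn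
      rw [integral_exp_mul_complex hne]
      have e2 : Complex.exp ((((n - j : ℤ) : ℂ) * Complex.I) * ((2 * Real.pi : ℝ) : ℂ)) = 1 := by
        rw [Complex.exp_eq_one_iff]
        exact ⟨n - j, by push_cast; ring⟩
      rw [e2]
      simp
  have hsumm : Summable (fun n : ℤ => ∫ θ, ‖k n * (Complex.exp (θ * Complex.I)) ^ (n - j)‖
      ∂(MeasureTheory.volume.restrict (Set.Ioc (0:ℝ) (2 * Real.pi)))) := by
    have e : ∀ n : ℤ, (∫ θ, ‖k n * (Complex.exp ((θ : ℝ) * Complex.I)) ^ (n - j)‖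
      ∂(MeasureTheory.volume.restrict (Set.Ioc (0:ℝ) (2 * Real.pi)))) = ‖k n‖ * (2 * Real.pi) := by
      intro n
      have : ∀ θ : ℝ, ‖k n * (Complex.exp ((θ : ℝ) * Complex.I)) ^ (n - j)‖ = ‖k n‖ := by
        intro θ
        rw [norm_mul, norm_zpow, Complex.norm_exp_ofReal_mul_I, one_zpow, mul_one]
      simp_rw [this]
      rw [MeasureTheory.setIntegral_const]
      simp [Real.pi_pos.le, mul_comm]
    simp_rw [e]
    apply Summable.mul_right
    exact hk
  have hInt : ∀ n : ℤ, MeasureTheory.Integrable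
      (fun θ : ℝ => k n * (Complex.exp (θ * Complex.I)) ^ (n - j))
      (MeasureTheory.volume.restrict (Set.Ioc (0:ℝ) (2 * Real.pi))) := by
    intro n
    have hcont : Continuous (fun θ : ℝ => k n * (Complex.exp (θ * Complex.I)) ^ (n - j)) := by
      apply Continuous.mul continuous_const
      apply Continuous.zpow₀ (by fun_prop)
      intro θ
      exact Or.inl (Complex.exp_ne_zero _)
    exact (hcont.integrableOn_Icc (a := 0) (b := 2 * Real.pi)).mono_set Set.Ioc_subset_Icc_self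
  have hsum := MeasureTheory.hasSum_integral_of_summable_integral_norm hInt hsumm
  have hfun : (fun n : ℤ => if n = j then (2 * (Real.pi : ℂ)) * k j else 0) =
      fun n : ℤ => ∫ θ, k n * (Complex.exp ((θ : ℝ) * Complex.I)) ^ (n - j)
        ∂(MeasureTheory.volume.restrict (Set.Ioc (0:ℝ) (2 * Real.pi))) := by
    funext n
    rw [← intervalIntegral.integral_of_le (by positivity)]
    exact (hint n).symm
  rw [← hfun] at hsum
  have huniq := (hasSum_ite_eq j ((2 * (Real.pi : ℂ)) * k j)).unique hsum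
  rw [huniq, intervalIntegral.integral_of_le (by positivity)]
  apply MeasureTheory.integral_congr_ae
  filter_upwards with θ
  rw [← tsum_mul_right]
  apply tsum_congr
  intro n
  rw [sub_eq_add_neg n j, zpow_add₀ (Complex.exp_ne_zero _)]
  ring

/-- Taylor coefficients, extended by zero to negative indices -/
noncomputable def cf (G : ℂ → ℂ) (n : ℤ) : ℂ :=
  if 0 ≤ n then iteratedDeriv n.toNat G 0 / (n.toNat.factorial : ℂ) else 0

lemma cf_natCast (G : ℂ → ℂ) (n : ℕ) : cf G n = iteratedDeriv n G 0 / (n.factorial : ℂ) := by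
  unfold cf; simp

lemma cf_neg (G : ℂ → ℂ) {n : ℤ} (hn : n ∉ Set.range (Nat.cast : ℕ → ℤ)) : cf G n = 0 := by
  unfold cf
  rw [if_neg]
  intro h
  exact hn ⟨n.toNat, by simp [h]⟩

lemma disc_series {G : ℂ → ℂ} (hG : DifferentiableOn ℂ G (Metric.ball 0 1)) {r : ℝ} (hr0 : 0 ≤ r) (hr : r < 1) :
    Summable (fun n : ℤ => ‖cf G n * (r : ℂ) ^ n.toNat‖) ∧
    ∀ z : ℂ, ‖z‖ = 1 → G ((r : ℂ) * z) = ∑' n : ℤ, cf G n * (r : ℂ) ^ n.toNat * z ^ n := by
  have hinj : Function.Injective (Nat.cast : ℕ → ℤ) := Nat.cast_injective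
  have hser : ∀ z : ℂ, ‖z‖ ≤ 1 → HasSum (fun n : ℕ => cf G n * (r : ℂ) ^ n * z ^ n) (G ((r : ℂ) * z)) := by
    intro z hz
    have hmem : (r : ℂ) * z ∈ Metric.ball (0 : ℂ) 1 := by
      rw [mem_ball_zero_iff, norm_mul, Complex.norm_real, Real.norm_of_nonneg hr0]
      calc r * ‖z‖ ≤ r * 1 := by gcongr
        _ < 1 := by linarith
    have h := Complex.hasSum_taylorSeries_on_ball hG hmem
    refine h.congr_fun fun n => ?_
    simp only [sub_zero, smul_eq_mul]
    rw [cf_natCast, mul_pow]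
    field_simp
  refine ⟨?_, ?_⟩
  · have h1 := (hser 1 (by simp)).summable
    rw [← summable_norm_iff] at h1
    rw [← hinj.summable_iff]
    · refine h1.congr fun n => ?_
      simp
    · intro n hn
      rw [cf_neg G hn]; simp
  · intro z hz
    have h1 := hser z hz.le
    have h2 : HasSum (fun n : ℤ => cf G n * (r : ℂ) ^ n.toNat * z ^ n) (G ((r : ℂ) * z)) := by
      rw [← hinj.hasSum_iff]
      · refine h1.congr_fun fun n => ?_
        simp
      · intro n hn
        rw [cf_neg G hn]; simp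
    exact h2.tsum_eq.symm

lemma ae_ne_one : ∀ᵐ θ : ℝ ∂MeasureTheory.volume, Complex.exp ((θ : ℂ) * Complex.I) ≠ 1 := by
  have hcount : {θ : ℝ | Complex.exp ((θ : ℂ) * Complex.I) = 1}.Countable := by
    refine (Set.countable_range (fun n : ℤ => (n : ℝ) * (2 * Real.pi))).mono ?_
    intro θ hθ
    rw [Set.mem_ofPred_eq, Complex.exp_eq_one_iff] at hθ
    obtain ⟨n, hn⟩ := hθ
    refine ⟨n, ?_⟩
    have h9 : (θ : ℂ) = ((n : ℝ) * (2 * Real.pi) : ℝ) := by
      have h10 : (θ : ℂ) * Complex.I = ((n : ℂ) * (2 * Real.pi)) * Complex.I := by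
        rw [hn]; ring
      have h11 := mul_right_cancel₀ Complex.I_ne_zero h10
      rw [h11]; push_cast; ring
    exact (Complex.ofReal_injective h9).symm
  have hae := hcount.ae_notMem MeasureTheory.volume
  filter_upwards [hae] with θ hθ'
  exact hθ'

lemma zpow_exp_cont (n : ℤ) : Continuous (fun θ : ℝ => (Complex.exp (θ * Complex.I)) ^ n) := by
  apply Continuous.zpow₀ (by fun_prop)
  intro θ
  exact Or.inl (Complex.exp_ne_zero _)

/-- convergence of Fourier coefficients to Taylor coefficients -/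
theorem coef_limit {P : ℕ → ℂ → ℂ} {k : ℕ → ℤ → ℂ} (hk : ∀ J, Summable fun n => ‖k J n‖)
    (hP : ∀ J z, ‖z‖ = 1 → P J z = ∑' n : ℤ, k J n * z ^ n) (hP1 : ∀ J z, ‖z‖ = 1 → ‖P J z‖ ≤ 1)
    {G : ℂ → ℂ} (hG : DifferentiableOn ℂ G (Metric.ball 0 1)) (hG1 : ∀ z ∈ Metric.ball (0 : ℂ) 1, ‖G z‖ ≤ 1)
    (hlim : ∀ z : ℂ, ‖z‖ = 1 → z ≠ 1 → Tendsto (fun J => P J z) atTop (𝓝 (G z)))
    (hrad : ∀ z : ℂ, ‖z‖ = 1 → z ≠ 1 → Tendsto (fun r : ℝ => G ((r : ℂ) * z)) (𝓝[<] 1) (𝓝 (G z))) (n : ℤ) :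
    Tendsto (fun J => k J n) atTop (𝓝 (cf G n)) := by
  have hne := Complex.norm_exp_ofReal_mul_I
  have hz1 : ∀ θ : ℝ, ‖(Complex.exp (θ * Complex.I)) ^ (-n)‖ = 1 := by
    intro θ; rw [norm_zpow, hne, one_zpow]
  set I : ℂ := ∫ θ in (0:ℝ)..(2 * Real.pi), G (Complex.exp (θ * Complex.I)) * (Complex.exp (θ * Complex.I)) ^ (-n)
    with hI
  have h1 : Tendsto (fun J => ∫ θ in (0:ℝ)..(2 * Real.pi), P J (Complex.exp (θ * Complex.I)) *
      (Complex.exp (θ * Complex.I)) ^ (-n)) atTop (𝓝 I) := by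
    apply intervalIntegral.tendsto_integral_filter_of_dominated_convergence (fun _ => (1 : ℝ))
    · refine Eventually.of_forall fun J => ?_
      have hc : Continuous (fun θ : ℝ => P J (Complex.exp (θ * Complex.I)) * (Complex.exp (θ * Complex.I)) ^ (-n)) := by
        have e1 : (fun θ : ℝ => P J (Complex.exp (θ * Complex.I)) * (Complex.exp (θ * Complex.I)) ^ (-n)) =
            fun θ : ℝ => (∑' n : ℤ, k J n * (Complex.exp (θ * Complex.I)) ^ n) * (Complex.exp (θ * Complex.I)) ^ (-n) := by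
          funext θ; rw [hP J _ (hne θ)]
        rw [e1]
        apply Continuous.mul _ (zpow_exp_cont _)
        apply continuous_tsum (fun m => continuous_const.mul (zpow_exp_cont m)) (hk J)
        intro m θ
        show ‖k J m * (Complex.exp (θ * Complex.I)) ^ m‖ ≤ ‖k J m‖
        rw [norm_mul, norm_zpow, hne, one_zpow, mul_one]
      exact hc.aestronglyMeasurable
    · refine Eventually.of_forall fun J => Eventually.of_forall fun θ _ => ?_
      rw [norm_mul, hz1, mul_one]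
      exact hP1 J _ (hne θ)
    · exact intervalIntegrable_const
    · filter_upwards [ae_ne_one] with θ hθ _
      exact (hlim _ (hne θ) hθ).mul_const _
  have h2 : Tendsto (fun r : ℝ => ∫ θ in (0:ℝ)..(2 * Real.pi), G ((r : ℂ) * Complex.exp (θ * Complex.I)) *
      (Complex.exp (θ * Complex.I)) ^ (-n)) (𝓝[<] 1) (𝓝 I) := by
    have hev : ∀ᶠ r : ℝ in 𝓝[<] (1 : ℝ), 0 ≤ r ∧ r < 1 := by
      have h15 : ∀ᶠ r : ℝ in 𝓝[<] (1 : ℝ), (0 : ℝ) < r :=
        mem_nhdsWithin_of_mem_nhds (lt_mem_nhds one_pos)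
      filter_upwards [h15, self_mem_nhdsWithin] with r hr1 hr2
      exact ⟨hr1.le, hr2⟩
    have hmem : ∀ (r : ℝ) (θ : ℝ), 0 ≤ r → r < 1 → (r : ℂ) * Complex.exp (θ * Complex.I) ∈ Metric.ball (0 : ℂ) 1 := by
      intro r θ h0 h1
      rw [mem_ball_zero_iff, norm_mul, Complex.norm_real, Real.norm_of_nonneg h0, hne, mul_one]
      exact h1
    apply intervalIntegral.tendsto_integral_filter_of_dominated_convergence (fun _ => (1 : ℝ))
    · filter_upwards [hev] with r hr
      have hc : Continuous (fun θ : ℝ => G ((r : ℂ) * Complex.exp (θ * Complex.I)) * (Complex.exp (θ * Complex.I)) ^ (-n)) := by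
        apply Continuous.mul _ (zpow_exp_cont _)
        apply hG.continuousOn.comp_continuous (by fun_prop)
        intro θ; exact hmem r θ hr.1 hr.2
      exact hc.aestronglyMeasurable
    · filter_upwards [hev] with r hr
      refine Eventually.of_forall fun θ _ => ?_
      rw [norm_mul, hz1, mul_one]
      exact hG1 _ (hmem r θ hr.1 hr.2)
    · exact intervalIntegrable_const
    · filter_upwards [ae_ne_one] with θ hθ _
      exact (hrad _ (hne θ) hθ).mul_const _
  have h1' : Tendsto (fun J => (2 * Real.pi : ℂ) * k J n) atTop (𝓝 I) := by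
    refine h1.congr fun J => ?_
    rw [← coef_int (hk J) n]
    apply intervalIntegral.integral_congr
    intro θ _
    simp only
    rw [hP J _ (hne θ)]
  have h2' : Tendsto (fun r : ℝ => (2 * Real.pi : ℂ) * (cf G n * (r : ℂ) ^ n.toNat)) (𝓝[<] 1) (𝓝 I) := by
    refine h2.congr' ?_
    have h15 : ∀ᶠ r : ℝ in 𝓝[<] (1 : ℝ), (0 : ℝ) < r :=
      mem_nhdsWithin_of_mem_nhds (lt_mem_nhds one_pos)
    filter_upwards [h15, self_mem_nhdsWithin] with r hr1 hr2
    obtain ⟨hs, hGs⟩ := disc_series hG hr1.le hr2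
    rw [← coef_int hs n]
    apply intervalIntegral.integral_congr
    intro θ _
    simp only
    rw [hGs _ (hne θ)]
  have h3 : Tendsto (fun r : ℝ => (2 * Real.pi : ℂ) * (cf G n * (r : ℂ) ^ n.toNat)) (𝓝[<] 1)
      (𝓝 ((2 * Real.pi : ℂ) * (cf G n * ((1 : ℝ) : ℂ) ^ n.toNat))) := by
    have hc : Continuous (fun r : ℝ => (2 * Real.pi : ℂ) * (cf G n * (r : ℂ) ^ n.toNat)) := by fun_prop
    exact (hc.tendsto 1).mono_left nhdsWithin_le_nhds
  have h4 := tendsto_nhds_unique h3 h2'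
  rw [← h4] at h1'
  have hpi : (2 * Real.pi : ℂ) ≠ 0 := by simp [Real.pi_ne_zero]
  have h5 := h1'.const_mul ((2 * Real.pi : ℂ)⁻¹)
  simp only [← mul_assoc, inv_mul_cancel₀ hpi, one_mul] at h5
  simpa using h5

end VG
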