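import Pool.Agent.Helper859.VG.Basic

set_option autoImplicit false
open Finset

namespace VG

lemma TN_re0 {m : ℕ} {c : ℝ} {f : ℂ → ℂ} (h : TN m c f) : 0 ≤ c := TN_nonneg h

/-- the static objects attached to a window `β` -/
theorem objects (β δ : ℝ) (hβ : 0 < β) (hβ1 : β ≤ 1) (hδ : 0 < δ) (hδ1 : δ ≤ 1 / 100) : ∃ a0 : ℝ, 0 < a0 ∧ a0 ≤ β / 2 ∧
    ∀ a a' : ℝ, 0 < a' → a' ≤ a / 2 → a ≤ a0 → ∃ Kp lam : ℂ → ℂ,
      (∃ c, AN c Kp) ∧ (∃ c, TN 4 c Kp) ∧ (∃ c, TN 4 c lam) ∧ TN 0 δ (fun z => lam z - 1) ∧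
      (∀ z : ℂ, ‖z‖ = 1 → ‖lam z‖ = 1) ∧ lam 1 = 1 ∧
      TN 0 10 (fun z => sg a a' z * Kp z * (starRingEnd ℂ) (lam z)) ∧
      (∀ z : ℂ, ‖z‖ = 1 → ‖Kp z‖ ≤ 1) ∧ (Kp 1).im = 0 ∧
      ∀ z : ℂ, ‖z‖ = 1 → β ≤ ‖1 - z‖ → ‖Kp z‖ = 1 ∧ lam z = Kp z := by
  obtain ⟨cβ, hcβ0, hcβ, hcβ'⟩ := TN_cut0 hβ 0
  obtain ⟨cβ4, hcβ40, hcβ4, hcβ4'⟩ := TN_cut0 hβ 4
  -- choice of ν
  obtain ⟨ν, hν0, hν1⟩ : ∃ ν : ℝ, 0 < ν ∧ ν * (1 + 4 * (1 + cβ)) ≤ δ / 4 :=
    ⟨δ / 4 / (1 + 4 * (1 + cβ)), by positivity, by rw [div_mul_cancel₀]; positivity⟩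
  have hν2 : ν ≤ δ / 4 := by nlinarith
  obtain ⟨ε, hε0, hε1, hfar⟩ := gl_far β ν hβ hβ1 hν0
  obtain ⟨a1, ha10, ha1ε, hnear⟩ := gl_near ε ν hε0 hε1 hν0
  refine ⟨min a1 (β / 2), by positivity, min_le_right _ _, ?_⟩
  intro a a' ha' haa ha
  have ha1 : a ≤ a1 := ha.trans (min_le_left _ _)
  have haβ : a ≤ β / 2 := ha.trans (min_le_right _ _)
  have ha0 : 0 < a := by linarith
  set ε' : ℝ := a' / 2 with hε'
  have hε'0 : 0 < ε' := by positivity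
  have hε'ε : ε' < ε := by linarith
  obtain ⟨⟨cg, hgAN⟩, hgTN, hgre, hg1⟩ := gl_basic ε ε' hε'0 hε'ε hε1
  set g : ℂ → ℂ := gl ε ε' with hg
  have hfarg : TN 0 ν (fun z => (1 - cut β z) * g z) := hfar ε ε' hε'0 hε'ε le_rfl
  obtain ⟨cg4, hg4⟩ := hgTN 4
  have hfarg4 : TN 4 ((1 + cβ4) * cg4) (fun z => (1 - cut β z) * g z) := TN_mul hcβ4' hg4
  -- real part
  have hu0 := TN_re hfarg
  have hu4 := TN_re hfarg4
  obtain ⟨H, hHAN, hH4, hHre⟩ := herglotz4 hu0 hu4 (fun z _ => by simp)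
  have hHre' : ∀ z : ℂ, ‖z‖ = 1 → (H z).re = (1 - ct β z) * (g z).re := by
    intro z hz
    rw [hHre z hz]
    simp only [Complex.ofReal_re]
    rw [cut_eq, ← Complex.ofReal_one, ← Complex.ofReal_sub, Complex.re_ofReal_mul]
  set c1 : ℝ := (H 1).im with hc1
  have hH0 : TN 0 (2 * ν) H := TN_of_AN hHAN
  have hc1b : |c1| ≤ 2 * ν := (Complex.abs_im_le_norm _).trans (TN_bound hH0 (by simp))
  -- Kp
  set w : ℂ → ℂ := fun z => -g z + H z - (c1 : ℂ) * Complex.I with hw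
  set Kp : ℂ → ℂ := fun z => Complex.exp (w z) with hKp
  have hwAN : ∃ c, AN c w := by
    have h1 := W702.AN_mul (W702.AN_const (-1)) hgAN
    have h2 := W702.AN_add (W702.AN_add h1 hHAN) (W702.AN_const (-((c1 : ℂ) * Complex.I)))
    exact ⟨_, W702.AN_congr h2 fun z _ => by simp only [hw]; ring⟩
  have hw4 : ∃ c, TN 4 c w := by
    have h1 := TN_mul (TN_const 4 (-1)) hg4
    have h2 := TN_add (TN_add h1 hH4) (TN_const 4 (-((c1 : ℂ) * Complex.I)))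
    exact ⟨_, TN_congr h2 fun z _ => by simp only [hw]; ring⟩
  obtain ⟨cw, hwAN⟩ := hwAN
  obtain ⟨cw4, hw4⟩ := hw4
  have hwre : ∀ z : ℂ, ‖z‖ = 1 → (w z).re = -(ct β z * (g z).re) := by
    intro z hz
    simp only [hw, Complex.sub_re, Complex.add_re, Complex.neg_re, Complex.re_ofReal_mul, Complex.I_re, mul_zero,
      sub_zero]
    rw [hHre' z hz]; ring
  have hKpnorm : ∀ z : ℂ, ‖z‖ = 1 → ‖Kp z‖ = Real.exp (-(ct β z * (g z).re)) := by
    intro z hz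
    simp only [hKp]
    rw [Complex.norm_exp, hwre z hz]
  -- imaginary part
  have him0 : TN 0 (ν + (1 + cβ) * (2 * ν + |c1|)) (fun z => (1 - cut β z) * (((w z).im : ℝ) : ℂ)) := by
    have e1 := TN_im hfarg
    have e2 := TN_mul hcβ' (TN_sub (TN_im hH0) (TN_const 0 ((c1 : ℝ) : ℂ)))
    have e3 := TN_add (TN_mul (TN_const 0 (-1)) e1) e2
    refine TN_congr (TN_mono e3 (le_of_eq ?_)) fun z hz => ?_
    · rw [Complex.norm_real, Real.norm_eq_abs]; simp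
    · have e4 : (w z).im = -(g z).im + (H z).im - c1 := by
        simp [hw]
      have e5 : ((1 - cut β z) * g z).im = (1 - ct β z) * (g z).im := by
        rw [cut_eq, ← Complex.ofReal_one, ← Complex.ofReal_sub, Complex.im_ofReal_mul]
      rw [e4, e5, cut_eq]
      push_cast; ring
  have hνb : ν + (1 + cβ) * (2 * ν + |c1|) ≤ δ / 4 := by
    calc _ ≤ ν + (1 + cβ) * (2 * ν + 2 * ν) := by gcongr
      _ = ν * (1 + 4 * (1 + cβ)) := by ring
      _ ≤ _ := hν1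
  have him4 : ∃ c, TN 4 c (fun z => (1 - cut β z) * (((w z).im : ℝ) : ℂ)) := ⟨_, TN_mul hcβ4' (TN_im hw4)⟩
  set lam : ℂ → ℂ := fun z => Complex.exp (Complex.I * ((1 - cut β z) * (((w z).im : ℝ) : ℂ))) with hlam
  have hlam_arg0 : TN 0 (δ / 4) (fun z => Complex.I * ((1 - cut β z) * (((w z).im : ℝ) : ℂ))) := by
    have := TN_mul (TN_const 0 Complex.I) (TN_mono him0 hνb)
    exact TN_mono this (by simp)
  have hlamreal : ∀ z : ℂ, lam z = Complex.exp (Complex.I * (((1 - ct β z) * (w z).im : ℝ) : ℂ)) := by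
    intro z; simp only [hlam]; rw [cut_eq]; push_cast; rfl
  have hlamnorm : ∀ z : ℂ, ‖lam z‖ = 1 := by
    intro z; rw [hlamreal, mul_comm]; exact Complex.norm_exp_ofReal_mul_I _
  have hexpδ : Real.exp (δ / 4) - 1 ≤ δ := by
    have h1 : Real.exp (δ / 4) ≤ 1 / (1 - δ / 4) := by
      have := Real.one_sub_le_exp_neg (δ / 4)
      rw [Real.exp_neg] at this
      have hp : 0 < 1 - δ / 4 := by linarith
      rw [le_div_iff₀ hp]
      calc Real.exp (δ / 4) * (1 - δ / 4) ≤ Real.exp (δ / 4) * (Real.exp (δ / 4))⁻¹ := by gcongr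
        _ = 1 := mul_inv_cancel₀ (Real.exp_pos _).ne'
    have h2 : 1 / (1 - δ / 4) ≤ 1 + δ := by
      rw [div_le_iff₀ (by linarith)]; nlinarith
    linarith
  have hlam0 : TN 0 δ (fun z => lam z - 1) := TN_mono (TN_exp_sub_one hlam_arg0) hexpδ
  have hlam0' : TN 0 (Real.exp (δ / 4)) lam := TN_exp hlam_arg0
  have hlam4 : ∃ c, TN 4 c lam := by
    obtain ⟨c, hc⟩ := him4
    exact ⟨_, TN_exp (TN_mul (TN_const 4 Complex.I) hc)⟩
  -- the main bound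
  have hsgK : TN 0 (Real.exp (4 * ν) * (8 + ν)) (fun z => sg a a' z * Kp z) := by
    have e1 : TN 0 (2 * ν + |c1|) (fun z => H z - (c1 : ℂ) * Complex.I) := by
      refine TN_mono (TN_sub hH0 (TN_const 0 ((c1 : ℂ) * Complex.I))) (le_of_eq ?_)
      rw [norm_mul, Complex.norm_I, Complex.norm_real, Real.norm_eq_abs, mul_one]
    have e2 := TN_exp (TN_mono e1 (by linarith : 2 * ν + |c1| ≤ 4 * ν))
    have e3 := TN_add (gl_exp ε ε' hε'0 hε'ε hε1) (hnear a a' ha' haa ha1)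
    refine TN_congr (TN_mul e2 e3) fun z _ => ?_
    have e4 : Kp z = Complex.exp (H z - (c1 : ℂ) * Complex.I) * Complex.exp (-gl ε ε' z) := by
      simp only [hKp, hw]
      rw [← Complex.exp_add]; congr 1; simp only [hg]; ring
    rw [e4]
    simp only [sg, hε']
    ring
  have hfinal : Real.exp (4 * ν) * (8 + ν) * Real.exp (δ / 4) ≤ 10 := by
    have h1 : Real.exp (4 * ν) * Real.exp (δ / 4) ≤ 1 + 1 / 10 := by
      rw [← Real.exp_add]
      have h2 : 4 * ν + δ / 4 ≤ 1 / 20 := by linarith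
      have h3 : Real.exp (4 * ν + δ / 4) ≤ Real.exp (1 / 20) := Real.exp_le_exp.2 h2
      have h4 : Real.exp (1 / 20) ≤ 1 / (1 - 1 / 20) := by
        have := Real.one_sub_le_exp_neg (1 / 20)
        rw [Real.exp_neg] at this
        have hp : (0:ℝ) < 1 - 1 / 20 := by norm_num
        rw [le_div_iff₀ hp]
        calc Real.exp (1 / 20) * (1 - 1 / 20) ≤ Real.exp (1 / 20) * (Real.exp (1 / 20))⁻¹ := by gcongr
          _ = 1 := mul_inv_cancel₀ (Real.exp_pos _).ne'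
      have h5 : (1:ℝ) / (1 - 1 / 20) ≤ 1 + 1 / 10 := by norm_num
      linarith
    have h2 : 8 + ν ≤ 8 + 1 / 100 := by linarith
    have h3 : 0 ≤ Real.exp (4 * ν) * Real.exp (δ / 4) := by positivity
    calc Real.exp (4 * ν) * (8 + ν) * Real.exp (δ / 4) = (Real.exp (4 * ν) * Real.exp (δ / 4)) * (8 + ν) := by ring
      _ ≤ (1 + 1 / 10) * (8 + 1 / 100) := by gcongr
      _ ≤ 10 := by norm_num
  refine ⟨Kp, lam, ⟨_, AN_exp hwAN⟩, ⟨_, TN_exp hw4⟩, hlam4, hlam0, fun z _ => hlamnorm z, ?_, ?_, ?_, ?_, ?_⟩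
  · rw [hlamreal, ct_one hβ (by simp; positivity)]; simp
  · exact TN_mono (TN_mul hsgK (TN_conj hlam0')) hfinal
  · intro z hz
    rw [hKpnorm z hz]
    apply Real.exp_le_one_iff.2
    have := mul_nonneg (ct_nonneg β z) (hgre z hz.le)
    linarith
  · simp only [hKp]
    have hwim : (w 1).im = 0 := by
      simp [hw, hc1, hg1]
    have : w 1 = (((w 1).re : ℝ) : ℂ) := by
      apply Complex.ext <;> simp [hwim]
    rw [this, ← Complex.ofReal_exp, Complex.ofReal_im]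
  · intro z hz hzβ
    have hct := ct_zero hβ hzβ
    have h1 : ‖Kp z‖ = 1 := by rw [hKpnorm z hz, hct]; simp
    refine ⟨h1, ?_⟩
    rw [hlamreal, hct]
    simp only [hKp]
    congr 1
    have hre := hwre z hz
    rw [hct] at hre
    apply Complex.ext
    · simp [hre]
    · simp

end VG
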