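import Pool.Agent.Helper859.VG.Blk4

set_option autoImplicit false
open Finset Filter Topology

namespace VG

/-- the conclusion of `block_exists` for given constants -/
def BlkC (C μ a : ℝ) : Prop := ∀ a' : ℝ, 0 < a' → a' ≤ a / 2 →
    ∀ (B : ℂ → ℂ) (cB : ℝ), AN cB B → (∀ z : ℂ, ‖z‖ = 1 → ‖B z‖ = 1) → ∀ tol : ℝ, 0 < tol →
    ∃ U t B' : ℂ → ℂ, (∃ c, TN 0 c U) ∧ (∀ z : ℂ, ‖z‖ = 1 → ‖U z‖ = 1) ∧ U 1 = 1 ∧
      (∀ (N : ℕ) [NeZero N], IM.MB C (fun j : ZMod N => U (IM.E j))) ∧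
      (∀ (N : ℕ) [NeZero N], IM.MB μ (fun j : ZMod N => (1 - IM.E j) * (U (IM.E j) - 1))) ∧
      (∀ z : ℂ, ‖z‖ = 1 → ‖(1 - z) * (U z - 1)‖ ≤ μ) ∧ TN 0 tol t ∧ (∃ c, AN c B') ∧
      (∀ z : ℂ, ‖z‖ ≤ 1 → ‖B' z‖ ≤ 1) ∧ (∀ z : ℂ, ‖z‖ = 1 → ‖B' z‖ = 1) ∧
      ∀ z : ℂ, ‖z‖ = 1 → B' z * tau a' z = B z * tau a z * U z * (1 + t z)

/-- state of the recursion -/
structure St where
  B : ℂ → ℂ
  a : ℝ
  μ : ℝ
  l1 : ℕ
  l2 : ℕ
  Q1 : ℂ → ℂ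
  Q2 : ℂ → ℂ

structure Inv (C ε₀ : ℝ) (J : ℕ) (s : St) : Prop where
  an : ∃ c, AN c s.B
  le_one : ∀ z : ℂ, ‖z‖ ≤ 1 → ‖s.B z‖ ≤ 1
  unim : ∀ z : ℂ, ‖z‖ = 1 → ‖s.B z‖ = 1
  a0 : 0 < s.a
  aJ : s.a ≤ (1 / 2) ^ J
  μ0 : 0 < s.μ
  μJ : s.μ ≤ (1 / 2) ^ J
  blk : BlkC C s.μ s.a
  l1 : 0 < s.l1
  l2 : 0 < s.l2
  q1 : ∃ c, TN 0 c s.Q1
  q11 : s.Q1 1 = 1
  q2 : ∃ c, TN 0 c s.Q2
  q21 : s.Q2 1 = 1
  lμ : 4 * (s.l1 : ℝ) * s.μ ≤ ε₀ / 6 * (1 / 2) ^ J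
  glue : ∀ (u : ℂ → ℂ) (N : ℕ) [NeZero N], IM.MB C (fun i : ZMod N => u (IM.E i)) →
      IM.MB s.μ (fun i : ZMod N => (1 - IM.E i) * (u (IM.E i) - 1)) →
      IM.MB (ε₀ / 6 * (1 / 2) ^ J) (fun i : ZMod N => (s.Q1 (IM.E i) - 1) * (u (IM.E i) - 1))

/-- data produced by one step -/
structure Dat where
  U : ℂ → ℂ
  t : ℂ → ℂ
  κ : ℤ → ℂ

structure StepRel (C ε₀ : ℝ) (J : ℕ) (s : St) (d : Dat) (s' : St) : Prop where
  unim : ∀ z : ℂ, ‖z‖ = 1 → ‖d.U z‖ = 1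
  mb : ∀ (N : ℕ) [NeZero N], IM.MB C (fun j : ZMod N => d.U (IM.E j))
  mbs : ∀ (N : ℕ) [NeZero N], IM.MB s.μ (fun j : ZMod N => (1 - IM.E j) * (d.U (IM.E j) - 1))
  near : ∀ z : ℂ, ‖z‖ = 1 → ‖(1 - z) * (d.U z - 1)‖ ≤ s.μ
  tol : TN 0 ((1 / 2) ^ J) d.t
  rel : ∀ z : ℂ, ‖z‖ = 1 → s'.B z * tau s'.a z = s.B z * tau s.a z * d.U z * (1 + d.t z)
  ha : s'.a ≤ s.a / 2
  κs : Summable fun n => ‖d.κ n‖
  κ0 : ∑' n, d.κ n = 0
  κe : ∀ (N : ℕ) [NeZero N] (j : ZMod N), IM.psym2 N d.κ j = d.U (IM.E j) - 1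
  κη : IM.eta2 s'.l2 d.κ ≤ ε₀ / 6 * (1 / 2) ^ J
  ldvd : s.l1 ∣ s'.l2
  l1' : s'.l1 = s.l2
  q1' : s'.Q1 = s.Q2
  q2' : s'.Q2 = fun z => s.Q1 z * d.U z

lemma blk0 (C : ℝ) (hblk : ∀ μ : ℝ, 0 < μ → ∃ a0 : ℝ, 0 < a0 ∧ ∀ a a' : ℝ, 0 < a' → a' ≤ a / 2 → a ≤ a0 →
    ∀ (B : ℂ → ℂ) (cB : ℝ), AN cB B → (∀ z : ℂ, ‖z‖ = 1 → ‖B z‖ = 1) → ∀ tol : ℝ, 0 < tol →
    ∃ U t B' : ℂ → ℂ, (∃ c, TN 0 c U) ∧ (∀ z : ℂ, ‖z‖ = 1 → ‖U z‖ = 1) ∧ U 1 = 1 ∧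
      (∀ (N : ℕ) [NeZero N], IM.MB C (fun j : ZMod N => U (IM.E j))) ∧
      (∀ (N : ℕ) [NeZero N], IM.MB μ (fun j : ZMod N => (1 - IM.E j) * (U (IM.E j) - 1))) ∧
      (∀ z : ℂ, ‖z‖ = 1 → ‖(1 - z) * (U z - 1)‖ ≤ μ) ∧ TN 0 tol t ∧ (∃ c, AN c B') ∧
      (∀ z : ℂ, ‖z‖ ≤ 1 → ‖B' z‖ ≤ 1) ∧ (∀ z : ℂ, ‖z‖ = 1 → ‖B' z‖ = 1) ∧
      ∀ z : ℂ, ‖z‖ = 1 → B' z * tau a' z = B z * tau a z * U z * (1 + t z)) :
    ∀ μ : ℝ, 0 < μ → ∃ a0 : ℝ, 0 < a0 ∧ ∀ a : ℝ, a ≤ a0 → BlkC C μ a := by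
  intro μ hμ
  obtain ⟨a0, h0, h⟩ := hblk μ hμ
  exact ⟨a0, h0, fun a ha a' ha' haa => h a a' ha' haa ha⟩

theorem step_exists (C ε₀ : ℝ) (hC : 1 ≤ C) (hε : 0 < ε₀)
    (hblk : ∀ μ : ℝ, 0 < μ → ∃ a0 : ℝ, 0 < a0 ∧ ∀ a : ℝ, a ≤ a0 → BlkC C μ a)
    (J : ℕ) (s : St) (hs : Inv C ε₀ J s) : ∃ (d : Dat) (s' : St), Inv C ε₀ (J + 1) s' ∧ StepRel C ε₀ J s d s' := by
  set e : ℕ → ℝ := fun j => ε₀ / 6 * (1 / 2) ^ j with he
  have hepos : ∀ j, 0 < e j := fun j => by simp only [he]; positivity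
  obtain ⟨c2, hc2⟩ := hs.q2
  obtain ⟨μ0, hμ0, hμ0'⟩ := lemS2 hC hc2 hs.q21 (hepos (J + 1))
  have hl2 : (0 : ℝ) < s.l2 := by exact_mod_cast hs.l2
  set μ' : ℝ := min μ0 (min ((1 / 2) ^ (J + 1)) (e (J + 1) / (4 * s.l2))) with hμ'
  have hej := hepos (J + 1)
  have hμpos : 0 < μ' := by rw [hμ']; positivity
  obtain ⟨a0, ha0, ha0'⟩ := hblk μ' hμpos
  set a' : ℝ := min (s.a / 2) a0 with ha'
  have hsa := hs.a0
  have ha'pos : 0 < a' := by rw [ha']; positivity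
  have ha'le : a' ≤ s.a / 2 := min_le_left _ _
  obtain ⟨cB, hcB⟩ := hs.an
  obtain ⟨U, t, B', ⟨cU, hcU⟩, hU1, hU11, hUmb, hUmbs, hUnear, ht, hB'an, hB'le, hB'u, hrel⟩ :=
    hs.blk a' ha'pos ha'le s.B cB hcB hs.unim ((1 / 2) ^ J) (by positivity)
  obtain ⟨κ, hκs, hκ0, hκe⟩ := exists_kernel hcU hU11
  obtain ⟨ℓ0, hℓ0⟩ := eta2_small hκs (hepos J)
  obtain ⟨c1, hc1⟩ := hs.q1
  refine ⟨⟨U, t, κ⟩, ⟨B', a', μ', s.l2, s.l1 * (ℓ0 + 1), s.Q2, fun z => s.Q1 z * U z⟩, ?_, ?_⟩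
  · constructor
    · exact hB'an
    · exact hB'le
    · exact hB'u
    · exact ha'pos
    · have := hs.aJ
      show a' ≤ (1 / 2) ^ (J + 1)
      rw [pow_succ]
      linarith
    · exact hμpos
    · exact (min_le_right _ _).trans (min_le_left _ _)
    · exact ha0' a' (min_le_right _ _)
    · exact hs.l2
    · have := hs.l1; positivity
    · exact ⟨c2, hc2⟩
    · exact hs.q21
    · exact ⟨_, TN_mul hc1 hcU⟩
    · show s.Q1 1 * U 1 = 1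
      rw [hs.q11, hU11, one_mul]
    · have h1 : μ' ≤ e (J + 1) / (4 * s.l2) := (min_le_right _ _).trans (min_le_right _ _)
      rw [le_div_iff₀ (by positivity)] at h1
      show 4 * (s.l2 : ℝ) * μ' ≤ e (J + 1)
      linarith
    · exact hμ0' μ' hμpos (min_le_left _ _)
  · constructor
    · exact hU1
    · exact hUmb
    · exact hUmbs
    · exact hUnear
    · exact ht
    · exact hrel
    · exact ha'le
    · exact hκs
    · exact hκ0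
    · exact hκe
    · apply hℓ0
      have := hs.l1
      calc ℓ0 ≤ 1 * (ℓ0 + 1) := by omega
        _ ≤ s.l1 * (ℓ0 + 1) := Nat.mul_le_mul_right _ hs.l1
    · exact Dvd.intro _ rfl
    · rfl
    · rfl
    · rfl

theorem init_exists (C ε₀ : ℝ) (hε : 0 < ε₀)
    (hblk : ∀ μ : ℝ, 0 < μ → ∃ a0 : ℝ, 0 < a0 ∧ ∀ a : ℝ, a ≤ a0 → BlkC C μ a) :
    ∃ s : St, Inv C ε₀ 0 s ∧ s.l1 = 1 ∧ s.l2 = 1 ∧ s.Q1 = (fun _ => 1) ∧ s.Q2 = (fun _ => 1) ∧ s.B = (fun _ => 1) := by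
  have hT : TN 0 ‖(1 : ℂ)‖ (fun _ => (1 : ℂ)) := TN_const 0 1
  set μ : ℝ := min 1 (ε₀ / 24) with hμ
  have hμ0 : 0 < μ := by positivity
  obtain ⟨a0, ha0, ha0'⟩ := hblk μ hμ0
  refine ⟨⟨fun _ => 1, min a0 1, μ, 1, 1, fun _ => 1, fun _ => 1⟩, ?_, rfl, rfl, rfl, rfl, rfl⟩
  constructor
  · exact ⟨_, W702.AN_const 1⟩
  · intro z _; simp
  · intro z _; simp
  · show 0 < min a0 1
    positivity
  · show min a0 1 ≤ (1 / 2) ^ 0
    simp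
  · exact hμ0
  · show μ ≤ (1 / 2) ^ 0
    rw [pow_zero]; exact min_le_left _ _
  · exact ha0' _ (min_le_left _ _)
  · exact one_pos
  · exact one_pos
  · exact ⟨_, hT⟩
  · rfl
  · exact ⟨_, hT⟩
  · rfl
  · show 4 * ((1 : ℕ) : ℝ) * μ ≤ ε₀ / 6 * (1 / 2) ^ 0
    have : μ ≤ ε₀ / 24 := min_le_right _ _
    rw [pow_zero]; push_cast; linarith
  · intro u N _ hu _
    have h0 : IM.MB (0 : ℝ) (fun _ : ZMod N => (0 : ℂ)) := by simpa using IM.MB.const (N := N) 0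
    refine (h0.mono (by positivity)).congr fun j => ?_
    simp

/-- the sequence of states -/
theorem rec_states (C ε₀ : ℝ) (hC : 1 ≤ C) (hε : 0 < ε₀)
    (hblk : ∀ μ : ℝ, 0 < μ → ∃ a0 : ℝ, 0 < a0 ∧ ∀ a : ℝ, a ≤ a0 → BlkC C μ a) :
    ∃ (S : ℕ → St) (D : ℕ → Dat), (∀ J, Inv C ε₀ J (S J)) ∧ (∀ J, StepRel C ε₀ J (S J) (D J) (S (J + 1))) ∧
      (S 0).l1 = 1 ∧ (S 0).l2 = 1 ∧ (S 0).Q1 = (fun _ => 1) ∧ (S 0).Q2 = (fun _ => 1) ∧ (S 0).B = (fun _ => 1) := by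
  obtain ⟨s0, h0, h1, h2, h3, h4, h5⟩ := init_exists C ε₀ hε hblk
  have hstep := step_exists C ε₀ hC hε hblk
  choose D N hN hD using hstep
  let S : (n : ℕ) → {s : St // Inv C ε₀ n s} := fun n =>
    Nat.rec (motive := fun n => {s : St // Inv C ε₀ n s}) ⟨s0, h0⟩ (fun j s => ⟨N j s.1 s.2, hN j s.1 s.2⟩) n
  refine ⟨fun n => (S n).1, fun n => D n (S n).1 (S n).2, fun n => (S n).2, fun n => ?_, h1, h2, h3, h4, h5⟩
  exact hD n (S n).1 (S n).2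

/-- gluing one parity class -/
theorem parity_bound (C K ε₀ : ℝ) (hε : 0 < ε₀)
    (hglue : ∀ (N : ℕ) [NeZero N] (J : ℕ) (κ : ℕ → ℤ → ℂ) (ℓ : ℕ → ℕ) (δ ε : ℕ → ℝ),
      ℓ 0 = 1 → (∀ j < J, ℓ j ∣ ℓ (j + 1)) → ℓ J ∣ N →
      (∀ j < J, Summable fun m => ‖κ j m‖) → (∀ j < J, ∑' m, κ j m = 0) →
      (∀ j < J, ∀ i : ZMod N, ‖1 + IM.psym2 N (κ j) i‖ ≤ 1) →
      (∀ j < J, IM.MB C (fun i : ZMod N => 1 + IM.psym2 N (κ j) i)) →
      (∀ j < J, IM.MB (δ j) (fun i : ZMod N => (1 - IM.E i) * IM.psym2 N (κ j) i)) →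
      (∀ j < J, IM.MB (ε j) (fun i : ZMod N => (∏ i' ∈ range j, (1 + IM.psym2 N (κ i') i) - 1) * IM.psym2 N (κ j) i)) →
      (∑ j ∈ range J, (ε j + 4 * ℓ j * δ j + IM.eta2 (ℓ (j + 1)) (κ j)) ≤ ε₀) →
      (∀ j < J, 0 ≤ ε j) → (∀ j < J, 0 ≤ δ j) →
      IM.MB K (fun i : ZMod N => ∏ j ∈ range J, (1 + IM.psym2 N (κ j) i)))
    (S : ℕ → St) (D : ℕ → Dat) (hS : ∀ J, Inv C ε₀ J (S J)) (hD : ∀ J, StepRel C ε₀ J (S J) (D J) (S (J + 1)))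
    (r : ℕ) (hr1 : (S r).l1 = 1) (hrQ : (S r).Q1 = (fun _ => 1)) (m N : ℕ) [NeZero N] (hN : (S (2 * m + r)).l1 ∣ N) :
    IM.MB K (fun i : ZMod N => ∏ j ∈ range m, (D (2 * j + r)).U (IM.E i)) := by
  have hQ : ∀ (j : ℕ), (S (2 * j + r)).Q1 = fun z => ∏ i ∈ range j, (D (2 * i + r)).U z := by
    intro j
    induction j with
    | zero => rw [Nat.mul_zero, Nat.zero_add, hrQ]; funext z; simp
    | succ j ih =>
      have e1 : 2 * (j + 1) + r = (2 * j + r + 1) + 1 := by ring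
      rw [e1, (hD (2 * j + r + 1)).q1', (hD (2 * j + r)).q2', ih]
      funext z
      rw [Finset.prod_range_succ]
  have hpos : ∀ j, 0 < ε₀ / 6 * (1 / 2 : ℝ) ^ j := fun j => by positivity
  have key := hglue N m (fun j => (D (2 * j + r)).κ) (fun j => (S (2 * j + r)).l1) (fun j => (S (2 * j + r)).μ)
    (fun j => ε₀ / 6 * (1 / 2) ^ (2 * j + r)) ?_ ?_ hN (fun j _ => (hD _).κs) (fun j _ => (hD _).κ0) ?_ ?_ ?_ ?_ ?_
    (fun j _ => (hpos _).le) (fun j _ => (hS _).μ0.le)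
  · refine key.congr fun i => ?_
    apply Finset.prod_congr rfl
    intro j _
    rw [(hD _).κe]; ring
  · show (S (2 * 0 + r)).l1 = 1
    rw [Nat.mul_zero, Nat.zero_add, hr1]
  · intro j _
    show (S (2 * j + r)).l1 ∣ (S (2 * (j + 1) + r)).l1
    have e1 : 2 * (j + 1) + r = (2 * j + r + 1) + 1 := by ring
    rw [e1, (hD (2 * j + r + 1)).l1']
    exact (hD (2 * j + r)).ldvd
  · intro j _ i
    show ‖1 + IM.psym2 N (D (2 * j + r)).κ i‖ ≤ 1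
    rw [(hD _).κe]
    have : 1 + ((D (2 * j + r)).U (IM.E i) - 1) = (D (2 * j + r)).U (IM.E i) := by ring
    rw [this, (hD _).unim _ (IM.E_norm i)]
  · intro j _
    refine ((hD (2 * j + r)).mb N).congr fun i => ?_
    show (D (2 * j + r)).U (IM.E i) = 1 + IM.psym2 N (D (2 * j + r)).κ i
    rw [(hD _).κe]; ring
  · intro j _
    refine ((hD (2 * j + r)).mbs N).congr fun i => ?_
    show _ = (1 - IM.E i) * IM.psym2 N (D (2 * j + r)).κ i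
    rw [(hD _).κe]
  · intro j _
    refine ((hS (2 * j + r)).glue (D (2 * j + r)).U N ((hD _).mb N) ((hD _).mbs N)).congr fun i => ?_
    show _ = (∏ i' ∈ range j, (1 + IM.psym2 N (D (2 * i' + r)).κ i) - 1) * IM.psym2 N (D (2 * j + r)).κ i
    rw [(hD _).κe, hQ]
    congr 2
    apply Finset.prod_congr rfl
    intro i' _
    rw [(hD _).κe]; ring
  · have h1 : ∀ j ∈ range m, ε₀ / 6 * (1 / 2 : ℝ) ^ (2 * j + r) + 4 * ((S (2 * j + r)).l1 : ℝ) * (S (2 * j + r)).μ +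
        IM.eta2 (S (2 * (j + 1) + r)).l1 (D (2 * j + r)).κ ≤ 3 * (ε₀ / 6 * (1 / 2 : ℝ) ^ j) := by
      intro j _
      have a1 := (hS (2 * j + r)).lμ
      have a2 := (hD (2 * j + r)).κη
      have e1 : 2 * (j + 1) + r = (2 * j + r + 1) + 1 := by ring
      rw [e1, (hD (2 * j + r + 1)).l1']
      have a3 : ε₀ / 6 * (1 / 2 : ℝ) ^ (2 * j + r) ≤ ε₀ / 6 * (1 / 2 : ℝ) ^ j := by
        apply mul_le_mul_of_nonneg_left _ (by positivity)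
        exact pow_le_pow_of_le_one (by norm_num) (by norm_num) (by omega)
      linarith
    calc _ ≤ ∑ j ∈ range m, 3 * (ε₀ / 6 * (1 / 2 : ℝ) ^ j) := Finset.sum_le_sum h1
      _ = ε₀ / 2 * ∑ j ∈ range m, (1 / 2 : ℝ) ^ j := by
          rw [Finset.mul_sum]; apply Finset.sum_congr rfl; intro j _; ring
      _ ≤ ε₀ / 2 * 2 := by
          gcongr
          calc _ ≤ ∑' j : ℕ, (1 / 2 : ℝ) ^ j := summable_geometric_two.sum_le_tsum _ (fun _ _ => by positivity)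
            _ = 2 := tsum_geometric_two
      _ = ε₀ := by ring

lemma prod_even_odd (f : ℕ → ℂ) (m : ℕ) :
    ∏ i ∈ range (2 * m), f i = (∏ j ∈ range m, f (2 * j + 0)) * ∏ j ∈ range m, f (2 * j + 1) := by
  induction m with
  | zero => simp
  | succ m ih =>
    rw [show 2 * (m + 1) = 2 * m + 1 + 1 by ring, Finset.prod_range_succ, Finset.prod_range_succ, ih,
      Finset.prod_range_succ, Finset.prod_range_succ]
    ring

theorem rec_exists : ∃ (K : ℝ) (B : ℕ → ℂ → ℂ) (a : ℕ → ℝ), 0 ≤ K ∧ (∀ J, ∃ c, AN c (B J)) ∧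
    (∀ J z, ‖z‖ ≤ 1 → ‖B J z‖ ≤ 1) ∧ (∀ J z, ‖z‖ = 1 → ‖B J z‖ = 1) ∧ (∀ J, 0 < a J) ∧ (∀ J, a J ≤ (1 / 2) ^ J) ∧
    (∀ J z, ‖z‖ = 1 → ‖(1 - z) * (B (J + 1) z - B J z)‖ ≤ 5 * (1 / 2) ^ J) ∧
    ∀ m : ℕ, ∃ l : ℕ, 0 < l ∧ ∀ (N : ℕ) [NeZero N], l ∣ N →
      IM.MB K (fun i : ZMod N => B (2 * m) (IM.E i) * tau (a (2 * m)) (IM.E i)) := by
  obtain ⟨C, hC1, hblk'⟩ := block_exists
  have hblk := blk0 C hblk'
  obtain ⟨K, ε₀, hK, hε₀, hglue⟩ := IM.gluing2 C hC1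
  obtain ⟨S, D, hS, hD, h1, h2, h3, h4, h5⟩ := rec_states C ε₀ hC1 hε₀ hblk
  obtain ⟨c0, hc0⟩ := TN_tau (S 0).a (hS 0).a0 0
  have hc00 : 0 ≤ c0 := TN_nonneg hc0
  have hS11 : (S 1).l1 = 1 := by rw [(hD 0).l1', h2]
  have hS1Q : (S 1).Q1 = fun _ => 1 := by rw [(hD 0).q1', h4]
  have hprod : ∀ J z, ‖z‖ = 1 → (S J).B z * tau (S J).a z =
      tau (S 0).a z * ((∏ i ∈ range J, (D i).U z) * ∏ i ∈ range J, (1 + (D i).t z)) := by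
    intro J z hz
    induction J with
    | zero => rw [h5]; simp
    | succ J ih =>
      rw [(hD J).rel z hz, ih, Finset.prod_range_succ, Finset.prod_range_succ]
      ring
  refine ⟨c0 * (K * K * Real.exp 2), fun J => (S J).B, fun J => (S J).a, by positivity, fun J => (hS J).an,
    fun J => (hS J).le_one, fun J => (hS J).unim, fun J => (hS J).a0, fun J => (hS J).aJ, ?_, ?_⟩
  · intro J z hz
    show ‖(1 - z) * ((S (J + 1)).B z - (S J).B z)‖ ≤ 5 * (1 / 2) ^ J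
    have hJ := hS J
    have hd := hD J
    have hp : (0 : ℝ) < (1 / 2) ^ J := by positivity
    by_cases hza : (S J).a ≤ ‖1 - z‖
    · have ha' : (S (J + 1)).a ≤ ‖1 - z‖ := by
        have := hd.ha
        have := hJ.a0
        linarith
      have ht1 : tau (S J).a z = tau (S (J + 1)).a z := by
        unfold tau
        rw [cut_zero hJ.a0 hza, cut_zero (hS (J + 1)).a0 ha']
      have htn : tau (S (J + 1)).a z ≠ 0 := by
        intro h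
        have := norm_tau (S (J + 1)).a hz
        rw [h, norm_zero] at this
        norm_num at this
      have hrel := hd.rel z hz
      rw [ht1] at hrel
      have hB : (S (J + 1)).B z = (S J).B z * (D J).U z * (1 + (D J).t z) := by
        apply mul_right_cancel₀ htn
        rw [hrel]; ring
      have e1 : (1 - z) * ((S (J + 1)).B z - (S J).B z) =
          (S J).B z * ((1 - z) * ((D J).U z - 1)) + (1 - z) * ((S J).B z * (D J).U z * (D J).t z) := by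
        rw [hB]; ring
      have hz2 : ‖1 - z‖ ≤ 2 := by
        calc ‖1 - z‖ ≤ ‖(1 : ℂ)‖ + ‖z‖ := norm_sub_le _ _
          _ = 2 := by rw [hz, norm_one]; norm_num
      have htb : ‖(D J).t z‖ ≤ (1 / 2) ^ J := TN_bound hd.tol hz
      have hUb := hd.unim z hz
      have hnear := hd.near z hz
      have hμJ := hJ.μJ
      rw [e1]
      calc _ ≤ ‖(S J).B z * ((1 - z) * ((D J).U z - 1))‖ + ‖(1 - z) * ((S J).B z * (D J).U z * (D J).t z)‖ :=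
            norm_add_le _ _
        _ = ‖(1 - z) * ((D J).U z - 1)‖ + ‖1 - z‖ * ‖(D J).t z‖ := by
            simp only [norm_mul]
            rw [hJ.unim z hz, hUb, one_mul, one_mul, one_mul]
        _ ≤ (1 / 2) ^ J + 2 * (1 / 2) ^ J := by
            gcongr
            exact hnear.trans hμJ
        _ ≤ 5 * (1 / 2) ^ J := by linarith
    · have hza' : ‖1 - z‖ ≤ (1 / 2) ^ J := (not_le.1 hza).le.trans hJ.aJ
      calc _ = ‖1 - z‖ * ‖(S (J + 1)).B z - (S J).B z‖ := norm_mul _ _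
        _ ≤ (1 / 2) ^ J * (‖(S (J + 1)).B z‖ + ‖(S J).B z‖) := by
            gcongr
            exact norm_sub_le _ _
        _ = (1 / 2) ^ J * 2 := by rw [(hS (J + 1)).unim z hz, hJ.unim z hz]; norm_num
        _ ≤ 5 * (1 / 2) ^ J := by linarith
  · intro m
    refine ⟨(S (2 * m + 0)).l1 * (S (2 * m + 1)).l1, by
      have := (hS (2 * m + 0)).l1; have := (hS (2 * m + 1)).l1; positivity, ?_⟩
    intro N _ hN
    have hN0 : (S (2 * m + 0)).l1 ∣ N := (Dvd.intro _ rfl).trans hN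
    have hN1 : (S (2 * m + 1)).l1 ∣ N := (Dvd.intro_left _ rfl).trans hN
    have b0 := parity_bound C K ε₀ hε₀ hglue S D hS hD 0 h1 h3 m N hN0
    have b1 := parity_bound C K ε₀ hε₀ hglue S D hS hD 1 hS11 hS1Q m N hN1
    have hT : ∀ J : ℕ, IM.MB (Real.exp (∑ j ∈ range J, (1 / 2 : ℝ) ^ j)) (fun i : ZMod N => ∏ j ∈ range J, (1 + (D j).t (IM.E i))) := by
      intro J
      induction J with
      | zero => simpa using IM.MB.one (N := N)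
      | succ J ih =>
        have e2 : IM.MB (1 + (1 / 2 : ℝ) ^ J) (fun i : ZMod N => 1 + (D J).t (IM.E i)) :=
          IM.MB.add IM.MB.one (MB_of_TN (hD J).tol N)
        refine ((IM.MB.mul (Real.exp_pos _).le ih e2).mono ?_).congr fun i => ?_
        · rw [Finset.sum_range_succ, Real.exp_add]
          have h6 : 1 + (1 / 2 : ℝ) ^ J ≤ Real.exp ((1 / 2 : ℝ) ^ J) := by
            have := Real.add_one_le_exp ((1 / 2 : ℝ) ^ J)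
            linarith
          gcongr
        · rw [Finset.prod_range_succ]
    have hT2 : IM.MB (Real.exp 2) (fun i : ZMod N => ∏ j ∈ range (2 * m), (1 + (D j).t (IM.E i))) := by
      refine (hT (2 * m)).mono ?_
      apply Real.exp_le_exp.2
      calc _ ≤ ∑' j : ℕ, (1 / 2 : ℝ) ^ j := summable_geometric_two.sum_le_tsum _ (fun _ _ => by positivity)
        _ = 2 := tsum_geometric_two
    have h7 := IM.MB.mul (by positivity) (IM.MB.mul hK.le b0 b1) hT2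
    have h8 := IM.MB.mul hc00 (MB_of_TN hc0 N) h7
    refine h8.congr fun i => ?_
    show _ = (S (2 * m)).B (IM.E i) * tau (S (2 * m)).a (IM.E i)
    rw [hprod (2 * m) _ (IM.E_norm i), prod_even_odd (fun k => (D k).U (IM.E i)) m]

end VG
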